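import Pool.Agent.Lib.MP_a3a416_nt.SJ.Blocks

/-!
# SJ-SDet
The potentials, rank and merging lemmas for `sdet e M` (rows and columns identified by `e`), and row/column operations.
-/

namespace MP_a3a416_nt.SJ

open Finset

variable {p : ℕ} [hp : Fact p.Prime] {ρ κ : Type*} [Fintype κ] [DecidableEq κ] [Fintype ρ] [DecidableEq ρ]

omit hp [Fintype ρ] [DecidableEq ρ] in
theorem sdet_mul_right (e : κ ≃ ρ) (M : Matrix ρ κ ℚ) (U : Matrix κ κ ℚ) :
    sdet e (M * U) = sdet e M * U.det := by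
  rw [sdet, sdet, ← Matrix.det_mul]
  rfl

omit hp in
theorem sdet_mul_left (e : κ ≃ ρ) (B : Matrix ρ ρ ℚ) (M : Matrix ρ κ ℚ) :
    sdet e (B * M) = B.det * sdet e M := by
  have h : (B * M).submatrix e id = B.submatrix e e * M.submatrix e id := by
    rw [← Matrix.submatrix_mul_equiv B M e e id]
  rw [sdet, h, Matrix.det_mul, Matrix.det_submatrix_equiv_self]
  rfl

theorem val_sdet (e : κ ≃ ρ) (M : Matrix ρ κ ℚ) (a : ρ → ℤ) (b : κ → ℤ)
    (h : ∀ i j, val p (M i j) (a i + b j)) : val p (sdet e M) (∑ i, a i + ∑ j, b j) := by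
  have h1 := val_det (p := p) (M.submatrix e id) (fun k => a (e k)) b (fun i j => h (e i) j)
  rwa [Equiv.sum_comp e a] at h1

theorem val_sdet_blocks {σ : Type*} [Fintype σ] [DecidableEq σ] (e : κ ≃ ρ)
    (M : Matrix ρ κ ℚ) (W : Matrix ρ σ ℚ) (Q : Matrix σ κ ℚ) (a : ρ → ℤ) (b : κ → ℤ) (c d : σ → ℤ)
    (hW : ∀ i k, val p (W i k) (a i + c k)) (hQ : ∀ k j, val p (Q k j) (d k + b j))
    (hcd : ∀ k, c k + d k ≤ 0) (hE : ∀ i j, val p (M i j - (W * Q) i j) (a i + b j)) :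
    val p (sdet e M) (∑ i, a i + ∑ j, b j + (∑ k, c k + ∑ k, d k)) := by
  have h1 := val_det_blocks (p := p) (M.submatrix e id) (W.submatrix e id) Q (fun k => a (e k)) b c d
    (fun i k => hW (e i) k) hQ hcd (fun i j => hE (e i) j)
  rwa [Equiv.sum_comp e a] at h1

theorem val_sdet_of_rank {σ : Type*} [Fintype σ] [DecidableEq σ] (e : κ ≃ ρ)
    (M : Matrix ρ κ ℚ) (W : Matrix ρ σ ℚ) (Q : Matrix σ κ ℚ)
    (hW : ∀ i k, val p (W i k) 0) (hQ : ∀ k j, val p (Q k j) 0)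
    (hE : ∀ i j, val p (M i j - (W * Q) i j) 1) :
    val p (sdet e M) ((Fintype.card κ : ℤ) - (Fintype.card σ : ℤ)) :=
  val_det_of_rank (p := p) (M.submatrix e id) (W.submatrix e id) Q (fun i k => hW (e i) k) hQ
    (fun i j => hE (e i) j)

theorem val_sdet_merge {σ : Type*} [Fintype σ] [DecidableEq σ] (e : κ ≃ ρ)
    (M : Matrix ρ κ ℚ) (Y : Matrix ρ σ ℚ) (q : σ → κ → ℚ) (J : Finset κ) (a : ρ → ℤ) (b : κ → ℤ)
    (d : σ → ℤ) (B : ℤ)
    (hY : ∀ i k, val p (Y i k) (a i + d k)) (hq : ∀ k j, j ∈ J → val p (q k j) 0)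
    (hM : ∀ i, ∀ j ∈ J, M i j = ∑ k, Y i k * q k j)
    (hE : ∀ i, ∀ j ∉ J, val p (M i j) (a i + b j)) :
    val p (sdet e M)
      (∑ i, a i + ∑ j ∈ Jᶜ, b j + (J.card * B + ∑ k ∈ univ.filter (fun k => d k < B), (d k - B))) := by
  have h1 := val_det_merge (p := p) (M.submatrix e id) (Y.submatrix e id) q J (fun k => a (e k)) b d B
    (fun i k => hY (e i) k) hq (fun i j hj => hM (e i) j hj) (fun i j hj => hE (e i) j hj)
  rwa [Equiv.sum_comp e a] at h1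

end MP_a3a416_nt.SJ
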