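import Mathlib

/-!
SMALL-J, module Z5: a matrix with independent columns becomes invertible after adding unit columns.
-/

namespace MP_a3a416_nt.SJ

open Module

/-- A matrix `V` with linearly independent columns can be completed to a square invertible
matrix by adding `c0` different unit columns. -/
theorem exists_unit_columns {I K : Type*} [Fintype I] [DecidableEq I] [Fintype K] {c0 : ℕ}
    (hcard : Fintype.card I = Fintype.card K + c0) (V : Matrix I K ℚ)
    (hV : LinearIndependent ℚ (fun (j : K) (i : I) => V i j)) :
    ∃ r : Fin c0 → I, Function.Injective r ∧ ∀ e : K ⊕ Fin c0 ≃ I,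
      (Matrix.of (fun i j => Sum.elim (fun k => V i k) (fun t => if i = r t then 1 else 0)
        (e.symm j)) : Matrix I I ℚ).det ≠ 0 := by
  classical
  set s : Set (I → ℚ) := Set.range (fun (j : K) (i : I) => V i j) with hs
  set u : Set (I → ℚ) := Set.range (fun i : I => (Pi.single i (1 : ℚ) : I → ℚ)) with hu
  have hsind : LinearIndepOn ℚ id s := hV.linearIndepOn_id
  obtain ⟨b, hbt, hsb, hspan, hbind⟩ :=
    exists_linearIndepOn_id_extension hsind (Set.subset_union_left (t := u))
  have hutop : Submodule.span ℚ u = ⊤ := by
    have := (Pi.basisFun ℚ I).span_eq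
    rw [← this]
    congr 1
    ext v
    simp [hu, Pi.basisFun_apply]
  have hbtop : Submodule.span ℚ b = ⊤ := by
    rw [eq_top_iff, ← hutop, Submodule.span_le]
    exact (Set.subset_union_right).trans hspan
  -- `b` is a basis
  have hbli : LinearIndependent ℚ ((↑) : b → (I → ℚ)) := hbind
  let B : Basis b ℚ (I → ℚ) := Basis.mk hbli (by
    rw [Subtype.range_coe_subtype, Set.ofPred_mem_eq, hbtop])
  have : Finite b := Module.Finite.finite_basis B
  have : Fintype b := Fintype.ofFinite b
  have hcb : Fintype.card b = Fintype.card I := by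
    rw [← finrank_eq_card_basis B, finrank_fintype_fun_eq_card]
  have hbfin : b.Finite := Set.toFinite b
  have hsfin : s.Finite := hbfin.subset hsb
  have hscard : s.ncard = Fintype.card K := by
    have := Set.ncard_image_of_injective (Set.univ : Set K) hV.injective
    rw [Set.image_univ, Set.ncard_univ, Nat.card_eq_fintype_card] at this
    exact this
  have hbcard : b.ncard = Fintype.card I := by
    rw [← hcb, ← Nat.card_eq_fintype_card]
    rfl
  have hdiff : (b \ s).ncard = c0 := by
    rw [Set.ncard_sdiff hsb hsfin, hbcard, hscard, hcard]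
    omega
  have : Fintype ((b \ s : Set (I → ℚ))) := (hbfin.sdiff).fintype
  have hdc : Fintype.card ((b \ s : Set (I → ℚ))) = c0 := by
    rw [← Nat.card_eq_fintype_card]
    exact hdiff
  let eq : Fin c0 ≃ (b \ s : Set (I → ℚ)) := (Fintype.equivFinOfCardEq hdc).symm
  have hex : ∀ t : Fin c0, ∃ i : I, (Pi.single i (1 : ℚ) : I → ℚ) = (eq t : I → ℚ) := by
    intro t
    have h1 : (eq t : I → ℚ) ∈ s ∪ u := hbt (eq t).2.1
    rcases h1 with h1 | h1
    · exact absurd h1 (eq t).2.2
    · exact h1
  choose r hr using hex
  have hrinj : Function.Injective r := by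
    intro t1 t2 h
    apply eq.injective
    apply Subtype.ext
    rw [← hr t1, ← hr t2, h]
  refine ⟨r, hrinj, fun e => ?_⟩
  -- the columns are linearly independent
  have hli : LinearIndependent ℚ (Sum.elim (fun (j : K) (i : I) => V i j)
      (fun t : Fin c0 => (Pi.single (r t) (1 : ℚ) : I → ℚ))) := by
    have hf : ∀ x : K ⊕ Fin c0, (Sum.elim (fun (j : K) (i : I) => V i j)
      (fun t : Fin c0 => (Pi.single (r t) (1 : ℚ) : I → ℚ))) x ∈ b := by
      rintro (j | t)
      · exact hsb ⟨j, rfl⟩
      · simp only [Sum.elim_inr]
        rw [hr t]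
        exact (eq t).2.1
    let g : K ⊕ Fin c0 → b := fun x => ⟨_, hf x⟩
    have hg : Function.Injective g := by
      rintro (j1 | t1) (j2 | t2) h
      · have := congrArg Subtype.val h
        simp only [g, Sum.elim_inl] at this
        rw [hV.injective this]
      · exfalso
        have := congrArg Subtype.val h
        simp only [g, Sum.elim_inl, Sum.elim_inr] at this
        apply (eq t2).2.2
        rw [← hr t2, ← this]
        exact ⟨j1, rfl⟩
      · exfalso
        have := congrArg Subtype.val h
        simp only [g, Sum.elim_inl, Sum.elim_inr] at this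
        apply (eq t1).2.2
        rw [← hr t1, this]
        exact ⟨j2, rfl⟩
      · have := congrArg Subtype.val h
        simp only [g, Sum.elim_inr] at this
        have h2 : eq t1 = eq t2 := Subtype.ext (by rw [← hr t1, ← hr t2, this])
        rw [eq.injective h2]
    exact hbli.comp g hg
  have hli2 := hli.comp e.symm e.symm.injective
  set M : Matrix I I ℚ := Matrix.of (fun i j => Sum.elim (fun k => V i k)
    (fun t => if i = r t then 1 else 0) (e.symm j)) with hM
  have hcols : LinearIndependent ℚ M.col := by
    have : M.col = (Sum.elim (fun (j : K) (i : I) => V i j)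
      (fun t : Fin c0 => (Pi.single (r t) (1 : ℚ) : I → ℚ))) ∘ e.symm := by
      funext j i
      simp only [Matrix.col_apply, hM, Matrix.of_apply, Function.comp]
      rcases e.symm j with k | t
      · rfl
      · simp [Pi.single_apply]
    rw [this]
    exact hli2
  have hunit : IsUnit M := Matrix.linearIndependent_cols_iff_isUnit.mp hcols
  rw [Matrix.isUnit_iff_isUnit_det] at hunit
  exact hunit.ne_zero

end MP_a3a416_nt.SJ
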