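import Mathlib

/-!
# SJ-PF
Product formula for a rational number, as an inequality.
-/

namespace MP_a3a416_nt.SJ

open Finset

theorem log_nat_eq_sum (n : ℕ) (T : Finset ℕ) (hP : ∀ p ∈ T, p.Prime) (hT : n.primeFactors ⊆ T) :
    Real.log n = ∑ p ∈ T, (padicValNat p n : ℝ) * Real.log p := by
  by_cases hn : n = 0
  · subst hn; simp
  have h0 : Real.log n = ∑ p ∈ n.primeFactors, (n.factorization p : ℝ) * Real.log p := by
    rw [Real.log_nat_eq_sum_factorization, Finsupp.sum, Nat.support_factorization]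
  rw [h0]
  have h1 : ∀ p ∈ n.primeFactors, (n.factorization p : ℝ) * Real.log p = (padicValNat p n : ℝ) * Real.log p := by
    intro p hp
    rw [Nat.factorization_def n (Nat.prime_of_mem_primeFactors hp)]
  rw [sum_congr rfl h1]
  apply sum_subset hT
  intro p hpT hp
  have : padicValNat p n = 0 := by
    apply padicValNat.eq_zero_of_not_dvd
    intro hd
    exact hp (Nat.mem_primeFactors.2 ⟨hP p hpT, hd, hn⟩)
  rw [this]; simp

/-- product formula for a non-zero rational number -/
theorem log_abs_eq_sum (D : ℚ) (hD : D ≠ 0) (T : Finset ℕ) (hP : ∀ p ∈ T, p.Prime)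
    (hn : D.num.natAbs.primeFactors ⊆ T) (hd : D.den.primeFactors ⊆ T) :
    Real.log |(D : ℝ)| = ∑ p ∈ T, (padicValRat p D : ℝ) * Real.log p := by
  have h1 : |(D : ℝ)| = (D.num.natAbs : ℝ) / (D.den : ℝ) := by
    rw [Rat.cast_def, abs_div, Nat.abs_cast]
    congr 1
    rw [Nat.cast_natAbs]
    push_cast
    rfl
  have hnum : D.num.natAbs ≠ 0 := by
    rw [Int.natAbs_ne_zero]; exact Rat.num_ne_zero.2 hD
  rw [h1, Real.log_div (by exact_mod_cast hnum) (by exact_mod_cast D.den_nz), log_nat_eq_sum _ T hP hn,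
    log_nat_eq_sum _ T hP hd, ← sum_sub_distrib]
  apply sum_congr rfl
  intro p _
  rw [← sub_mul]
  congr 1
  rw [padicValRat, padicValInt, Int.cast_sub, Int.cast_natCast, Int.cast_natCast]

/-- PF: lower bounds for the valuations give a lower bound for `log |D|`. -/
theorem pf (D : ℚ) (hD : D ≠ 0) (S : Finset ℕ) (hS : ∀ p ∈ S, p.Prime) (f : ℕ → ℝ)
    (h : ∀ p ∈ S, f p ≤ (padicValRat p D : ℝ)) (h0 : ∀ p, p.Prime → p ∉ S → 0 ≤ padicValRat p D) :
    ∑ p ∈ S, f p * Real.log p ≤ Real.log |(D : ℝ)| := by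
  classical
  set T := S ∪ D.num.natAbs.primeFactors ∪ D.den.primeFactors with hT
  have hTP : ∀ p ∈ T, p.Prime := by
    intro p hp
    rw [hT, mem_union, mem_union] at hp
    rcases hp with (hp | hp) | hp
    · exact hS p hp
    · exact Nat.prime_of_mem_primeFactors hp
    · exact Nat.prime_of_mem_primeFactors hp
  rw [log_abs_eq_sum D hD T hTP (fun p hp => by simp [hT, hp]) (fun p hp => by simp [hT, hp])]
  have hST : S ⊆ T := fun p hp => by simp [hT, hp]
  rw [← sum_sdiff hST]
  have h2 : 0 ≤ ∑ p ∈ T \ S, (padicValRat p D : ℝ) * Real.log p := by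
    apply sum_nonneg
    intro p hp
    rw [mem_sdiff] at hp
    have h3 := h0 p (hTP p hp.1) hp.2
    have h4 : (0 : ℝ) ≤ (padicValRat p D : ℝ) := by exact_mod_cast h3
    exact mul_nonneg h4 (Real.log_nonneg (by exact_mod_cast (hTP p hp.1).one_lt.le))
  have h5 : ∑ p ∈ S, f p * Real.log p ≤ ∑ p ∈ S, (padicValRat p D : ℝ) * Real.log p := by
    apply sum_le_sum
    intro p hp
    exact mul_le_mul_of_nonneg_right (h p hp) (Real.log_nonneg (by exact_mod_cast (hS p hp).one_lt.le))
  linarith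

end MP_a3a416_nt.SJ
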