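import Pool.Agent.Lib.MP_a3a416_nt.SJ.FDefs

/-! # SJ-FAsy: calculus of the asymptotic expansions `a m^2 log m + b m^2 + o(m^2)` -/

set_option autoImplicit false

namespace MP_a3a416_nt.SJ

open Finset Filter Asymptotics

theorem Asy.add {f g : ℕ → ℝ} {a b c d : ℝ} (hf : Asy f a b) (hg : Asy g c d) :
    Asy (fun m => f m + g m) (a + c) (b + d) := by
  unfold Asy at *
  refine (hf.add hg).congr_left fun m => ?_
  ring

theorem Asy.const_mul {f : ℕ → ℝ} {a b : ℝ} (c : ℝ) (hf : Asy f a b) :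
    Asy (fun m => c * f m) (c * a) (c * b) := by
  unfold Asy at *
  refine (hf.const_mul_left c).congr_left fun m => ?_
  ring

theorem Asy.neg {f : ℕ → ℝ} {a b : ℝ} (hf : Asy f a b) :
    Asy (fun m => - f m) (-a) (-b) := by
  unfold Asy at *
  refine hf.neg_left.congr_left fun m => ?_
  ring

theorem Asy.sub {f g : ℕ → ℝ} {a b c d : ℝ} (hf : Asy f a b) (hg : Asy g c d) :
    Asy (fun m => f m - g m) (a - c) (b - d) := by
  unfold Asy at *
  refine (hf.sub hg).congr_left fun m => ?_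
  ring

theorem Asy.of_isLittleO {f : ℕ → ℝ} (hf : f =o[atTop] (fun m : ℕ => (m : ℝ) ^ 2)) :
    Asy f 0 0 := by
  unfold Asy
  refine hf.congr_left fun m => ?_
  ring

theorem Asy.congr {f g : ℕ → ℝ} {a b : ℝ} (hf : Asy f a b) (h : ∀ᶠ m in atTop, f m = g m) :
    Asy g a b := by
  unfold Asy at *
  refine hf.congr' ?_ (EventuallyEq.refl _ _)
  filter_upwards [h] with m hm
  rw [hm]

theorem Asy.cast {f : ℕ → ℝ} {a b a' b' : ℝ} (hf : Asy f a b) (ha : a = a') (hb : b = b') :
    Asy f a' b' := by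
  subst ha hb
  exact hf

/-- a function with zero `log` coefficient is eventually larger than `c m^2` for every `c < b` -/
theorem Asy.eventually_ge {f : ℕ → ℝ} {b c : ℝ} (hf : Asy f 0 b) (hc : c < b) :
    ∀ᶠ m : ℕ in atTop, c * (m : ℝ) ^ 2 ≤ f m := by
  unfold Asy at hf
  have h := hf.bound (show (0 : ℝ) < b - c by linarith)
  filter_upwards [h] with m hm
  rw [Real.norm_eq_abs, Real.norm_eq_abs, abs_of_nonneg (by positivity : (0 : ℝ) ≤ (m : ℝ) ^ 2)] at hm
  have := (abs_le.mp hm).1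
  nlinarith

end MP_a3a416_nt.SJ
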