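import Pool.Agent.Lib.MP_a3a416_nt.SJ.FP1
import Pool.Agent.Lib.MP_a3a416_nt.SJ.FAsy

/-! # SJ-FPS: sums over primes in `(a m, b m]` with linear weights
PROOF. `sum_{prs (floor am) (floor bm)} log p = theta(b m) - theta(a m)` (`Chebyshev.theta_eq_sum_Icc`, `theta_eq_theta_coe_floor`) and
`sum p log p = P1(bm) - P1(am)`, `P1(x) = sum_{p in prs 0 (floor x)} p log p`. `theta(c m)/m -> c`, `P1(c m)/m^2 -> c^2/2`
for every real `c >= 0` (`theta_asy`, `P1_asy` along `x = c m`; `c = 0` separately: the sums are 0). So the sum divided by `m^2` tends to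
`alpha (b-a) + beta (b^2-a^2)/2`; `Asy` with `a = 0` is `isLittleO_iff_tendsto'`. -/

set_option autoImplicit false

namespace MP_a3a416_nt.SJ

open Finset Filter

private lemma sum_prs_sub (f : ℕ → ℝ) (x y : ℕ) (h : x ≤ y) :
    ∑ p ∈ prs x y, f p = ∑ p ∈ prs 0 y, f p - ∑ p ∈ prs 0 x, f p := by
  have h1 : prs 0 y = prs 0 x ∪ prs x y := by
    unfold prs
    rw [← Finset.filter_union, Finset.Ioc_union_Ioc_eq_Ioc (Nat.zero_le _) h]
  have h2 : Disjoint (prs 0 x) (prs x y) := by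
    rw [Finset.disjoint_left]
    intro p hp hp'
    rw [prs, mem_filter, mem_Ioc] at hp hp'
    omega
  rw [h1, Finset.sum_union h2]
  ring

private lemma theta_eq (x : ℝ) : Chebyshev.theta x = ∑ p ∈ prs 0 ⌊x⌋₊, Real.log p := by
  rw [Chebyshev.theta_eq_sum_Icc]
  unfold prs
  congr 1

private lemma tend_mul (c : ℝ) (hc : 0 < c) :
    Tendsto (fun m : ℕ => c * (m : ℝ)) atTop atTop :=
  Tendsto.const_mul_atTop hc tendsto_natCast_atTop_atTop

private lemma th_lim (c : ℝ) (hc : 0 ≤ c) :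
    Tendsto (fun m : ℕ => (∑ p ∈ prs 0 ⌊c * m⌋₊, Real.log p) / m) atTop (nhds c) := by
  rcases hc.eq_or_lt with rfl | hc
  · simp [prs]
  · have h := (theta_asy.comp (tend_mul c hc)).const_mul c
    rw [mul_one] at h
    refine h.congr' ?_
    filter_upwards [eventually_gt_atTop 0] with m hm
    have hm' : (0 : ℝ) < m := by exact_mod_cast hm
    simp only [Function.comp]
    rw [theta_eq]
    field_simp

private lemma p1_lim (c : ℝ) (hc : 0 ≤ c) :
    Tendsto (fun m : ℕ => (∑ p ∈ prs 0 ⌊c * m⌋₊, (p : ℝ) * Real.log p) / (m : ℝ) ^ 2) atTop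
      (nhds (c ^ 2 / 2)) := by
  rcases hc.eq_or_lt with rfl | hc
  · simp [prs]
  · have h := (P1_asy.comp (tend_mul c hc)).const_mul (c ^ 2)
    have e : c ^ 2 * (1 / 2) = c ^ 2 / 2 := by ring
    rw [e] at h
    refine h.congr' ?_
    filter_upwards [eventually_gt_atTop 0] with m hm
    have hm' : (0 : ℝ) < m := by exact_mod_cast hm
    simp only [Function.comp]
    field_simp

theorem prsum_asy (α β a b : ℝ) (ha : 0 ≤ a) (hab : a ≤ b) :
    Asy (fun m : ℕ => ∑ p ∈ prs ⌊a * m⌋₊ ⌊b * m⌋₊, (α * m + β * p) * Real.log p) 0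
      (α * (b - a) + β * (b ^ 2 - a ^ 2) / 2) := by
  have hb : 0 ≤ b := ha.trans hab
  unfold Asy
  rw [Asymptotics.isLittleO_iff_tendsto']
  swap
  · filter_upwards [eventually_gt_atTop 0] with m hm h
    have hm' : (0 : ℝ) < m := by exact_mod_cast hm
    exact absurd h (by positivity)
  have hl := (((th_lim b hb).sub (th_lim a ha)).const_mul α).add
    (((p1_lim b hb).sub (p1_lim a ha)).const_mul β)
  have hl' := hl.sub_const (α * (b - a) + β * (b ^ 2 - a ^ 2) / 2)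
  have e : α * (b - a) + β * (b ^ 2 / 2 - a ^ 2 / 2) -
      (α * (b - a) + β * (b ^ 2 - a ^ 2) / 2) = 0 := by ring
  rw [e] at hl'
  refine hl'.congr' ?_
  filter_upwards [eventually_gt_atTop 0] with m hm
  have hm' : (0 : ℝ) < m := by exact_mod_cast hm
  have hfl : ⌊a * m⌋₊ ≤ ⌊b * m⌋₊ := Nat.floor_le_floor (by gcongr)
  have h1 : ∑ p ∈ prs ⌊a * m⌋₊ ⌊b * m⌋₊, (α * m + β * p) * Real.log p =
      α * m * ∑ p ∈ prs ⌊a * m⌋₊ ⌊b * m⌋₊, Real.log p +
        β * ∑ p ∈ prs ⌊a * m⌋₊ ⌊b * m⌋₊, (p : ℝ) * Real.log p := by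
    rw [Finset.mul_sum, Finset.mul_sum, ← Finset.sum_add_distrib]
    exact Finset.sum_congr rfl fun p _ => by ring
  rw [h1, sum_prs_sub (fun p => Real.log p) _ _ hfl,
    sum_prs_sub (fun p => (p : ℝ) * Real.log p) _ _ hfl]
  field_simp
  ring

end MP_a3a416_nt.SJ
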