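import Pool.Agent.Lib.MP_a3a416_nt.SJ.Defs

/-!
# SJ-PL
`val p x a`: `x = 0` or `a ≤ v_p(x)`.  The potentials lemma: if all entries of a square matrix satisfy
`val p (M i j) (a i + b j)` then `val p (det M) (∑ a + ∑ b)`; a version with row operations.
-/

namespace MP_a3a416_nt.SJ

open Finset

namespace val

variable {p : ℕ} [hp : Fact p.Prime] {x y : ℚ} {a b : ℤ}

omit hp in
theorem zero (a : ℤ) : val p 0 a := Or.inl rfl

omit hp in
theorem mono (h : val p x a) (hab : b ≤ a) : val p x b := by
  rcases h with h | h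
  · exact Or.inl h
  · exact Or.inr (hab.trans h)

omit hp in
theorem le_of_ne (h : val p x a) (hx : x ≠ 0) : a ≤ padicValRat p x := h.resolve_left hx

omit hp in
theorem self (p : ℕ) (x : ℚ) : val p x (padicValRat p x) := Or.inr le_rfl

theorem add (hx : val p x a) (hy : val p y a) : val p (x + y) a := by
  by_cases h : x + y = 0
  · exact Or.inl h
  by_cases hx0 : x = 0
  · rw [hx0, zero_add]; exact hy
  by_cases hy0 : y = 0
  · rw [hy0, add_zero]; exact hx
  right
  exact (le_min (hx.le_of_ne hx0) (hy.le_of_ne hy0)).trans (padicValRat.min_le_padicValRat_add h)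

omit hp in
theorem neg (hx : val p x a) : val p (-x) a := by
  rcases hx with h | h
  · left; rw [h, neg_zero]
  · right; rwa [padicValRat.neg]

theorem sub (hx : val p x a) (hy : val p y a) : val p (x - y) a := by
  rw [sub_eq_add_neg]; exact hx.add hy.neg

theorem mul (hx : val p x a) (hy : val p y b) : val p (x * y) (a + b) := by
  by_cases hx0 : x = 0
  · left; rw [hx0, zero_mul]
  by_cases hy0 : y = 0
  · left; rw [hy0, mul_zero]
  right
  rw [padicValRat.mul hx0 hy0]
  exact add_le_add (hx.le_of_ne hx0) (hy.le_of_ne hy0)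

omit hp in
theorem one : val p 1 0 := Or.inr (by simp)

theorem sum {ι : Type*} {s : Finset ι} {f : ι → ℚ} (h : ∀ i ∈ s, val p (f i) a) :
    val p (∑ i ∈ s, f i) a := by
  classical
  induction s using Finset.induction_on with
  | empty => simpa using val.zero a
  | insert i s hi ih =>
    rw [sum_insert hi]
    exact (h i (mem_insert_self _ _)).add (ih (fun j hj => h j (mem_insert_of_mem hj)))

theorem prod {ι : Type*} {s : Finset ι} {f : ι → ℚ} {c : ι → ℤ} (h : ∀ i ∈ s, val p (f i) (c i)) :
    val p (∏ i ∈ s, f i) (∑ i ∈ s, c i) := by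
  classical
  induction s using Finset.induction_on with
  | empty => simpa using val.one
  | insert i s hi ih =>
    rw [prod_insert hi, sum_insert hi]
    exact (h i (mem_insert_self _ _)).mul (ih (fun j hj => h j (mem_insert_of_mem hj)))

omit hp in
theorem int (n : ℤ) : val p (n : ℚ) 0 := by
  right
  rw [padicValRat.of_int]
  positivity

omit hp in
theorem nat (n : ℕ) : val p (n : ℚ) 0 := by
  have := val.int (p := p) (n : ℤ)
  simpa using this

/-- an integer divisible by `p^k` -/
theorem of_dvd {n : ℤ} {k : ℕ} (h : (p : ℤ) ^ k ∣ n) : val p (n : ℚ) k := by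
  by_cases hn : n = 0
  · left; rw [hn]; simp
  right
  rw [padicValRat.of_int]
  have := (padicValInt_dvd_iff (p := p) k n).1 h
  rcases this with h0 | h1
  · exact absurd h0 hn
  · exact_mod_cast h1

theorem int_mul (n : ℤ) (hx : val p x a) : val p ((n : ℚ) * x) a := by
  have := (val.int (p := p) n).mul hx
  simpa using this

theorem mul_int (n : ℤ) (hx : val p x a) : val p (x * (n : ℚ)) a := by
  rw [mul_comm]; exact hx.int_mul n

theorem pow (hx : val p x a) (k : ℕ) : val p (x ^ k) (k * a) := by
  induction k with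
  | zero => simpa using val.one
  | succ k ih =>
    rw [pow_succ]
    have := ih.mul hx
    refine this.mono (le_of_eq ?_)
    push_cast; ring

theorem p_zpow (k : ℤ) : val p ((p : ℚ) ^ k) k := by
  right
  rw [padicValRat.zpow, padicValRat.self hp.out.one_lt]
  simp

theorem inv_of_not_dvd {n : ℤ} (h : ¬ (p : ℤ) ∣ n) : val p ((n : ℚ)⁻¹) 0 := by
  right
  rw [padicValRat.inv, padicValRat.of_int, padicValInt.eq_zero_of_not_dvd h]
  simp

/-- `val` from a fraction -/
theorem div_int {n : ℤ} {k : ℕ} (hx : val p x a) (hn : n ≠ 0) (h : padicValInt p n ≤ k) :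
    val p (x / n) (a - k) := by
  by_cases hx0 : x = 0
  · left; rw [hx0, zero_div]
  right
  rw [padicValRat.div hx0 (by exact_mod_cast hn), padicValRat.of_int]
  have h1 := hx.le_of_ne hx0
  have h2 : (padicValInt p n : ℤ) ≤ k := by exact_mod_cast h
  linarith

end val

variable {p : ℕ} [hp : Fact p.Prime]

/-- the potentials lemma -/
theorem val_det {ι : Type*} [Fintype ι] [DecidableEq ι] (M : Matrix ι ι ℚ) (a b : ι → ℤ)
    (h : ∀ i j, val p (M i j) (a i + b j)) : val p M.det (∑ i, a i + ∑ i, b i) := by
  rw [Matrix.det_apply']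
  apply val.sum
  intro σ _
  have h1 : val p (∏ i, M (σ i) i) (∑ i, (a (σ i) + b i)) := val.prod (fun i _ => h (σ i) i)
  have h2 : ∑ i, (a (σ i) + b i) = ∑ i, a i + ∑ i, b i := by
    rw [sum_add_distrib, Equiv.sum_comp σ a]
  rw [h2] at h1
  exact h1.int_mul _

/-- the potentials lemma after multiplication by a matrix of determinant of valuation at most `e` -/
theorem val_det_of_mul {ι : Type*} [Fintype ι] [DecidableEq ι] (B M : Matrix ι ι ℚ) (e c : ℤ)
    (hB : B.det ≠ 0) (hBe : padicValRat p B.det ≤ e) (h : val p (B * M).det c) : val p M.det (c - e) := by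
  by_cases hM : M.det = 0
  · left; exact hM
  right
  rw [Matrix.det_mul] at h
  have h1 := h.le_of_ne (mul_ne_zero hB hM)
  rw [padicValRat.mul hB hM] at h1
  linarith

end MP_a3a416_nt.SJ
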