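import Pool.Agent.Lib.MP_a3a416_nt.SJ.ArDefs

/-! Monomials in the Lagrange basis. -/

set_option autoImplicit false

open Polynomial Finset

namespace MP_a3a416_nt.SJ

theorem X_pow_eq_sum_lag (S : Finset ℤ) (i : ℕ) (hi : i < S.card) :
    (X ^ i : ℚ[X]) = ∑ e ∈ S, C ((e : ℚ) ^ i) * lag S e := by
  have hinj : Set.InjOn (fun s : ℤ => (s : ℚ)) S := fun a _ b _ h => Int.cast_injective h
  have h := Lagrange.eq_interpolate_of_eval_eq (s := S) (v := fun s : ℤ => (s : ℚ))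
    (f := (X ^ i : ℚ[X])) (fun e : ℤ => (e : ℚ) ^ i) hinj
    (by rw [degree_X_pow]; exact_mod_cast hi) (fun e _ => by simp)
  rw [h, Lagrange.interpolate_apply]
  rfl

end MP_a3a416_nt.SJ
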