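import Pool.Agent.Lib.MP_a3a416_nt.SJ.ArEven
import Pool.Agent.Lib.MP_a3a416_nt.SJ.ArLag

/-! The intermediate basis in terms of the new basis. -/

set_option autoImplicit false

open Polynomial Finset

namespace MP_a3a416_nt.SJ

theorem exists_T (t : ℕ → ℚ[X]) (N l : ℕ) (hN : Even N) (hl : N + 1 ≤ l) :
    ∃ T : Matrix (Fin l) (Fin l) ℚ,
      T.det ^ 2 = (Matrix.vandermonde (fun i : Fin (N + 1) => (ev N i : ℚ))).det ^ 2 ∧
      ∀ j : Fin l, mid t N j = ∑ i : Fin l, C (T i j) * bas t N i := by
  obtain ⟨q, rfl⟩ : ∃ q, l = N + 1 + q := ⟨l - (N + 1), by omega⟩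
  refine ⟨(Matrix.fromBlocks (Matrix.vandermonde (fun i : Fin (N + 1) => (ev N i : ℚ))) 0 0
    (1 : Matrix (Fin q) (Fin q) ℚ)).submatrix finSumFinEquiv.symm finSumFinEquiv.symm, ?_, ?_⟩
  · rw [Matrix.det_submatrix_equiv_self, Matrix.det_fromBlocks_zero₁₂, Matrix.det_one, mul_one]
  · intro j
    rw [Fin.sum_univ_add]
    induction j using Fin.addCases with
    | left j =>
      have h1 : mid t N ((Fin.castAdd q j : Fin (N + 1 + q)) : ℕ) = X ^ (j : ℕ) := by
        rw [mid, Fin.val_castAdd, if_pos j.2]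
      rw [h1, X_pow_eq_sum_lag (EE N) j (by rw [card_EE N hN]; exact j.2),
        sum_EE N hN (fun e => C ((e : ℚ) ^ (j : ℕ)) * lag (EE N) e)]
      have h2 : ∑ i : Fin q, C (((Matrix.fromBlocks (Matrix.vandermonde
          (fun i : Fin (N + 1) => (ev N i : ℚ))) 0 0
          (1 : Matrix (Fin q) (Fin q) ℚ)).submatrix finSumFinEquiv.symm finSumFinEquiv.symm)
          (Fin.natAdd (N + 1) i) (Fin.castAdd q j)) *
          bas t N ((Fin.natAdd (N + 1) i : Fin (N + 1 + q)) : ℕ) = 0 := by
        apply Finset.sum_eq_zero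
        intro i _
        rw [Matrix.submatrix_apply, finSumFinEquiv_symm_apply_natAdd,
          finSumFinEquiv_symm_apply_castAdd, Matrix.fromBlocks_apply₂₁]
        simp
      rw [h2, add_zero]
      apply Finset.sum_congr rfl
      intro i _
      rw [Matrix.submatrix_apply, finSumFinEquiv_symm_apply_castAdd,
        finSumFinEquiv_symm_apply_castAdd, Matrix.fromBlocks_apply₁₁, Matrix.vandermonde_apply,
        bas, Fin.val_castAdd, if_pos i.2]
    | right j =>
      have h1 : ∑ i : Fin (N + 1), C (((Matrix.fromBlocks (Matrix.vandermonde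
          (fun i : Fin (N + 1) => (ev N i : ℚ))) 0 0
          (1 : Matrix (Fin q) (Fin q) ℚ)).submatrix finSumFinEquiv.symm finSumFinEquiv.symm)
          (Fin.castAdd q i) (Fin.natAdd (N + 1) j)) *
          bas t N ((Fin.castAdd q i : Fin (N + 1 + q)) : ℕ) = 0 := by
        apply Finset.sum_eq_zero
        intro i _
        rw [Matrix.submatrix_apply, finSumFinEquiv_symm_apply_natAdd,
          finSumFinEquiv_symm_apply_castAdd, Matrix.fromBlocks_apply₁₂]
        simp
      rw [h1, zero_add, Finset.sum_eq_single j]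
      · rw [Matrix.submatrix_apply, finSumFinEquiv_symm_apply_natAdd, Matrix.fromBlocks_apply₂₂,
          Matrix.one_apply_eq, C_1, one_mul, mid, bas,
          if_neg (by simp only [Fin.val_natAdd]; omega), if_neg (by simp only [Fin.val_natAdd]; omega)]
      · intro i _ hij
        rw [Matrix.submatrix_apply, finSumFinEquiv_symm_apply_natAdd,
          finSumFinEquiv_symm_apply_natAdd, Matrix.fromBlocks_apply₂₂, Matrix.one_apply_ne hij]
        simp
      · intro h
        exact absurd (Finset.mem_univ j) h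

end MP_a3a416_nt.SJ
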