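import Pool.Agent.Lib.MP_a3a416_nt.SJ.ArEven

/-! The intermediate basis is monic. -/

set_option autoImplicit false

open Polynomial Finset

namespace MP_a3a416_nt.SJ

private theorem npoly_monic (S : Finset ℤ) : (npoly S).Monic :=
  monic_prod_of_monic _ _ fun s _ => monic_X_sub_C (s : ℚ)

private theorem npoly_natDegree (S : Finset ℤ) : (npoly S).natDegree = S.card := by
  rw [npoly, natDegree_prod_of_monic S (fun s : ℤ => (X - C (s : ℚ))) (fun s _ => monic_X_sub_C (s : ℚ))]
  simp only [natDegree_X_sub_C, Finset.sum_const, smul_eq_mul, mul_one]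

theorem mid_monic (N : ℕ) (hN : Even N) (t : ℕ → ℚ[X])
    (ht : ∀ i, (t i).Monic ∧ (t i).natDegree = i) (i : ℕ) :
    (mid t N i).Monic ∧ (mid t N i).natDegree = i := by
  unfold mid
  split_ifs with h
  · exact ⟨monic_X_pow i, natDegree_X_pow i⟩
  · refine ⟨(npoly_monic _).mul (ht _).1, ?_⟩
    rw [(npoly_monic _).natDegree_mul (ht _).1, npoly_natDegree, card_EE N hN, (ht _).2]
    omega

end MP_a3a416_nt.SJ
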