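import Pool.Agent.Lib.MP_a3a416_nt.SJ.BlkChange

/-! # A3: monic column change. -/

set_option autoImplicit false

open Polynomial

namespace MP_a3a416_nt.SJ

theorem sdet_VP_eq (c : ℚ) {N K A c0 : ℕ} (rr : Fin c0 → Row N)
    (e : (Col K A ⊕ Fin c0) ≃ Row N) (P : Blk → ℕ → ℚ[X])
    (hP : ∀ β i, (P β i).Monic ∧ (P β i).natDegree = i) :
    sdet e (VP c K A P rr) = sdet e (Vh c K A rr) := by
  set T : ∀ β : Blk, Matrix (Fin (len K A β)) (Fin (len K A β)) ℚ :=
    fun β i j => (P β j).coeff i with hT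
  have h1 : ∀ (β : Blk) (j : Fin (len K A β)),
      P β j = ∑ i : Fin (len K A β), C (T β i j) * (X : ℚ[X]) ^ (i : ℕ) := by
    intro β j
    have h2 := (P β j).as_sum_range_C_mul_X_pow' (n := len K A β)
      (by rw [(hP β j).2]; exact j.2)
    rw [Finset.sum_range] at h2
    exact h2
  have h3 : ∀ β, (T β).det = 1 := by
    intro β
    rw [Matrix.det_of_upperTriangular]
    · refine Finset.prod_eq_one fun i _ => ?_
      have h4 := (hP β i).1
      rw [Monic, leadingCoeff, (hP β i).2] at h4
      exact h4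
    · intro i j hij
      show (P β j).coeff i = 0
      apply coeff_eq_zero_of_natDegree_lt
      rw [(hP β j).2]
      exact hij
  have h5 := sdet_change c rr e (fun _ i => X ^ i) P T h1
  rw [h5, Finset.prod_eq_one (fun β _ => h3 β), mul_one]
  rfl

end MP_a3a416_nt.SJ
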