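import Pool.Agent.Lib.MP_a3a416_nt.SJ.ArVander
import Pool.Agent.Lib.MP_a3a416_nt.SJ.ArBlockT
import Pool.Agent.Lib.MP_a3a416_nt.SJ.ArMid
import Pool.Agent.Lib.MP_a3a416_nt.SJ.BlkChange
import Pool.Agent.Lib.MP_a3a416_nt.SJ.ColChange

/-! The determinant in the new basis. -/

set_option autoImplicit false

open Polynomial Finset

namespace MP_a3a416_nt.SJ

theorem sdet_bas (c : ℚ) {N K A c0 : ℕ} (hN : Even N) (hK : N + 1 ≤ K) (hA : N + 1 ≤ A)
    (t : ℕ → ℚ[X]) (ht : ∀ i, (t i).Monic ∧ (t i).natDegree = i) (rr : Fin c0 → Row N)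
    (e : (Col K A ⊕ Fin c0) ≃ Row N) :
    sdet e (Vh c K A rr) ^ 2 = sdet e (VP c K A (fun _ => bas t N) rr) ^ 2 * VE N ^ 5 := by
  have hl : ∀ β : Blk, N + 1 ≤ len K A β := by
    intro β
    cases β <;> simp only [len] <;> assumption
  choose T hT1 hT2 using fun β : Blk => exists_T t N (len K A β) hN (hl β)
  have h1 : sdet e (VP c K A (fun _ => mid t N) rr)
      = sdet e (VP c K A (fun _ => bas t N) rr) * ∏ β, (T β).det :=
    sdet_change c rr e (fun _ => bas t N) (fun _ => mid t N) T hT2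
  have h2 : sdet e (VP c K A (fun _ => mid t N) rr) = sdet e (Vh c K A rr) :=
    sdet_VP_eq c rr e (fun _ => mid t N) (fun _ i => mid_monic N hN t ht i)
  have h3 : (∏ β, (T β).det) ^ 2 = VE N ^ 5 := by
    rw [← Finset.prod_pow, Finset.prod_congr rfl (fun β _ => (hT1 β).trans (vander_sq N hN)),
      Finset.prod_const]
    rfl
  rw [← h2, h1, mul_pow, h3]

end MP_a3a416_nt.SJ
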