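import Pool.Agent.Lib.MP_a3a416_nt.SJ.ArDefs

/-! Monic Chebyshev polynomials of `[-N, N]`. -/

set_option autoImplicit false

open Polynomial Finset

namespace MP_a3a416_nt.SJ

private theorem cheb_one_nonneg (i k : ℕ) :
    0 ≤ (derivative^[k] (Chebyshev.T ℝ (i : ℤ))).eval 1 :=
  le_trans (abs_nonneg _)
    (Chebyshev.abs_iterate_derivative_T_real_le (i : ℤ) k (x := 1) (by simp))

private theorem cheb_one_le (i k : ℕ) :
    (derivative^[k] (Chebyshev.T ℝ (i : ℤ))).eval 1 ≤ (i : ℝ) ^ (2 * k) := by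
  induction k with
  | zero => simp
  | succ k ih =>
    have h1 := Chebyshev.iterate_derivative_T_eval_one_recurrence (R := ℝ) (i : ℤ) k
    have h2 := cheb_one_nonneg i (k + 1)
    have h3 := cheb_one_nonneg i k
    set a := (derivative^[k] (Chebyshev.T ℝ (i : ℤ))).eval 1
    set b := (derivative^[k + 1] (Chebyshev.T ℝ (i : ℤ))).eval 1
    have h4 : (0 : ℝ) ≤ k := Nat.cast_nonneg k
    have h5 : b ≤ (i : ℝ) ^ 2 * a := by
      push_cast at h1
      nlinarith [mul_nonneg h4 h2, mul_nonneg (sq_nonneg (k : ℝ)) h3]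
    calc b ≤ (i : ℝ) ^ 2 * a := h5
      _ ≤ (i : ℝ) ^ 2 * (i : ℝ) ^ (2 * k) := mul_le_mul_of_nonneg_left ih (sq_nonneg _)
      _ = (i : ℝ) ^ (2 * (k + 1)) := by ring

private theorem cheb_coeff_real (i k : ℕ) (y : ℝ) (hy : |y| ≤ 1) :
    |(taylor y (Chebyshev.T ℝ (i : ℤ))).coeff k| ≤ (i : ℝ) ^ (2 * k) := by
  have h1 := (Chebyshev.abs_iterate_derivative_T_real_le (i : ℤ) k hy).trans (cheb_one_le i k)
  have h2 : (derivative^[k] (Chebyshev.T ℝ (i : ℤ))).eval y =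
      (k.factorial : ℝ) * (taylor y (Chebyshev.T ℝ (i : ℤ))).coeff k := by
    rw [taylor_coeff, ← factorial_smul_hasseDeriv]
    simp
  rw [h2, abs_mul] at h1
  have h3 : (1 : ℝ) ≤ |(k.factorial : ℝ)| := by
    rw [Nat.abs_cast]
    exact_mod_cast Nat.one_le_iff_ne_zero.mpr (Nat.factorial_ne_zero k)
  calc |(taylor y (Chebyshev.T ℝ (i : ℤ))).coeff k|
      = 1 * |(taylor y (Chebyshev.T ℝ (i : ℤ))).coeff k| := (one_mul _).symm
    _ ≤ |(k.factorial : ℝ)| * |(taylor y (Chebyshev.T ℝ (i : ℤ))).coeff k| :=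
        mul_le_mul_of_nonneg_right h3 (abs_nonneg _)
    _ ≤ _ := h1

private theorem cheb_coeff_rat (i k : ℕ) (y : ℚ) (hy : |y| ≤ 1) :
    |(taylor y (Chebyshev.T ℚ (i : ℤ))).coeff k| ≤ (i : ℚ) ^ (2 * k) := by
  have h1 : (((taylor y (Chebyshev.T ℚ (i : ℤ))).coeff k : ℚ) : ℝ) =
      (taylor (y : ℝ) (Chebyshev.T ℝ (i : ℤ))).coeff k := by
    have h2 : taylor (y : ℝ) (Chebyshev.T ℝ (i : ℤ)) =
        (taylor y (Chebyshev.T ℚ (i : ℤ))).map (Rat.castHom ℝ) := by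
      rw [taylor_apply, taylor_apply, Polynomial.map_comp, Chebyshev.map_T]
      simp
    rw [h2, coeff_map]
    simp
  have h3 := cheb_coeff_real i k (y : ℝ) (by exact_mod_cast hy)
  rw [← h1] at h3
  exact_mod_cast h3

theorem exists_cheb (N : ℕ) (hN : 1 ≤ N) : ∃ t : ℕ → ℚ[X], ChebOK N t := by
  have hN0 : (0 : ℚ) < N := by exact_mod_cast hN
  have hN1 : (1 : ℚ) ≤ N := by exact_mod_cast hN
  refine ⟨fun i => if i = 0 then 1 else
    C (2 * ((N : ℚ) / 2) ^ i) * (Chebyshev.T ℚ (i : ℤ)).comp (C ((N : ℚ)⁻¹) * X), ?_, ?_⟩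
  · intro i
    dsimp only
    split_ifs with hi
    · subst hi
      simp
    · have hd : (C ((N : ℚ)⁻¹) * X : ℚ[X]).natDegree = 1 :=
        natDegree_C_mul_X _ (inv_ne_zero hN0.ne')
      have hl : (C ((N : ℚ)⁻¹) * X : ℚ[X]).leadingCoeff = (N : ℚ)⁻¹ := by
        rw [leadingCoeff_mul, leadingCoeff_C, leadingCoeff_X, mul_one]
      have hTd : (Chebyshev.T ℚ (i : ℤ)).natDegree = i := by
        rw [Chebyshev.natDegree_T]
        simp
      have hTl : (Chebyshev.T ℚ (i : ℤ)).leadingCoeff = 2 ^ (i - 1) := by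
        rw [Chebyshev.leadingCoeff_T]
        simp
      have ha : (2 * ((N : ℚ) / 2) ^ i) ≠ 0 := by positivity
      constructor
      · rw [Monic, leadingCoeff_mul, leadingCoeff_C, leadingCoeff_comp (by rw [hd]; norm_num),
          hl, hTl, hTd]
        obtain ⟨j, rfl⟩ := Nat.exists_eq_succ_of_ne_zero hi
        rw [Nat.succ_eq_add_one, Nat.add_sub_cancel, inv_pow, div_pow, pow_succ 2 j]
        have h2 : (2 : ℚ) ^ j ≠ 0 := by positivity
        have h3 : (N : ℚ) ^ (j + 1) ≠ 0 := by positivity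
        field_simp
      · rw [natDegree_C_mul ha, natDegree_comp, hd, hTd, mul_one]
  · intro i k n hn
    dsimp only
    have hpos : (0 : ℚ) ≤ ((N : ℚ) / 2) ^ i := by positivity
    split_ifs with hi
    · subst hi
      have h1 : |(taylor (n : ℚ) (1 : ℚ[X])).coeff k| ≤ 1 := by
        rw [taylor_one, coeff_C]
        split_ifs <;> simp
      refine h1.trans ?_
      norm_num
    · have h1 : taylor (n : ℚ) (C (2 * ((N : ℚ) / 2) ^ i) *
          (Chebyshev.T ℚ (i : ℤ)).comp (C ((N : ℚ)⁻¹) * X)) =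
          C (2 * ((N : ℚ) / 2) ^ i) *
            (taylor ((N : ℚ)⁻¹ * n) (Chebyshev.T ℚ (i : ℤ))).comp (C ((N : ℚ)⁻¹) * X) := by
        rw [taylor_mul, taylor_C]
        congr 1
        rw [taylor_apply, taylor_apply, comp_assoc, comp_assoc]
        congr 1
        simp only [mul_comp, C_comp, X_comp, add_comp, C_mul]
        ring
      rw [h1, coeff_C_mul, comp_C_mul_X_coeff, abs_mul,
        abs_of_nonneg (show (0 : ℚ) ≤ 2 * ((N : ℚ) / 2) ^ i by positivity), abs_mul]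
      have hy : |(N : ℚ)⁻¹ * n| ≤ 1 := by
        rw [abs_mul, abs_inv, Nat.abs_cast]
        have h2 : |(n : ℚ)| ≤ N := by exact_mod_cast hn
        calc (N : ℚ)⁻¹ * |(n : ℚ)| ≤ (N : ℚ)⁻¹ * N :=
              mul_le_mul_of_nonneg_left h2 (by positivity)
          _ = 1 := inv_mul_cancel₀ hN0.ne'
      have h3 := cheb_coeff_rat i k _ hy
      have h4 : |((N : ℚ)⁻¹) ^ k| ≤ 1 := by
        rw [abs_pow, abs_inv, Nat.abs_cast]
        exact pow_le_one₀ (by positivity) (inv_le_one_of_one_le₀ hN1)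
      have h5 : (i : ℚ) ^ (2 * k) ≤ ((i : ℚ) + 1) ^ (2 * k) :=
        pow_le_pow_left₀ (by positivity) (by linarith) _
      calc 2 * ((N : ℚ) / 2) ^ i *
          (|(taylor ((N : ℚ)⁻¹ * n) (Chebyshev.T ℚ (i : ℤ))).coeff k| * |((N : ℚ)⁻¹) ^ k|)
          ≤ 2 * ((N : ℚ) / 2) ^ i * (((i : ℚ) + 1) ^ (2 * k) * 1) := by
            apply mul_le_mul_of_nonneg_left _ (by positivity)
            exact mul_le_mul (h3.trans h5) h4 (abs_nonneg _) (by positivity)
        _ = 2 * ((i : ℚ) + 1) ^ (2 * k) * ((N : ℚ) / 2) ^ i := by ring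

end MP_a3a416_nt.SJ
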