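import Pool.Agent.Lib.MP_a3a416_nt.SJ.ArDefs

/-! Coefficients of node polynomials and of the Lagrange basis. -/

set_option autoImplicit false

open Polynomial Finset

namespace MP_a3a416_nt.SJ

theorem ppr_pos (S : Finset ℤ) (n : ℤ) : 0 < ppr S n := by
  unfold ppr
  refine Finset.prod_pos fun s hs => ?_
  have h : s ≠ n := (Finset.mem_erase.1 hs).1
  exact Int.natAbs_pos.2 (sub_ne_zero.2 (Ne.symm h))

private theorem taylor_npoly_insert (S : Finset ℤ) (a : ℤ) (ha : a ∉ S) (n : ℤ) :
    taylor (n : ℚ) (npoly (insert a S))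
      = (X + C ((n : ℚ) - a)) * taylor (n : ℚ) (npoly S) := by
  unfold npoly
  rw [Finset.prod_insert ha, taylor_mul]
  congr 1
  simp only [map_sub, taylor_X, taylor_C]
  ring

private theorem coeff_aux (b : ℚ) (Q : ℚ[X]) (k : ℕ) :
    ((X + C b) * Q).coeff (k + 1) = Q.coeff k + b * Q.coeff (k + 1) := by
  rw [add_mul, coeff_add, coeff_X_mul, coeff_C_mul]

private theorem coeff_aux0 (b : ℚ) (Q : ℚ[X]) :
    ((X + C b) * Q).coeff 0 = b * Q.coeff 0 := by
  rw [add_mul, coeff_add, coeff_C_mul]
  simp

theorem coeff_npoly_le (S : Finset ℤ) (n : ℤ) (k : ℕ) :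
    |(taylor (n : ℚ) (npoly S)).coeff k| ≤ (S.card : ℚ) ^ k * ppr S n := by
  induction S using Finset.induction_on generalizing k with
  | empty =>
    cases k with
    | zero => simp [npoly, ppr]
    | succ k =>
      simp [npoly, ppr, coeff_one]
  | insert a S ha ih =>
    rw [taylor_npoly_insert S a ha n, Finset.card_insert_of_notMem ha]
    have hs0 : (0 : ℚ) ≤ (S.card : ℚ) := Nat.cast_nonneg _
    have hp0 : (0 : ℚ) ≤ (ppr S n : ℚ) := Nat.cast_nonneg _
    by_cases han : a = n
    · subst han
      have hpp : ppr (insert a S) a = ppr S a := by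
        unfold ppr
        rw [Finset.erase_insert ha, Finset.erase_eq_of_notMem ha]
      rw [hpp]
      cases k with
      | zero =>
        rw [coeff_aux0]
        simp
      | succ k =>
        rw [coeff_aux]
        have h1 := ih k
        have h2 : (S.card : ℚ) ^ k ≤ ((S.card + 1 : ℕ) : ℚ) ^ (k + 1) := by
          push_cast
          calc (S.card : ℚ) ^ k ≤ ((S.card : ℚ) + 1) ^ k := by
                gcongr; linarith
            _ ≤ ((S.card : ℚ) + 1) ^ (k + 1) := by
                apply pow_le_pow_right₀ (by linarith) (by omega)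
        have h3 : |(taylor (a : ℚ) (npoly S)).coeff k + ((a : ℚ) - a) *
            (taylor (a : ℚ) (npoly S)).coeff (k + 1)|
            = |(taylor (a : ℚ) (npoly S)).coeff k| := by
          rw [sub_self, zero_mul, add_zero]
        rw [h3]
        exact h1.trans (mul_le_mul_of_nonneg_right h2 hp0)
    · have hpp : ppr (insert a S) n = (n - a).natAbs * ppr S n := by
        unfold ppr
        rw [Finset.erase_insert_of_ne han, Finset.prod_insert]
        intro h
        exact ha (Finset.mem_of_mem_erase h)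
      have hb1 : (1 : ℚ) ≤ |(n : ℚ) - a| := by
        have h0 : (1 : ℤ) ≤ |n - a| := Int.one_le_abs (sub_ne_zero.2 (Ne.symm han))
        have := (Int.cast_le (R := ℚ)).2 h0
        push_cast at this
        exact this
      have hnat : (((n - a).natAbs : ℕ) : ℚ) = |(n : ℚ) - a| := by
        rw [Nat.cast_natAbs]
        push_cast
        rfl
      rw [hpp]
      push_cast
      rw [show (((n - a).natAbs : ℕ) : ℚ) = |(n : ℚ) - a| from hnat]
      cases k with
      | zero =>
        rw [coeff_aux0, abs_mul]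
        have h1 := ih 0
        rw [pow_zero, one_mul] at h1 ⊢
        exact mul_le_mul_of_nonneg_left h1 (abs_nonneg _)
      | succ k =>
        rw [coeff_aux]
        have h1 := ih k
        have h2 := ih (k + 1)
        have hab := abs_nonneg ((n : ℚ) - a)
        calc |(taylor (n : ℚ) (npoly S)).coeff k
              + ((n : ℚ) - a) * (taylor (n : ℚ) (npoly S)).coeff (k + 1)|
            ≤ |(taylor (n : ℚ) (npoly S)).coeff k|
              + |(n : ℚ) - a| * |(taylor (n : ℚ) (npoly S)).coeff (k + 1)| := by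
                refine (abs_add_le _ _).trans ?_
                rw [abs_mul]
          _ ≤ (S.card : ℚ) ^ k * ppr S n
              + |(n : ℚ) - a| * ((S.card : ℚ) ^ (k + 1) * ppr S n) := by
                refine add_le_add h1 (mul_le_mul_of_nonneg_left h2 hab)
          _ ≤ |(n : ℚ) - a| * ((S.card : ℚ) ^ k * ppr S n)
              + |(n : ℚ) - a| * ((S.card : ℚ) ^ (k + 1) * ppr S n) := by
                have h3 : 0 ≤ (S.card : ℚ) ^ k * ppr S n := by positivity
                nlinarith [mul_le_mul_of_nonneg_right hb1 h3]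
          _ = |(n : ℚ) - a| * ppr S n * ((S.card : ℚ) ^ k * ((S.card : ℚ) + 1)) := by ring
          _ ≤ |(n : ℚ) - a| * ppr S n
                * (((S.card : ℚ) + 1) ^ k * ((S.card : ℚ) + 1)) := by
                gcongr
                linarith
          _ = ((S.card : ℚ) + 1) ^ (k + 1) * (|(n : ℚ) - a| * ppr S n) := by ring

private theorem ppr_erase_le (S : Finset ℤ) (e n : ℤ) : ppr (S.erase e) n ≤ ppr S n := by
  unfold ppr
  refine Finset.prod_le_prod_of_subset_of_one_le' ?_ ?_
  · intro x hx
    rw [Finset.mem_erase] at hx ⊢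
    exact ⟨hx.1, Finset.mem_of_mem_erase hx.2⟩
  · intro i hi _
    have h : i ≠ n := (Finset.mem_erase.1 hi).1
    exact Int.natAbs_pos.2 (sub_ne_zero.2 (Ne.symm h))

private theorem lag_eq (S : Finset ℤ) (e : ℤ) :
    lag S e = C (∏ s ∈ S.erase e, ((e : ℚ) - s)⁻¹) * npoly (S.erase e) := by
  unfold lag npoly
  rw [Lagrange.basis, map_prod, ← Finset.prod_mul_distrib]
  refine Finset.prod_congr rfl fun s _ => ?_
  rw [Lagrange.basisDivisor]

theorem coeff_lag_le (S : Finset ℤ) (e : ℤ) (he : e ∈ S) (n : ℤ) (k : ℕ) :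
    |(taylor (n : ℚ) (lag S e)).coeff k| ≤ (S.card : ℚ) ^ k * ppr S n / ppr S e := by
  rw [lag_eq, taylor_mul, taylor_C, coeff_C_mul, abs_mul]
  have h1 := coeff_npoly_le (S.erase e) n k
  have hpe : (0 : ℚ) < ppr S e := by exact_mod_cast ppr_pos S e
  have hprod : |∏ s ∈ S.erase e, ((e : ℚ) - s)⁻¹| = ((ppr S e : ℕ) : ℚ)⁻¹ := by
    rw [Finset.abs_prod, ppr, Nat.cast_prod, ← Finset.prod_inv_distrib]
    refine Finset.prod_congr rfl fun s _ => ?_
    rw [abs_inv, Nat.cast_natAbs]
    push_cast
    rfl
  rw [hprod, div_eq_mul_inv, mul_comm]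
  refine mul_le_mul_of_nonneg_right (h1.trans ?_) (inv_nonneg.2 hpe.le)
  have hc : ((S.erase e).card : ℚ) ≤ (S.card : ℚ) := by
    exact_mod_cast Finset.card_le_card (Finset.erase_subset _ _)
  have hp : ((ppr (S.erase e) n : ℕ) : ℚ) ≤ (ppr S n : ℚ) := by
    exact_mod_cast ppr_erase_le S e n
  gcongr

end MP_a3a416_nt.SJ
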