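import Pool.Agent.Lib.MP_a3a416_nt.SJ.ArEven

/-! The product of the column weights. -/

set_option autoImplicit false

open Polynomial Finset

namespace MP_a3a416_nt.SJ

private theorem ArCols_block {N L : ℕ} (hN : Even N) (hL : N + 1 ≤ L) :
    ∏ j : Fin L, (if (j : ℕ) < N + 1 then Cst N / (ppr (EE N) (ev N j) : ℚ)
      else Cst N * ((N : ℚ) / 2) ^ ((j : ℕ) - (N + 1))) =
    Cst N ^ L * (VE N)⁻¹ * ((N : ℚ) / 2) ^ (∑ i ∈ range (L - (N + 1)), i) := by
  rw [Fin.prod_univ_eq_prod_range (fun j : ℕ => if j < N + 1 then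
    Cst N / (ppr (EE N) (ev N j) : ℚ) else Cst N * ((N : ℚ) / 2) ^ (j - (N + 1))) L]
  obtain ⟨M, rfl⟩ := Nat.exists_eq_add_of_le hL
  rw [prod_range_add]
  have h1 : ∏ j ∈ range (N + 1), (if j < N + 1 then
      Cst N / (ppr (EE N) (ev N j) : ℚ) else Cst N * ((N : ℚ) / 2) ^ (j - (N + 1))) =
      Cst N ^ (N + 1) * (VE N)⁻¹ := by
    rw [prod_congr rfl (g := fun j => Cst N / (ppr (EE N) (ev N j) : ℚ))
      (fun j hj => if_pos (mem_range.1 hj)), prod_div_distrib, prod_const, card_range,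
      div_eq_mul_inv]
    congr 2
    unfold VE
    rw [prod_EE N hN (fun x => (ppr (EE N) x : ℚ)),
      Fin.prod_univ_eq_prod_range (fun j : ℕ => (ppr (EE N) (ev N j) : ℚ)) (N + 1)]
  have h2 : ∏ x ∈ range M, (if N + 1 + x < N + 1 then
      Cst N / (ppr (EE N) (ev N (N + 1 + x)) : ℚ)
      else Cst N * ((N : ℚ) / 2) ^ (N + 1 + x - (N + 1))) =
      Cst N ^ M * ((N : ℚ) / 2) ^ (∑ i ∈ range M, i) := by
    rw [prod_congr rfl (g := fun x => Cst N * ((N : ℚ) / 2) ^ x) (fun x _ => by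
      rw [if_neg (by omega), Nat.add_sub_cancel_left]), prod_mul_distrib, prod_const, card_range,
      prod_pow_eq_pow_sum]
  rw [h1, h2, Nat.add_sub_cancel_left, pow_add _ (N + 1) M]
  ring

theorem prod_cw (c : ℚ) {N K A c0 : ℕ} (hN : Even N) (hK : N + 1 ≤ K) (hA : N + 1 ≤ A) :
    ∏ x, cw c N K A c0 x = (1 + |c|) ^ (2 * A) *
      Cst N ^ (Fintype.card (Col K A ⊕ Fin c0)) * (VE N ^ 5)⁻¹ *
      ∏ β : Blk, ((N : ℚ) / 2) ^ (∑ i ∈ range (len K A β - (N + 1)), i) := by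
  rw [Fintype.prod_sum_type, Fintype.prod_sigma]
  have hlen : ∀ β : Blk, N + 1 ≤ len K A β := by
    intro β
    cases β <;> simp only [len] <;> omega
  have h1 : ∀ β : Blk, ∏ j : Fin (len K A β), cw c N K A c0 (Sum.inl ⟨β, j⟩) =
      cf c β ^ (len K A β) * (Cst N ^ (len K A β) * (VE N)⁻¹ *
        ((N : ℚ) / 2) ^ (∑ i ∈ range (len K A β - (N + 1)), i)) := by
    intro β
    rw [← ArCols_block hN (hlen β)]
    have : (cf c β) ^ (len K A β) = ∏ j : Fin (len K A β), cf c β := by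
      rw [prod_const, card_univ, Fintype.card_fin]
    rw [this, ← prod_mul_distrib]
    rfl
  have h2 : ∏ j : Fin c0, cw c N K A c0 (Sum.inr j) = Cst N ^ c0 := by
    simp [cw]
  have h3 : Fintype.card Blk = 5 := rfl
  have h4 : ∏ β : Blk, cf c β ^ (len K A β) = (1 + |c|) ^ (2 * A) := by
    have : (Finset.univ : Finset Blk) = {.z, .u, .s, .t, .o} := rfl
    rw [this]
    simp [Finset.prod_insert, cf, len]
    ring
  rw [prod_congr rfl (fun β _ => h1 β), h2, prod_mul_distrib, h4, prod_mul_distrib,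
    prod_mul_distrib,
    prod_pow_eq_pow_sum, prod_const, card_univ, h3, Fintype.card_sum, Fintype.card_sigma,
    Fintype.card_fin, pow_add, inv_pow,
    sum_congr rfl (fun β _ => (Fintype.card_fin (len K A β)).symm)]
  ring

end MP_a3a416_nt.SJ
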