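import Pool.Agent.Lib.MP_a3a416_nt.SJ.Defs

/-! Definitions for the archimedean bound (section 2 of SJ53_proof.md). -/

set_option autoImplicit false

open Polynomial

namespace MP_a3a416_nt.SJ

/-- the even integers `e` with `|e| ≤ N` -/
noncomputable def EE (N : ℕ) : Finset ℤ :=
  (Finset.Icc (-(N : ℤ)) N).filter (fun e => e % 2 = 0)

/-- `∏ |n - s|` over `s ∈ S`, `s ≠ n` -/
noncomputable def ppr (S : Finset ℤ) (n : ℤ) : ℕ := ∏ s ∈ S.erase n, (n - s).natAbs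

/-- `∏ (X - s)` over `s ∈ S` -/
noncomputable def npoly (S : Finset ℤ) : ℚ[X] := ∏ s ∈ S, (X - C (s : ℚ))

/-- the Lagrange basis of the node set `S` -/
noncomputable def lag (S : Finset ℤ) (e : ℤ) : ℚ[X] := Lagrange.basis S (fun s : ℤ => (s : ℚ)) e

/-- the even integers, enumerated: `ev N j = 2 j - N` -/
def ev (N j : ℕ) : ℤ := 2 * (j : ℤ) - N

/-- the basis used for the archimedean bound: Lagrange basis, then `U t_i` -/
noncomputable def bas (t : ℕ → ℚ[X]) (N : ℕ) (j : ℕ) : ℚ[X] :=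
  if j < N + 1 then lag (EE N) (ev N j) else npoly (EE N) * t (j - (N + 1))

/-- the intermediate basis: monomials, then `U t_i` -/
noncomputable def mid (t : ℕ → ℚ[X]) (N : ℕ) (j : ℕ) : ℚ[X] :=
  if j < N + 1 then X ^ j else npoly (EE N) * t (j - (N + 1))

/-- the properties of the (normalised) Chebyshev polynomials which are used -/
def ChebOK (N : ℕ) (t : ℕ → ℚ[X]) : Prop :=
  (∀ i, (t i).Monic ∧ (t i).natDegree = i) ∧
  ∀ i k : ℕ, ∀ n : ℤ, |n| ≤ N →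
    |(taylor (n : ℚ) (t i)).coeff k| ≤ 2 * ((i : ℚ) + 1) ^ (2 * k) * ((N : ℚ) / 2) ^ i

/-- `∏ d_e` over the even `e` -/
noncomputable def VE (N : ℕ) : ℚ := ∏ x ∈ EE N, (ppr (EE N) x : ℚ)

/-- `∏ d_n` over `|n| ≤ N` -/
noncomputable def WN (N : ℕ) : ℚ := ∏ n ∈ Finset.Icc (-(N : ℤ)) N, (ppr (EE N) n : ℚ)

/-- the constant for the entries -/
noncomputable def Cst (N : ℕ) : ℚ :=
  32 * (4 * ((N : ℚ) + 2) + 1) * ((N : ℚ) + 1) ^ 3 * (8 * (N : ℚ)) ^ 6

/-- the factor `1 + |c|` for the blocks `s`, `t` -/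
noncomputable def cf (c : ℚ) : Blk → ℚ
  | .z => 1
  | .u => 1
  | .s => 1 + |c|
  | .t => 1 + |c|
  | .o => 1

/-- the column weights -/
noncomputable def cw (c : ℚ) (N K A c0 : ℕ) : (Col K A ⊕ Fin c0) → ℚ :=
  Sum.elim (fun x => cf c x.1 * (if (x.2 : ℕ) < N + 1 then Cst N / ppr (EE N) (ev N x.2)
    else Cst N * ((N : ℚ) / 2) ^ ((x.2 : ℕ) - (N + 1)))) (fun _ => Cst N)

end MP_a3a416_nt.SJ
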