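import Pool.Agent.Lib.MP_a3a416_nt.SJ.ArDefs

/-! Enumeration of the even nodes. -/

set_option autoImplicit false

open Polynomial Finset

namespace MP_a3a416_nt.SJ

theorem ev_mem (N j : ℕ) (hN : Even N) (hj : j < N + 1) : ev N j ∈ EE N := by
  obtain ⟨m, hm⟩ := hN
  simp only [EE, ev, Finset.mem_filter, Finset.mem_Icc]
  omega

private theorem EE_eq_image (N : ℕ) (hN : Even N) :
    EE N = (Finset.univ : Finset (Fin (N + 1))).image (fun j : Fin (N + 1) => ev N (j : ℕ)) := by
  ext e
  simp only [Finset.mem_image, Finset.mem_univ, true_and]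
  constructor
  · intro he
    obtain ⟨m, hm⟩ := hN
    simp only [EE, Finset.mem_filter, Finset.mem_Icc] at he
    refine ⟨⟨((e + N) / 2).toNat, ?_⟩, ?_⟩
    · omega
    · simp only [ev]
      omega
  · rintro ⟨j, rfl⟩
    exact ev_mem N j hN j.2

private theorem ev_inj (N : ℕ) : Function.Injective (fun j : Fin (N + 1) => ev N (j : ℕ)) := by
  intro a b h
  simp only [ev] at h
  apply Fin.ext
  omega

theorem prod_EE {M : Type*} [CommMonoid M] (N : ℕ) (hN : Even N) (f : ℤ → M) :
    ∏ e ∈ EE N, f e = ∏ j : Fin (N + 1), f (ev N j) := by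
  rw [EE_eq_image N hN, Finset.prod_image]
  intro a _ b _ h
  exact ev_inj N h

theorem sum_EE {M : Type*} [AddCommMonoid M] (N : ℕ) (hN : Even N) (f : ℤ → M) :
    ∑ e ∈ EE N, f e = ∑ j : Fin (N + 1), f (ev N j) := by
  rw [EE_eq_image N hN, Finset.sum_image]
  intro a _ b _ h
  exact ev_inj N h

theorem card_EE (N : ℕ) (hN : Even N) : (EE N).card = N + 1 := by
  rw [EE_eq_image N hN, Finset.card_image_of_injective _ (ev_inj N)]
  simp

end MP_a3a416_nt.SJ
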