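import Pool.Agent.Lib.MP_a3a416_nt.SJ.ArDefs

/-! Bounds for the local functions. -/

set_option autoImplicit false

open Polynomial Finset

namespace MP_a3a416_nt.SJ

private theorem ArGBound_sum (r : ℕ) (S : Finset ℤ) (h : (0 : ℤ) ∉ S) :
    |∑ b ∈ S, ((b : ℚ)⁻¹) ^ r| ≤ S.card := by
  refine le_trans (abs_sum_le_sum_abs _ _) ?_
  have h1 : ∀ b ∈ S, |((b : ℚ)⁻¹) ^ r| ≤ 1 := by
    intro b hb
    rw [abs_pow, abs_inv]
    have hb0 : b ≠ 0 := fun h0 => h (h0 ▸ hb)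
    have h2 : (1 : ℚ) ≤ |(b : ℚ)| := by
      have h3 : (1 : ℤ) ≤ |b| := Int.one_le_abs hb0
      exact_mod_cast h3
    exact pow_le_one₀ (by positivity) (inv_le_one_of_one_le₀ h2)
  refine le_trans (sum_le_sum h1) ?_
  simp

theorem abs_hs_le (r : ℕ) (n : ℤ) : |hs r n| ≤ |(n : ℚ)| := by
  unfold hs
  have h1 := ArGBound_sum r ((Finset.Ioc 0 n).filter (fun b => b % 2 = n % 2)) (by simp)
  have h2 := ArGBound_sum r ((Finset.Ioo n 0).filter (fun b => b % 2 = n % 2)) (by simp)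
  have h3 : ((Finset.Ioc 0 n).filter (fun b => b % 2 = n % 2)).card ≤ (Finset.Ioc 0 n).card :=
    card_filter_le _ _
  have h4 : ((Finset.Ioo n 0).filter (fun b => b % 2 = n % 2)).card ≤ (Finset.Ioo n 0).card :=
    card_filter_le _ _
  rw [Int.card_Ioc] at h3
  rw [Int.card_Ioo] at h4
  have h5 : (((Finset.Ioc 0 n).filter (fun b => b % 2 = n % 2)).card : ℤ) +
      (((Finset.Ioo n 0).filter (fun b => b % 2 = n % 2)).card : ℤ) ≤ |n| := by
    rcases le_total 0 n with h | h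
    · rw [abs_of_nonneg h]
      omega
    · rw [abs_of_nonpos h]
      omega
  have h6 : (((Finset.Ioc 0 n).filter (fun b => b % 2 = n % 2)).card : ℚ) +
      (((Finset.Ioo n 0).filter (fun b => b % 2 = n % 2)).card : ℚ) ≤ |(n : ℚ)| := by
    exact_mod_cast h5
  refine le_trans (abs_sub _ _) ?_
  linarith

private theorem ArGBound_gs (c : ℚ) (n : ℤ) (M : ℚ) (hn : |(n : ℚ)| ≤ M) (j : ℕ) (hj : j < 4) :
    |gs c n j| ≤ 4 * M + |c| := by
  unfold gs
  have h1 : |(-1 : ℚ) ^ j * ((j : ℚ) + 1) * hs (1 + j) n| ≤ 4 * M := by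
    rw [abs_mul, abs_mul, abs_pow, abs_neg, abs_one, one_pow, one_mul]
    have h2 : |(j : ℚ) + 1| ≤ 4 := by
      rw [abs_of_nonneg (by positivity)]
      have : (j : ℚ) ≤ 3 := by exact_mod_cast Nat.lt_succ_iff.1 hj
      linarith
    have h3 : |hs (1 + j) n| ≤ M := le_trans (abs_hs_le _ _) hn
    exact mul_le_mul h2 h3 (abs_nonneg _) (by norm_num)
  have h2 : |if j = 2 then (if Even n then c / 8 else 7 * c / 8) else 0| ≤ |c| := by
    split_ifs
    · rw [abs_div, abs_of_pos (by norm_num : (0 : ℚ) < 8)]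
      have := abs_nonneg c
      linarith
    · rw [abs_div, abs_mul, abs_of_pos (by norm_num : (0 : ℚ) < 8),
        abs_of_pos (by norm_num : (0 : ℚ) < 7)]
      have := abs_nonneg c
      linarith
    · simp
  refine le_trans (abs_sub _ _) ?_
  linarith

theorem abs_gj_le (c : ℚ) (β : Blk) (n : ℤ) (N : ℕ) (hn : |n| ≤ N) (j : ℕ) (hj : j < 4) :
    |gj c β n j| ≤ cf c β * (4 * ((N : ℚ) + 2) + 1) := by
  have hN : (0 : ℚ) ≤ N := by positivity
  have hc := abs_nonneg c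
  have hnQ : |(n : ℚ)| ≤ N := by exact_mod_cast hn
  have hcN : 0 ≤ |c| * N := mul_nonneg hc hN
  cases β with
  | z =>
    simp only [gj, cf]
    split_ifs
    · rw [abs_one]; linarith
    · rw [abs_zero]; linarith
  | u =>
    simp only [gj, cf]
    split_ifs
    · rw [abs_one]; linarith
    · rw [abs_zero]; linarith
  | s =>
    simp only [gj, cf]
    have := ArGBound_gs c n N hnQ j hj
    nlinarith
  | t =>
    simp only [gj, cf]
    have h1 : |((n - 1 : ℤ) : ℚ)| ≤ (N : ℚ) + 1 := by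
      push_cast
      refine le_trans (abs_sub _ _) ?_
      rw [abs_one]
      linarith
    have := ArGBound_gs c (n - 1) ((N : ℚ) + 1) h1 j hj
    nlinarith
  | o =>
    simp only [gj, cf]
    split_ifs
    · rw [abs_one]; linarith
    · rw [abs_zero]; linarith

theorem abs_J_le (c : ℚ) (β : Blk) (P : ℚ[X]) (n : ℤ) (N : ℕ) (hn : |n| ≤ N) (k : ℕ) (hk : k < 4)
    (b : ℚ) (hb : ∀ i ≤ k, |(taylor (n : ℚ) P).coeff i| ≤ b) :
    |J c β P n k| ≤ cf c β * (4 * (4 * ((N : ℚ) + 2) + 1) * b) := by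
  have hb0 : 0 ≤ b := le_trans (abs_nonneg _) (hb 0 (Nat.zero_le _))
  have hcf : 0 ≤ cf c β := by
    have hc := abs_nonneg c
    cases β <;> simp only [cf] <;> linarith
  have hM : (0 : ℚ) ≤ cf c β * (4 * ((N : ℚ) + 2) + 1) := mul_nonneg hcf (by positivity)
  rw [J_eq_sum]
  refine le_trans (abs_sum_le_sum_abs _ _) ?_
  have h1 : ∀ i ∈ range (k + 1), |(taylor (n : ℚ) P).coeff i * gj c β n (k - i)| ≤
      b * (cf c β * (4 * ((N : ℚ) + 2) + 1)) := by
    intro i hi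
    rw [mem_range] at hi
    rw [abs_mul]
    exact mul_le_mul (hb i (by omega)) (abs_gj_le c β n N hn (k - i) (by omega)) (abs_nonneg _) hb0
  refine le_trans (sum_le_sum h1) ?_
  rw [sum_const, card_range, nsmul_eq_mul]
  have h2 : ((k + 1 : ℕ) : ℚ) ≤ 4 := by exact_mod_cast hk
  have h3 : 0 ≤ b * (cf c β * (4 * ((N : ℚ) + 2) + 1)) := mul_nonneg hb0 hM
  calc ((k + 1 : ℕ) : ℚ) * (b * (cf c β * (4 * ((N : ℚ) + 2) + 1)))
      ≤ 4 * (b * (cf c β * (4 * ((N : ℚ) + 2) + 1))) := mul_le_mul_of_nonneg_right h2 h3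
    _ = cf c β * (4 * (4 * ((N : ℚ) + 2) + 1) * b) := by ring

end MP_a3a416_nt.SJ
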