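import Pool.Agent.Lib.MP_a3a416_nt.SJ.ArDefs

/-! The product of the row weights. -/

set_option autoImplicit false

open Polynomial Finset

namespace MP_a3a416_nt.SJ

theorem prod_rows (N : ℕ) : ∏ ρ : Row N, (ppr (EE N) (node ρ) : ℚ) = WN N ^ 4 := by
  rw [Fintype.prod_prod_type]
  have h1 : ∀ x : Fin (2 * N + 1), ∏ y : Fin 4, (ppr (EE N) (node ((x, y) : Row N)) : ℚ) =
      (ppr (EE N) (((x : ℕ) : ℤ) - N) : ℚ) ^ 4 := by
    intro x
    simp only [node]
    rw [Finset.prod_const, Finset.card_univ, Fintype.card_fin]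
  rw [Finset.prod_congr rfl (fun x _ => h1 x), Finset.prod_pow, WN]
  congr 1
  apply Finset.prod_bij (fun (x : Fin (2 * N + 1)) _ => ((x : ℕ) : ℤ) - N)
  · intro x _
    have := x.2
    rw [Finset.mem_Icc]
    constructor <;> omega
  · intro x _ y _ h
    apply Fin.ext
    omega
  · intro n hn
    rw [Finset.mem_Icc] at hn
    refine ⟨⟨(n + N).toNat, by omega⟩, Finset.mem_univ _, ?_⟩
    simp only
    omega
  · intro x _
    rfl

end MP_a3a416_nt.SJ
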