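import Pool.Agent.Lib.MP_a3a416_nt.SJ.ArLeib
import Pool.Agent.Lib.MP_a3a416_nt.SJ.ArEntry
import Pool.Agent.Lib.MP_a3a416_nt.SJ.ArCols
import Pool.Agent.Lib.MP_a3a416_nt.SJ.ArRows

/-! Bound for the determinant in the new basis. -/

set_option autoImplicit false

open Polynomial Finset

namespace MP_a3a416_nt.SJ

theorem abs_sdet_bas_le (c : ℚ) {N K A c0 : ℕ} (h2 : 2 ≤ N) (hN : Even N) (hK : N + 1 ≤ K)
    (hA : N + 1 ≤ A) (hA8 : A ≤ 8 * N) (hK8 : K ≤ 8 * N) (t : ℕ → ℚ[X]) (ht : ChebOK N t)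
    (rr : Fin c0 → Row N) (e : (Col K A ⊕ Fin c0) ≃ Row N) :
    |sdet e (VP c K A (fun _ => bas t N) rr)| ≤
      (Nat.factorial (8 * N + 4) : ℚ) * WN N ^ 4 *
      ((1 + |c|) ^ (2 * A) * Cst N ^ (8 * N + 4) * (VE N ^ 5)⁻¹ *
      ∏ β : Blk, ((N : ℚ) / 2) ^ (∑ i ∈ range (len K A β - (N + 1)), i)) := by
  have h := abs_sdet_le e (VP c K A (fun _ => bas t N) rr)
    (fun ρ => (ppr (EE N) (node ρ) : ℚ)) (cw c N K A c0)
    (fun ρ x => entry_le c h2 hN hA8 hK8 t ht rr ρ x)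
  have hcard : Fintype.card (Row N) = 8 * N + 4 := by
    rw [card_row]
    ring
  have hcard2 : Fintype.card (Col K A ⊕ Fin c0) = 8 * N + 4 := by
    rw [Fintype.card_congr e, hcard]
  rw [prod_rows, prod_cw c hN hK hA, hcard, hcard2] at h
  exact h

end MP_a3a416_nt.SJ
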