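import Pool.Agent.Lib.MP_a3a416_nt.SJ.ArDefs

/-! The numbers `d_n` are products of double factorials. -/

set_option autoImplicit false

open Polynomial Finset

namespace MP_a3a416_nt.SJ

private theorem dfac (k : ℕ) : ∏ j ∈ range ((k + 1) / 2), (k - 2 * j) = Nat.doubleFactorial k := by
  induction k using Nat.twoStepInduction with
  | zero => simp
  | one => simp
  | more k ih1 _ =>
    have h1 : (k + 2 + 1) / 2 = (k + 1) / 2 + 1 := by omega
    rw [h1, prod_range_succ', Nat.doubleFactorial_add_two, mul_comm, ← ih1]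
    congr 1
    refine prod_congr rfl fun j _ => ?_
    omega

private theorem left_prod (N : ℕ) (hN : Even N) (n : ℤ) (hn1 : -(N : ℤ) ≤ n) (hn2 : n ≤ N) :
    ∏ e ∈ (EE N).filter (fun e => e < n), (n - e).natAbs =
      Nat.doubleFactorial ((N : ℤ) + n).toNat := by
  rw [← dfac]
  obtain ⟨M, hM⟩ := hN
  refine prod_nbij' (fun e => ((e + N) / 2).toNat) (fun j => 2 * (j : ℤ) - N) ?_ ?_ ?_ ?_ ?_
  · intro e he
    simp only [EE, mem_filter, mem_Icc] at he
    simp only [mem_range]
    omega
  · intro j hj
    simp only [mem_range] at hj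
    simp only [EE, mem_filter, mem_Icc]
    omega
  · intro e he
    simp only [EE, mem_filter, mem_Icc] at he
    show 2 * ((((e + N) / 2).toNat : ℕ) : ℤ) - N = e
    omega
  · intro j hj
    simp only [mem_range] at hj
    show ((2 * (j : ℤ) - N + N) / 2).toNat = j
    omega
  · intro e he
    simp only [EE, mem_filter, mem_Icc] at he
    show (n - e).natAbs = ((N : ℤ) + n).toNat - 2 * ((e + N) / 2).toNat
    omega

theorem ppr_EE (N : ℕ) (hN : Even N) (n : ℤ) (hn : |n| ≤ N) :
    ppr (EE N) n = Nat.doubleFactorial ((N : ℤ) + n).toNat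
      * Nat.doubleFactorial ((N : ℤ) - n).toNat := by
  obtain ⟨hn1, hn2⟩ := abs_le.mp hn
  have h1 := left_prod N hN n hn1 hn2
  have h2 := left_prod N hN (-n) (by omega) (by omega)
  have h3 : ∏ e ∈ (EE N).filter (fun e => n < e), (n - e).natAbs =
      ∏ e ∈ (EE N).filter (fun e => e < -n), (-n - e).natAbs := by
    refine prod_nbij' (fun e => -e) (fun e => -e) ?_ ?_ ?_ ?_ ?_
    · intro e he
      simp only [EE, mem_filter, mem_Icc] at he ⊢
      omega
    · intro e he
      simp only [EE, mem_filter, mem_Icc] at he ⊢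
      omega
    · intro e _
      simp
    · intro e _
      simp
    · intro e _
      show (n - e).natAbs = (-n - -e).natAbs
      omega
  have h4 : (EE N).erase n = (EE N).filter (fun e => e < n) ∪ (EE N).filter (fun e => n < e) := by
    ext e
    simp only [mem_erase, mem_union, mem_filter]
    constructor
    · rintro ⟨h5, h6⟩
      rcases lt_or_gt_of_ne h5 with h7 | h7
      · exact Or.inl ⟨h6, h7⟩
      · exact Or.inr ⟨h6, h7⟩
    · rintro (⟨h5, h6⟩ | ⟨h5, h6⟩)
      · exact ⟨h6.ne, h5⟩
      · exact ⟨h6.ne', h5⟩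
  have h5 : Disjoint ((EE N).filter (fun e => e < n)) ((EE N).filter (fun e => n < e)) := by
    rw [disjoint_left]
    intro e he1 he2
    simp only [mem_filter] at he1 he2
    omega
  unfold ppr
  rw [h4, prod_union h5, h1, h3, h2]
  congr 2

end MP_a3a416_nt.SJ
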