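import Pool.Agent.Lib.MP_a3a416_nt.SJ.ArDefs

/-! Leibniz bound for determinants. -/

set_option autoImplicit false

open Polynomial Finset

namespace MP_a3a416_nt.SJ

theorem abs_sdet_le {ρ κ : Type*} [Fintype κ] [DecidableEq κ] [Fintype ρ] (e : κ ≃ ρ)
    (M : Matrix ρ κ ℚ) (a : ρ → ℚ) (b : κ → ℚ) (h : ∀ i j, |M i j| ≤ a i * b j) :
    |sdet e M| ≤ (Nat.factorial (Fintype.card ρ) : ℚ) * (∏ i, a i) * ∏ j, b j := by
  have hcard : Fintype.card ρ = Fintype.card κ := (Fintype.card_congr e).symm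
  have hprod : (∏ i, a i) = ∏ k, a (e k) := (Equiv.prod_comp e a).symm
  unfold sdet
  rw [Matrix.det_apply]
  refine le_trans (Finset.abs_sum_le_sum_abs _ _) ?_
  have hterm : ∀ σ ∈ (Finset.univ : Finset (Equiv.Perm κ)),
      |Equiv.Perm.sign σ • ∏ i, (M.submatrix e id) (σ i) i| ≤ (∏ i, a i) * ∏ j, b j := by
    intro σ _
    have h1 : |Equiv.Perm.sign σ • ∏ i, (M.submatrix e id) (σ i) i|
        = ∏ i, |(M.submatrix e id) (σ i) i| := by
      rw [← Finset.abs_prod]
      rcases Int.units_eq_one_or (Equiv.Perm.sign σ) with hs | hs <;> rw [hs] <;> simp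
    rw [h1]
    refine le_trans (Finset.prod_le_prod (fun i _ => abs_nonneg _) (fun i _ => h (e (σ i)) i)) ?_
    rw [Finset.prod_mul_distrib, hprod]
    exact le_of_eq (congrArg (· * ∏ j, b j) (Equiv.prod_comp σ (fun k => a (e k))))
  refine le_trans (Finset.sum_le_card_nsmul _ _ _ hterm) ?_
  rw [Finset.card_univ, Fintype.card_perm, hcard, nsmul_eq_mul, mul_assoc]

end MP_a3a416_nt.SJ
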