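import Pool.Agent.Lib.MP_a3a416_nt.SJ.ArEven

/-! The square of the Vandermonde determinant of the even nodes. -/

set_option autoImplicit false

open Polynomial Finset

namespace MP_a3a416_nt.SJ

private theorem ev_inj (N i j : ℕ) (h : ev N i = ev N j) : i = j := by
  unfold ev at h
  omega

private theorem ppr_ev (N : ℕ) (hN : Even N) (i : Fin (N + 1)) :
    (ppr (EE N) (ev N i) : ℚ) = ∏ j ∈ univ.erase i, |(ev N i : ℚ) - ev N j| := by
  unfold ppr
  have h1 : ∏ s ∈ (EE N).erase (ev N i), (ev N i - s).natAbs =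
      ∏ s ∈ EE N, (if s = ev N i then 1 else (ev N i - s).natAbs) := by
    rw [← mul_prod_erase (EE N) _ (ev_mem N i hN i.2), if_pos rfl, one_mul]
    refine prod_congr rfl fun s hs => ?_
    rw [if_neg (ne_of_mem_erase hs)]
  rw [h1, prod_EE N hN]
  have h2 : ∏ j : Fin (N + 1), (if ev N j = ev N i then 1 else (ev N i - ev N j).natAbs) =
      ∏ j ∈ univ.erase i, (ev N i - ev N j).natAbs := by
    rw [← mul_prod_erase univ _ (mem_univ i), if_pos rfl, one_mul]
    refine prod_congr rfl fun j hj => ?_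
    rw [if_neg]
    intro h3
    exact ne_of_mem_erase hj (Fin.ext (ev_inj N _ _ h3))
  rw [h2]
  push_cast
  refine prod_congr rfl fun j _ => ?_
  rw [Nat.cast_natAbs]
  push_cast
  rfl

theorem vander_sq (N : ℕ) (hN : Even N) :
    (Matrix.vandermonde (fun i : Fin (N + 1) => (ev N i : ℚ))).det ^ 2 = VE N := by
  set f : Fin (N + 1) → Fin (N + 1) → ℚ := fun i j => |(ev N i : ℚ) - ev N j| with hf
  have hsym : ∀ i j, f i j = f j i := fun i j => abs_sub_comm _ _
  have h1 : (Matrix.vandermonde (fun i : Fin (N + 1) => (ev N i : ℚ))).det ^ 2 =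
      (∏ i : Fin (N + 1), ∏ j ∈ Ioi i, f i j) * (∏ i : Fin (N + 1), ∏ j ∈ Ioi i, f j i) := by
    rw [← sq_abs, Matrix.det_vandermonde, abs_prod, sq]
    congr 1
    · refine prod_congr rfl fun i _ => ?_
      rw [abs_prod]
      refine prod_congr rfl fun j _ => ?_
      rw [hf]
      exact abs_sub_comm _ _
    · refine prod_congr rfl fun i _ => ?_
      rw [abs_prod]
  have h2 : (∏ i : Fin (N + 1), ∏ j ∈ Ioi i, f j i) = ∏ i : Fin (N + 1), ∏ j ∈ Iio i, f i j := by
    rw [prod_comm' (t' := univ) (s' := fun j => Iio j)]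
    intro x y
    simp
  rw [h1, h2, ← prod_mul_distrib, VE, prod_EE N hN]
  refine prod_congr rfl fun i _ => ?_
  rw [ppr_ev N hN i]
  have h3 : (univ.erase i : Finset (Fin (N + 1))) = Ioi i ∪ Iio i := by
    ext j
    simp only [mem_erase, mem_univ, and_true, mem_union, mem_Ioi, mem_Iio]
    constructor
    · intro h
      rcases lt_or_gt_of_ne h with h4 | h4
      · exact Or.inr h4
      · exact Or.inl h4
    · rintro (h4 | h4)
      · exact h4.ne'
      · exact h4.ne
  have h4 : Disjoint (Ioi i) (Iio i) := by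
    rw [disjoint_left]
    intro j hj1 hj2
    rw [mem_Ioi] at hj1
    rw [mem_Iio] at hj2
    exact absurd hj1 (not_lt.mpr hj2.le)
  rw [h3, prod_union h4]

end MP_a3a416_nt.SJ
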