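import Pool.Agent.Lib.MP_a3a416_nt.SJ.FAsy

/-! # SJ-FSL: `sum_{i < M} log i! = M^2/2 (log M - 3/2) + O(M log M)`
PROOF. `n log n - n <= log n! <= n log n - n + log n + 1` for `n >= 1` (Mathlib: `Real.add_pow_le_pow_mul_pow_of_add_eq_one`-free proof: induction, or
`Nat.factorial_lt...`, `Stirling`; e.g. `exp 1` bounds `n! >= (n/e)^n` by `Real.exp` series and `n! <= n (n/e)^n e`). Let `h(x) = x^2/2 (log x - 3/2)`, `h' = x log x - x`
increasing for `x >= 1`, so `h(M+1) - h(M)` lies between `M log M - M` and `(M+1) log (M+1) - (M+1)`; induction on `M`: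
`|SL M - h(M)| <= C M (log M + 1)`. Then replace `M = M(m)`, `|M - c m| <= e`: `M^2 = c^2 m^2 + O(m)`, `log M = log m + log c + O(1/m)`
and everything is `o(m^2)`. -/

set_option autoImplicit false

namespace MP_a3a416_nt.SJ

open Finset Filter

private theorem FSL_delta {n : ℕ} (hn : 1 ≤ n) :
    1 / ((n : ℝ) + 1) ≤ Real.log ((n : ℝ) + 1) - Real.log n ∧
      Real.log ((n : ℝ) + 1) - Real.log n ≤ 1 / (n : ℝ) := by
  have hn0 : (0 : ℝ) < n := by exact_mod_cast hn
  have hn1 : (0 : ℝ) < (n : ℝ) + 1 := by positivity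
  constructor
  · have h := Real.one_sub_inv_le_log_of_pos (show (0 : ℝ) < ((n : ℝ) + 1) / n by positivity)
    rw [Real.log_div hn1.ne' hn0.ne'] at h
    refine le_trans (le_of_eq ?_) h
    field_simp
    ring
  · have h := Real.log_le_sub_one_of_pos (show (0 : ℝ) < ((n : ℝ) + 1) / n by positivity)
    rw [Real.log_div hn1.ne' hn0.ne'] at h
    refine le_trans h (le_of_eq ?_)
    field_simp
    ring

private theorem FSL_log_fact {n : ℕ} (hn : 1 ≤ n) :
    (n : ℝ) * Real.log n - n ≤ Real.log (n.factorial : ℝ) ∧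
      Real.log (n.factorial : ℝ) ≤ (n : ℝ) * Real.log n - n + Real.log n + 1 := by
  induction n, hn using Nat.le_induction with
  | base => simp
  | succ n hn ih =>
    have hn0 : (0 : ℝ) < n := by exact_mod_cast hn
    obtain ⟨h1, h2⟩ := FSL_delta hn
    have hf : Real.log ((n + 1).factorial : ℝ) = Real.log ((n : ℝ) + 1) +
        Real.log (n.factorial : ℝ) := by
      rw [Nat.factorial_succ]
      push_cast
      rw [Real.log_mul (by positivity) (by exact_mod_cast n.factorial_ne_zero)]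
    have e1 : 1 ≤ ((n : ℝ) + 1) * (Real.log ((n : ℝ) + 1) - Real.log n) := by
      have := mul_le_mul_of_nonneg_left h1 (show (0 : ℝ) ≤ (n : ℝ) + 1 by positivity)
      rwa [mul_one_div_cancel (by positivity)] at this
    have e2 : (n : ℝ) * (Real.log ((n : ℝ) + 1) - Real.log n) ≤ 1 := by
      have := mul_le_mul_of_nonneg_left h2 hn0.le
      rwa [mul_one_div_cancel hn0.ne'] at this
    rw [hf]
    push_cast
    constructor
    · nlinarith [ih.1]
    · nlinarith [ih.2]

private noncomputable def FSL_H (M : ℕ) : ℝ := (M : ℝ) ^ 2 / 2 * (Real.log M - 3 / 2)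

private theorem FSL_step {n : ℕ} (hn : 1 ≤ n) :
    |Real.log (n.factorial : ℝ) - (FSL_H (n + 1) - FSL_H n)| ≤ 5 / 4 * (Real.log n + 1) := by
  have hn0 : (0 : ℝ) < n := by exact_mod_cast hn
  have hn1 : (1 : ℝ) ≤ n := by exact_mod_cast hn
  obtain ⟨h1, h2⟩ := FSL_delta hn
  obtain ⟨g1, g2⟩ := FSL_log_fact hn
  set d := Real.log ((n : ℝ) + 1) - Real.log n with hd
  have hl : 0 ≤ Real.log n := Real.log_nonneg hn1
  have hH : FSL_H (n + 1) - FSL_H n = ((n : ℝ) + 1) ^ 2 / 2 * d + ((n : ℝ) + 1 / 2) * Real.log n -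
      3 / 2 * n - 3 / 4 := by
    unfold FSL_H
    push_cast
    have : Real.log ((n : ℝ) + 1) = d + Real.log n := by rw [hd]; ring
    rw [this]
    ring
  have e1 : ((n : ℝ) + 1) / 2 ≤ ((n : ℝ) + 1) ^ 2 / 2 * d := by
    have := mul_le_mul_of_nonneg_left h1 (show (0 : ℝ) ≤ ((n : ℝ) + 1) ^ 2 / 2 by positivity)
    refine le_trans (le_of_eq ?_) this
    field_simp
  have e2 : ((n : ℝ) + 1) ^ 2 / 2 * d ≤ n / 2 + 3 / 2 := by
    have := mul_le_mul_of_nonneg_left h2 (show (0 : ℝ) ≤ ((n : ℝ) + 1) ^ 2 / 2 by positivity)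
    refine le_trans this ?_
    rw [mul_one_div, div_le_iff₀ hn0]
    nlinarith
  rw [hH, abs_le]
  constructor
  · nlinarith
  · nlinarith

theorem SL_bound : ∃ C : ℝ, ∀ M : ℕ, 1 ≤ M →
    |SL M - (M : ℝ) ^ 2 / 2 * (Real.log M - 3 / 2)| ≤ C * M * (Real.log M + 1) := by
  refine ⟨5 / 4, fun M hM => ?_⟩
  change |SL M - FSL_H M| ≤ _
  induction M, hM using Nat.le_induction with
  | base =>
    simp only [SL, FSL_H, sum_range_one, Nat.factorial_zero, Nat.cast_one, Real.log_one]
    norm_num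
  | succ n hn ih =>
    have hn0 : (0 : ℝ) < n := by exact_mod_cast hn
    have hn1 : (1 : ℝ) ≤ n := by exact_mod_cast hn
    have hl : 0 ≤ Real.log n := Real.log_nonneg hn1
    have hmono : Real.log n ≤ Real.log ((n : ℝ) + 1) := Real.log_le_log hn0 (by linarith)
    have e : SL (n + 1) - FSL_H (n + 1) = (SL n - FSL_H n) +
        (Real.log (n.factorial : ℝ) - (FSL_H (n + 1) - FSL_H n)) := by
      unfold SL
      rw [sum_range_succ]
      ring
    rw [e]
    refine (abs_add_le _ _).trans ?_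
    refine (add_le_add ih (FSL_step hn)).trans ?_
    push_cast
    nlinarith

private theorem FSL_log_div : Tendsto (fun m : ℕ => Real.log m / (m : ℝ)) atTop (nhds 0) := by
  have h := Real.isLittleO_log_id_atTop.comp_tendsto tendsto_natCast_atTop_atTop
  have h2 := h.tendsto_div_nhds_zero
  exact h2

private theorem FSL_one_div : Tendsto (fun m : ℕ => 1 / (m : ℝ)) atTop (nhds 0) :=
  tendsto_one_div_atTop_nhds_zero_nat

theorem SL_asy (c : ℝ) (hc : 0 < c) (M : ℕ → ℕ) (e : ℝ) (hM : ∀ m : ℕ, |(M m : ℝ) - c * m| ≤ e) :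
    Asy (fun m => SL (M m)) (c ^ 2 / 2) (c ^ 2 / 2 * (Real.log c - 3 / 2)) := by
  obtain ⟨C, hC⟩ := SL_bound
  have he : 0 ≤ e := (abs_nonneg _).trans (hM 0)
  -- the ratio
  have hr : Tendsto (fun m : ℕ => (M m : ℝ) / m) atTop (nhds c) := by
    rw [tendsto_iff_norm_sub_tendsto_zero]
    have hb : Tendsto (fun m : ℕ => e * (1 / (m : ℝ))) atTop (nhds 0) := by
      simpa using FSL_one_div.const_mul e
    refine squeeze_zero' (Eventually.of_forall fun m => norm_nonneg _) ?_ hb
    filter_upwards [eventually_ge_atTop 1] with m hm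
    have hm0 : (0 : ℝ) < m := by exact_mod_cast hm
    have : (M m : ℝ) / m - c = ((M m : ℝ) - c * m) / m := by field_simp
    rw [this, norm_div, Real.norm_eq_abs, Real.norm_eq_abs, abs_of_pos hm0, mul_one_div]
    exact div_le_div_of_nonneg_right (hM m) hm0.le
  -- eventually large
  have hlarge : ∀ᶠ m : ℕ in atTop, 1 ≤ M m ∧ 1 ≤ m ∧ (M m : ℝ) ≤ (c + e) * m := by
    have h1 : ∀ᶠ m : ℕ in atTop, (e + 1) / c ≤ (m : ℝ) :=
      tendsto_natCast_atTop_atTop.eventually_ge_atTop _
    filter_upwards [h1, eventually_ge_atTop 1] with m hm hm1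
    have hm0 : (1 : ℝ) ≤ m := by exact_mod_cast hm1
    rw [div_le_iff₀ hc] at hm
    obtain ⟨g1, g2⟩ := abs_le.mp (hM m)
    refine ⟨?_, hm1, by nlinarith⟩
    have : (1 : ℝ) ≤ M m := by linarith
    exact_mod_cast this
  unfold Asy
  rw [Asymptotics.isLittleO_iff_tendsto']
  swap
  · filter_upwards [eventually_ge_atTop 1] with m hm h
    have hm0 : (0 : ℝ) < m := by exact_mod_cast hm
    exact absurd h (by positivity)
  -- the three parts
  have t1 : Tendsto (fun m : ℕ => (SL (M m) - (M m : ℝ) ^ 2 / 2 * (Real.log (M m) - 3 / 2)) /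
      (m : ℝ) ^ 2) atTop (nhds 0) := by
    have hb : Tendsto (fun m : ℕ => |C| * (c + e) * ((Real.log (c + e) + 1) * (1 / (m : ℝ)) +
        Real.log m / m)) atTop (nhds 0) := by
      have := ((FSL_one_div.const_mul (Real.log (c + e) + 1)).add FSL_log_div).const_mul
        (|C| * (c + e))
      simpa using this
    refine squeeze_zero_norm' ?_ hb
    filter_upwards [hlarge] with m ⟨h1, h2, h3⟩
    have hm0 : (0 : ℝ) < m := by exact_mod_cast h2
    have hM0 : (1 : ℝ) ≤ M m := by exact_mod_cast h1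
    have hce : 0 < c + e := by linarith
    rw [norm_div, Real.norm_eq_abs, Real.norm_eq_abs, abs_of_pos (by positivity : 0 < (m : ℝ) ^ 2),
      div_le_iff₀ (by positivity)]
    refine (hC (M m) h1).trans ?_
    have hlog : Real.log (M m) ≤ Real.log (c + e) + Real.log m := by
      rw [← Real.log_mul hce.ne' hm0.ne']
      exact Real.log_le_log (by linarith) h3
    have hl0 : 0 ≤ Real.log (M m) := Real.log_nonneg hM0
    have e1 : C * (M m) * (Real.log (M m) + 1) ≤ |C| * (M m) * (Real.log (M m) + 1) := by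
      have := le_abs_self C
      gcongr
    refine e1.trans ?_
    have e2 : |C| * (M m) * (Real.log (M m) + 1) ≤
        |C| * ((c + e) * m) * (Real.log (c + e) + Real.log m + 1) := by
      gcongr
    refine e2.trans (le_of_eq ?_)
    field_simp
    ring
  have t2 : Tendsto (fun m : ℕ => ((M m : ℝ) / m) ^ 2 / 2 * (Real.log ((M m : ℝ) / m) - 3 / 2))
      atTop (nhds (c ^ 2 / 2 * (Real.log c - 3 / 2))) :=
    ((hr.pow 2).div_const 2).mul ((hr.log hc.ne').sub_const _)
  have t3 : Tendsto (fun m : ℕ => (((M m : ℝ) / m) ^ 2 - c ^ 2) / 2 * Real.log m) atTop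
      (nhds 0) := by
    have hb : Tendsto (fun m : ℕ => e * (2 * c + e) * (Real.log m / m)) atTop (nhds 0) := by
      simpa using FSL_log_div.const_mul (e * (2 * c + e))
    refine squeeze_zero_norm' ?_ hb
    filter_upwards [hlarge] with m ⟨h1, h2, h3⟩
    have hm0 : (0 : ℝ) < m := by exact_mod_cast h2
    have hm1 : (1 : ℝ) ≤ m := by exact_mod_cast h2
    have hM0 : (1 : ℝ) ≤ M m := by exact_mod_cast h1
    have hl : 0 ≤ Real.log m := Real.log_nonneg hm1
    have e0 : (((M m : ℝ) / m) ^ 2 - c ^ 2) / 2 * Real.log m =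
        ((M m : ℝ) - c * m) * ((M m : ℝ) / m + c) / 2 * (Real.log m / m) := by
      field_simp
      ring
    rw [e0, norm_mul, norm_div, norm_mul, Real.norm_eq_abs, Real.norm_eq_abs, Real.norm_eq_abs,
      Real.norm_eq_abs, abs_of_nonneg (by positivity : 0 ≤ Real.log m / m)]
    refine mul_le_mul_of_nonneg_right ?_ (by positivity)
    have hr1 : (M m : ℝ) / m ≤ c + e := by
      rw [div_le_iff₀ hm0]; exact h3
    have hr2 : |(M m : ℝ) / m + c| ≤ 2 * c + e := by
      rw [abs_of_pos (by positivity)]; linarith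
    have h2' : |(2 : ℝ)| = 2 := abs_of_pos (by norm_num)
    rw [h2', div_le_iff₀ (by norm_num)]
    calc |(M m : ℝ) - c * m| * |(M m : ℝ) / m + c| ≤ e * (2 * c + e) :=
          mul_le_mul (hM m) hr2 (abs_nonneg _) he
      _ ≤ e * (2 * c + e) * 2 := by nlinarith [mul_nonneg he (by linarith : 0 ≤ 2 * c + e)]
  have t := (t1.add t2).add t3
  have t' := t.sub_const (c ^ 2 / 2 * (Real.log c - 3 / 2))
  have e0 : 0 + c ^ 2 / 2 * (Real.log c - 3 / 2) + 0 - c ^ 2 / 2 * (Real.log c - 3 / 2) = 0 := by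
    ring
  rw [e0] at t'
  refine t'.congr' ?_
  filter_upwards [hlarge] with m ⟨h1, h2, h3⟩
  have hm0 : (0 : ℝ) < m := by exact_mod_cast h2
  have hM0 : (0 : ℝ) < M m := by exact_mod_cast h1
  rw [Real.log_div hM0.ne' hm0.ne']
  field_simp
  ring

end MP_a3a416_nt.SJ
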