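import Pool.Agent.Lib.MP_a3a416_nt.SJ.ArDn
import Pool.Agent.Lib.MP_a3a416_nt.SJ.ArEven
import Pool.Agent.Lib.MP_a3a416_nt.SJ.FSL

/-! Logarithms of the products `WN`, `VE`. -/

set_option autoImplicit false

open Polynomial Finset

namespace MP_a3a416_nt.SJ

private theorem arwv_log_ppr (N : ℕ) (hN : Even N) (n : ℤ) (hn : |n| ≤ N) :
    ((ppr (EE N) n : ℚ) : ℝ) ≠ 0 ∧ Real.log ((ppr (EE N) n : ℚ) : ℝ)
      = Real.log (Nat.doubleFactorial ((N : ℤ) + n).toNat : ℝ)
        + Real.log (Nat.doubleFactorial ((N : ℤ) - n).toNat : ℝ) := by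
  have h1 : (0 : ℝ) < (Nat.doubleFactorial ((N : ℤ) + n).toNat : ℝ) := by
    exact_mod_cast Nat.doubleFactorial_pos _
  have h2 : (0 : ℝ) < (Nat.doubleFactorial ((N : ℤ) - n).toNat : ℝ) := by
    exact_mod_cast Nat.doubleFactorial_pos _
  rw [ppr_EE N hN n hn]
  push_cast
  exact ⟨(mul_pos h1 h2).ne', Real.log_mul h1.ne' h2.ne'⟩

private theorem arwv_sum_range (N : ℕ) :
    ∑ k ∈ range (2 * N + 1), Real.log (Nat.doubleFactorial k : ℝ)
      = ∑ j ∈ range (N + 1), Real.log (Nat.factorial (2 * j)) := by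
  induction N with
  | zero => simp
  | succ N ih =>
    rw [show 2 * (N + 1) + 1 = 2 * N + 1 + 1 + 1 by ring, sum_range_succ, sum_range_succ, ih,
      sum_range_succ _ (N + 1), add_assoc]
    congr 1
    rw [show 2 * (N + 1) = (2 * N + 1) + 1 by ring, Nat.factorial_eq_mul_doubleFactorial]
    have h1 : (0 : ℝ) < (Nat.doubleFactorial (2 * N + 1) : ℝ) := by
      exact_mod_cast Nat.doubleFactorial_pos _
    have h2 : (0 : ℝ) < (Nat.doubleFactorial (2 * N + 1 + 1) : ℝ) := by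
      exact_mod_cast Nat.doubleFactorial_pos _
    push_cast
    rw [Real.log_mul h2.ne' h1.ne', add_comm]

private theorem arwv_icc_plus (N : ℕ) (F : ℕ → ℝ) :
    ∑ n ∈ Finset.Icc (-(N : ℤ)) N, F ((N : ℤ) + n).toNat = ∑ k ∈ range (2 * N + 1), F k := by
  refine Finset.sum_nbij' (fun n => ((N : ℤ) + n).toNat) (fun k => (k : ℤ) - N) ?_ ?_ ?_ ?_ ?_
  · intro n hn
    rw [Finset.mem_Icc] at hn
    rw [Finset.mem_range]
    omega
  · intro k hk
    rw [Finset.mem_range] at hk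
    rw [Finset.mem_Icc]
    omega
  · intro n hn
    rw [Finset.mem_Icc] at hn
    show (((N : ℤ) + n).toNat : ℤ) - N = n
    omega
  · intro k hk
    show ((N : ℤ) + ((k : ℤ) - N)).toNat = k
    omega
  · intro n hn
    rfl

private theorem arwv_icc_minus (N : ℕ) (F : ℕ → ℝ) :
    ∑ n ∈ Finset.Icc (-(N : ℤ)) N, F ((N : ℤ) - n).toNat = ∑ k ∈ range (2 * N + 1), F k := by
  refine Finset.sum_nbij' (fun n => ((N : ℤ) - n).toNat) (fun k => (N : ℤ) - k) ?_ ?_ ?_ ?_ ?_
  · intro n hn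
    rw [Finset.mem_Icc] at hn
    rw [Finset.mem_range]
    omega
  · intro k hk
    rw [Finset.mem_range] at hk
    rw [Finset.mem_Icc]
    omega
  · intro n hn
    rw [Finset.mem_Icc] at hn
    show (N : ℤ) - (((N : ℤ) - n).toNat : ℤ) = n
    omega
  · intro k hk
    show ((N : ℤ) - ((N : ℤ) - (k : ℤ))).toNat = k
    omega
  · intro n hn
    rfl

private theorem log_WN_eq0 (N : ℕ) (hN : Even N) :
    Real.log ((WN N : ℚ) : ℝ) = 2 * ∑ j ∈ range (N + 1), Real.log (Nat.factorial (2 * j)) := by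
  have habs : ∀ n ∈ Finset.Icc (-(N : ℤ)) N, |n| ≤ (N : ℤ) := by
    intro n hn
    rw [Finset.mem_Icc] at hn
    exact abs_le.2 hn
  unfold WN
  rw [Rat.cast_prod, Real.log_prod fun n hn => (arwv_log_ppr N hN n (habs n hn)).1,
    Finset.sum_congr rfl fun n hn => (arwv_log_ppr N hN n (habs n hn)).2, Finset.sum_add_distrib,
    arwv_icc_plus N (fun k => Real.log (Nat.doubleFactorial k : ℝ)),
    arwv_icc_minus N (fun k => Real.log (Nat.doubleFactorial k : ℝ)), arwv_sum_range, two_mul]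

private theorem log_VE_eq0 (N : ℕ) (hN : Even N) :
    Real.log ((VE N : ℚ) : ℝ)
      = 2 * ∑ j ∈ range (N + 1), Real.log (2 ^ j * (Nat.factorial j : ℝ)) := by
  have habs : ∀ n ∈ EE N, |n| ≤ (N : ℤ) := by
    intro n hn
    unfold EE at hn
    have hn' := (Finset.mem_filter.1 hn).1
    rw [Finset.mem_Icc] at hn'
    exact abs_le.2 hn'
  have hF : ∀ j : ℕ, Real.log (Nat.doubleFactorial (2 * j) : ℝ)
      = Real.log (2 ^ j * (Nat.factorial j : ℝ)) := by
    intro j
    rw [Nat.doubleFactorial_two_mul]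
    push_cast
    rfl
  unfold VE
  rw [Rat.cast_prod, Real.log_prod fun n hn => (arwv_log_ppr N hN n (habs n hn)).1,
    Finset.sum_congr rfl fun n hn => (arwv_log_ppr N hN n (habs n hn)).2, sum_EE N hN,
    Finset.sum_add_distrib]
  have h1 : ∑ i : Fin (N + 1), Real.log (Nat.doubleFactorial ((N : ℤ) + ev N i).toNat : ℝ)
      = ∑ j ∈ range (N + 1), Real.log (2 ^ j * (Nat.factorial j : ℝ)) := by
    rw [Finset.sum_range]
    refine Finset.sum_congr rfl fun i _ => ?_
    have h2 : ((N : ℤ) + ev N i).toNat = 2 * (i : ℕ) := by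
      unfold ev
      omega
    rw [h2, hF]
  have h3 : ∑ i : Fin (N + 1), Real.log (Nat.doubleFactorial ((N : ℤ) - ev N i).toNat : ℝ)
      = ∑ j ∈ range (N + 1), Real.log (2 ^ j * (Nat.factorial j : ℝ)) := by
    rw [← Finset.sum_range_reflect (fun j => Real.log (2 ^ j * (Nat.factorial j : ℝ))) (N + 1),
      Finset.sum_range]
    refine Finset.sum_congr rfl fun i _ => ?_
    have h2 : ((N : ℤ) - ev N i).toNat = 2 * (N + 1 - 1 - (i : ℕ)) := by
      have := i.2
      unfold ev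
      omega
    rw [h2, hF]
  rw [h1, h3, two_mul]

private theorem two_sum_log (N : ℕ) :
    2 * ∑ j ∈ range (N + 1), Real.log (Nat.factorial (2 * j)) =
      SL (2 * N + 2) - ∑ j ∈ range (N + 1), Real.log (2 * (j : ℝ) + 1) := by
  induction N with
  | zero => simp [SL, sum_range_succ]
  | succ N ih =>
    rw [sum_range_succ, mul_add, ih, sum_range_succ (fun j => Real.log (2 * (j : ℝ) + 1)) (N + 1)]
    have h1 : 2 * (N + 1) + 2 = 2 * N + 2 + 1 + 1 := by ring
    have h2 : 2 * (N + 1) = 2 * N + 2 := by ring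
    rw [h1, h2]
    unfold SL
    rw [sum_range_succ _ (2 * N + 2 + 1), sum_range_succ _ (2 * N + 2),
      Nat.factorial_succ (2 * N + 2)]
    have h3 : (0 : ℝ) < (Nat.factorial (2 * N + 2) : ℝ) := by exact_mod_cast Nat.factorial_pos _
    have h4 : (0 : ℝ) < ((2 * N + 2 + 1 : ℕ) : ℝ) := by positivity
    push_cast at h4 ⊢
    rw [Real.log_mul h4.ne' h3.ne']
    have h5 : 2 * ((N : ℝ) + 1) + 1 = 2 * N + 2 + 1 := by ring
    rw [h5]
    ring

private theorem two_sum_log_pow (N : ℕ) :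
    2 * ∑ j ∈ range (N + 1), Real.log (2 ^ j * (Nat.factorial j : ℝ)) =
      2 * SL (N + 1) + (N : ℝ) * (N + 1) * Real.log 2 := by
  induction N with
  | zero => simp [SL]
  | succ N ih =>
    rw [sum_range_succ, mul_add, ih]
    unfold SL
    rw [sum_range_succ _ (N + 1)]
    have h3 : (0 : ℝ) < (Nat.factorial (N + 1) : ℝ) := by exact_mod_cast Nat.factorial_pos _
    rw [Real.log_mul (by positivity) h3.ne', Real.log_pow]
    push_cast
    ring

theorem log_WN_eq (N : ℕ) (hN : Even N) :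
    Real.log ((WN N : ℚ) : ℝ) = SL (2 * N + 2) - ∑ j ∈ range (N + 1), Real.log (2 * (j : ℝ) + 1) := by
  rw [log_WN_eq0 N hN, two_sum_log]

theorem log_VE_eq (N : ℕ) (hN : Even N) :
    Real.log ((VE N : ℚ) : ℝ) = 2 * SL (N + 1) + (N : ℝ) * (N + 1) * Real.log 2 := by
  rw [log_VE_eq0 N hN, two_sum_log_pow]

private theorem upper_aux (N : ℝ) (hN : 2 ≤ N) :
    (2 * N + 2) ^ 2 / 2 * (Real.log (2 * N + 2) - 3 / 2) ≤
      2 * N ^ 2 * (Real.log (2 * N) - 3 / 2) + 100 * N * Real.log N ∧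
    Real.log (2 * N + 2) ≤ 3 * Real.log N ∧ 1 ≤ 2 * Real.log N := by
  have hN0 : 0 < N := by linarith
  have hl2 : (1 : ℝ) / 2 ≤ Real.log 2 := by have := Real.log_two_gt_d9; linarith
  have hlN : Real.log 2 ≤ Real.log N := Real.log_le_log (by norm_num) hN
  have h1 : Real.log (2 * N + 2) ≤ 3 * Real.log N := by
    have h2 : 3 * Real.log N = Real.log (N ^ 3) := by rw [Real.log_pow]; norm_num
    rw [h2]
    apply Real.log_le_log (by linarith)
    nlinarith [mul_le_mul hN hN (by norm_num) (by linarith : (0 : ℝ) ≤ N), sq_nonneg (N - 2)]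
  have h3 : Real.log (2 * N + 2) ≤ Real.log (2 * N) + 1 / N := by
    have h4 : 2 * N + 2 = 2 * N * (1 + 1 / N) := by field_simp
    rw [h4, Real.log_mul (by positivity) (by positivity)]
    have h5 := Real.log_le_sub_one_of_pos (show (0 : ℝ) < 1 + 1 / N by positivity)
    linarith
  have h6 : Real.log (2 * N) ≤ 3 * Real.log N := by
    refine le_trans (Real.log_le_log (by linarith) (by linarith)) h1
  refine ⟨?_, h1, by linarith⟩
  have h7 : (2 * N + 2) ^ 2 / 2 * (Real.log (2 * N + 2) - 3 / 2) ≤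
      (2 * N + 2) ^ 2 / 2 * (Real.log (2 * N) + 1 / N - 3 / 2) := by
    apply mul_le_mul_of_nonneg_left _ (by positivity)
    linarith
  have h8 : (2 * N + 2) ^ 2 / 2 * (Real.log (2 * N) + 1 / N - 3 / 2) =
      2 * N ^ 2 * (Real.log (2 * N) - 3 / 2) + (4 * N + 2) * (Real.log (2 * N) - 3 / 2) +
      (2 * N + 4 + 2 / N) := by
    field_simp
    ring
  have h9 : 2 / N ≤ N := by
    rw [div_le_iff₀ hN0]
    nlinarith
  have h10 : (4 * N + 2) * (Real.log (2 * N) - 3 / 2) ≤ (4 * N + 2) * (3 * Real.log N) := by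
    apply mul_le_mul_of_nonneg_left _ (by linarith)
    linarith
  rw [h8] at h7
  have h11 : N ≤ N * (2 * Real.log N) := by
    have : N * 1 ≤ N * (2 * Real.log N) := mul_le_mul_of_nonneg_left (by linarith) hN0.le
    linarith
  have h12 : 2 * Real.log N ≤ N * Real.log N :=
    mul_le_mul_of_nonneg_right hN (by linarith)
  nlinarith

private theorem lower_aux (N : ℝ) (hN : 2 ≤ N) :
    N ^ 2 / 2 * (Real.log N - 3 / 2) - 100 * N * Real.log N ≤
      (N + 1) ^ 2 / 2 * (Real.log (N + 1) - 3 / 2) := by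
  obtain ⟨-, -, h1⟩ := upper_aux N hN
  have hN0 : 0 < N := by linarith
  have h2 : Real.log N ≤ Real.log (N + 1) := Real.log_le_log hN0 (by linarith)
  have h3 : N ^ 2 / 2 * (Real.log N - 3 / 2) ≤ N ^ 2 / 2 * (Real.log (N + 1) - 3 / 2) := by
    apply mul_le_mul_of_nonneg_left _ (by positivity)
    linarith
  have h4 : (N + 1) ^ 2 / 2 * (Real.log (N + 1) - 3 / 2) =
    N ^ 2 / 2 * (Real.log (N + 1) - 3 / 2) + (N + 1 / 2) * (Real.log (N + 1) - 3 / 2) := by ring
  have h5 : (N + 1 / 2) * (-3 / 2) ≤ (N + 1 / 2) * (Real.log (N + 1) - 3 / 2) := by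
    apply mul_le_mul_of_nonneg_left _ (by linarith)
    have : 0 ≤ Real.log (N + 1) := Real.log_nonneg (by linarith)
    linarith
  have h11 : N ≤ N * (2 * Real.log N) := by
    have : N * 1 ≤ N * (2 * Real.log N) := mul_le_mul_of_nonneg_left (by linarith) hN0.le
    linarith
  rw [h4]
  nlinarith

theorem log_WV_le : ∃ B : ℝ, ∀ N : ℕ, 2 ≤ N → Even N →
    4 * Real.log ((WN N : ℚ) : ℝ) - 5 / 2 * Real.log ((VE N : ℚ) : ℝ)
      ≤ 11 / 2 * (N : ℝ) ^ 2 * (Real.log (2 * N) - 3 / 2) + B * N * Real.log N := by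
  obtain ⟨C0, hC0⟩ := SL_bound
  obtain ⟨C, hCC, hCp⟩ : ∃ C : ℝ, C0 ≤ C ∧ 0 ≤ C := ⟨max C0 0, le_max_left _ _, le_max_right _ _⟩
  have hC : ∀ M : ℕ, 1 ≤ M →
      |SL M - (M : ℝ) ^ 2 / 2 * (Real.log M - 3 / 2)| ≤ C * M * (Real.log M + 1) := by
    intro M hM
    refine le_trans (hC0 M hM) ?_
    have h1 : (0 : ℝ) ≤ Real.log M := Real.log_natCast_nonneg M
    rw [mul_assoc, mul_assoc]
    exact mul_le_mul_of_nonneg_right hCC (by positivity)
  refine ⟨900 + 200 * C, fun N hN hE => ?_⟩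
  have hNr : (2 : ℝ) ≤ N := by exact_mod_cast hN
  have hN0 : (0 : ℝ) < N := by linarith
  obtain ⟨u1, u2, u3⟩ := upper_aux N hNr
  have l1 := lower_aux N hNr
  rw [log_WN_eq N hE, log_VE_eq N hE]
  have h1 : 0 ≤ ∑ j ∈ range (N + 1), Real.log (2 * (j : ℝ) + 1) :=
    sum_nonneg fun j _ => Real.log_nonneg (by have : (0 : ℝ) ≤ j := Nat.cast_nonneg j; linarith)
  have h2 := (abs_le.mp (hC (2 * N + 2) (by omega))).2
  have h3 := (abs_le.mp (hC (N + 1) (by omega))).1
  push_cast at h2 h3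
  have h4 : Real.log (2 * N) = Real.log 2 + Real.log N := Real.log_mul (by norm_num) hN0.ne'
  have hl2 : (1 : ℝ) / 2 ≤ Real.log 2 := by have := Real.log_two_gt_d9; linarith
  have hlog1 : Real.log ((N : ℝ) + 1) ≤ Real.log (2 * N + 2) :=
    Real.log_le_log (by linarith) (by linarith)
  -- error terms
  have e1 : C * (2 * N + 2) * (Real.log (2 * N + 2) + 1) ≤ C * (15 * (N * Real.log N)) := by
    rw [mul_assoc]
    apply mul_le_mul_of_nonneg_left _ hCp
    have e2 : (2 * (N : ℝ) + 2) * (Real.log (2 * N + 2) + 1) ≤ (3 * N) * (5 * Real.log N) := by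
      apply mul_le_mul (by linarith) (by linarith) _ (by linarith)
      have := Real.log_nonneg (show (1 : ℝ) ≤ 2 * N + 2 by linarith)
      linarith
    linarith
  have e3 : C * (N + 1) * (Real.log (N + 1) + 1) ≤ C * (15 * (N * Real.log N)) := by
    refine le_trans ?_ e1
    rw [mul_assoc, mul_assoc]
    apply mul_le_mul_of_nonneg_left _ hCp
    apply mul_le_mul (by linarith) (by linarith) _ (by linarith)
    have := Real.log_nonneg (show (1 : ℝ) ≤ N + 1 by linarith)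
    linarith
  have e4 : 0 ≤ (N : ℝ) * Real.log 2 := by positivity
  have e5 : 0 ≤ (N : ℝ) * Real.log N := mul_nonneg hN0.le (by linarith)
  rw [h4] at u1 ⊢
  nlinarith [mul_nonneg hCp e5]

end MP_a3a416_nt.SJ
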