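import Pool.Agent.Lib.MP_a3a416_nt.SJ.ArCheb
import Pool.Agent.Lib.MP_a3a416_nt.SJ.ArBas
import Pool.Agent.Lib.MP_a3a416_nt.SJ.ArDet
import Pool.Agent.Lib.MP_a3a416_nt.SJ.ArErr
import Pool.Agent.Lib.MP_a3a416_nt.SJ.ArWV

/-! Section 2 (archimedean bound), final statement. -/

set_option autoImplicit false

open Polynomial Finset

namespace MP_a3a416_nt.SJ

private theorem VE_pos (N : ℕ) : 0 < VE N := by
  unfold VE
  exact prod_pos fun x _ => by exact_mod_cast ppr_pos (EE N) x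

private theorem WN_pos (N : ℕ) : 0 < WN N := by
  unfold WN
  exact prod_pos fun x _ => by exact_mod_cast ppr_pos (EE N) x

private theorem Cst_pos (N : ℕ) (hN : 2 ≤ N) : 0 < Cst N := by
  unfold Cst
  have : (0 : ℚ) < N := by exact_mod_cast (by omega : 0 < N)
  positivity

private theorem gauss_le (l N : ℕ) (h : N + 1 ≤ l) :
    ((∑ i ∈ range (l - (N + 1)), i : ℕ) : ℝ) ≤ ((l : ℝ) - N) ^ 2 / 2 := by
  obtain ⟨k, rfl⟩ := Nat.exists_eq_add_of_le h
  have h1 : N + 1 + k - (N + 1) = k := by omega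
  rw [h1]
  have h2 := Finset.sum_range_id_mul_two k
  have h3 : ((∑ i ∈ range k, i : ℕ) : ℝ) * 2 = (k : ℝ) * ((k - 1 : ℕ) : ℝ) := by exact_mod_cast h2
  have h4 : ((k - 1 : ℕ) : ℝ) ≤ k := by exact_mod_cast Nat.sub_le k 1
  have h5 : (0 : ℝ) ≤ k := by positivity
  push_cast
  push_cast at h3
  nlinarith [mul_le_mul_of_nonneg_left h4 h5]

/-- `C` is absolute; the parameter `c` costs `log (1 + |c|)` for each of the `2 A` columns of the
blocks `s`, `t`. -/
theorem arch_bound : ∃ C : ℝ, ∀ (c : ℚ) (N K A c0 : ℕ) (rr : Fin c0 → Row N)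
    (e : (Col K A ⊕ Fin c0) ≃ Row N), 2 ≤ N → Even N → N + 1 ≤ A → N + 1 ≤ K →
    A ≤ 8 * N → K ≤ 8 * N → sdet e (Vh c K A rr) ≠ 0 →
    Real.log |((sdet e (Vh c K A rr) : ℚ) : ℝ)| ≤
      11 / 2 * (N : ℝ) ^ 2 * (Real.log (2 * N) - 3 / 2)
      + (((K : ℝ) - N) ^ 2 / 2 + 4 * (((A : ℝ) - N) ^ 2 / 2)) * Real.log ((N : ℝ) / 2)
      + 2 * A * Real.log (1 + |(c : ℝ)|)
      + C * N * Real.log N := by
  obtain ⟨B1, hB1⟩ := log_err
  obtain ⟨B2, hB2⟩ := log_WV_le
  refine ⟨B1 + B2, fun c N K A c0 rr e h2 hev hA hK hA8 hK8 hD => ?_⟩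
  obtain ⟨t, ht⟩ := exists_cheb N (by omega)
  set D := sdet e (Vh c K A rr) with hDdef
  set D' := sdet e (VP c K A (fun _ => bas t N) rr) with hD'def
  have hsq : D ^ 2 = D' ^ 2 * VE N ^ 5 := sdet_bas c hev hK hA t ht.1 rr e
  have hV := VE_pos N
  have hW := WN_pos N
  have hC := Cst_pos N h2
  have hD' : D' ≠ 0 := by
    rintro h0
    rw [h0] at hsq
    apply hD
    have : D ^ 2 = 0 := by rw [hsq]; ring
    exact pow_eq_zero_iff (by norm_num) |>.mp this
  have hVr : (0 : ℝ) < ((VE N : ℚ) : ℝ) := by exact_mod_cast hV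
  have hWr : (0 : ℝ) < ((WN N : ℚ) : ℝ) := by exact_mod_cast hW
  have hCr : (0 : ℝ) < ((Cst N : ℚ) : ℝ) := by exact_mod_cast hC
  have hDr : (D : ℝ) ≠ 0 := by exact_mod_cast hD
  have hD'r : (D' : ℝ) ≠ 0 := by exact_mod_cast hD'
  -- log |D| = log |D'| + 5/2 log VE
  have hlog1 : Real.log |(D : ℝ)| = Real.log |(D' : ℝ)| + 5 / 2 * Real.log ((VE N : ℚ) : ℝ) := by
    have h3 : (D : ℝ) ^ 2 = (D' : ℝ) ^ 2 * ((VE N : ℚ) : ℝ) ^ 5 := by exact_mod_cast hsq
    have h4 := congrArg Real.log h3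
    rw [Real.log_mul (pow_ne_zero _ hD'r) (pow_ne_zero _ hVr.ne'), Real.log_pow, Real.log_pow,
      Real.log_pow] at h4
    rw [Real.log_abs, Real.log_abs]
    push_cast at h4
    linarith
  -- the bound for D'
  have hb := abs_sdet_bas_le c h2 hev hK hA hA8 hK8 t ht rr e
  have hbr : |(D' : ℝ)| ≤ (Nat.factorial (8 * N + 4) : ℝ) * ((WN N : ℚ) : ℝ) ^ 4 *
      ((1 + |(c : ℝ)|) ^ (2 * A) * ((Cst N : ℚ) : ℝ) ^ (8 * N + 4) * (((VE N : ℚ) : ℝ) ^ 5)⁻¹ *
      ∏ β : Blk, ((N : ℝ) / 2) ^ (∑ i ∈ range (len K A β - (N + 1)), i)) := by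
    have := (Rat.cast_le (K := ℝ)).mpr hb
    push_cast at this
    rw [hD'def]
    exact this
  have hNr : (0 : ℝ) < (N : ℝ) / 2 := by
    have : (0 : ℝ) < N := by exact_mod_cast (by omega : 0 < N)
    positivity
  have hc1 : (0 : ℝ) < 1 + |(c : ℝ)| := by positivity
  have hfac : (0 : ℝ) < (Nat.factorial (8 * N + 4) : ℝ) := by exact_mod_cast Nat.factorial_pos _
  have hlog2 := Real.log_le_log (abs_pos.mpr hD'r) hbr
  have hprod : (0 : ℝ) < ∏ β : Blk, ((N : ℝ) / 2) ^ (∑ i ∈ range (len K A β - (N + 1)), i) :=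
    prod_pos fun β _ => pow_pos hNr _
  rw [Real.log_mul (by positivity) (by positivity), Real.log_mul (by positivity) (by positivity),
    Real.log_mul (by positivity) hprod.ne', Real.log_mul (by positivity) (by positivity),
    Real.log_mul (by positivity) (by positivity), Real.log_inv, Real.log_pow, Real.log_pow,
    Real.log_pow, Real.log_pow, Real.log_prod (fun β _ => (pow_pos hNr _).ne'), sum_blk] at hlog2
  simp only [Real.log_pow] at hlog2
  -- Gauss sums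
  have hlN : 0 ≤ Real.log ((N : ℝ) / 2) := by
    apply Real.log_nonneg
    have : (2 : ℝ) ≤ N := by exact_mod_cast h2
    linarith
  have hgK := mul_le_mul_of_nonneg_right (gauss_le K N hK) hlN
  have hgA := mul_le_mul_of_nonneg_right (gauss_le A N hA) hlN
  have e1 := hB1 N h2
  have e2 := hB2 N h2 hev
  have l1 : len K A Blk.z = K := rfl
  have l2 : len K A Blk.u = A := rfl
  have l3 : len K A Blk.s = A := rfl
  have l4 : len K A Blk.t = A := rfl
  have l5 : len K A Blk.o = A := rfl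
  rw [l1, l2, l3, l4, l5] at hlog2
  push_cast at hlog2 e1
  push_cast at hgK hgA
  rw [hlog1]
  have e3 : (B1 + B2) * N * Real.log N = B1 * N * Real.log N + B2 * N * Real.log N := by ring
  rw [e3]
  nlinarith [hlog2, e1, e2, hgK, hgA]

end MP_a3a416_nt.SJ
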