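import Pool.Agent.Lib.MP_a3a416_nt.SJ.PL

/-!
# SJ-Blocks
Potentials lemma for a matrix `M = W Q + E` (Schur complement).  Special cases: the rank lemma
(`v_p(det M) ≥ R - rank`) and the merging lemma.
-/

namespace MP_a3a416_nt.SJ

open Finset

variable {p : ℕ} [hp : Fact p.Prime]

/-- `M = W Q + E` with potentials `a` (rows of `M`), `b` (columns of `M`), `c` (columns of `W`), `d` (rows of `Q`),
`c + d ≤ 0`. -/
theorem val_det_blocks {ι κ : Type*} [Fintype ι] [DecidableEq ι] [Fintype κ] [DecidableEq κ]
    (M : Matrix ι ι ℚ) (W : Matrix ι κ ℚ) (Q : Matrix κ ι ℚ) (a b : ι → ℤ) (c d : κ → ℤ)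
    (hW : ∀ i k, val p (W i k) (a i + c k)) (hQ : ∀ k j, val p (Q k j) (d k + b j))
    (hcd : ∀ k, c k + d k ≤ 0) (hE : ∀ i j, val p (M i j - (W * Q) i j) (a i + b j)) :
    val p M.det (∑ i, a i + ∑ i, b i + (∑ k, c k + ∑ k, d k)) := by
  have h1 : (Matrix.fromBlocks (1 : Matrix κ κ ℚ) (-Q) W (M - W * Q)).det = M.det := by
    rw [Matrix.det_fromBlocks_one₁₁]
    congr 1
    rw [Matrix.mul_neg]
    abel
  rw [← h1]
  have h2 := val_det (p := p) (Matrix.fromBlocks (1 : Matrix κ κ ℚ) (-Q) W (M - W * Q))
    (Sum.elim d a) (Sum.elim c b) (by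
      rintro (i | i) (j | j)
      · simp only [Matrix.fromBlocks_apply₁₁, Sum.elim_inl]
        by_cases hij : i = j
        · subst hij
          rw [Matrix.one_apply_eq]
          exact val.one.mono (by linarith [hcd i])
        · rw [Matrix.one_apply_ne hij]
          exact val.zero _
      · simp only [Matrix.fromBlocks_apply₁₂, Sum.elim_inl, Sum.elim_inr, Matrix.neg_apply]
        exact (hQ i j).neg
      · simp only [Matrix.fromBlocks_apply₂₁, Sum.elim_inl, Sum.elim_inr]
        exact hW i j
      · simp only [Matrix.fromBlocks_apply₂₂, Sum.elim_inr, Matrix.sub_apply]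
        exact hE i j)
  refine h2.mono (le_of_eq ?_)
  rw [Fintype.sum_sum_type, Fintype.sum_sum_type]
  simp only [Sum.elim_inl, Sum.elim_inr]
  ring

/-- the rank lemma: `M ≡ W Q` mod `p` with `W`, `Q` `p`-integral, `W` with `s` columns. -/
theorem val_det_of_rank {ι κ : Type*} [Fintype ι] [DecidableEq ι] [Fintype κ] [DecidableEq κ]
    (M : Matrix ι ι ℚ) (W : Matrix ι κ ℚ) (Q : Matrix κ ι ℚ)
    (hW : ∀ i k, val p (W i k) 0) (hQ : ∀ k j, val p (Q k j) 0)
    (hE : ∀ i j, val p (M i j - (W * Q) i j) 1) :
    val p M.det ((Fintype.card ι : ℤ) - (Fintype.card κ : ℤ)) := by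
  have h := val_det_blocks (p := p) M W Q (fun _ => 0) (fun _ => 1) (fun _ => 0) (fun _ => -1)
    (fun i k => by simpa using hW i k) (fun k j => by simpa using hQ k j) (fun _ => by norm_num)
    (fun i j => by simpa using hE i j)
  refine h.mono (le_of_eq ?_)
  simp
  ring

/-- the merging lemma: the columns `j` with `J j` of `M` are combinations of the columns of `Y` with `p`-integral
coefficients; `val p (Y i k) (a i + e k)`; `B` is an integer. -/
theorem val_det_merge {ι κ : Type*} [Fintype ι] [DecidableEq ι] [Fintype κ] [DecidableEq κ]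
    (M : Matrix ι ι ℚ) (Y : Matrix ι κ ℚ) (q : κ → ι → ℚ) (J : Finset ι) (a b : ι → ℤ) (e : κ → ℤ) (B : ℤ)
    (hY : ∀ i k, val p (Y i k) (a i + e k)) (hq : ∀ k j, j ∈ J → val p (q k j) 0)
    (hM : ∀ i, ∀ j ∈ J, M i j = ∑ k, Y i k * q k j)
    (hE : ∀ i, ∀ j ∉ J, val p (M i j) (a i + b j)) :
    val p M.det (∑ i, a i + ∑ i ∈ Jᶜ, b i + (J.card * B + ∑ k ∈ univ.filter (fun k => e k < B), (e k - B))) := by
  set Q : Matrix κ ι ℚ := fun k j => if j ∈ J then q k j else 0 with hQdef
  have h := val_det_blocks (p := p) M Y Q a (fun j => if j ∈ J then B else b j) e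
    (fun k => if e k < B then -B else - e k) hY
    (fun k j => by
      simp only [hQdef]
      by_cases hj : j ∈ J
      · simp only [hj, if_true]
        refine (hq k j hj).mono ?_
        split_ifs <;> linarith
      · simp only [hj, if_false]
        exact val.zero _)
    (fun k => by
      split_ifs <;> linarith)
    (fun i j => by
      by_cases hj : j ∈ J
      · have h0 : M i j - (Y * Q) i j = 0 := by
          rw [Matrix.mul_apply, hM i j hj, sub_eq_zero]
          apply sum_congr rfl
          intro k _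
          simp [hQdef, hj]
        rw [h0]; exact val.zero _
      · have h0 : (Y * Q) i j = 0 := by
          rw [Matrix.mul_apply]
          apply sum_eq_zero
          intro k _
          simp [hQdef, hj]
        rw [h0, sub_zero]
        simp only [hj, if_false]
        exact hE i j hj)
  refine h.mono (le_of_eq ?_)
  have h1 : ∑ j, (if j ∈ J then B else b j) = J.card * B + ∑ j ∈ Jᶜ, b j := by
    rw [← sum_add_sum_compl J]
    congr 1
    · rw [sum_congr rfl (fun j hj => if_pos hj), sum_const, nsmul_eq_mul]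
    · apply sum_congr rfl
      intro j hj
      rw [mem_compl] at hj
      rw [if_neg hj]
  have h2 : ∑ k, e k + ∑ k, (if e k < B then -B else - e k) = ∑ k ∈ univ.filter (fun k => e k < B), (e k - B) := by
    rw [← sum_add_distrib, sum_filter]
    apply sum_congr rfl
    intro k _
    split_ifs <;> ring
  rw [h1, h2]
  ring

end MP_a3a416_nt.SJ
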