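import Mathlib

/-!
# SMALL-J, J = 1 (helper53): definitions.

Reference text: `/team-store/SJ53_proof.md`, with the parameter `c : ℚ` (helper54, helper42):
`c`-flat primes are the primes `p ∣ num (B_{p-3} - c)`.
The rational function `s(n)(u)` of the text is replaced by `s(n)(u) - (c/8) u^2` (`n` even),
`s(n)(u) - (7c/8) u^2` (`n` odd); the shift relation (SH) is unchanged.
-/

open Polynomial

namespace MP_a3a416_nt.SJ

/-- `val p x a`: the `p`-adic valuation of `x` is at least `a` (true for `x = 0`). -/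
def val (p : ℕ) (x : ℚ) (a : ℤ) : Prop := x = 0 ∨ a ≤ padicValRat p x

/-- the harmonic sums `h_r(n)` over the residue class of `n` modulo 2. -/
noncomputable def hs (r : ℕ) (n : ℤ) : ℚ :=
  ∑ b ∈ (Finset.Ioc 0 n).filter (fun b => b % 2 = n % 2), ((b : ℚ)⁻¹) ^ r
    - ∑ b ∈ (Finset.Ioo n 0).filter (fun b => b % 2 = n % 2), ((b : ℚ)⁻¹) ^ r

/-- coefficient of `u^j` of `s(n)(u)`, with the parameter `c`. -/
noncomputable def gs (c : ℚ) (n : ℤ) (j : ℕ) : ℚ :=
  (-1) ^ j * ((j : ℚ) + 1) * hs (1 + j) n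
    - (if j = 2 then (if Even n then c / 8 else 7 * c / 8) else 0)

/-- the five blocks: `1`, `u`, `s(n)`, `s(n-1)`, `1_{n odd}`. -/
inductive Blk
  | z | u | s | t | o
  deriving DecidableEq, Fintype

/-- coefficient of `u^j` of the local function `g_β(n)(u)`. -/
noncomputable def gj (c : ℚ) : Blk → ℤ → ℕ → ℚ
  | .z, _, j => if j = 0 then 1 else 0
  | .u, _, j => if j = 1 then 1 else 0
  | .s, n, j => gs c n j
  | .t, n, j => gs c (n - 1) j
  | .o, n, j => if j = 0 ∧ Odd n then 1 else 0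

/-- the local function `g_β(n)(u)` as a power series. -/
noncomputable def gser (c : ℚ) (β : Blk) (n : ℤ) : PowerSeries ℚ := PowerSeries.mk (gj c β n)

/-- `J_β(P)(n,k) = [u^k] P(n+u) g_β(n)(u)`. -/
noncomputable def J (c : ℚ) (β : Blk) (P : ℚ[X]) (n : ℤ) (k : ℕ) : ℚ :=
  PowerSeries.coeff k (((taylor (n : ℚ) P : ℚ[X]) : PowerSeries ℚ) * gser c β n)

/-- rows `(n, k)`, `|n| ≤ N`, `k < 4`. -/
abbrev Row (N : ℕ) := Fin (2 * N + 1) × Fin 4

/-- the node of a row. -/
def node {N : ℕ} (r : Row N) : ℤ := ((r.1 : ℕ) : ℤ) - N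

/-- lengths of the blocks: `K` for the block `1`, `A` for the others. -/
def len (K A : ℕ) : Blk → ℕ
  | .z => K
  | _ => A

/-- columns `x^i g_β`. -/
abbrev Col (K A : ℕ) := Σ β : Blk, Fin (len K A β)

/-- the matrix with columns `J_β(P β i)`, `i < len β`, and `c0` unit columns `e_{rr 0}, ...`. -/
noncomputable def VP (c : ℚ) {N : ℕ} (K A : ℕ) {c0 : ℕ} (P : Blk → ℕ → ℚ[X])
    (rr : Fin c0 → Row N) : Matrix (Row N) (Col K A ⊕ Fin c0) ℚ :=
  fun r x => Sum.elim (fun y => J c y.1 (P y.1 y.2) (node r) r.2)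
    (fun i => if r = rr i then 1 else 0) x

/-- the matrix `Vh = [V | e_{rr 0} ... e_{rr (c0-1)}]`: the family of the monomials. -/
noncomputable def Vh (c : ℚ) {N : ℕ} (K A : ℕ) {c0 : ℕ} (rr : Fin c0 → Row N) :
    Matrix (Row N) (Col K A ⊕ Fin c0) ℚ :=
  VP c K A (fun _ i => X ^ i) rr

/-- determinant of a matrix whose rows and columns are identified by `e`. -/
noncomputable def sdet {ρ κ : Type*} [Fintype κ] [DecidableEq κ] (e : κ ≃ ρ)
    (M : Matrix ρ κ ℚ) : ℚ :=
  (M.submatrix e id).det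

/-- `p` is `c`-flat: `B_{p-3} ≡ c` modulo `p`. -/
def Flat (c : ℚ) (p : ℕ) : Prop := (p : ℤ) ∣ (_root_.bernoulli (p - 3) - c).num

theorem sum_blk {M : Type*} [AddCommMonoid M] (f : Blk → M) :
    ∑ β, f β = f .z + f .u + f .s + f .t + f .o := by
  have : (Finset.univ : Finset Blk) = {.z, .u, .s, .t, .o} := rfl
  rw [this]
  simp [Finset.sum_insert, add_assoc]

theorem J_eq_sum (c : ℚ) (β : Blk) (P : ℚ[X]) (n : ℤ) (k : ℕ) :
    J c β P n k = ∑ i ∈ Finset.range (k + 1), (taylor (n : ℚ) P).coeff i * gj c β n (k - i) := by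
  rw [J, PowerSeries.coeff_mul, Finset.Nat.sum_antidiagonal_eq_sum_range_succ_mk]
  simp [gser]

theorem card_col (K A : ℕ) : Fintype.card (Col K A) = K + 4 * A := by
  rw [Fintype.card_sigma, Finset.sum_congr rfl (fun β _ => Fintype.card_fin _), sum_blk]
  show K + A + A + A + A = K + 4 * A
  ring

theorem card_row (N : ℕ) : Fintype.card (Row N) = 4 * (2 * N + 1) := by
  simp [Row, Fintype.card_prod]
  ring

end MP_a3a416_nt.SJ
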