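import Pool.Agent.Lib.MP_a3a416_nt.SJ.FDefs

/-! # SJ-FBig: the primes `p > 36 m` in the factorials
PROOF. For `i < M <= 200 m < p^2`: `v_p(i!) = floor(i/p)` (Legendre: `padicValNat_factorial` with bound 2), so
`SF p M = sum_{i<M} floor(i/p)` and `sum_{i<M} floor(i/p) <= sum_{y=1}^{5} (M - y p)^+` by induction on `M <= 6 p` (K: `6 p > 216 m`), the same with `y = 1` for `M <= 2p` (A: `2 p > 72 m`). -/

set_option autoImplicit false

namespace MP_a3a416_nt.SJ

open Finset Filter

private theorem val_fact (p i : ℕ) (hp : p.Prime) (h : i < p ^ 2) :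
    padicValNat p i.factorial = i / p := by
  haveI := Fact.mk hp
  have hb : Nat.log p i < 2 := by
    rcases Nat.eq_zero_or_pos i with h0 | h0
    · subst h0
      simp
    · exact Nat.log_lt_of_lt_pow h0.ne' h
  rw [padicValNat_factorial hb]
  simp

private theorem sum_div_le (p M Y : ℕ) (hp : 0 < p) (hM : M ≤ (Y + 1) * p) :
    (∑ i ∈ range M, ((i / p : ℕ) : ℤ)) ≤ ∑ y ∈ Icc (1 : ℤ) Y, max 0 ((M : ℤ) - y * p) := by
  induction M with
  | zero =>
    simp only [range_zero, sum_empty]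
    exact sum_nonneg fun y _ => le_max_left _ _
  | succ M ih =>
    have ih' := ih (by omega)
    rw [sum_range_succ]
    -- M / p = number of y in [1,Y] with y p <= M
    have hlt : M / p < Y + 1 := by
      rw [Nat.div_lt_iff_lt_mul hp]
      omega
    have h1 : ((M / p : ℕ) : ℤ) = ∑ y ∈ Icc (1 : ℤ) Y, (if y * p ≤ (M : ℤ) then (1 : ℤ) else 0) := by
      rw [← sum_filter, sum_const, nsmul_eq_mul, mul_one]
      have h2 : (Icc (1 : ℤ) Y).filter (fun y => y * p ≤ (M : ℤ)) = Icc (1 : ℤ) ((M / p : ℕ) : ℤ) := by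
        ext y
        simp only [mem_filter, mem_Icc]
        constructor
        · rintro ⟨⟨h3, h4⟩, h5⟩
          refine ⟨h3, ?_⟩
          obtain ⟨z, rfl⟩ := Int.eq_ofNat_of_zero_le (by omega : 0 ≤ y)
          have h6 : z * p ≤ M := by exact_mod_cast h5
          have h7 : z ≤ M / p := (Nat.le_div_iff_mul_le hp).mpr h6
          exact_mod_cast h7
        · rintro ⟨h3, h4⟩
          obtain ⟨z, rfl⟩ := Int.eq_ofNat_of_zero_le (by omega : 0 ≤ y)
          have h7 : z ≤ M / p := by exact_mod_cast h4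
          have h6 : z * p ≤ M := (Nat.le_div_iff_mul_le hp).mp h7
          refine ⟨⟨h3, ?_⟩, by exact_mod_cast h6⟩
          have : z ≤ Y := by omega
          exact_mod_cast this
      rw [h2, Int.card_Icc]
      simp
      exact Int.ediv_nonneg (Int.natCast_nonneg _) (Int.natCast_nonneg _)
    rw [h1]
    refine (add_le_add_left ih' _).trans ?_
    rw [← sum_add_distrib]
    refine sum_le_sum fun y _ => ?_
    push_cast
    split_ifs with h2
    · rw [max_eq_right (by linarith), max_eq_right (by linarith)]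
      linarith
    · rw [add_zero]
      exact max_le_max le_rfl (by linarith)

private theorem SF_le (p M Y X : ℕ) (hp : p.Prime) (hM : M ≤ (Y + 1) * p) (hM2 : M ≤ p ^ 2)
    (hX : M ≤ X) :
    SF p M ≤ ∑ y ∈ Icc (1 : ℤ) Y, max 0 ((X : ℤ) - y * p) := by
  have h1 : SF p M = ∑ i ∈ range M, ((i / p : ℕ) : ℤ) := by
    unfold SF
    refine sum_congr rfl fun i hi => ?_
    rw [val_fact p i hp (lt_of_lt_of_le (mem_range.mp hi) hM2)]
  rw [h1]
  refine (sum_div_le p M Y hp.pos hM).trans (sum_le_sum fun y _ => ?_)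
  have : (M : ℤ) ≤ X := by exact_mod_cast hX
  exact max_le_max le_rfl (by linarith)

theorem SF_big_K (m p : ℕ) (hm : 1 ≤ m) (hp : p.Prime) (h : 36 * m < p) :
    SF p (200 * m - 100) ≤ ∑ y ∈ Icc (1 : ℤ) 5, max 0 ((200 * m : ℤ) - y * p) := by
  have h1 := SF_le p (200 * m - 100) 5 (200 * m) hp (by omega) (by nlinarith [Nat.sub_le (200 * m) 100])
    (Nat.sub_le _ _)
  push_cast at h1 ⊢
  exact h1

theorem SF_big_A (m p : ℕ) (hm : 1 ≤ m) (hp : p.Prime) (h : 36 * m < p) :
    SF p (70 * m) ≤ max 0 ((70 * m : ℤ) - p) := by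
  have h1 := SF_le p (70 * m) 1 (70 * m) hp (by omega) (by nlinarith) le_rfl
  push_cast at h1 ⊢
  simpa using h1

end MP_a3a416_nt.SJ
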