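import Pool.Agent.Lib.MP_a3a416_nt.SJ.FPS

/-! # SJ-FBigSum
PROOF. For `y = 1..5`: `sum_{36m<p<=200m} max 0 (200m - y p) log p = sum_{36m < p <= floor(200m/y)} (200 m - y p) log p` (the terms with `y p > 200 m`
are 0; `floor ((200/y : R) * m) = 200 m / y`), which is `prsum_asy` with `alpha = 200, beta = -y, a = 36, b = 200/y`; value `(200 - 36 y)^2/(2y)`:
13448 + 4096 + 92^2/6 + 392 + 40 = 19386 + 2/3. The same for `max 0 (70 m - p)`: `(70-36)^2/2 = 578`, times 4 = 2312. -/

set_option autoImplicit false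

namespace MP_a3a416_nt.SJ

open Finset Filter

private theorem fb_term (al y : ℕ) (hy : 0 < y) (h1 : 36 * y ≤ al) (h2 : al ≤ 200) :
    Asy (fun m : ℕ => ∑ p ∈ prs (36 * m) (200 * m),
      ((max 0 ((al * m : ℤ) - y * p) : ℤ) : ℝ) * Real.log p) 0
      (((al : ℝ) - 36 * y) ^ 2 / (2 * y)) := by
  have hy0 : (0 : ℝ) < y := by exact_mod_cast hy
  have hy1 : (1 : ℝ) ≤ y := by exact_mod_cast hy
  have h1' : (36 : ℝ) * y ≤ al := by exact_mod_cast h1
  have h2' : (al : ℝ) ≤ 200 := by exact_mod_cast h2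
  have hab : (36 : ℝ) ≤ al / y := by
    rw [le_div_iff₀ hy0]
    exact h1'
  have hb : (al : ℝ) / y ≤ 200 := by
    rw [div_le_iff₀ hy0]
    nlinarith
  refine ((prsum_asy (al : ℝ) (-(y : ℝ)) 36 ((al : ℝ) / y) (by norm_num) hab).congr
    (Eventually.of_forall fun m => ?_)).cast rfl ?_
  · have hfl : ⌊(36 : ℝ) * m⌋₊ = 36 * m := by
      have : (36 : ℝ) * m = ((36 * m : ℕ) : ℝ) := by push_cast; ring
      rw [this, Nat.floor_natCast]
    have hfl2 : ⌊(al : ℝ) / y * m⌋₊ ≤ 200 * m := by
      have h : (al : ℝ) / y * m ≤ ((200 * m : ℕ) : ℝ) := by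
        push_cast
        exact mul_le_mul_of_nonneg_right hb (Nat.cast_nonneg m)
      have := Nat.floor_le_floor h
      rwa [Nat.floor_natCast] at this
    rw [hfl]
    have hsub : prs (36 * m) ⌊(al : ℝ) / y * m⌋₊ ⊆ prs (36 * m) (200 * m) := by
      intro p hp
      rw [prs, mem_filter, mem_Ioc] at hp ⊢
      exact ⟨⟨hp.1.1, le_trans hp.1.2 hfl2⟩, hp.2⟩
    refine Eq.trans ?_ (Finset.sum_subset hsub fun p hp hp' => ?_)
    · refine Finset.sum_congr rfl fun p hp => ?_
      rw [prs, mem_filter, mem_Ioc] at hp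
      have hle : (p : ℝ) ≤ (al : ℝ) / y * m :=
        le_trans (Nat.cast_le.2 hp.1.2) (Nat.floor_le (by positivity))
      have hle2 : (y : ℝ) * p ≤ al * m := by
        have h := mul_le_mul_of_nonneg_left hle hy0.le
        have h3 : (y : ℝ) * ((al : ℝ) / y * m) = al * m := by
          field_simp
        linarith
      have hle3 : (y * p : ℤ) ≤ al * m := by exact_mod_cast hle2
      rw [max_eq_right (by linarith)]
      push_cast
      ring
    · rw [prs, mem_filter, mem_Ioc] at hp hp'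
      have hlt : ⌊(al : ℝ) / y * m⌋₊ < p := by
        by_contra hcon
        push Not at hcon
        exact hp' ⟨⟨hp.1.1, hcon⟩, hp.2⟩
      have hlt2 : (al : ℝ) / y * m < p := (Nat.floor_lt (by positivity)).1 hlt
      have hlt3 : (al : ℝ) * m ≤ y * p := by
        have h := mul_lt_mul_of_pos_left hlt2 hy0
        have h3 : (y : ℝ) * ((al : ℝ) / y * m) = al * m := by
          field_simp
        linarith
      have hlt4 : (al * m : ℤ) ≤ y * p := by exact_mod_cast hlt3
      rw [max_eq_left (by linarith)]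
      simp
  · field_simp
    ring

theorem big_asy : Asy (fun m : ℕ => ∑ p ∈ prs (36 * m) (200 * m),
    ((∑ y ∈ Icc (1 : ℤ) 5, max 0 ((200 * m : ℤ) - y * p) + 4 * max 0 ((70 * m : ℤ) - p) : ℤ) : ℝ) *
      Real.log p) 0 (19386 + 2 / 3 + 2312) := by
  have h1 := fb_term 200 1 (by norm_num) (by norm_num) (by norm_num)
  have h2 := fb_term 200 2 (by norm_num) (by norm_num) (by norm_num)
  have h3 := fb_term 200 3 (by norm_num) (by norm_num) (by norm_num)
  have h4 := fb_term 200 4 (by norm_num) (by norm_num) (by norm_num)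
  have h5 := fb_term 200 5 (by norm_num) (by norm_num) (by norm_num)
  have h6 := fb_term 70 1 (by norm_num) (by norm_num) (by norm_num)
  have h := ((((h1.add h2).add h3).add h4).add h5).add (h6.const_mul 4)
  refine (h.congr (Eventually.of_forall fun m => ?_)).cast (by norm_num) (by norm_num)
  rw [Finset.mul_sum, ← Finset.sum_add_distrib, ← Finset.sum_add_distrib,
    ← Finset.sum_add_distrib, ← Finset.sum_add_distrib, ← Finset.sum_add_distrib]
  refine Finset.sum_congr rfl fun p _ => ?_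
  have hI : Icc (1 : ℤ) 5 = {1, 2, 3, 4, 5} := by decide
  rw [hI]
  have hs : ∑ y ∈ ({1, 2, 3, 4, 5} : Finset ℤ), max 0 ((200 * m : ℤ) - y * p) =
      max 0 ((200 * m : ℤ) - 1 * p) + max 0 ((200 * m : ℤ) - 2 * p) +
      max 0 ((200 * m : ℤ) - 3 * p) + max 0 ((200 * m : ℤ) - 4 * p) +
      max 0 ((200 * m : ℤ) - 5 * p) := by
    rw [Finset.sum_insert (by decide), Finset.sum_insert (by decide),
      Finset.sum_insert (by decide), Finset.sum_insert (by decide), Finset.sum_singleton]
    ring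
  rw [hs]
  simp only [Nat.cast_ofNat, Nat.cast_one, one_mul]
  push_cast
  ring

end MP_a3a416_nt.SJ
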