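import Mathlib

/-!
# SJ-F definitions: the analytic part of the theorem on B_{p-3} (prime sums)

N = 60 m, A = 70 m, K = 200 m - 100; `kappa = 8 * c.den`. `f1`: bound for every prime `3 <= p <= N`;
`f2`: flat primes in `(36 m, N]`; `f3`: flat primes `> N`; `g2`: the prime 2.
-/

set_option autoImplicit false

namespace MP_a3a416_nt.SJ

open Finset

/-- sum of the `p`-adic valuations of `i!` over `i < M` -/
def SF (p M : ℕ) : ℤ := ∑ i ∈ range M, (padicValNat p i.factorial : ℤ)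

def f1 (kappa m p : ℕ) : ℤ :=
  SF p (200 * m - 100) + 4 * SF p (70 * m) + (70 * m : ℤ) * Nat.log p (200 * m - 100) -
    2 * (70 * m : ℤ) * Nat.log p (60 * m) - 6 * (2 * (60 * m : ℤ) + 1) * Nat.log p (200 * m - 100) -
    2 * (70 * m : ℤ) * padicValNat p kappa

def f2 (m p : ℕ) : ℤ := 3 * (70 * m : ℤ) - 8 * (2 * ((60 * m : ℤ) - p) + 1)

def f3 (m p : ℕ) : ℤ := max 0 (min (3 * (70 * m : ℤ)) ((200 * m : ℤ) - 100 + 2 * (70 * m : ℤ) - p))

def g2 (kappa m : ℕ) : ℤ :=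
  2 * ∑ j ∈ range ((270 * m - 100) / 2), ((j : ℤ) + padicValNat 2 j.factorial) +
    3 * SF 2 (70 * m) + (70 * m : ℤ) * Nat.log 2 (200 * m - 100) -
    2 * (70 * m : ℤ) * Nat.log 2 (60 * m) -
    6 * (2 * (60 * m : ℤ) + 1) * (Nat.log 2 (200 * m - 100) + 1) -
    2 * (70 * m : ℤ) * padicValNat 2 kappa

/-- `sum_{i < M} log i!` -/
noncomputable def SL (M : ℕ) : ℝ := ∑ i ∈ range M, Real.log (i.factorial : ℝ)

/-- main term of the archimedean bound (closed form, as in `arch_bound`) -/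
noncomputable def UB (m : ℕ) : ℝ :=
  11 / 2 * (60 * m : ℝ) ^ 2 * (Real.log (2 * (60 * m)) - 3 / 2) +
    (((200 * m - 100 : ℝ) - 60 * m) ^ 2 / 2 + 4 * (((70 * m : ℝ) - 60 * m) ^ 2 / 2)) *
      Real.log ((60 * m : ℝ) / 2)

/-- `f m = a m^2 log m + b m^2 + o(m^2)` -/
def Asy (f : ℕ → ℝ) (a b : ℝ) : Prop :=
  (fun m : ℕ => f m - a * (m : ℝ) ^ 2 * Real.log m - b * (m : ℝ) ^ 2) =o[Filter.atTop]
    (fun m : ℕ => (m : ℝ) ^ 2)

/-- primes in `(x, y]` -/
def prs (x y : ℕ) : Finset ℕ := (Ioc x y).filter Nat.Prime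

/-- the lower bound for `log |D|` obtained from the valuations -/
noncomputable def LBs (kappa m : ℕ) (flat : ℕ → Prop) [DecidablePred flat] : ℝ :=
  (g2 kappa m : ℝ) * Real.log 2 + ∑ p ∈ prs 2 (36 * m), (f1 kappa m p : ℝ) * Real.log p +
    ∑ p ∈ prs (36 * m) (60 * m), ((if flat p then f2 m p else f1 kappa m p : ℤ) : ℝ) * Real.log p +
    ∑ p ∈ prs (60 * m) (420 * m), ((if flat p then f3 m p else 0 : ℤ) : ℝ) * Real.log p

/-- the non-flat primes in `(36 m, 420 m]` weighted by `log p` -/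
noncomputable def Th (m : ℕ) (flat : ℕ → Prop) [DecidablePred flat] : ℝ :=
  ∑ p ∈ (prs (36 * m) (420 * m)).filter (fun p => ¬ flat p), Real.log p

end MP_a3a416_nt.SJ
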