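import Pool.Agent.Lib.MP_a3a416_nt.SJ.FDefs

/-! # SJ-FFlat: reduction to the all-flat sum
`LB0` = the sum with all primes flat. PROOF of `LBs_ge`: for a non-flat prime `p` in `(36 m, 60 m]`: `f2 <= 210 m`,
`f1 >= -(790 m + 6)` (`SF >= 0`; `p^2 > 200 m`, `L = 1`, `L' <= 1`; `p > kappa > 0` so `v_p(kappa) = 0`), so `f2 - f1 <= 1000 m + 6 <= 1140 m`;
in `(60 m, 420 m]`: `f3 - 0 <= 210 m <= 1140 m`. -/

set_option autoImplicit false

namespace MP_a3a416_nt.SJ

open Finset Filter

/-- all primes flat -/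
noncomputable def LB0 (kappa m : ℕ) : ℝ :=
  (g2 kappa m : ℝ) * Real.log 2 + ∑ p ∈ prs 2 (36 * m), (f1 kappa m p : ℝ) * Real.log p +
    ∑ p ∈ prs (36 * m) (60 * m), (f2 m p : ℝ) * Real.log p +
    ∑ p ∈ prs (60 * m) (420 * m), (f3 m p : ℝ) * Real.log p

private lemma f3_le (m p : ℕ) : f3 m p ≤ 210 * m := by
  unfold f3
  have : (0 : ℤ) ≤ m := by positivity
  omega

private lemma f2_le (m p : ℕ) (hp : p ≤ 60 * m) : f2 m p ≤ 210 * m := by
  unfold f2
  have : (p : ℤ) ≤ 60 * m := by exact_mod_cast hp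
  omega

private lemma f1_ge (kappa : ℕ) (hk : 0 < kappa) (m : ℕ) (hm : 1 ≤ m) (hkm : kappa ≤ 36 * m)
    (p : ℕ) (h1 : 36 * m < p) (h2 : p ≤ 60 * m) : -(790 * (m : ℤ) + 6) ≤ f1 kappa m p := by
  have hS : ∀ M, 0 ≤ SF p M := fun M => by unfold SF; positivity
  have hL : Nat.log p (200 * m - 100) = 1 := by
    rw [Nat.log_eq_one_iff]
    refine ⟨?_, by omega, by omega⟩
    nlinarith [Nat.mul_le_mul h1.le h1.le, Nat.sub_le (200 * m) 100, Nat.mul_le_mul hm hm]
  have hL' : Nat.log p (60 * m) = 1 := by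
    rw [Nat.log_eq_one_iff]
    refine ⟨?_, by omega, h2⟩
    nlinarith [Nat.mul_le_mul h1.le h1.le]
  have hv : padicValNat p kappa = 0 := by
    apply padicValNat.eq_zero_of_not_dvd
    intro hd
    have := Nat.le_of_dvd hk hd
    omega
  unfold f1
  rw [hL, hL', hv]
  have := hS (200 * m - 100)
  have := hS (70 * m)
  push_cast
  omega

theorem LBs_ge (kappa : ℕ) (hk : 0 < kappa) (m : ℕ) (hm : 1 ≤ m) (hkm : kappa ≤ 36 * m)
    (flat : ℕ → Prop) [DecidablePred flat] :
    LB0 kappa m - 1140 * m * Th m flat ≤ LBs kappa m flat := by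
  have hmR : (1 : ℝ) ≤ m := by exact_mod_cast hm
  have hsplit : Th m flat = ∑ p ∈ prs (36 * m) (60 * m), (if flat p then 0 else Real.log p) +
      ∑ p ∈ prs (60 * m) (420 * m), (if flat p then 0 else Real.log p) := by
    unfold Th
    rw [Finset.sum_filter]
    have hd : Disjoint (prs (36 * m) (60 * m)) (prs (60 * m) (420 * m)) := by
      rw [Finset.disjoint_left]
      intro p h1 h2
      simp only [prs, mem_filter, mem_Ioc] at h1 h2
      omega
    have hu : prs (36 * m) (420 * m) = prs (36 * m) (60 * m) ∪ prs (60 * m) (420 * m) := by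
      ext p
      simp only [prs, mem_union, mem_filter, mem_Ioc]
      constructor
      · rintro ⟨⟨h1, h2⟩, h3⟩
        by_cases h : p ≤ 60 * m
        · exact Or.inl ⟨⟨h1, h⟩, h3⟩
        · exact Or.inr ⟨⟨by omega, h2⟩, h3⟩
      · rintro (⟨⟨h1, h2⟩, h3⟩ | ⟨⟨h1, h2⟩, h3⟩)
        · exact ⟨⟨h1, by omega⟩, h3⟩
        · exact ⟨⟨by omega, h2⟩, h3⟩
    rw [hu, Finset.sum_union hd]
    congr 1 <;> refine Finset.sum_congr rfl fun p _ => ?_ <;> by_cases h : flat p <;> simp [h]
  have hA : ∑ p ∈ prs (36 * m) (60 * m), (f2 m p : ℝ) * Real.log p -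
      1140 * m * ∑ p ∈ prs (36 * m) (60 * m), (if flat p then 0 else Real.log p) ≤
      ∑ p ∈ prs (36 * m) (60 * m), ((if flat p then f2 m p else f1 kappa m p : ℤ) : ℝ) *
        Real.log p := by
    rw [Finset.mul_sum, ← Finset.sum_sub_distrib]
    refine Finset.sum_le_sum fun p hp => ?_
    simp only [prs, mem_filter, mem_Ioc] at hp
    have hlog : 0 ≤ Real.log p := Real.log_natCast_nonneg p
    by_cases h : flat p
    · simp [h]
    · simp only [h, if_false]
      have e1 := f1_ge kappa hk m hm hkm p hp.1.1 hp.1.2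
      have e2 := f2_le m p hp.1.2
      have e3 : (f2 m p : ℝ) - 1140 * m ≤ f1 kappa m p := by
        have : f2 m p - 1140 * m ≤ f1 kappa m p := by omega
        exact_mod_cast this
      nlinarith [mul_le_mul_of_nonneg_right e3 hlog]
  have hB : ∑ p ∈ prs (60 * m) (420 * m), (f3 m p : ℝ) * Real.log p -
      1140 * m * ∑ p ∈ prs (60 * m) (420 * m), (if flat p then 0 else Real.log p) ≤
      ∑ p ∈ prs (60 * m) (420 * m), ((if flat p then f3 m p else 0 : ℤ) : ℝ) * Real.log p := by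
    rw [Finset.mul_sum, ← Finset.sum_sub_distrib]
    refine Finset.sum_le_sum fun p hp => ?_
    have hlog : 0 ≤ Real.log p := Real.log_natCast_nonneg p
    by_cases h : flat p
    · simp [h]
    · simp only [h, if_false]
      have e3 : (f3 m p : ℝ) - 1140 * m ≤ 0 := by
        have h1 : f3 m p ≤ 210 * m := f3_le m p
        have : f3 m p - 1140 * m ≤ 0 := by omega
        exact_mod_cast this
      push_cast
      nlinarith [mul_le_mul_of_nonneg_right e3 hlog]
  unfold LB0 LBs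
  rw [hsplit, mul_add]
  linarith

end MP_a3a416_nt.SJ
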