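import Pool.Agent.Lib.MP_a3a416_nt.SJ.FDefs

/-! # SJ-FId: `sum_p SF(p,M) log p = sum_{i<M} log i!`
PROOF. For `i < M`: `log i! = sum_{p | i!} v_p(i!) log p` (`Nat.factorization_prod_pow_eq_self`, `Nat.factorial_ne_zero`), the primes dividing `i!` are
`<= i < M`; exchange the sums; primes `p` not dividing `i!` have valuation 0. (`Nat.factorization_def`.) -/

set_option autoImplicit false

namespace MP_a3a416_nt.SJ

open Finset Filter

private theorem log_fact (i X : ℕ) (hi : i ≤ X) :
    Real.log (i.factorial : ℝ) =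
      ∑ p ∈ prs 0 X, (padicValNat p i.factorial : ℝ) * Real.log p := by
  have hne := Nat.factorial_ne_zero i
  have h1 : Real.log (i.factorial : ℝ) =
      ∑ p ∈ i.factorial.primeFactors, (padicValNat p i.factorial : ℝ) * Real.log p := by
    conv_lhs => rw [← Nat.prod_factorization_pow_eq_self hne]
    rw [Finsupp.prod, Nat.cast_prod, Real.log_prod]
    · refine Finset.sum_congr rfl fun p hp => ?_
      rw [Nat.cast_pow, Real.log_pow, Nat.factorization_def _ (Nat.prime_of_mem_primeFactors hp)]
    · intro p hp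
      have := (Nat.prime_of_mem_primeFactors hp).pos
      positivity
  rw [h1]
  refine Finset.sum_subset ?_ ?_
  · intro p hp
    have hpp := Nat.prime_of_mem_primeFactors hp
    have hd := Nat.dvd_of_mem_primeFactors hp
    have := (hpp.dvd_factorial).1 hd
    simp only [prs, mem_filter, mem_Ioc]
    exact ⟨⟨hpp.pos, this.trans hi⟩, hpp⟩
  · intro p hp hn
    simp only [prs, mem_filter, mem_Ioc] at hp
    have : ¬ p ∣ i.factorial := fun hd => hn (Nat.mem_primeFactors.2 ⟨hp.2, hd, hne⟩)
    rw [padicValNat.eq_zero_of_not_dvd this]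
    simp

theorem sum_SF_log (M X : ℕ) (hX : M ≤ X) :
    ∑ p ∈ prs 0 X, (SF p M : ℝ) * Real.log p = SL M := by
  unfold SL SF
  rw [Finset.sum_congr rfl fun i hi => log_fact i X ((Finset.mem_range.1 hi).le.trans hX)]
  rw [Finset.sum_comm]
  refine Finset.sum_congr rfl fun p _ => ?_
  rw [Int.cast_sum, Finset.sum_mul]
  refine Finset.sum_congr rfl fun i _ => ?_
  rw [Int.cast_natCast]

end MP_a3a416_nt.SJ
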