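import Pool.Agent.Lib.MP_a3a416_nt.SJ.FDefs

/-! # SJ-FLog: the logarithmic losses for `3 <= p <= 36 m`
PROOF. `f1 - SF p K - 4 SF p A = A L - 2 A L' - 6 (2N+1) L - 2 A v_p(kappa)`, `L = Nat.log p (200m-100)`, `L' = Nat.log p (60 m)`, `L' <= L` (`60 m <= 200 m - 100` for `m >= 1`).
If `p^2 > 200 m` then `L = 1` (`p <= 36 m <= 200 m - 100`), `L' <= 1`: `A L - 2 A L' - 6 (2N+1) L >= 70 m - 140 m - 720 m - 6 = -(790 m + 6)`.
If `p^2 <= 200 m`: it is `>= -(140 m + 720 m + 6) L` and `L log p <= log (200 m)` (`p^L <= 200 m`); there are at most `sqrt (200 m)` such `p`.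
So this part of the sum is `>= -(790 m+6) sum log p - (860 m + 6) sqrt(200 m) log(200 m)`. And `sum_p v_p(kappa) log p <= log kappa` (product over some primes dividing `kappa`). -/

set_option autoImplicit false

namespace MP_a3a416_nt.SJ

open Finset Filter

private lemma sum_val_log (kappa : ℕ) (S : Finset ℕ) (hS : ∀ p ∈ S, p.Prime) :
    ∑ p ∈ S, (padicValNat p kappa : ℝ) * Real.log p ≤ Real.log kappa := by
  classical
  rw [Real.log_nat_eq_sum_factorization kappa, Finsupp.sum]
  have h1 : ∑ p ∈ S, (padicValNat p kappa : ℝ) * Real.log p =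
      ∑ p ∈ S.filter (fun p => p ∈ kappa.factorization.support),
        (kappa.factorization p : ℝ) * Real.log p := by
    rw [Finset.sum_filter]
    refine Finset.sum_congr rfl fun p hp => ?_
    rw [← Nat.factorization_def kappa (hS p hp)]
    split_ifs with h
    · rfl
    · rw [Finsupp.notMem_support_iff.1 h]; simp
  rw [h1]
  refine Finset.sum_le_sum_of_subset_of_nonneg ?_ ?_
  · intro p hp
    exact (Finset.mem_filter.1 hp).2
  · intro p _ _
    exact mul_nonneg (Nat.cast_nonneg _) (Real.log_natCast_nonneg p)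

private lemma log_part (m : ℕ) (hm : 1 ≤ m) :
    ∑ p ∈ prs 2 (36 * m), (Nat.log p (200 * m - 100) : ℝ) * Real.log p ≤
      ∑ p ∈ prs 0 (36 * m), Real.log p + Real.sqrt (200 * m) * Real.log (200 * m) := by
  classical
  set K := 200 * m - 100 with hK
  have hm' : (1 : ℝ) ≤ m := by exact_mod_cast hm
  have hterm : ∀ p ∈ prs 2 (36 * m), (Nat.log p K : ℝ) * Real.log p ≤
      Real.log p + if p ^ 2 ≤ K then Real.log (200 * m) else 0 := by
    intro p hp
    rw [prs, mem_filter, mem_Ioc] at hp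
    have hp1 : 1 < p := hp.2.one_lt
    have hp0 : (0 : ℝ) ≤ Real.log p := Real.log_natCast_nonneg p
    split_ifs with h
    · have h2 : p ^ Nat.log p K ≤ K := Nat.pow_log_le_self p (by omega)
      have h3 : ((p : ℝ)) ^ Nat.log p K ≤ 200 * m := by
        calc ((p : ℝ)) ^ Nat.log p K = ((p ^ Nat.log p K : ℕ) : ℝ) := by push_cast; rfl
          _ ≤ (K : ℝ) := by exact_mod_cast h2
          _ ≤ ((200 * m : ℕ) : ℝ) := by exact_mod_cast Nat.sub_le _ _
          _ = 200 * m := by push_cast; rfl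
      have h4 := Real.log_le_log (by positivity) h3
      rw [Real.log_pow] at h4
      linarith
    · have h2 : Nat.log p K < 2 := by
        by_contra hcon
        push Not at hcon
        exact h ((Nat.pow_le_pow_right (by omega) hcon).trans (Nat.pow_log_le_self p (by omega)))
      have h3 : (Nat.log p K : ℝ) ≤ 1 := by exact_mod_cast (by omega : Nat.log p K ≤ 1)
      nlinarith
  refine (Finset.sum_le_sum hterm).trans ?_
  rw [Finset.sum_add_distrib]
  refine add_le_add ?_ ?_
  · refine Finset.sum_le_sum_of_subset_of_nonneg ?_ ?_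
    · intro p hp
      rw [prs, mem_filter, mem_Ioc] at hp ⊢
      exact ⟨⟨by omega, hp.1.2⟩, hp.2⟩
    · intro p _ _
      exact Real.log_natCast_nonneg p
  · rw [← Finset.sum_filter, Finset.sum_const, nsmul_eq_mul]
    refine mul_le_mul_of_nonneg_right ?_ (Real.log_nonneg (by linarith))
    have hcard : ((prs 2 (36 * m)).filter fun p => p ^ 2 ≤ K).card ≤ Nat.sqrt K := by
      calc ((prs 2 (36 * m)).filter fun p => p ^ 2 ≤ K).card ≤ (Icc 1 (Nat.sqrt K)).card := by
            refine Finset.card_le_card ?_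
            intro p hp
            rw [mem_filter, prs, mem_filter, mem_Ioc] at hp
            rw [mem_Icc]
            exact ⟨by omega, Nat.le_sqrt'.2 hp.2⟩
        _ = Nat.sqrt K := by simp
    calc (((prs 2 (36 * m)).filter fun p => p ^ 2 ≤ K).card : ℝ) ≤ (Nat.sqrt K : ℝ) := by
          exact_mod_cast hcard
      _ ≤ Real.sqrt (K : ℝ) := Real.nat_sqrt_le_real_sqrt
      _ ≤ Real.sqrt (200 * m) := by
          apply Real.sqrt_le_sqrt
          have : (K : ℝ) ≤ ((200 * m : ℕ) : ℝ) := by exact_mod_cast Nat.sub_le _ _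
          push_cast at this
          exact this

theorem Lterm (kappa : ℕ) (hk : 0 < kappa) (m : ℕ) (hm : 1 ≤ m) :
    -(790 * (m : ℝ) + 6) * ∑ p ∈ prs 0 (36 * m), Real.log p -
      (860 * (m : ℝ) + 6) * Real.sqrt (200 * m) * Real.log (200 * m) -
      140 * m * Real.log kappa ≤
    ∑ p ∈ prs 2 (36 * m), ((f1 kappa m p - SF p (200 * m - 100) - 4 * SF p (70 * m) : ℤ) : ℝ) *
      Real.log p := by
  have hm' : (1 : ℝ) ≤ m := by exact_mod_cast hm
  have h1 := log_part m hm
  have h2 := sum_val_log kappa (prs 2 (36 * m)) (fun p hp => by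
    rw [prs, mem_filter] at hp; exact hp.2)
  have h3 : ∀ p ∈ prs 2 (36 * m), -(790 * (m : ℝ) + 6) * ((Nat.log p (200 * m - 100) : ℝ) *
      Real.log p) - 140 * m * ((padicValNat p kappa : ℝ) * Real.log p) ≤
      ((f1 kappa m p - SF p (200 * m - 100) - 4 * SF p (70 * m) : ℤ) : ℝ) * Real.log p := by
    intro p hp
    have hp0 : (0 : ℝ) ≤ Real.log p := Real.log_natCast_nonneg p
    have hL : Nat.log p (60 * m) ≤ Nat.log p (200 * m - 100) := Nat.log_mono_right (by omega)
    have hL' : (Nat.log p (60 * m) : ℝ) ≤ Nat.log p (200 * m - 100) := by exact_mod_cast hL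
    have e : ((f1 kappa m p - SF p (200 * m - 100) - 4 * SF p (70 * m) : ℤ) : ℝ) =
        70 * m * Nat.log p (200 * m - 100) - 2 * (70 * m) * Nat.log p (60 * m) -
          6 * (2 * (60 * m) + 1) * Nat.log p (200 * m - 100) -
          2 * (70 * m) * padicValNat p kappa := by
      unfold f1
      simp only [Int.cast_sub, Int.cast_add, Int.cast_mul, Int.cast_natCast, Int.cast_ofNat,
        Int.cast_one]
      ring
    rw [e]
    have h4 : 0 ≤ 140 * (m : ℝ) * (Nat.log p (200 * m - 100) - Nat.log p (60 * m)) := by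
      apply mul_nonneg (by positivity); linarith
    have h5 : 0 ≤ (140 * (m : ℝ) * (Nat.log p (200 * m - 100) - Nat.log p (60 * m))) *
        Real.log p := mul_nonneg h4 hp0
    nlinarith [h5]
  refine le_trans ?_ (Finset.sum_le_sum h3)
  rw [Finset.sum_sub_distrib, ← Finset.mul_sum, ← Finset.mul_sum]
  have hs : 0 ≤ Real.sqrt (200 * m) * Real.log (200 * m) :=
    mul_nonneg (Real.sqrt_nonneg _) (Real.log_nonneg (by linarith))
  have h6 : (790 * (m : ℝ) + 6) * ∑ p ∈ prs 2 (36 * m), (Nat.log p (200 * m - 100) : ℝ) *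
      Real.log p ≤ (790 * (m : ℝ) + 6) * (∑ p ∈ prs 0 (36 * m), Real.log p +
        Real.sqrt (200 * m) * Real.log (200 * m)) :=
    mul_le_mul_of_nonneg_left h1 (by positivity)
  have h7 : 140 * (m : ℝ) * ∑ p ∈ prs 2 (36 * m), (padicValNat p kappa : ℝ) * Real.log p ≤
      140 * (m : ℝ) * Real.log kappa := mul_le_mul_of_nonneg_left h2 (by positivity)
  nlinarith [mul_nonneg (by positivity : (0 : ℝ) ≤ 70 * m) hs]

end MP_a3a416_nt.SJ
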