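import Mathlib

/-! # SJ-FNum: the final numeric inequality
`log 3`, `log 5`, `log 7` are compared with `log 2` by `3^12 / 2^19`, `81 / 80`, `2401 / 2400` and
`1 - 1/x ≤ log x ≤ x - 1`. -/

set_option autoImplicit false

namespace MP_a3a416_nt.SJ

theorem final_num :
    (19800 * (Real.log 120 - 3 / 2) + 10000 * Real.log 30) + 541 <
    20000 * (Real.log 200 - 3 / 2) + 4 * (2450 * (Real.log 70 - 3 / 2)) - (19386 + 2 / 3 + 2312) +
      14000 * Real.log 2 - 790 * 36 + 432 + 36750 := by
  have h120 : Real.log 120 = 3 * Real.log 2 + Real.log 3 + Real.log 5 := by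
    have : (120 : ℝ) = 2 ^ 3 * 3 * 5 := by norm_num
    rw [this, Real.log_mul (by norm_num) (by norm_num), Real.log_mul (by norm_num) (by norm_num),
      Real.log_pow]
    push_cast; ring
  have h30 : Real.log 30 = Real.log 2 + Real.log 3 + Real.log 5 := by
    have : (30 : ℝ) = 2 * 3 * 5 := by norm_num
    rw [this, Real.log_mul (by norm_num) (by norm_num), Real.log_mul (by norm_num) (by norm_num)]
  have h200 : Real.log 200 = 3 * Real.log 2 + 2 * Real.log 5 := by
    have : (200 : ℝ) = 2 ^ 3 * 5 ^ 2 := by norm_num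
    rw [this, Real.log_mul (by norm_num) (by norm_num), Real.log_pow, Real.log_pow]
    push_cast; ring
  have h70 : Real.log 70 = Real.log 2 + Real.log 5 + Real.log 7 := by
    have : (70 : ℝ) = 2 * 5 * 7 := by norm_num
    rw [this, Real.log_mul (by norm_num) (by norm_num), Real.log_mul (by norm_num) (by norm_num)]
  have e1 : 12 * Real.log 3 = 19 * Real.log 2 + Real.log (531441 / 524288) := by
    rw [Real.log_div (by norm_num) (by norm_num)]
    have a1 : (531441 : ℝ) = 3 ^ 12 := by norm_num
    have a2 : (524288 : ℝ) = 2 ^ 19 := by norm_num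
    rw [a1, a2, Real.log_pow, Real.log_pow]
    push_cast; ring
  have e2 : Real.log 5 = 4 * Real.log 3 - 4 * Real.log 2 - Real.log (81 / 80) := by
    rw [Real.log_div (by norm_num) (by norm_num)]
    have a1 : (81 : ℝ) = 3 ^ 4 := by norm_num
    have a2 : (80 : ℝ) = 2 ^ 4 * 5 := by norm_num
    rw [a1, a2, Real.log_mul (by norm_num) (by norm_num), Real.log_pow, Real.log_pow]
    push_cast; ring
  have e3 : 4 * Real.log 7 = 5 * Real.log 2 + Real.log 3 + 2 * Real.log 5 +
      Real.log (2401 / 2400) := by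
    rw [Real.log_div (by norm_num) (by norm_num)]
    have a1 : (2401 : ℝ) = 7 ^ 4 := by norm_num
    have a2 : (2400 : ℝ) = 2 ^ 5 * 3 * 5 ^ 2 := by norm_num
    rw [a1, a2, Real.log_mul (by norm_num) (by norm_num), Real.log_mul (by norm_num) (by norm_num),
      Real.log_pow, Real.log_pow, Real.log_pow]
    push_cast; ring
  have b1 : 1 - (531441 / 524288 : ℝ)⁻¹ ≤ Real.log (531441 / 524288) :=
    Real.one_sub_inv_le_log_of_pos (by norm_num)
  have b2 : Real.log (81 / 80) ≤ 81 / 80 - 1 := Real.log_le_sub_one_of_pos (by norm_num)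
  have b3 : 1 - (2401 / 2400 : ℝ)⁻¹ ≤ Real.log (2401 / 2400) :=
    Real.one_sub_inv_le_log_of_pos (by norm_num)
  have c1 := Real.log_two_gt_d9
  have c2 := Real.log_two_lt_d9
  rw [h120, h30, h200, h70]
  norm_num at b1 b2 b3 ⊢
  linarith

end MP_a3a416_nt.SJ
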