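import Pool.Agent.Lib.MP_a3a416_nt.SJ.FPS

/-! # SJ-FPos: the flat primes above `36 m`
PROOF. `f2 m p = -750 m + 16 p - 8`; `sum_{36m<p<=60m} (-750 m + 16 p) log p` is `prsum_asy` (value `-750*24 + 8*(3600-1296) = 432`), the rest is
`-8 sum log p = O(m)`. `f3`: for `60 m < p <= 130 m`: `f3 >= 210 m - 100` (and `>= 0`); for `130 m < p <= 340 m`: `f3 >= 340 m - p - 100`; for `p > 340 m`: `>= 0`.
`sum_{60m<p<=130m} 210 m log p` -> `14700`, `sum_{130m<p<=340m} (340 m - p) log p` -> `210^2/2 = 22050`, `100 sum log p = O(m)`. The function `e(m)` is the sum of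
all these error terms. -/

set_option autoImplicit false

namespace MP_a3a416_nt.SJ

open Finset Filter Asymptotics

private theorem log_nonneg_prs {x y p : ℕ} (_ : p ∈ prs x y) : 0 ≤ Real.log (p : ℝ) :=
  Real.log_natCast_nonneg p

private theorem sum_log_prs_nonneg (x y : ℕ) : 0 ≤ ∑ p ∈ prs x y, Real.log (p : ℝ) :=
  sum_nonneg fun p _ => Real.log_natCast_nonneg p

private theorem sum_log_prs_le (x y : ℕ) : ∑ p ∈ prs x y, Real.log (p : ℝ) ≤ Real.log 4 * y := by
  refine le_trans ?_ (Chebyshev.theta_le_log4_mul_x (x := (y : ℝ)) (by positivity))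
  unfold Chebyshev.theta
  rw [Nat.floor_natCast]
  unfold prs
  refine sum_le_sum_of_subset_of_nonneg ?_ fun i _ _ => Real.log_natCast_nonneg i
  refine filter_subset_filter _ fun i hi => ?_
  rw [mem_Ioc] at hi ⊢
  omega

private theorem sum_log_asy (a b : ℕ) :
    Asy (fun m : ℕ => ∑ p ∈ prs (a * m) (b * m), Real.log (p : ℝ)) 0 0 := by
  refine Asy.of_isLittleO ?_
  have h1 : (fun m : ℕ => ∑ p ∈ prs (a * m) (b * m), Real.log (p : ℝ)) =O[atTop]
      (fun m : ℕ => (m : ℝ)) := by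
    refine IsBigO.of_bound (Real.log 4 * b) (Eventually.of_forall fun m => ?_)
    rw [Real.norm_eq_abs, abs_of_nonneg (sum_log_prs_nonneg _ _), Real.norm_eq_abs,
      abs_of_nonneg (Nat.cast_nonneg m)]
    have := sum_log_prs_le (a * m) (b * m)
    push_cast at this
    linarith
  refine h1.trans_isLittleO ?_
  have h2 : (fun x : ℝ => x ^ 1) =o[atTop] (fun x : ℝ => x ^ 2) := isLittleO_pow_pow_atTop_of_lt
    (by norm_num)
  have h3 := h2.comp_tendsto tendsto_natCast_atTop_atTop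
  simpa [Function.comp_def] using h3

private theorem prsum_nat (α β : ℝ) (a b : ℕ) (hab : a ≤ b) :
    Asy (fun m : ℕ => ∑ p ∈ prs (a * m) (b * m), (α * m + β * p) * Real.log (p : ℝ)) 0
      (α * (b - a) + β * (b ^ 2 - a ^ 2) / 2) := by
  have h := prsum_asy α β (a : ℝ) (b : ℝ) (by positivity) (by exact_mod_cast hab)
  refine h.congr (Eventually.of_forall fun m => ?_)
  have e1 : ⌊(a : ℝ) * m⌋₊ = a * m := by rw [← Nat.cast_mul, Nat.floor_natCast]
  have e2 : ⌊(b : ℝ) * m⌋₊ = b * m := by rw [← Nat.cast_mul, Nat.floor_natCast]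
  simp only [e1, e2]

theorem f2_asy : Asy (fun m : ℕ => ∑ p ∈ prs (36 * m) (60 * m), (f2 m p : ℝ) * Real.log p) 0
    432 := by
  have h1 := prsum_nat (-750) 16 36 60 (by norm_num)
  have h2 := (sum_log_asy 36 60).const_mul (-8)
  refine ((h1.add h2).congr (Eventually.of_forall fun m => ?_)).cast (by norm_num) (by norm_num)
  rw [mul_sum, ← sum_add_distrib]
  refine sum_congr rfl fun p _ => ?_
  unfold f2
  push_cast
  ring

private theorem prs_union (x y z : ℕ) (hxy : x ≤ y) (hyz : y ≤ z) (f : ℕ → ℝ) :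
    ∑ p ∈ prs x z, f p = ∑ p ∈ prs x y, f p + ∑ p ∈ prs y z, f p := by
  unfold prs
  rw [← Ioc_union_Ioc_eq_Ioc hxy hyz, filter_union, sum_union]
  rw [disjoint_left]
  intro a ha hb
  simp only [mem_filter, mem_Ioc] at ha hb
  omega

theorem f3_ge : ∃ h : ℕ → ℝ, Asy h 0 36750 ∧
    ∀ m : ℕ, h m ≤ ∑ p ∈ prs (60 * m) (420 * m), (f3 m p : ℝ) * Real.log p := by
  have h1 := prsum_nat 210 0 60 130 (by norm_num)
  have h2 := prsum_nat 340 (-1) 130 340 (by norm_num)
  have h3 := (sum_log_asy 60 130).const_mul (-100)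
  have h4 := (sum_log_asy 130 340).const_mul (-100)
  refine ⟨_, ((h1.add h3).add (h2.add h4)).cast (by norm_num) (by norm_num), fun m => ?_⟩
  rw [prs_union (60 * m) (130 * m) (420 * m) (by omega) (by omega),
    prs_union (130 * m) (340 * m) (420 * m) (by omega) (by omega)]
  have k1 : ∑ p ∈ prs (60 * m) (130 * m), ((210 : ℝ) * m + 0 * p) * Real.log p +
      -100 * ∑ p ∈ prs (60 * m) (130 * m), Real.log p ≤
      ∑ p ∈ prs (60 * m) (130 * m), (f3 m p : ℝ) * Real.log p := by
    rw [mul_sum, ← sum_add_distrib]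
    refine sum_le_sum fun p hp => ?_
    have hp1 := (mem_Ioc.mp (mem_filter.mp hp).1)
    rw [← add_mul]
    refine mul_le_mul_of_nonneg_right ?_ (Real.log_natCast_nonneg p)
    have : (210 : ℤ) * m - 100 ≤ f3 m p := by
      unfold f3
      omega
    have h' : (((210 : ℤ) * m - 100 : ℤ) : ℝ) ≤ (f3 m p : ℝ) := by exact_mod_cast this
    push_cast at h'
    linarith
  have k2 : ∑ p ∈ prs (130 * m) (340 * m), ((340 : ℝ) * m + -1 * p) * Real.log p +
      -100 * ∑ p ∈ prs (130 * m) (340 * m), Real.log p ≤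
      ∑ p ∈ prs (130 * m) (340 * m), (f3 m p : ℝ) * Real.log p := by
    rw [mul_sum, ← sum_add_distrib]
    refine sum_le_sum fun p hp => ?_
    have hp1 := (mem_Ioc.mp (mem_filter.mp hp).1)
    rw [← add_mul]
    refine mul_le_mul_of_nonneg_right ?_ (Real.log_natCast_nonneg p)
    have : (340 : ℤ) * m - p - 100 ≤ f3 m p := by
      unfold f3
      omega
    have h' : (((340 : ℤ) * m - p - 100 : ℤ) : ℝ) ≤ (f3 m p : ℝ) := by exact_mod_cast this
    push_cast at h'
    linarith
  have k3 : 0 ≤ ∑ p ∈ prs (340 * m) (420 * m), (f3 m p : ℝ) * Real.log p := by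
    refine sum_nonneg fun p _ => mul_nonneg ?_ (Real.log_natCast_nonneg p)
    have : (0 : ℤ) ≤ f3 m p := by
      unfold f3
      omega
    exact_mod_cast this
  linarith

end MP_a3a416_nt.SJ
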