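import Pool.Agent.Lib.MP_a3a416_nt.SJ.FDefs

/-! # SJ-FTwo: the gain at the prime 2
PROOF. `g2 - SF 2 K - 4 SF 2 A = 2 sum_{j<h} (j + v_2(j!)) - SF 2 K - SF 2 A + A L - 2 A L' - 6(2N+1)(L+1) - 2 A v_2(kappa)`, `h = 135 m - 50`.
`j - log_2 j - 1 <= v_2(j!) <= j` (Legendre: `v_2(j!) = j - (digit sum)`, `Nat.digits` length `<= log_2 j + 1`; `sub_one_mul_padicValNat_factorial`), so
`2 sum_{j<h} >= 2 sum_{j<h} (2j - L2 - 1)` with `L2 = Nat.log 2 (200 m)`, `= 2 h (h-1) - 2 h (L2+1)`, and `SF 2 M <= sum_{i<M} i <= M^2/2`.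
`2 (135 m)^2 - (200 m)^2/2 - (70 m)^2/2 = 14000 m^2`; all other terms are `>= - C m (1 + log_2 m)`; `Nat.log 2 x <= log x / log 2`; `log m >= log 2 > 0`. -/

set_option autoImplicit false

namespace MP_a3a416_nt.SJ

open Finset Filter

private theorem digsum_le (n : ℕ) : ((Nat.digits 2 n).sum) ≤ Nat.log 2 n + 1 := by
  rcases Nat.eq_zero_or_pos n with h | h
  · subst h; simp
  · have h1 : (Nat.digits 2 n).sum ≤ (Nat.digits 2 n).length * 1 := by
      refine List.sum_le_card_nsmul _ 1 ?_ |>.trans (by simp)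
      intro x hx
      have := Nat.digits_lt_base (by norm_num : 1 < 2) hx
      omega
    rw [Nat.length_digits 2 n (by norm_num) h.ne'] at h1
    omega

private theorem v2_eq (n : ℕ) : padicValNat 2 n.factorial = n - (Nat.digits 2 n).sum := by
  have := sub_one_mul_padicValNat_factorial (p := 2) n
  simpa using this

private theorem v2_le (n : ℕ) : padicValNat 2 n.factorial ≤ n := by
  rw [v2_eq]; omega

private theorem v2_ge (n L : ℕ) (h : n ≤ L) :
    (n : ℤ) - (Nat.log 2 L + 1 : ℕ) ≤ padicValNat 2 n.factorial := by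
  rw [v2_eq]
  have h1 := digsum_le n
  have h2 : Nat.log 2 n ≤ Nat.log 2 L := Nat.log_mono_right h
  omega

private theorem two_sum_range (M : ℕ) : 2 * ∑ i ∈ range M, (i : ℤ) = M * (M - 1) := by
  induction M with
  | zero => simp
  | succ k ih => rw [sum_range_succ, mul_add, ih]; push_cast; ring

private theorem SF_two_le (M : ℕ) : 2 * SF 2 M ≤ (M : ℤ) ^ 2 := by
  have h1 : SF 2 M ≤ ∑ i ∈ range M, (i : ℤ) := by
    unfold SF
    refine sum_le_sum fun i _ => ?_
    exact_mod_cast v2_le i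
  have h2 := two_sum_range M
  have h3 : (M : ℤ) * (M - 1) ≤ (M : ℤ) ^ 2 := by nlinarith [Int.natCast_nonneg M]
  linarith

private theorem main_sum_ge (h L : ℕ) (hL : h ≤ L) :
    2 * (h : ℤ) * (h - 1) - 2 * h * (Nat.log 2 L + 1 : ℕ) ≤
      2 * ∑ j ∈ range h, ((j : ℤ) + padicValNat 2 j.factorial) := by
  have h1 : ∑ j ∈ range h, (2 * (j : ℤ) - (Nat.log 2 L + 1 : ℕ)) ≤
      ∑ j ∈ range h, ((j : ℤ) + padicValNat 2 j.factorial) := by
    refine sum_le_sum fun j hj => ?_
    have := v2_ge j L ((mem_range.mp hj).le.trans hL)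
    linarith
  have h2 : ∑ j ∈ range h, (2 * (j : ℤ) - (Nat.log 2 L + 1 : ℕ)) =
      h * (h - 1) - h * (Nat.log 2 L + 1 : ℕ) := by
    rw [sum_sub_distrib, ← mul_sum, two_sum_range]
    simp
  rw [h2] at h1
  linarith

theorem two_gain (kappa : ℕ) : ∃ C : ℝ, ∀ m : ℕ, 2 ≤ m →
    14000 * (m : ℝ) ^ 2 - C * m * Real.log m ≤
      ((g2 kappa m - SF 2 (200 * m - 100) - 4 * SF 2 (70 * m) : ℤ) : ℝ) := by
  refine ⟨(28266 + 1136 * 9 + 140 * (padicValNat 2 kappa : ℝ)) / Real.log 2, fun m hm => ?_⟩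
  set v := padicValNat 2 kappa with hv
  set L2 := Nat.log 2 (200 * m) with hL2
  have hl2 : 0 < Real.log 2 := Real.log_pos (by norm_num)
  have hm0 : (2 : ℝ) ≤ m := by exact_mod_cast hm
  have hlm : Real.log 2 ≤ Real.log m := Real.log_le_log (by norm_num) hm0
  -- integer inequality
  have hint : 14000 * (m : ℤ) ^ 2 - m * (28266 + 1136 * L2 + 140 * v) ≤
      g2 kappa m - SF 2 (200 * m - 100) - 4 * SF 2 (70 * m) := by
    obtain ⟨h, hh⟩ : ∃ h : ℕ, h = 135 * m - 50 := ⟨_, rfl⟩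
    have hh1 : (270 * m - 100) / 2 = h := by omega
    have hhz : (h : ℤ) = 135 * m - 50 := by omega
    have hmain := main_sum_ge h (200 * m) (by omega)
    have hK := SF_two_le (200 * m - 100)
    have hA := SF_two_le (70 * m)
    have hKz : ((200 * m - 100 : ℕ) : ℤ) = 200 * m - 100 := by omega
    rw [hKz] at hK
    have hL : Nat.log 2 (200 * m - 100) ≤ L2 := Nat.log_mono_right (by omega)
    have hL' : Nat.log 2 (60 * m) ≤ L2 := Nat.log_mono_right (by omega)
    have hLz : (Nat.log 2 (200 * m - 100) : ℤ) ≤ L2 := by exact_mod_cast hL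
    have hLz' : (Nat.log 2 (60 * m) : ℤ) ≤ L2 := by exact_mod_cast hL'
    have hLn : (0 : ℤ) ≤ Nat.log 2 (200 * m - 100) := by positivity
    have hmz : (2 : ℤ) ≤ m := by exact_mod_cast hm
    unfold g2
    rw [hh1, ← hv]
    rw [← hL2] at hmain
    generalize (Nat.log 2 (200 * m - 100) : ℤ) = L at *
    generalize (Nat.log 2 (60 * m) : ℤ) = L' at *
    push_cast at hmain hA ⊢
    rw [hhz] at hmain
    have e1 : 0 ≤ (m : ℤ) * L := by positivity
    have e2 : (m : ℤ) * L' ≤ m * L2 := mul_le_mul_of_nonneg_left hLz' (by positivity)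
    have e3 : (120 * (m : ℤ) + 1) * (L + 1) ≤ (121 * m) * (L2 + 1) := by
      apply mul_le_mul <;> linarith
    have e4 : (m : ℤ) * L2 ≥ 0 := by positivity
    nlinarith
  have hreal : 14000 * (m : ℝ) ^ 2 - m * (28266 + 1136 * L2 + 140 * v) ≤
      ((g2 kappa m - SF 2 (200 * m - 100) - 4 * SF 2 (70 * m) : ℤ) : ℝ) := by
    exact_mod_cast hint
  refine le_trans ?_ hreal
  have hL2r : (L2 : ℝ) * Real.log 2 ≤ 9 * Real.log m := by
    have h1 : 2 ^ L2 ≤ 200 * m := Nat.pow_log_le_self 2 (by omega)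
    have h2 : ((2 : ℝ) ^ L2) ≤ 200 * m := by exact_mod_cast h1
    have h3 := Real.log_le_log (by positivity) h2
    rw [Real.log_pow, Real.log_mul (by norm_num) (by positivity)] at h3
    have h4 : Real.log 200 ≤ 8 * Real.log 2 := by
      rw [show 8 * Real.log 2 = Real.log (2 ^ 8) by rw [Real.log_pow]; norm_num]
      exact Real.log_le_log (by norm_num) (by norm_num)
    linarith
  have hc : (28266 + 1136 * (L2 : ℝ) + 140 * v) ≤
      (28266 + 1136 * 9 + 140 * (v : ℝ)) / Real.log 2 * Real.log m := by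
    rw [div_mul_eq_mul_div, le_div_iff₀ hl2]
    have h5 : 28266 * Real.log 2 ≤ 28266 * Real.log m := by linarith
    have h6 : (v : ℝ) * Real.log 2 ≤ v * Real.log m := mul_le_mul_of_nonneg_left hlm (by positivity)
    nlinarith
  have := mul_le_mul_of_nonneg_left hc (show (0 : ℝ) ≤ m by positivity)
  linarith

end MP_a3a416_nt.SJ
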