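import Pool.Agent.Lib.MP_a3a416_nt.SJ.FAsy

/-! # SJ-FUB: asymptotics of the archimedean bound
PROOF. `log(120 m) = log m + log 120`, `log(30 m) = log m + log 30` (m >= 1); `(140 m - 100)^2/2 + 4 (10 m)^2/2 = 10000 m^2 + O(m)`; `19800 + 10000 = 29800`;
`O(m) log m = o(m^2)`. -/

set_option autoImplicit false

namespace MP_a3a416_nt.SJ

open Finset Filter Asymptotics

theorem UB_asy : Asy UB 29800 (19800 * (Real.log 120 - 3 / 2) + 10000 * Real.log 30) := by
  have hcast : Tendsto (fun m : ℕ => (m : ℝ)) atTop atTop := tendsto_natCast_atTop_atTop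
  have hlog : (fun m : ℕ => Real.log (m : ℝ)) =o[atTop] fun m : ℕ => (m : ℝ) :=
    Real.isLittleO_log_id_atTop.comp_tendsto hcast
  have hconst : (fun _ : ℕ => Real.log 30) =o[atTop] fun m : ℕ => (m : ℝ) :=
    (isLittleO_const_id_atTop (Real.log 30)).comp_tendsto hcast
  have hconst2 : (fun _ : ℕ => (5000 : ℝ)) =o[atTop] fun m : ℕ => (m : ℝ) :=
    (isLittleO_const_id_atTop (5000 : ℝ)).comp_tendsto hcast
  have hlin : (fun m : ℕ => -14000 * (m : ℝ) + 5000) =O[atTop] fun m : ℕ => (m : ℝ) :=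
    ((isBigO_refl (fun m : ℕ => (m : ℝ)) atTop).const_mul_left (-14000)).add hconst2.isBigO
  have hprod : (fun m : ℕ => (-14000 * (m : ℝ) + 5000) * (Real.log (m : ℝ) + Real.log 30))
      =o[atTop] fun m : ℕ => (m : ℝ) * (m : ℝ) := hlin.mul_isLittleO (hlog.add hconst)
  unfold Asy
  refine hprod.congr' ?_ (Eventually.of_forall fun m => by simp only; ring)
  filter_upwards [eventually_ge_atTop 1] with m hm
  have hm0 : (m : ℝ) ≠ 0 := by
    have : (0 : ℝ) < m := by exact_mod_cast hm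
    exact this.ne'
  have h1 : Real.log (2 * (60 * (m : ℝ))) = Real.log m + Real.log 120 := by
    rw [show 2 * (60 * (m : ℝ)) = (m : ℝ) * 120 by ring, Real.log_mul hm0 (by norm_num)]
  have h2 : Real.log (60 * (m : ℝ) / 2) = Real.log m + Real.log 30 := by
    rw [show 60 * (m : ℝ) / 2 = (m : ℝ) * 30 by ring, Real.log_mul hm0 (by norm_num)]
  unfold UB
  rw [h1, h2]
  ring

end MP_a3a416_nt.SJ
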