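import Pool.Agent.Lib.MP_a3a416_nt.SJ.FBigSum
import Pool.Agent.Lib.MP_a3a416_nt.SJ.FPos
import Pool.Agent.Lib.MP_a3a416_nt.SJ.FUB
import Pool.Agent.Lib.MP_a3a416_nt.SJ.FSL
import Pool.Agent.Lib.MP_a3a416_nt.SJ.FNum
import Pool.Agent.Lib.MP_a3a416_nt.SJ.FFlat
import Pool.Agent.Lib.MP_a3a416_nt.SJ.FLog
import Pool.Agent.Lib.MP_a3a416_nt.SJ.FTwo
import Pool.Agent.Lib.MP_a3a416_nt.SJ.FBig
import Pool.Agent.Lib.MP_a3a416_nt.SJ.FId

/-! # SJ-FMain: the analytic conclusion -/

set_option autoImplicit false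

namespace MP_a3a416_nt.SJ

open Finset Filter Asymptotics

private theorem prs_union (a b c : ℕ) (hab : a ≤ b) (hbc : b ≤ c) (f : ℕ → ℝ) :
    ∑ p ∈ prs a c, f p = ∑ p ∈ prs a b, f p + ∑ p ∈ prs b c, f p := by
  unfold prs
  rw [← sum_union]
  · congr 1
    rw [← filter_union, Ioc_union_Ioc_eq_Ioc hab hbc]
  · apply disjoint_filter_filter
    rw [Finset.disjoint_left]
    intro x hx hx2
    rw [mem_Ioc] at hx hx2
    omega

private theorem sq_littleO_mul_log (C : ℝ) :
    (fun m : ℕ => C * m * Real.log m) =o[atTop] (fun m : ℕ => (m : ℝ) ^ 2) := by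
  have h1 : (fun x : ℝ => C * x * Real.log x) =o[atTop] (fun x : ℝ => x ^ 2) := by
    have h2 : (fun x : ℝ => Real.log x) =o[atTop] (fun x : ℝ => x) := Real.isLittleO_log_id_atTop
    have h3 : (fun x : ℝ => C * x) =O[atTop] (fun x : ℝ => x) :=
      (isBigO_refl (fun x : ℝ => x) atTop).const_mul_left C
    have h4 := h3.mul_isLittleO h2
    refine h4.congr_right fun x => ?_
    ring
  exact h1.comp_tendsto tendsto_natCast_atTop_atTop

private theorem err_littleO :
    (fun m : ℕ => (860 * (m : ℝ) + 6) * Real.sqrt (200 * m) * Real.log (200 * m)) =o[atTop]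
      (fun m : ℕ => (m : ℝ) ^ 2) := by
  have h1 : (fun x : ℝ => (860 * x + 6) * Real.sqrt (200 * x) * Real.log (200 * x)) =o[atTop]
      (fun x : ℝ => x ^ 2) := by
    have h2 : (fun x : ℝ => Real.log x) =o[atTop] (fun x : ℝ => Real.sqrt x) := by
      have := isLittleO_log_rpow_atTop (show (0 : ℝ) < 1 / 2 by norm_num)
      simpa [Real.sqrt_eq_rpow] using this
    have h200 : Tendsto (fun x : ℝ => 200 * x) atTop atTop :=
      tendsto_id.const_mul_atTop (by norm_num)
    have h3 : (fun x : ℝ => Real.log (200 * x)) =o[atTop] (fun x : ℝ => Real.sqrt (200 * x)) :=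
      h2.comp_tendsto h200
    have h4 : (fun x : ℝ => 860 * x + 6) =O[atTop] (fun x : ℝ => x) := by
      apply IsBigO.of_bound 866
      filter_upwards [eventually_ge_atTop (1 : ℝ)] with x hx
      rw [Real.norm_eq_abs, Real.norm_eq_abs, abs_of_nonneg (by linarith), abs_of_nonneg (by linarith)]
      linarith
    have h5 : (fun x : ℝ => Real.sqrt (200 * x) * Real.log (200 * x)) =o[atTop]
        (fun x : ℝ => Real.sqrt (200 * x) * Real.sqrt (200 * x)) :=
      (isBigO_refl _ atTop).mul_isLittleO h3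
    have h6 : (fun x : ℝ => Real.sqrt (200 * x) * Real.sqrt (200 * x)) =O[atTop]
        (fun x : ℝ => x) := by
      apply IsBigO.of_bound 200
      filter_upwards [eventually_ge_atTop (1 : ℝ)] with x hx
      rw [Real.mul_self_sqrt (by linarith), Real.norm_eq_abs, Real.norm_eq_abs,
        abs_of_nonneg (by linarith), abs_of_nonneg (by linarith)]
    have h7 := h4.mul_isLittleO (h5.trans_isBigO h6)
    refine (h7.congr_left fun x => ?_).congr_right fun x => ?_
    · ring
    · ring
  exact h1.comp_tendsto tendsto_natCast_atTop_atTop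

/-- MAIN STATEMENT of part F: whatever the set of flat primes, the sum of the local lower bounds
exceeds the archimedean bound by `540 m^2`, up to `1140 m` times the weight of the non-flat primes. -/
theorem F_main (kappa : ℕ) (hk : 0 < kappa) (C0 : ℝ) :
    ∀ᶠ m : ℕ in atTop, ∀ (flat : ℕ → Prop) [DecidablePred flat],
    UB m + C0 * (60 * m) * Real.log (60 * m) + 540 * (m : ℝ) ^ 2 - 1140 * m * Th m flat ≤
      LBs kappa m flat := by
  obtain ⟨C, hC⟩ := two_gain kappa
  obtain ⟨h, hh, hh2⟩ := f3_ge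
  -- the lower function
  set ell : ℕ → ℝ := fun m =>
    SL (200 * m - 100) + 4 * SL (70 * m) -
      ∑ p ∈ prs (36 * m) (200 * m),
        ((∑ y ∈ Icc (1 : ℤ) 5, max 0 ((200 * m : ℤ) - y * p) + 4 * max 0 ((70 * m : ℤ) - p) : ℤ) : ℝ)
          * Real.log p +
      (14000 * (m : ℝ) ^ 2 - C * m * Real.log m) * Real.log 2 -
      (790 * (m : ℝ) + 6) * ∑ p ∈ prs 0 (36 * m), Real.log p -
      (860 * (m : ℝ) + 6) * Real.sqrt (200 * m) * Real.log (200 * m) -
      140 * m * Real.log kappa +
      ∑ p ∈ prs (36 * m) (60 * m), (f2 m p : ℝ) * Real.log p + h m -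
      C0 * (60 * m) * Real.log (60 * m) with hell
  have hellLB : ∀ m : ℕ, 2 ≤ m → ell m + C0 * (60 * m) * Real.log (60 * m) ≤ LB0 kappa m := by
    intro m hm
    have hm1 : 1 ≤ m := by omega
    have e2 : ∑ p ∈ prs 0 (36 * m), ((SF p (200 * m - 100) : ℝ) + 4 * SF p (70 * m)) * Real.log p =
        SL (200 * m - 100) + 4 * SL (70 * m) - ∑ p ∈ prs (36 * m) (200 * m),
          ((SF p (200 * m - 100) : ℝ) + 4 * SF p (70 * m)) * Real.log p := by
      have h1 := sum_SF_log (200 * m - 100) (200 * m) (by omega)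
      have h2 := sum_SF_log (70 * m) (200 * m) (by omega)
      rw [← h1, ← h2, prs_union 0 (36 * m) (200 * m) (by omega) (by omega),
        prs_union 0 (36 * m) (200 * m) (by omega) (by omega)]
      have h3 : ∀ s : Finset ℕ, ∑ p ∈ s, ((SF p (200 * m - 100) : ℝ) + 4 * SF p (70 * m)) *
          Real.log p = ∑ p ∈ s, (SF p (200 * m - 100) : ℝ) * Real.log p +
          4 * ∑ p ∈ s, (SF p (70 * m) : ℝ) * Real.log p := by
        intro s
        rw [mul_sum, ← sum_add_distrib]
        exact sum_congr rfl fun p _ => by ring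
      rw [h3, h3]
      ring
    have e3 : ∑ p ∈ prs (36 * m) (200 * m),
          ((SF p (200 * m - 100) : ℝ) + 4 * SF p (70 * m)) * Real.log p ≤
        ∑ p ∈ prs (36 * m) (200 * m),
        ((∑ y ∈ Icc (1 : ℤ) 5, max 0 ((200 * m : ℤ) - y * p) + 4 * max 0 ((70 * m : ℤ) - p) : ℤ) : ℝ)
          * Real.log p := by
      refine sum_le_sum fun p hp => ?_
      obtain ⟨hp1, hp2⟩ := mem_filter.mp hp
      rw [mem_Ioc] at hp1
      have h1 := SF_big_K m p hm1 hp2 hp1.1
      have h2 := SF_big_A m p hm1 hp2 hp1.1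
      have h3 : SF p (200 * m - 100) + 4 * SF p (70 * m) ≤
          ∑ y ∈ Icc (1 : ℤ) 5, max 0 ((200 * m : ℤ) - y * p) + 4 * max 0 ((70 * m : ℤ) - p) := by
        linarith
      have h4 : ((SF p (200 * m - 100) : ℝ) + 4 * SF p (70 * m)) ≤
          ((∑ y ∈ Icc (1 : ℤ) 5, max 0 ((200 * m : ℤ) - y * p) +
            4 * max 0 ((70 * m : ℤ) - p) : ℤ) : ℝ) := by
        exact_mod_cast h3
      exact mul_le_mul_of_nonneg_right h4 (Real.log_natCast_nonneg p)
    have e4 : ∑ p ∈ prs 0 (36 * m), ((SF p (200 * m - 100) : ℝ) + 4 * SF p (70 * m)) * Real.log p =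
        ((SF 2 (200 * m - 100) : ℝ) + 4 * SF 2 (70 * m)) * Real.log 2 +
        ∑ p ∈ prs 2 (36 * m), ((SF p (200 * m - 100) : ℝ) + 4 * SF p (70 * m)) * Real.log p := by
      rw [prs_union 0 2 (36 * m) (by omega) (by omega)]
      have h5 : prs 0 2 = {2} := by
        unfold prs
        decide
      rw [h5, sum_singleton]
      norm_num
    have e5 := Lterm kappa hk m hm1
    have e6 := hC m hm
    have e7 : ∑ p ∈ prs 2 (36 * m), (f1 kappa m p : ℝ) * Real.log p =
        ∑ p ∈ prs 2 (36 * m), ((SF p (200 * m - 100) : ℝ) + 4 * SF p (70 * m)) * Real.log p +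
        ∑ p ∈ prs 2 (36 * m), ((f1 kappa m p - SF p (200 * m - 100) - 4 * SF p (70 * m) : ℤ) : ℝ) *
          Real.log p := by
      rw [← sum_add_distrib]
      refine sum_congr rfl fun p _ => ?_
      push_cast
      ring
    have hl2 : (0 : ℝ) < Real.log 2 := Real.log_pos (by norm_num)
    have e8 := mul_le_mul_of_nonneg_right e6 hl2.le
    have e9 := hh2 m
    simp only [hell]
    unfold LB0
    rw [e7]
    push_cast at e8 ⊢
    push_cast at e5
    have e10 : ((g2 kappa m : ℝ) - SF 2 (200 * m - 100) - 4 * SF 2 (70 * m)) * Real.log 2 =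
      (g2 kappa m : ℝ) * Real.log 2 - ((SF 2 (200 * m - 100) : ℝ) + 4 * SF 2 (70 * m)) * Real.log 2 := by
      ring
    rw [e10] at e8
    push_cast at e3
    linarith
  -- asymptotics of ell
  have hA1 : Asy (fun m => SL (200 * m - 100)) (200 ^ 2 / 2) (200 ^ 2 / 2 * (Real.log 200 - 3 / 2)) := by
    refine SL_asy 200 (by norm_num) _ 100 fun m => ?_
    rcases Nat.eq_zero_or_pos m with h0 | h0
    · subst h0
      norm_num
    · have : 100 ≤ 200 * m := by omega
      push_cast [Nat.cast_sub this]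
      rw [abs_le]
      constructor <;> linarith
  have hA2 : Asy (fun m => SL (70 * m)) (70 ^ 2 / 2) (70 ^ 2 / 2 * (Real.log 70 - 3 / 2)) := by
    refine SL_asy 70 (by norm_num) _ 0 fun m => ?_
    push_cast
    simp
  have hTh : Asy (fun m : ℕ => (790 * (m : ℝ) + 6) * ∑ p ∈ prs 0 (36 * m), Real.log p) 0
      (790 * 36) := by
    have h1 := prsum_asy 790 0 0 36 le_rfl (by norm_num)
    have h2 := prsum_asy 0 0 0 36 le_rfl (by norm_num)
    have h3 : (fun m : ℕ => 6 * ∑ p ∈ prs 0 (36 * m), Real.log p) =o[atTop]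
        (fun m : ℕ => (m : ℝ) ^ 2) := by
      have h4 : (fun m : ℕ => 6 * ∑ p ∈ prs 0 (36 * m), Real.log p) =O[atTop]
          (fun m : ℕ => (m : ℝ)) := by
        apply IsBigO.of_bound (6 * (Real.log 4 * 36))
        filter_upwards [eventually_ge_atTop 1] with m hm
        have h5 : ∑ p ∈ prs 0 (36 * m), Real.log p = Chebyshev.theta ((36 * m : ℕ) : ℝ) := by
          unfold Chebyshev.theta prs
          rw [Nat.floor_natCast]
        rw [h5, Real.norm_eq_abs, Real.norm_eq_abs, abs_of_nonneg (by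
          have := Chebyshev.theta_nonneg ((36 * m : ℕ) : ℝ)
          positivity), abs_of_nonneg (by positivity)]
        have h6 := Chebyshev.theta_le_log4_mul_x (x := ((36 * m : ℕ) : ℝ)) (by positivity)
        push_cast at h6 ⊢
        linarith
      refine h4.trans_isLittleO ?_
      have h7 : (fun x : ℝ => x) =o[atTop] (fun x : ℝ => x ^ 2) := by
        have := isLittleO_pow_pow_atTop_of_lt (𝕜 := ℝ) (show 1 < 2 by norm_num)
        simpa using this
      exact h7.comp_tendsto tendsto_natCast_atTop_atTop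
    have h8 := h1.add (Asy.of_isLittleO h3)
    refine (h8.congr (Eventually.of_forall fun m => ?_)).cast (by ring) (by ring)
    have e1 : ⌊(0 : ℝ) * m⌋₊ = 0 := by simp
    have e2 : ⌊(36 : ℝ) * m⌋₊ = 36 * m := by
      have : (36 : ℝ) * m = ((36 * m : ℕ) : ℝ) := by push_cast; ring
      rw [this, Nat.floor_natCast]
    rw [e1, e2, add_mul]
    congr 1
    rw [mul_sum]
    refine sum_congr rfl fun p _ => ?_
    ring
  have hsq : Asy (fun m : ℕ => (14000 * (m : ℝ) ^ 2 - C * m * Real.log m) * Real.log 2) 0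
      (14000 * Real.log 2) := by
    have h1 : (fun m : ℕ => C * Real.log 2 * m * Real.log m) =o[atTop]
        (fun m : ℕ => (m : ℝ) ^ 2) := sq_littleO_mul_log (C * Real.log 2)
    unfold Asy
    refine h1.neg_left.congr_left fun m => ?_
    ring
  have herr := Asy.of_isLittleO err_littleO
  have hkap : Asy (fun m : ℕ => 140 * m * Real.log kappa) 0 0 := by
    apply Asy.of_isLittleO
    have h7 : (fun x : ℝ => 140 * x * Real.log kappa) =o[atTop] (fun x : ℝ => x ^ 2) := by
      have h8 := isLittleO_pow_pow_atTop_of_lt (𝕜 := ℝ) (show 1 < 2 by norm_num)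
      refine (h8.const_mul_left (140 * Real.log kappa)).congr_left fun x => ?_
      ring
    exact h7.comp_tendsto tendsto_natCast_atTop_atTop
  have hC0 : Asy (fun m : ℕ => C0 * (60 * m) * Real.log (60 * m)) 0 0 := by
    apply Asy.of_isLittleO
    have h7 : (fun x : ℝ => C0 * (60 * x) * Real.log (60 * x)) =o[atTop] (fun x : ℝ => x ^ 2) := by
      have h60 : Tendsto (fun x : ℝ => 60 * x) atTop atTop :=
        tendsto_id.const_mul_atTop (by norm_num)
      have h8 : (fun x : ℝ => Real.log (60 * x)) =o[atTop] (fun x : ℝ => 60 * x) :=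
        Real.isLittleO_log_id_atTop.comp_tendsto h60
      have h9 : (fun x : ℝ => C0 * (60 * x)) =O[atTop] (fun x : ℝ => 60 * x) :=
        (isBigO_refl (fun x : ℝ => 60 * x) atTop).const_mul_left C0
      have h10 := h9.mul_isLittleO h8
      have h11 : (fun x : ℝ => 60 * x * (60 * x)) =O[atTop] (fun x : ℝ => x ^ 2) := by
        refine ((isBigO_refl (fun x : ℝ => x ^ 2) atTop).const_mul_left 3600).congr_left
          fun x => ?_
        ring
      exact h10.trans_isBigO h11
    exact h7.comp_tendsto tendsto_natCast_atTop_atTop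
  have hellA : Asy ell 29800 (20000 * (Real.log 200 - 3 / 2) + 4 * (2450 * (Real.log 70 - 3 / 2)) -
      (19386 + 2 / 3 + 2312) + 14000 * Real.log 2 - 790 * 36 + 432 + 36750) := by
    have h1 := ((((((((hA1.add (hA2.const_mul 4)).sub big_asy).add hsq).sub hTh).sub herr).sub
      hkap).add f2_asy).add hh).sub hC0
    refine (h1.congr (Eventually.of_forall fun m => ?_)).cast ?_ ?_
    · simp only [hell]
    · norm_num
    · ring
  have hdiff := hellA.sub UB_asy
  have hfin := (hdiff.cast (a' := 0) (b' := 20000 * (Real.log 200 - 3 / 2) +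
    4 * (2450 * (Real.log 70 - 3 / 2)) -
      (19386 + 2 / 3 + 2312) + 14000 * Real.log 2 - 790 * 36 + 432 + 36750 -
      (19800 * (Real.log 120 - 3 / 2) + 10000 * Real.log 30)) (by norm_num) rfl).eventually_ge (c := 540) (by
        have := final_num
        linarith)
  filter_upwards [hfin, eventually_ge_atTop 2, eventually_ge_atTop kappa] with m hm hm2 hmk flat _
  have h1 := LBs_ge kappa hk m (by omega) (by omega) flat
  have h2 := hellLB m hm2
  linarith

end MP_a3a416_nt.SJ
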