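import Pool.Agent.Lib.MP_a3a416_nt.SJ.FTheta

/-! # SJ-FP1: `sum_{p <= n} p log p ~ n^2/2` (also in the form for real arguments)
PROOF. `sum_{p <= n} p log p = n theta(n) - sum_{k < n} theta(k)` (Abel summation, induction on `n`); `theta(k)/k -> 1`
gives `(sum_{k<n} theta(k))/n^2 -> 1/2` (`IsLittleO.sum_range`), so the quotient by `n^2`
tends to `1 - 1/2`. Second statement: `floor x / x -> 1`. -/

set_option autoImplicit false

namespace MP_a3a416_nt.SJ

open Finset Filter

private theorem prs_succ_sum (f : ℕ → ℝ) (n : ℕ) :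
    ∑ p ∈ prs 0 (n + 1), f p = ∑ p ∈ prs 0 n, f p + (if (n + 1).Prime then f (n + 1) else 0) := by
  unfold prs
  rw [sum_filter, sum_filter, Finset.sum_Ioc_succ_top (Nat.zero_le n)]

private theorem abel (n : ℕ) : ∑ p ∈ prs 0 n, (p : ℝ) * Real.log p =
    (n : ℝ) * ∑ p ∈ prs 0 n, Real.log p - ∑ k ∈ range n, ∑ p ∈ prs 0 k, Real.log p := by
  induction n with
  | zero => simp [prs]
  | succ n ih =>
    rw [prs_succ_sum (fun p => (p : ℝ) * Real.log p), prs_succ_sum (fun p => Real.log p),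
      sum_range_succ, ih]
    split_ifs
    · push_cast
      ring
    · push_cast
      ring

private theorem theta_nat (n : ℕ) : ∑ p ∈ prs 0 n, Real.log p = Chebyshev.theta n := by
  unfold Chebyshev.theta prs
  rw [Nat.floor_natCast]

private theorem theta_sub_littleO :
    (fun n : ℕ => (∑ p ∈ prs 0 n, Real.log p) - (n : ℝ)) =o[atTop] (fun n : ℕ => (n : ℝ)) := by
  have h1 : Tendsto (fun n : ℕ => Chebyshev.theta n / (n : ℝ)) atTop (nhds 1) :=
    theta_asy.comp tendsto_natCast_atTop_atTop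
  apply Asymptotics.isLittleO_of_tendsto'
  · filter_upwards [eventually_gt_atTop 0] with n hn h0
    have : (n : ℝ) ≠ 0 := by exact_mod_cast hn.ne'
    exact absurd h0 this
  · have h2 := h1.sub_const 1
    rw [sub_self] at h2
    refine h2.congr' ?_
    filter_upwards [eventually_gt_atTop 0] with n hn
    have : (n : ℝ) ≠ 0 := by exact_mod_cast hn.ne'
    rw [theta_nat]
    field_simp

private theorem sum_theta_littleO :
    (fun n : ℕ => ∑ k ∈ range n, ((∑ p ∈ prs 0 k, Real.log p) - (k : ℝ))) =o[atTop]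
      (fun n : ℕ => (n : ℝ) ^ 2) := by
  have hsum : ∀ n : ℕ, ∑ i ∈ range n, (i : ℝ) = (n : ℝ) * (n - 1) / 2 := by
    intro n
    induction n with
    | zero => simp
    | succ n ih =>
      rw [sum_range_succ, ih]
      push_cast
      ring
  have h1 := theta_sub_littleO.sum_range (fun i => Nat.cast_nonneg i) (by
    have h2 : (fun n : ℕ => ∑ i ∈ range n, (i : ℝ)) = fun n : ℕ => (n : ℝ) * (n - 1) / 2 := by
      funext n
      exact hsum n
    rw [h2]
    have h3 : Tendsto (fun x : ℝ => x * (x - 1) / 2) atTop atTop := by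
      apply Tendsto.atTop_div_const (by norm_num)
      exact tendsto_id.atTop_mul_atTop₀ (tendsto_atTop_add_const_right _ (-1) tendsto_id)
    exact h3.comp tendsto_natCast_atTop_atTop)
  refine h1.trans_isBigO ?_
  apply Asymptotics.IsBigO.of_bound 1
  filter_upwards [eventually_ge_atTop 1] with n hn
  have hn1 : (1 : ℝ) ≤ n := by exact_mod_cast hn
  rw [hsum, Real.norm_eq_abs, Real.norm_eq_abs, abs_of_nonneg (by
    have : (0 : ℝ) ≤ n - 1 := by linarith
    positivity), abs_of_nonneg (by positivity)]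
  nlinarith

private theorem P1_nat : Tendsto (fun n : ℕ => (∑ p ∈ prs 0 n, (p : ℝ) * Real.log p) / (n : ℝ) ^ 2)
    atTop (nhds (1 / 2)) := by
  have h1 : Tendsto (fun n : ℕ => Chebyshev.theta n / (n : ℝ)) atTop (nhds 1) :=
    theta_asy.comp tendsto_natCast_atTop_atTop
  have h2 := sum_theta_littleO.tendsto_div_nhds_zero
  have h3 : Tendsto (fun n : ℕ => (1 : ℝ) / 2 * (1 - 1 / (n : ℝ))) atTop (nhds (1 / 2 * (1 - 0))) :=
    (tendsto_const_nhds.sub tendsto_one_div_atTop_nhds_zero_nat).const_mul _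
  have h4 := (h1.sub h2).sub h3
  have h5 : (1 : ℝ) - 0 - 1 / 2 * (1 - 0) = 1 / 2 := by norm_num
  rw [h5] at h4
  refine h4.congr' ?_
  filter_upwards [eventually_gt_atTop 0] with n hn
  have hn0 : (n : ℝ) ≠ 0 := by exact_mod_cast hn.ne'
  have hsum : ∀ n : ℕ, ∑ i ∈ range n, (i : ℝ) = (n : ℝ) * (n - 1) / 2 := by
    intro n
    induction n with
    | zero => simp
    | succ n ih =>
      rw [sum_range_succ, ih]
      push_cast
      ring
  rw [abel, sum_sub_distrib, hsum, theta_nat]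
  field_simp
  ring

theorem P1_asy : Tendsto (fun x : ℝ => (∑ p ∈ prs 0 ⌊x⌋₊, (p : ℝ) * Real.log p) / x ^ 2) atTop
    (nhds (1 / 2)) := by
  have h1 := P1_nat.comp (tendsto_nat_floor_atTop (α := ℝ))
  have h2 : Tendsto (fun x : ℝ => (⌊x⌋₊ : ℝ) / x) atTop (nhds 1) := tendsto_nat_floor_div_atTop
  have h3 := h1.mul (h2.pow 2)
  rw [one_pow, mul_one] at h3
  refine h3.congr' ?_
  filter_upwards [eventually_ge_atTop (1 : ℝ)] with x hx
  have h5 : (0 : ℝ) < (⌊x⌋₊ : ℝ) := by
    have : 0 < ⌊x⌋₊ := Nat.floor_pos.mpr hx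
    exact_mod_cast this
  simp only [Function.comp]
  field_simp

end MP_a3a416_nt.SJ
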