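import Pool.Agent.Lib.MP_a3a416_nt.SJ.FDefs
import Pool.Agent.Lib.MP_dd84fd_nt.SW.PNT

/-! # SJ-FTheta: the prime number theorem for `theta`
PROOF. `Pool.MP_dd84fd_nt.SW.pnt 1 : exists X0, forall X >= X0, |sum_{n in Icc 1 X} vonMangoldt n - X| <= X / log X`; for real `x >= 1` take
`X = floor x` (`Chebyshev.psi_eq_psi_coe_floor`, `Chebyshev.psi_eq_sum_Icc`), `|X - x| <= 1`, and
`psi x - theta x = O(sqrt x)` (`Chebyshev.isBigO_psi_sub_theta_sqrt`). Divide by `x`. -/

set_option autoImplicit false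

namespace MP_a3a416_nt.SJ

open Finset Filter

private theorem psi_nat_asy : Tendsto (fun n : ℕ => Chebyshev.psi n / n) atTop (nhds 1) := by
  obtain ⟨X0, hX⟩ := Pool.MP_dd84fd_nt.SW.pnt 1
  have hlog : Tendsto (fun n : ℕ => 1 / Real.log (n : ℝ)) atTop (nhds 0) := by
    simp only [one_div]
    exact tendsto_inv_atTop_zero.comp
      (Real.tendsto_log_atTop.comp tendsto_natCast_atTop_atTop)
  have h1 : Tendsto (fun n : ℕ => Chebyshev.psi n / n - 1) atTop (nhds 0) := by
    refine squeeze_zero_norm' ?_ hlog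
    filter_upwards [eventually_ge_atTop X0, eventually_ge_atTop 2] with n hn hn2
    have h2 := hX n hn
    have hn0 : (0 : ℝ) < n := by
      have : 0 < n := by omega
      exact_mod_cast this
    have h3 : Chebyshev.psi (n : ℝ) = ∑ k ∈ Icc 1 n, ArithmeticFunction.vonMangoldt k := by
      unfold Chebyshev.psi
      rw [Nat.floor_natCast]
      congr 1
    rw [← h3, pow_one] at h2
    rw [Real.norm_eq_abs]
    have h4 : Chebyshev.psi (n : ℝ) / n - 1 = (Chebyshev.psi n - n) / n := by
      field_simp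
    rw [h4, abs_div, abs_of_pos hn0, div_le_iff₀ hn0]
    refine h2.trans (le_of_eq ?_)
    ring
  have h5 := h1.add_const 1
  simpa using h5

theorem theta_asy : Tendsto (fun x : ℝ => Chebyshev.theta x / x) atTop (nhds 1) := by
  have h1 : Tendsto (fun x : ℝ => Chebyshev.psi ⌊x⌋₊ / (⌊x⌋₊ : ℝ)) atTop (nhds 1) :=
    psi_nat_asy.comp tendsto_nat_floor_atTop
  have h2 : Tendsto (fun x : ℝ => (⌊x⌋₊ : ℝ) / x) atTop (nhds 1) := tendsto_nat_floor_div_atTop
  have h3 : Tendsto (fun x : ℝ => Chebyshev.psi x / x) atTop (nhds 1) := by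
    have h4 := h1.mul h2
    rw [one_mul] at h4
    refine h4.congr' ?_
    filter_upwards [eventually_ge_atTop (1 : ℝ)] with x hx
    have h5 : (0 : ℝ) < (⌊x⌋₊ : ℝ) := by
      have : 0 < ⌊x⌋₊ := Nat.floor_pos.mpr hx
      exact_mod_cast this
    rw [← Chebyshev.psi_eq_psi_coe_floor]
    field_simp
  have h6 : Tendsto (fun x : ℝ => (Chebyshev.psi x - Chebyshev.theta x) / x) atTop (nhds 0) := by
    have h7 : (Chebyshev.psi - Chebyshev.theta) =o[atTop] (fun x : ℝ => x) := by
      refine Chebyshev.isBigO_psi_sub_theta_sqrt.trans_isLittleO ?_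
      apply Asymptotics.isLittleO_of_tendsto'
      · filter_upwards [eventually_gt_atTop (0 : ℝ)] with x hx h0
        exact absurd h0 hx.ne'
      · have h8 : Tendsto (fun x : ℝ => (Real.sqrt x)⁻¹) atTop (nhds 0) :=
          tendsto_inv_atTop_zero.comp Real.tendsto_sqrt_atTop
        refine h8.congr' ?_
        filter_upwards [eventually_gt_atTop (0 : ℝ)] with x hx
        rw [Real.sqrt_div_self']
        simp
    exact h7.tendsto_div_nhds_zero
  have h10 := h3.sub h6
  rw [sub_zero] at h10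
  refine h10.congr fun x => ?_
  ring

end MP_a3a416_nt.SJ
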