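import Pool.Agent.Lib.MP_a3a416_nt.SJ.Defs

/-! # Section 5 (C2): the congruence for the polynomial `S` modulo `p`. -/

open Polynomial

namespace MP_a3a416_nt.SJ

section step

variable {M : Type*} [AddCommGroup M]

/-- the sum over the residue class of `n` modulo 2 between `0` and `n`. -/
noncomputable def hgen (f : ℤ → M) (n : ℤ) : M :=
  ∑ b ∈ (Finset.Ioc 0 n).filter (fun b => b % 2 = n % 2), f b
    - ∑ b ∈ (Finset.Ioo n 0).filter (fun b => b % 2 = n % 2), f b

theorem hgen_step (f : ℤ → M) (h0 : f 0 = 0) (n : ℤ) :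
    hgen f n = hgen f (n - 2) + f n := by
  unfold hgen
  rcases lt_or_ge 0 n with hn | hn
  · have e1 : (Finset.Ioo n 0).filter (fun b => b % 2 = n % 2) = ∅ := by
      ext b
      simp only [Finset.mem_filter, Finset.mem_Ioo, Finset.notMem_empty, iff_false]
      omega
    have e2 : (Finset.Ioo (n - 2) 0).filter (fun b => b % 2 = (n - 2) % 2) = ∅ := by
      ext b
      simp only [Finset.mem_filter, Finset.mem_Ioo, Finset.notMem_empty, iff_false]
      omega
    have e3 : (Finset.Ioc 0 n).filter (fun b => b % 2 = n % 2) =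
        insert n ((Finset.Ioc 0 (n - 2)).filter (fun b => b % 2 = (n - 2) % 2)) := by
      ext b
      simp only [Finset.mem_filter, Finset.mem_Ioc, Finset.mem_insert]
      omega
    rw [e1, e2, e3, Finset.sum_insert]
    · simp [add_comm]
    · simp only [Finset.mem_filter, Finset.mem_Ioc]
      omega
  · have e1 : (Finset.Ioc 0 n).filter (fun b => b % 2 = n % 2) = ∅ := by
      ext b
      simp only [Finset.mem_filter, Finset.mem_Ioc, Finset.notMem_empty, iff_false]
      omega
    have e2 : (Finset.Ioc 0 (n - 2)).filter (fun b => b % 2 = (n - 2) % 2) = ∅ := by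
      ext b
      simp only [Finset.mem_filter, Finset.mem_Ioc, Finset.notMem_empty, iff_false]
      omega
    rcases hn.lt_or_eq with hn | hn
    · have e3 : (Finset.Ioo (n - 2) 0).filter (fun b => b % 2 = (n - 2) % 2) =
          insert n ((Finset.Ioo n 0).filter (fun b => b % 2 = n % 2)) := by
        ext b
        simp only [Finset.mem_filter, Finset.mem_Ioo, Finset.mem_insert]
        omega
      rw [e1, e2, e3, Finset.sum_insert]
      · simp
      · simp only [Finset.mem_filter, Finset.mem_Ioo]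
        omega
    · subst hn
      have e3 : (Finset.Ioo (0 - 2 : ℤ) 0).filter (fun b => b % 2 = (0 - 2) % 2) = ∅ := by
        ext b
        simp only [Finset.mem_filter, Finset.mem_Ioo, Finset.notMem_empty, iff_false]
        omega
      have e4 : (Finset.Ioo (0 : ℤ) 0).filter (fun b => b % 2 = 0 % 2) = ∅ := by
        ext b
        simp only [Finset.mem_filter, Finset.mem_Ioo, Finset.notMem_empty, iff_false]
        omega
      rw [e1, e2, e3, e4]
      simp [h0]

theorem hgen_zero (f : ℤ → M) : hgen f 0 = 0 := by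
  simp [hgen]

theorem hgen_neg_one (f : ℤ → M) : hgen f (-1) = 0 := by
  have e2 : (Finset.Ioo (-1 : ℤ) 0).filter (fun b => b % 2 = -1 % 2) = ∅ := by
    ext b
    simp only [Finset.mem_filter, Finset.mem_Ioo, Finset.notMem_empty, iff_false]
    omega
  unfold hgen
  rw [e2]
  simp

end step

theorem hs_eq_hgen (r : ℕ) (n : ℤ) : hs r n = hgen (fun b : ℤ => ((b : ℚ)⁻¹) ^ r) n := rfl

/-- the shift relation for `h_r(n)`. -/
theorem hs_step {r : ℕ} (hr : r ≠ 0) (n : ℤ) : hs r n = hs r (n - 2) + ((n : ℚ)⁻¹) ^ r := by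
  rw [hs_eq_hgen, hs_eq_hgen, hgen_step _ (by simp [hr])]

/-- integer induction with step `2` from `0` and `-1`. -/
theorem int_induction_two {P : ℤ → Prop} (h0 : P 0) (h1 : P (-1))
    (hs : ∀ n, P (n - 2) ↔ P n) (n : ℤ) : P n := by
  have he : ∀ m : ℤ, P (2 * m) ∧ P (2 * m - 1) := by
    intro m
    induction m using Int.induction_on with
    | zero => exact ⟨h0, h1⟩
    | succ i ih =>
      refine ⟨(hs _).1 ?_, (hs _).1 ?_⟩
      · have := ih.1
        rwa [show (2 * ((i : ℤ) + 1) - 2) = 2 * (i : ℤ) by ring]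
      · have := ih.2
        rwa [show (2 * ((i : ℤ) + 1) - 1 - 2) = 2 * (i : ℤ) - 1 by ring]
    | pred i ih =>
      refine ⟨?_, ?_⟩
      · have := (hs _).2 ih.1
        rwa [show (2 * (-(i : ℤ)) - 2) = 2 * (-(i : ℤ) - 1) by ring] at this
      · have := (hs _).2 ih.2
        rwa [show (2 * (-(i : ℤ)) - 1 - 2) = 2 * (-(i : ℤ) - 1) - 1 by ring] at this
  rcases Int.even_or_odd' n with ⟨m, hm | hm⟩
  · rw [hm]; exact (he m).1
  · have := (he (m + 1)).2
    rw [hm]
    rwa [show (2 * (m + 1) - 1) = 2 * m + 1 by ring] at this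

section modp

variable (p : ℕ) [Fact p.Prime]

/-- `h_r(n)` modulo `p`, terms divisible by `p` dropped (`0⁻¹ = 0`). -/
noncomputable def hsZ (r : ℕ) (n : ℤ) : ZMod p :=
  hgen (fun b : ℤ => ((b : ZMod p)⁻¹) ^ r) n

/-- coefficient of `u^k` of `s(n)(u)` modulo `p`, `p`-divisible terms dropped. -/
noncomputable def scZ (c : ZMod p) (n : ℤ) (k : ℕ) : ZMod p :=
  (-1) ^ k * ((k : ZMod p) + 1) * hsZ p (1 + k) n
    - (if k = 2 then (if Even n then c / 8 else 7 * c / 8) else 0)

variable {p}

theorem scZ_step (c : ZMod p) (n : ℤ) (k : ℕ) :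
    scZ p c n k = scZ p c (n - 2) k + (-1) ^ k * ((k : ZMod p) + 1) * ((n : ZMod p)⁻¹) ^ (1 + k) := by
  unfold scZ hsZ
  rw [hgen_step _ (by simp)]
  have he : Even (n - 2) ↔ Even n := by
    rw [Int.even_sub]
    simp
  simp only [he]
  ring

theorem choose_p_sub_two {k : ℕ} (hk : k + 2 ≤ p) :
    (((p - 2).choose k : ℕ) : ZMod p) = (-1) ^ k * ((k : ZMod p) + 1) := by
  induction k with
  | zero => simp
  | succ k ih =>
    have ih' := ih (by omega)
    have h1 : (p - 2).choose (k + 1) * (k + 1) = (p - 2).choose k * (p - 2 - k) :=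
      Nat.choose_succ_right_eq (p - 2) k
    have h2 : (((p - 2).choose (k + 1) : ℕ) : ZMod p) * ((k : ZMod p) + 1) =
        (((p - 2).choose k : ℕ) : ZMod p) * (-(k : ZMod p) - 2) := by
      have := congrArg (Nat.cast (R := ZMod p)) h1
      push_cast at this
      rw [this]
      congr 1
      have h3 : p - 2 - k = p - (k + 2) := by omega
      rw [h3, Nat.cast_sub (by omega)]
      push_cast
      simp
      ring
    have hk1 : ((k : ZMod p) + 1) ≠ 0 := by
      have : ((k + 1 : ℕ) : ZMod p) ≠ 0 := by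
        rw [Ne, ZMod.natCast_eq_zero_iff]
        intro h
        have := Nat.le_of_dvd (by omega) h
        omega
      simpa using this
    apply mul_right_cancel₀ hk1
    rw [h2, ih', pow_succ]
    push_cast
    ring

/-- the coefficients of `(n + u)^(p-2)` of order `< 4`. -/
theorem coeff_pow (hp : 11 ≤ p) (n : ℤ) {k : ℕ} (hk : k < 4) :
    (taylor (n : ZMod p) ((X : (ZMod p)[X]) ^ (p - 2))).coeff k =
      (-1) ^ k * ((k : ZMod p) + 1) * ((n : ZMod p)⁻¹) ^ (1 + k) := by
  have h1 : taylor (n : ZMod p) ((X : (ZMod p)[X]) ^ (p - 2)) = (X + C (n : ZMod p)) ^ (p - 2) := by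
    rw [taylor_apply]
    simp
  rw [h1, coeff_X_add_C_pow, choose_p_sub_two (by omega)]
  by_cases hn : (n : ZMod p) = 0
  · rw [hn, zero_pow (by omega)]
    simp
  · have h2 : (n : ZMod p) ^ (p - 2 - k) = ((n : ZMod p)⁻¹) ^ (1 + k) := by
      have h3 : (n : ZMod p) ^ (p - 2 - k) * (n : ZMod p) ^ (1 + k) = 1 := by
        rw [← pow_add, show p - 2 - k + (1 + k) = p - 1 by omega]
        exact ZMod.pow_card_sub_one_eq_one hn
      rw [inv_pow]
      exact eq_inv_of_mul_eq_one_left h3
    rw [h2]
    ring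

/-- the congruence (section 5): the jets of `S` at the integers. -/
theorem taylor_S (hp : 11 ≤ p) (c : ZMod p) (S : (ZMod p)[X])
    (hS : S - S.comp (X - 2) = X ^ (p - 2))
    (h0 : S.coeff 0 = 0) (h1 : S.coeff 1 = 0) (h2 : S.coeff 2 = -c / 8) (h3 : S.coeff 3 = 0)
    (g1 : (taylor (-1) S).coeff 1 = 0) (g2 : (taylor (-1) S).coeff 2 = -7 * c / 8)
    (g3 : (taylor (-1) S).coeff 3 = 0) (n : ℤ) :
    ∀ k, k < 4 → (taylor (n : ZMod p) S).coeff k =
      (if k = 0 ∧ Odd n then (taylor (-1) S).coeff 0 else 0) + scZ p c n k := by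
  refine int_induction_two (P := fun n : ℤ => ∀ k, k < 4 → (taylor (n : ZMod p) S).coeff k =
      (if k = 0 ∧ Odd n then (taylor (-1) S).coeff 0 else 0) + scZ p c n k) ?_ ?_ ?_ n
  · intro k hk
    have hz : ∀ r, hsZ p r 0 = 0 := fun r => hgen_zero _
    simp only [scZ, hz]
    interval_cases k
    · simp [h0]
    · simp [h1]
    · simp [h2]
      ring
    · simp [h3]
  · intro k hk
    have hz : ∀ r, hsZ p r (-1) = 0 := fun r => hgen_neg_one _
    have ho : Odd (-1 : ℤ) := by decide
    have he : ¬ Even (-1 : ℤ) := by decide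
    simp only [scZ, hz]
    interval_cases k
    · simp [ho]
    · simp [g1]
    · simp [g2, he]
      ring
    · simp [g3]
  · intro n
    have hstep : ∀ k, k < 4 → (taylor (n : ZMod p) S).coeff k =
        (taylor ((n - 2 : ℤ) : ZMod p) S).coeff k +
          (-1) ^ k * ((k : ZMod p) + 1) * ((n : ZMod p)⁻¹) ^ (1 + k) := by
      intro k hk
      rw [← coeff_pow hp n hk, ← coeff_add]
      congr 1
      have h4 : taylor (n : ZMod p) (S.comp (X - 2)) = taylor ((n - 2 : ℤ) : ZMod p) S := by
        rw [taylor_apply, taylor_apply, comp_assoc]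
        congr 1
        simp only [sub_comp, X_comp]
        have : ((2 : (ZMod p)[X]).comp (X + C (n : ZMod p))) = 2 := by
          have : (2 : (ZMod p)[X]) = C 2 := (map_ofNat C 2).symm
          rw [this, C_comp]
        rw [this]
        push_cast
        rw [C_sub]
        have : (C (2 : ZMod p) : (ZMod p)[X]) = 2 := map_ofNat C 2
        rw [this]
        ring
      rw [← h4, ← map_add]
      congr 1
      rw [← hS]
      ring
    have hodd : Odd (n - 2) ↔ Odd n := by
      rw [Int.odd_sub]
      simp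
    have hif : ∀ (k : ℕ) (a : ZMod p), (if k = 0 ∧ Odd (n - 2) then a else 0) =
        if k = 0 ∧ Odd n then a else 0 := by
      intro k a
      simp only [hodd]
    constructor
    · intro h k hk
      rw [hstep k hk, h k hk, scZ_step c n k, hif]
      ring
    · intro h k hk
      have := h k hk
      rw [hstep k hk, scZ_step c n k, ← hif] at this
      linear_combination this

end modp

end MP_a3a416_nt.SJ
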