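import Pool.Agent.Lib.MP_a3a416_nt.SJ.Defs
import Pool.Agent.Lib.MP_a3a416_nt.BB.EPoly

/-! # Section 5, C1: the polynomial `S` over `F_p`, properties (S1)-(S3). -/

open Polynomial

namespace MP_a3a416_nt.SJ

open Pool.Agent.Lib.MP_a3a416_nt

/-- `2 * C(p-1,2) = 2` in `F_p`. -/
theorem choose_two_zmod {p : ℕ} [Fact p.Prime] (hp : 3 ≤ p) :
    (((p - 2 + 1).choose 2 : ℕ) : ZMod p) = 1 := by
  have h2 : (2 : ZMod p) ≠ 0 := by
    have : ((2 : ℕ) : ZMod p) ≠ 0 := by
      rw [Ne, ZMod.natCast_eq_zero_iff]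
      intro h
      have := Nat.le_of_dvd (by norm_num) h
      omega
    simpa using this
  have h1 : 2 * (p - 2 + 1).choose 2 = (p - 2 + 1) * (p - 2) := by
    have := Nat.triangle_succ (p - 2)
    rw [Nat.choose_two_right]
    have h3 : 2 ∣ (p - 2 + 1) * (p - 2 + 1 - 1) := by
      have := (Nat.even_mul_pred_self (p - 2 + 1)).two_dvd
      exact this
    rw [Nat.mul_div_cancel' h3]
    rfl
  have h4 := congrArg (Nat.cast : ℕ → ZMod p) h1
  push_cast at h4
  have h5 : (((p - 2 : ℕ)) : ZMod p) = -2 := by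
    rw [Nat.cast_sub (by omega)]
    simp
  rw [h5] at h4
  have h6 : (2 : ZMod p) * (((p - 2 + 1).choose 2 : ℕ) : ZMod p) = 2 * 1 := by
    rw [h4]; ring
  exact mul_left_cancel₀ h2 h6

/-- `cB p (p-3)` is `primorial * c` modulo `p`. -/
theorem cB_eq_of_flat (c : ℚ) {p : ℕ} [hF : Fact p.Prime] (hp11 : 11 ≤ p) (hpc : ¬ p ∣ c.den)
    (hf : Flat c p) :
    ((cB p (p - 3) : ℤ) : ZMod p) = (primorial (p - 1) : ZMod p) * (c : ZMod p) := by
  have hp : p.Prime := hF.out
  have h := cB_spec (p := p) (by omega) (n := p - 3) (by omega)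
  set x : ℚ := _root_.bernoulli (p - 3) - c with hx
  have hB : _root_.bernoulli (p - 3) = c + x := by rw [hx]; ring
  have hxd : ¬ (p : ℤ) ∣ (x.den : ℤ) := by
    intro hd
    have h1 : (p : ℕ) ∣ x.num.natAbs := Int.natCast_dvd.1 hf
    have h2 : (p : ℕ) ∣ x.den := Int.natCast_dvd_natCast.1 hd
    have h3 := Nat.dvd_gcd h1 h2
    rw [x.reduced] at h3
    exact hp.one_lt.ne' (Nat.dvd_one.1 h3)
  have h1 : (cB p (p - 3) : ℚ) * c.den * x.den =
      (primorial (p - 1) : ℚ) * (c.num * x.den + x.num * c.den) := by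
    rw [h, hB]
    have hc : (c.num : ℚ) = c * c.den := by
      rw [Rat.mul_den_eq_num]
    have hx' : (x.num : ℚ) = x * x.den := by
      rw [Rat.mul_den_eq_num]
    rw [hc, hx']
    ring
  have h2 : cB p (p - 3) * (c.den : ℤ) * (x.den : ℤ) =
      (primorial (p - 1) : ℤ) * (c.num * (x.den : ℤ) + x.num * (c.den : ℤ)) := by
    exact_mod_cast h1
  have h3 := congrArg (Int.cast : ℤ → ZMod p) h2
  push_cast at h3
  have hx0 : ((x.num : ℤ) : ZMod p) = 0 := (ZMod.intCast_zmod_eq_zero_iff_dvd _ _).2 hf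
  have hxd' : ((x.den : ℕ) : ZMod p) ≠ 0 := by
    intro h0
    exact hxd (Int.natCast_dvd_natCast.2 ((ZMod.natCast_eq_zero_iff _ _).1 h0))
  have hcd' : ((c.den : ℕ) : ZMod p) ≠ 0 := by
    intro h0
    exact hpc ((ZMod.natCast_eq_zero_iff _ _).1 h0)
  rw [hx0] at h3
  have h4 : (c : ZMod p) * (c.den : ZMod p) = (c.num : ZMod p) := by
    rw [Rat.cast_def]
    field_simp
  apply mul_right_cancel₀ hcd'
  apply mul_right_cancel₀ hxd'
  rw [h3, ← h4]
  ring

/-- the polynomial `E`. -/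
theorem exists_EC (c : ℚ) {p : ℕ} [Fact p.Prime] (hp11 : 11 ≤ p) (hpc : ¬ p ∣ c.den)
    (hf : Flat c p) :
    ∃ E : (ZMod p)[X], E.natDegree < p ∧ E.coeff 0 = 0 ∧
      E.comp (X + 1) - E = (X + 1) ^ (p - 2) ∧ E.coeff 1 = 0 ∧ E.coeff 3 = 0 ∧
      E.coeff 2 = -(c : ZMod p) := by
  have hp : p.Prime := Fact.out
  have hp5 : 5 ≤ p := by omega
  have hodd : Odd p := hp.odd_of_ne_two (by omega)
  obtain ⟨F, hdeg, hcomp, h0, hk⟩ := BB.exists_FZ hp5 (q := p - 2) (by omega)
  set f := Int.castRingHom (ZMod p) with hfd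
  set a : ZMod p := (((primorial (p-1) : ℤ) * (((p-2 : ℕ) : ℤ) + 1) : ℤ) : ZMod p) with ha
  have hpr : ((primorial (p - 1) : ℕ) : ZMod p) ≠ 0 := by
    intro h
    exact not_dvd_primorial hp ((ZMod.natCast_eq_zero_iff _ _).1 h)
  have ha' : a = -((primorial (p - 1) : ℕ) : ZMod p) := by
    rw [ha]
    push_cast
    have h5 : (((p - 2 : ℕ)) : ZMod p) = -2 := by
      rw [Nat.cast_sub (by omega)]
      simp
    rw [h5]
    ring
  have ha0 : a ≠ 0 := by
    rw [ha']
    exact neg_ne_zero.2 hpr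
  refine ⟨C a⁻¹ * F.map f + X ^ (p-2), ?_, ?_, ?_, ?_, ?_, ?_⟩
  · have h1 : (C a⁻¹ * F.map f + X ^ (p-2)).natDegree ≤ p - 1 := by
      refine (natDegree_add_le _ _).trans (max_le ?_ ?_)
      · refine (natDegree_C_mul_le _ _).trans ((natDegree_map_le).trans ?_)
        omega
      · rw [natDegree_X_pow]; omega
    omega
  · rw [coeff_add, coeff_C_mul, coeff_map, h0, coeff_X_pow, if_neg (by omega)]
    simp
  · have h2 : (F.map f).comp (X + 1) = F.map f + C a * X ^ (p-2) := by
      have := congrArg (Polynomial.map f) hcomp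
      simp only [Polynomial.map_comp, Polynomial.map_mul, Polynomial.map_pow, Polynomial.map_add, Polynomial.map_X,
        Polynomial.map_one, Polynomial.map_C] at this
      rw [this, ha]
      simp [hfd]
    rw [add_comp, mul_comp, C_comp, h2, pow_comp, X_comp]
    have h3 : C a⁻¹ * C a = (1 : (ZMod p)[X]) := by
      rw [← C_mul, inv_mul_cancel₀ ha0, C_1]
    linear_combination X ^ (p-2) * h3
  · rw [coeff_add, coeff_C_mul, coeff_map, hk 1 (by omega) (by omega), coeff_X_pow, if_neg (by omega)]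
    have : cB p (p - 2 + 1 - 1) = 0 := by
      apply cB_odd hp5 (by omega)
      · rw [Nat.odd_iff] at hodd ⊢
        omega
      · omega
    rw [this]
    simp
  · rw [coeff_add, coeff_C_mul, coeff_map, hk 3 (by omega) (by omega), coeff_X_pow, if_neg (by omega)]
    have : cB p (p - 2 + 1 - 3) = 0 := by
      apply cB_odd hp5 (by omega)
      · rw [Nat.odd_iff] at hodd ⊢
        omega
      · omega
    rw [this]
    simp
  · rw [coeff_add, coeff_C_mul, coeff_map, hk 2 (by omega) (by omega), coeff_X_pow, if_neg (by omega)]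
    have h6 : p - 2 + 1 - 2 = p - 3 := by omega
    rw [h6, add_zero, map_mul, hfd, eq_intCast, eq_intCast, cB_eq_of_flat c hp11 hpc hf, Int.cast_natCast,
      choose_two_zmod (by omega), ha', one_mul, ← mul_assoc]
    rw [inv_neg, neg_mul, inv_mul_cancel₀ hpr]
    ring

/-- a polynomial of degree `< p` with `G(X+1) = G` is constant. -/
theorem const_of_periodic {p : ℕ} [Fact p.Prime] (G : (ZMod p)[X]) (hd : G.natDegree < p)
    (hG : G.comp (X + 1) = G) : G = C (G.coeff 0) := by
  have h1 : ∀ n : ℕ, G.eval (n : ZMod p) = G.coeff 0 := by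
    intro n
    induction n with
    | zero => simp [coeff_zero_eq_eval_zero]
    | succ n ih =>
      rw [← ih]
      conv_rhs => rw [← hG]
      rw [eval_comp]
      simp
  have h2 : ∀ x : ZMod p, (G - C (G.coeff 0)).eval x = 0 := by
    intro x
    have : x = ((x.val : ℕ) : ZMod p) := by simp
    rw [eval_sub, eval_C, this, h1, sub_self]
  have h3 : G - C (G.coeff 0) = 0 := by
    apply Polynomial.eq_zero_of_natDegree_lt_card_of_eval_eq_zero' _ Finset.univ (fun x _ => h2 x)
    rw [Finset.card_univ, ZMod.card]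
    refine lt_of_le_of_lt (natDegree_sub_le _ _) ?_
    rw [natDegree_C]
    simpa using hd
  exact sub_eq_zero.1 h3

theorem exists_SC (c : ℚ) {p : ℕ} [Fact p.Prime] (hp11 : 11 ≤ p) (hpc : ¬ p ∣ c.den)
    (hf : Flat c p) :
    ∃ S : (ZMod p)[X], S.natDegree < p ∧ S - S.comp (X - 2) = X ^ (p - 2) ∧
      S.coeff 0 = 0 ∧ S.coeff 1 = 0 ∧ S.coeff 2 = -(c : ZMod p) / 8 ∧ S.coeff 3 = 0 ∧
      (taylor (-1) S).coeff 1 = 0 ∧ (taylor (-1) S).coeff 2 = -7 * (c : ZMod p) / 8 ∧
      (taylor (-1) S).coeff 3 = 0 := by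
  have hp : p.Prime := Fact.out
  have hodd : Odd p := hp.odd_of_ne_two (by omega)
  obtain ⟨E, hdeg, hE0, hE, hE1, hE3, hE2⟩ := exists_EC c hp11 hpc hf
  have h2 : (2 : ZMod p) ≠ 0 := by
    have : ((2 : ℕ) : ZMod p) ≠ 0 := by
      rw [Ne, ZMod.natCast_eq_zero_iff]
      intro h
      have := Nat.le_of_dvd (by norm_num) h
      omega
    simpa using this
  -- functional equations as identities of compositions
  have hEc : ∀ Q : (ZMod p)[X], E.comp (Q + 1) = E.comp Q + (Q + 1) ^ (p - 2) := by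
    intro Q
    have h3 : E.comp (X + 1) = E + (X + 1) ^ (p - 2) := by rw [← hE]; ring
    have h4 := congrArg (fun P : (ZMod p)[X] => P.comp Q) h3
    simp only [add_comp, pow_comp, X_comp, one_comp, comp_assoc] at h4
    exact h4
  set S : (ZMod p)[X] := C (2⁻¹) * E.comp (C (2⁻¹) * X) with hS
  have hSdeg : S.natDegree < p := by
    refine lt_of_le_of_lt (natDegree_C_mul_le _ _) ?_
    refine lt_of_le_of_lt natDegree_comp_le ?_
    have : (C (2⁻¹ : ZMod p) * X).natDegree ≤ 1 := (natDegree_C_mul_le _ _).trans natDegree_X_le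
    calc E.natDegree * (C (2⁻¹ : ZMod p) * X).natDegree ≤ E.natDegree * 1 :=
          Nat.mul_le_mul_left _ this
      _ < p := by simpa using hdeg
  have hScoeff : ∀ k, S.coeff k = 2⁻¹ * (E.coeff k * (2⁻¹) ^ k) := by
    intro k
    rw [hS, coeff_C_mul, comp_C_mul_X_coeff]
  -- (S1)
  have hScomp : ∀ Q : (ZMod p)[X], S.comp Q = C (2⁻¹) * E.comp (C (2⁻¹) * Q) := by
    intro Q
    rw [hS, mul_comp, C_comp, comp_assoc]
    simp
  have hC2 : (C (2⁻¹ : ZMod p)) * 2 = 1 := by
    have : (2 : (ZMod p)[X]) = C 2 := by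
      rw [← one_add_one_eq_two, ← one_add_one_eq_two, C_add, C_1]
    rw [this, ← C_mul, inv_mul_cancel₀ h2, C_1]
  have hS1 : S - S.comp (X - 2) = X ^ (p - 2) := by
    have h3 := hEc (C (2⁻¹) * (X - 2))
    have h4 : C (2⁻¹ : ZMod p) * (X - 2) + 1 = C (2⁻¹) * X := by
      linear_combination -hC2
    rw [h4] at h3
    have h5 : S = C (2⁻¹) * E.comp (C (2⁻¹) * X) := hS
    rw [hScomp, h5, h3, mul_pow]
    have h6 : C (2⁻¹ : ZMod p) * (C (2⁻¹)) ^ (p - 2) = 1 := by
      rw [← pow_succ', ← C_pow]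
      have : p - 2 + 1 = p - 1 := by omega
      rw [this, ZMod.pow_card_sub_one_eq_one (inv_ne_zero h2), C_1]
    linear_combination X ^ (p - 2) * h6
  have hSc : ∀ Q : (ZMod p)[X], S.comp Q = S.comp (Q - 2) + Q ^ (p - 2) := by
    intro Q
    have h3 : S = S.comp (X - 2) + X ^ (p - 2) := by rw [← hS1]; ring
    have h4 := congrArg (fun P : (ZMod p)[X] => P.comp Q) h3
    simp only [add_comp, pow_comp, X_comp, comp_assoc, sub_comp, ofNat_comp] at h4
    exact h4
  -- symmetry of `E`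
  have hEsym : E.comp (-1 - X) = E := by
    set G := E.comp (-1 - X) - E with hG
    have hGd : G.natDegree < p := by
      refine lt_of_le_of_lt (natDegree_sub_le _ _) (max_lt ?_ hdeg)
      refine lt_of_le_of_lt natDegree_comp_le ?_
      have : (-1 - X : (ZMod p)[X]).natDegree ≤ 1 := by
        have h7 : (-1 - X : (ZMod p)[X]) = C (-1) * X + C (-1) := by
          simp only [map_neg, map_one]; ring
        rw [h7]
        exact natDegree_linear_le
      calc E.natDegree * (-1 - X : (ZMod p)[X]).natDegree ≤ E.natDegree * 1 :=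
            Nat.mul_le_mul_left _ this
        _ < p := by simpa using hdeg
    have hGp : G.comp (X + 1) = G := by
      rw [hG, sub_comp, comp_assoc, hEc X, comp_X]
      have h8 : (-1 - X : (ZMod p)[X]).comp (X + 1) = -2 - X := by
        simp only [sub_comp, neg_comp, one_comp, X_comp]; ring
      have h9 := hEc (-2 - X)
      have h10 : (-2 - X : (ZMod p)[X]) + 1 = -1 - X := by ring
      rw [h10] at h9
      rw [h8]
      have h11 : (-1 - X : (ZMod p)[X]) ^ (p - 2) = -(X + 1) ^ (p - 2) := by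
        have h12 : (-1 - X : (ZMod p)[X]) = -(X + 1) := by ring
        rw [h12, Odd.neg_pow]
        rw [Nat.odd_iff] at hodd ⊢
        omega
      rw [h11] at h9
      linear_combination -h9
    have hGc := const_of_periodic G hGd hGp
    have hG0 : G.coeff 0 = 0 := by
      have hE00 : E.eval 0 = 0 := by rw [← coeff_zero_eq_eval_zero]; exact hE0
      rw [coeff_zero_eq_eval_zero, hG, eval_sub, eval_comp, hE00]
      have h13 := congrArg (eval 0) (hEc (-1))
      simp only [eval_comp, eval_neg, eval_one, neg_add_cancel, eval_pow, eval_add, eval_zero] at h13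
      rw [hE00, zero_pow (by omega), add_zero] at h13
      simp only [eval_sub, eval_neg, eval_one, eval_X, sub_zero]
      exact h13.symm
    rw [hG0, C_0] at hGc
    exact sub_eq_zero.1 (hG ▸ hGc)
  -- `T(X) = S(X-1)`
  have hT : taylor (-1) S = S.comp (X - 1) := by
    rw [taylor_apply]
    congr 1
    simp [sub_eq_add_neg]
  have hTsym : (S.comp (X - 1)).comp (-X) = S.comp (X - 1) := by
    rw [comp_assoc]
    have h3 : (X - 1 : (ZMod p)[X]).comp (-X) = -X - 1 := by simp
    rw [h3, hScomp, hScomp]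
    congr 1
    conv_rhs => rw [← hEsym, comp_assoc]
    congr 1
    simp only [sub_comp, neg_comp, one_comp, X_comp]
    linear_combination -hC2
  have hTodd : ∀ k, Odd k → (taylor (-1) S).coeff k = 0 := by
    intro k hk
    have h3 : ((S.comp (X - 1)).comp (-X)).coeff k = (S.comp (X - 1)).coeff k := by rw [hTsym]
    have h4 : (-X : (ZMod p)[X]) = C (-1) * X := by rw [C_neg, C_1]; ring
    rw [h4, comp_C_mul_X_coeff, hk.neg_one_pow, ← hT] at h3
    have h5 : (2 : ZMod p) * (taylor (-1) S).coeff k = 0 := by linear_combination -h3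
    exact (mul_eq_zero.1 h5).resolve_left h2
  -- `S(X) + S(X-1) - E(X)` is constant
  have hHc : (taylor (-1) S).coeff 2 = E.coeff 2 - S.coeff 2 := by
    set H := S + S.comp (X - 1) - E with hH
    have hTd : (S.comp (X - 1)).natDegree < p := by
      rw [← hT, natDegree_taylor]
      exact hSdeg
    have hHd : H.natDegree < p := by
      refine lt_of_le_of_lt (natDegree_sub_le _ _) (max_lt ?_ hdeg)
      exact lt_of_le_of_lt (natDegree_add_le _ _) (max_lt hSdeg hTd)
    have hHp : H.comp (X + 1) = H := by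
      rw [hH, sub_comp, add_comp, comp_assoc, hEc X, comp_X, hSc (X + 1)]
      have h8 : (X - 1 : (ZMod p)[X]).comp (X + 1) = X := by simp
      have h9 : (X + 1 - 2 : (ZMod p)[X]) = X - 1 := by ring
      rw [h8, h9, comp_X]
      ring
    have h10 := const_of_periodic H hHd hHp
    have h11 := congrArg (fun P : (ZMod p)[X] => P.coeff 2) h10
    simp only [hH, coeff_sub, coeff_add, coeff_C] at h11
    rw [if_neg (by norm_num), ← hT] at h11
    linear_combination h11
  have hS2 : S.coeff 2 = -(c : ZMod p) / 8 := by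
    rw [hScoeff, hE2]
    have : (8 : ZMod p) = 2 ^ 3 := by norm_num
    rw [this]
    field_simp
  refine ⟨S, hSdeg, hS1, ?_, ?_, hS2, ?_, hTodd 1 (by decide), ?_, hTodd 3 (by decide)⟩
  · rw [hScoeff, hE0]; simp
  · rw [hScoeff, hE1]; simp
  · rw [hScoeff, hE3]; simp
  · rw [hHc, hE2, hS2]
    have h8 : (8 : ZMod p) ≠ 0 := by
      have : (8 : ZMod p) = 2 ^ 3 := by norm_num
      rw [this]
      exact pow_ne_zero _ h2
    field_simp
    ring

/-- the same with numerator and denominator of `c`. -/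
theorem exists_SZ (c : ℚ) {p : ℕ} [Fact p.Prime] (hp11 : 11 ≤ p) (hpc : ¬ p ∣ c.den)
    (hf : Flat c p) :
    ∃ S : (ZMod p)[X], S.natDegree < p ∧ S - taylor (-2) S = X ^ (p - 2) ∧
      S.coeff 0 = 0 ∧ S.coeff 1 = 0 ∧
      (8 : ZMod p) * (c.den : ZMod p) * S.coeff 2 = -(c.num : ZMod p) ∧ S.coeff 3 = 0 ∧
      (taylor (-1) S).coeff 1 = 0 ∧
      8 * (c.den : ZMod p) * (taylor (-1) S).coeff 2 = -7 * (c.num : ZMod p) ∧
      (taylor (-1) S).coeff 3 = 0 := by
  obtain ⟨S, h1, h2, h3, h4, h5, h6, h7, h8, h9⟩ := exists_SC c hp11 hpc hf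
  have hcd : ((c.den : ℕ) : ZMod p) ≠ 0 := by
    intro h0
    exact hpc ((ZMod.natCast_eq_zero_iff _ _).1 h0)
  have h4' : (c : ZMod p) * (c.den : ZMod p) = (c.num : ZMod p) := by
    rw [Rat.cast_def]
    field_simp
  have h8' : (8 : ZMod p) ≠ 0 := by
    have : ((8 : ℕ) : ZMod p) ≠ 0 := by
      rw [Ne, ZMod.natCast_eq_zero_iff]
      intro h
      have := Nat.le_of_dvd (by norm_num) h
      omega
    simpa using this
  refine ⟨S, h1, ?_, h3, h4, ?_, h6, h7, ?_, h9⟩
  · have : taylor (-2) S = S.comp (X - 2) := by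
      rw [taylor_apply]
      congr 1
      rw [C_neg, ← one_add_one_eq_two, ← one_add_one_eq_two, C_add, C_1, sub_eq_add_neg]
    rw [this]
    exact h2
  · rw [h5, ← h4']
    field_simp
  · rw [h8, ← h4']
    field_simp

end MP_a3a416_nt.SJ
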