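import Pool.Agent.Lib.MP_a3a416_nt.SJ.PL
import Pool.Agent.Lib.MP_a3a416_nt.SJ.SPolyA
import Pool.Agent.Lib.MP_a3a416_nt.SJ.SCongr

/-! # Section 5 (C1, C2): the polynomial `S` and its congruence.
`hst` is `hs` without the terms `p ∣ b`; `gst` the corresponding local coefficient. -/

open Polynomial

namespace MP_a3a416_nt.SJ

/-- `h_r(n)` without the terms divisible by `p`. -/
noncomputable def hst (p r : ℕ) (n : ℤ) : ℚ :=
  ∑ b ∈ (Finset.Ioc 0 n).filter (fun b => b % 2 = n % 2 ∧ ¬ (p : ℤ) ∣ b), ((b : ℚ)⁻¹) ^ r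
    - ∑ b ∈ (Finset.Ioo n 0).filter (fun b => b % 2 = n % 2 ∧ ¬ (p : ℤ) ∣ b), ((b : ℚ)⁻¹) ^ r

/-- coefficient of `u^j` of the `p`-integral part of `s(n)(u)` (with the parameter `c`). -/
noncomputable def gst (c : ℚ) (p : ℕ) (n : ℤ) (j : ℕ) : ℚ :=
  (-1) ^ j * ((j : ℚ) + 1) * hst p (1 + j) n
    - (if j = 2 then (if Even n then c / 8 else 7 * c / 8) else 0)

theorem hst_eq_hgen (p r : ℕ) (n : ℤ) :
    hst p r n = hgen (fun b : ℤ => if (p : ℤ) ∣ b then 0 else ((b : ℚ)⁻¹) ^ r) n := by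
  have key : ∀ s : Finset ℤ,
      ∑ b ∈ s.filter (fun b => b % 2 = n % 2 ∧ ¬ (p : ℤ) ∣ b), ((b : ℚ)⁻¹) ^ r
        = ∑ b ∈ s.filter (fun b => b % 2 = n % 2), if (p : ℤ) ∣ b then 0 else ((b : ℚ)⁻¹) ^ r := by
    intro s
    rw [← Finset.filter_filter, Finset.sum_filter (fun b => ¬ (p : ℤ) ∣ b)]
    refine Finset.sum_congr rfl fun b _ => ?_
    by_cases h : (p : ℤ) ∣ b <;> simp [h]
  unfold hst hgen
  rw [key, key]

/-- the shift relation of the `p`-integral part -/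
theorem hst_step (p r : ℕ) (n : ℤ) :
    hst p r n = hst p r (n - 2) + if (p : ℤ) ∣ n then 0 else ((n : ℚ)⁻¹) ^ r := by
  rw [hst_eq_hgen, hst_eq_hgen, hgen_step _ (by simp)]

/-- `Red p q z`: the rational number `q` is `p`-integral with residue `z` -/
def Red (p : ℕ) (q : ℚ) (z : ZMod p) : Prop := ∃ m : ℤ, val p (q - m) 1 ∧ (m : ZMod p) = z

namespace Red

variable {p : ℕ} [hp : Fact p.Prime] {x y : ℚ} {a b : ZMod p}

theorem int (m : ℤ) : Red p (m : ℚ) (m : ZMod p) := ⟨m, by rw [sub_self]; exact val.zero 1, rfl⟩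

theorem zero : Red p 0 (0 : ZMod p) := by simpa using Red.int (p := p) 0

theorem add (hx : Red p x a) (hy : Red p y b) : Red p (x + y) (a + b) := by
  obtain ⟨m, h1, h2⟩ := hx
  obtain ⟨m', h1', h2'⟩ := hy
  refine ⟨m + m', ?_, by push_cast; rw [h2, h2']⟩
  have := h1.add h1'
  rwa [show x - (m : ℚ) + (y - (m' : ℚ)) = x + y - ((m + m' : ℤ) : ℚ) by push_cast; ring] at this

theorem neg (hx : Red p x a) : Red p (-x) (-a) := by
  obtain ⟨m, h1, h2⟩ := hx
  refine ⟨-m, ?_, by push_cast; rw [h2]⟩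
  have := h1.neg
  rwa [show -(x - (m : ℚ)) = -x - ((-m : ℤ) : ℚ) by push_cast; ring] at this

theorem sub (hx : Red p x a) (hy : Red p y b) : Red p (x - y) (a - b) := by
  rw [sub_eq_add_neg, sub_eq_add_neg]; exact hx.add hy.neg

theorem integral (hx : Red p x a) : val p x 0 := by
  obtain ⟨m, h1, -⟩ := hx
  have := (h1.mono (b := 0) (by norm_num)).add (val.int (p := p) m)
  rwa [sub_add_cancel] at this

theorem mul (hx : Red p x a) (hy : Red p y b) : Red p (x * y) (a * b) := by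
  have hy0 := hy.integral
  obtain ⟨m, h1, h2⟩ := hx
  obtain ⟨m', h1', h2'⟩ := hy
  refine ⟨m * m', ?_, by push_cast; rw [h2, h2']⟩
  have h3 := h1.mul hy0
  have h4 := h1'.int_mul m
  rw [add_zero] at h3
  have := h3.add h4
  rwa [show (x - (m : ℚ)) * y + (m : ℚ) * (y - (m' : ℚ)) = x * y - ((m * m' : ℤ) : ℚ) by
    push_cast; ring] at this

theorem pow (hx : Red p x a) (k : ℕ) : Red p (x ^ k) (a ^ k) := by
  induction k with
  | zero => simpa using Red.int (p := p) 1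
  | succ k ih => rw [pow_succ, pow_succ]; exact ih.mul hx

theorem sum {ι : Type*} {s : Finset ι} {f : ι → ℚ} {g : ι → ZMod p}
    (h : ∀ i ∈ s, Red p (f i) (g i)) : Red p (∑ i ∈ s, f i) (∑ i ∈ s, g i) := by
  classical
  induction s using Finset.induction_on with
  | empty => simpa using Red.zero (p := p)
  | insert i s hi ih =>
    rw [Finset.sum_insert hi, Finset.sum_insert hi]
    exact (h i (Finset.mem_insert_self _ _)).add
      (ih fun j hj => h j (Finset.mem_insert_of_mem hj))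

theorem inv {n : ℤ} (h : ¬ (p : ℤ) ∣ n) : Red p ((n : ℚ)⁻¹) ((n : ZMod p)⁻¹) := by
  have hz : (n : ZMod p) ≠ 0 := by
    rwa [Ne, ZMod.intCast_zmod_eq_zero_iff_dvd]
  have hn0 : (n : ℚ) ≠ 0 := by
    intro h0
    apply h
    have : n = 0 := by exact_mod_cast h0
    rw [this]; exact dvd_zero _
  obtain ⟨m, hm⟩ := ZMod.intCast_surjective ((n : ZMod p)⁻¹)
  refine ⟨m, ?_, hm⟩
  have h1 : (p : ℤ) ^ 1 ∣ 1 - m * n := by
    rw [pow_one, ← ZMod.intCast_zmod_eq_zero_iff_dvd]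
    push_cast
    rw [hm, inv_mul_cancel₀ hz, sub_self]
  have h2 := (val.of_dvd h1).mul (val.inv_of_not_dvd h)
  have h3 : ((1 - m * n : ℤ) : ℚ) * ((n : ℚ))⁻¹ = (n : ℚ)⁻¹ - (m : ℚ) := by
    push_cast
    field_simp
  rw [h3] at h2
  simpa using h2

theorem hgen {f : ℤ → ℚ} {g : ℤ → ZMod p} (h : ∀ b, Red p (f b) (g b)) (n : ℤ) :
    Red p (hgen f n) (hgen g n) := by
  unfold SJ.hgen
  exact (Red.sum fun b _ => h b).sub (Red.sum fun b _ => h b)

end Red

theorem red_hst {p : ℕ} [Fact p.Prime] {r : ℕ} (hr : r ≠ 0) (n : ℤ) :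
    Red p (hst p r n) (hsZ p r n) := by
  rw [hst_eq_hgen]
  unfold hsZ
  refine Red.hgen (fun b => ?_) n
  by_cases h : (p : ℤ) ∣ b
  · rw [if_pos h, (ZMod.intCast_zmod_eq_zero_iff_dvd b p).2 h]
    simpa [hr] using Red.zero (p := p)
  · rw [if_neg h]
    exact (Red.inv h).pow r

theorem red_rat {p : ℕ} [Fact p.Prime] {c : ℚ} (h : ¬ p ∣ c.den) : Red p c (c : ZMod p) := by
  have h1 : ¬ (p : ℤ) ∣ (c.den : ℤ) := by exact_mod_cast h
  have h2 := (Red.int (p := p) c.num).mul (Red.inv h1)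
  have e1 : (c.num : ℚ) * (((c.den : ℤ) : ℚ))⁻¹ = c := by
    rw [← div_eq_mul_inv]
    exact_mod_cast Rat.num_div_den c
  have e2 : (c.num : ZMod p) * (((c.den : ℤ) : ZMod p))⁻¹ = (c : ZMod p) := by
    rw [← div_eq_mul_inv, Rat.cast_def]
    push_cast
    rfl
  rw [e1, e2] at h2
  exact h2

theorem red_gst {p : ℕ} [Fact p.Prime] {c : ℚ} (hp11 : 11 ≤ p) (h : ¬ p ∣ c.den) (n : ℤ) (k : ℕ) :
    Red p (gst c p n k) (scZ p (c : ZMod p) n k) := by
  have h8 : ¬ (p : ℤ) ∣ 8 := by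
    intro h1
    have := Int.le_of_dvd (by norm_num) h1
    omega
  have hc := red_rat (p := p) h
  have hi8 := Red.inv (p := p) h8
  have e8 : (((8 : ℤ) : ℚ))⁻¹ = (8 : ℚ)⁻¹ := by norm_num
  have e8' : (((8 : ℤ) : ZMod p))⁻¹ = (8 : ZMod p)⁻¹ := by push_cast; rfl
  rw [e8, e8'] at hi8
  unfold gst scZ
  refine Red.sub ?_ ?_
  · have h1 := (Red.int (p := p) ((-1) ^ k * ((k : ℤ) + 1))).mul
      (red_hst (p := p) (r := 1 + k) (by omega) n)
    push_cast at h1
    exact h1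
  · by_cases hk : k = 2
    · rw [if_pos hk, if_pos hk]
      by_cases he : Even n
      · rw [if_pos he, if_pos he, div_eq_mul_inv, div_eq_mul_inv]
        exact hc.mul hi8
      · rw [if_neg he, if_neg he, div_eq_mul_inv, div_eq_mul_inv]
        have h7 := Red.int (p := p) 7
        push_cast at h7
        exact (h7.mul hc).mul hi8
    · rw [if_neg hk, if_neg hk]
      exact Red.zero

theorem exists_S (c : ℚ) {p : ℕ} (hp : p.Prime) (hp11 : 11 ≤ p) (hpc : ¬ p ∣ c.den)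
    (hf : Flat c p) :
    ∃ (S : ℤ[X]) (a : ℤ), S.natDegree < p ∧ ∀ (n : ℤ) (k : ℕ), k < 4 →
      val p (((taylor n S).coeff k : ℤ) - (if k = 0 ∧ Odd n then (a : ℚ) else 0) - gst c p n k)
        1 := by
  have hF : Fact p.Prime := ⟨hp⟩
  obtain ⟨Sb, hdeg, hS, h0, h1, h2, h3, g1, g2, g3⟩ := exists_SC c hp11 hpc hf
  have hT := taylor_S hp11 (c : ZMod p) Sb hS h0 h1 h2 h3 g1 g2 g3
  -- the lift
  have hsurj : Function.Surjective (Int.castRingHom (ZMod p)) := ZMod.intCast_surjective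
  obtain ⟨S, hSmap, hSdeg⟩ : ∃ S : ℤ[X], S.map (Int.castRingHom (ZMod p)) = Sb ∧
      S.natDegree < p := by
    have hmem : Sb ∈ lifts (Int.castRingHom (ZMod p)) := by
      rw [lifts_iff_coeff_lifts]
      intro n
      exact hsurj _
    obtain ⟨S, hS1, hS2⟩ := exists_degree_eq_of_mem_lifts hmem
    exact ⟨S, hS1, by rw [natDegree_eq_of_degree_eq hS2]; exact hdeg⟩
  obtain ⟨a, ha⟩ := ZMod.intCast_surjective ((taylor (-1) Sb).coeff 0)
  refine ⟨S, a, hSdeg, fun n k hk => ?_⟩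
  have hcoef : (((taylor n S).coeff k : ℤ) : ZMod p) = (taylor (n : ZMod p) Sb).coeff k := by
    rw [← hSmap]
    have : (taylor n S).map (Int.castRingHom (ZMod p))
        = taylor (n : ZMod p) (S.map (Int.castRingHom (ZMod p))) := by
      rw [taylor_apply, taylor_apply, map_comp]
      simp
    rw [← this, coeff_map]
    rfl
  rw [hT n k hk] at hcoef
  obtain ⟨m, hm1, hm2⟩ := red_gst (p := p) hp11 hpc n k
  set a' : ℤ := if k = 0 ∧ Odd n then a else 0 with ha'
  have ha1 : ((a' : ℤ) : ℚ) = if k = 0 ∧ Odd n then (a : ℚ) else 0 := by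
    rw [ha']; split_ifs <;> simp
  have ha2 : ((a' : ℤ) : ZMod p)
      = if k = 0 ∧ Odd n then (taylor (-1) Sb).coeff 0 else 0 := by
    rw [ha']; split_ifs
    · exact ha
    · simp
  have h5 : (p : ℤ) ^ 1 ∣ (taylor n S).coeff k - a' - m := by
    rw [pow_one, ← ZMod.intCast_zmod_eq_zero_iff_dvd]
    push_cast
    rw [hcoef, ha2, hm2]
    ring
  have h6 := (val.of_dvd (p := p) h5).sub hm1
  rw [← ha1]
  have e : (((taylor n S).coeff k - a' - m : ℤ) : ℚ) - (gst c p n k - (m : ℚ))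
      = (((taylor n S).coeff k : ℤ) : ℚ) - (a' : ℚ) - gst c p n k := by
    push_cast; ring
  rw [e] at h6
  simpa using h6

/-- the difference between the full sum and its `p`-integral part, `-2p ≤ n < 2p` -/
theorem hs_sub_hst {p : ℕ} (hp : Odd p) (r : ℕ) (n : ℤ) (h1 : -(2 * (p : ℤ)) ≤ n)
    (h2 : n < 2 * p) :
    hs r n - hst p r n = if (p : ℤ) ≤ n ∧ Odd n then ((p : ℚ)⁻¹) ^ r
      else if n < -(p : ℤ) ∧ Odd n then -((-(p : ℚ))⁻¹) ^ r else 0 := by
  have hp0 : 0 < (p : ℤ) := by exact_mod_cast hp.pos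
  have hpo : (p : ℤ) % 2 = 1 := by
    obtain ⟨m, hm⟩ := hp
    omega
  have key : hs r n - hst p r n
      = hgen (fun b => if (p : ℤ) ∣ b then ((b : ℚ)⁻¹) ^ r else 0) n := by
    rw [hs_eq_hgen, hst_eq_hgen]
    unfold hgen
    rw [sub_sub_sub_comm, ← Finset.sum_sub_distrib, ← Finset.sum_sub_distrib]
    congr 1 <;> refine Finset.sum_congr rfl fun b _ => ?_ <;>
      by_cases h : (p : ℤ) ∣ b <;> simp [h]
  rw [key]
  unfold hgen
  have hdvd : ∀ b : ℤ, (p : ℤ) ∣ b → 0 < b → b < 2 * p → b = p := by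
    rintro b ⟨m, rfl⟩ hb1 hb2
    have h3 : 0 < m := by
      by_contra h
      push Not at h
      nlinarith
    have h4 : m < 2 := by nlinarith
    have : m = 1 := by omega
    rw [this, mul_one]
  have hdvd' : ∀ b : ℤ, (p : ℤ) ∣ b → b < 0 → -(2 * (p : ℤ)) < b → b = -p := by
    intro b hb hb1 hb2
    have := hdvd (-b) ((dvd_neg).2 hb) (by omega) (by omega)
    omega
  by_cases hA : (p : ℤ) ≤ n ∧ Odd n
  · rw [if_pos hA]
    have hn2 : n % 2 = 1 := Int.odd_iff.1 hA.2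
    have e1 : (Finset.Ioo n 0).filter (fun b => b % 2 = n % 2) = ∅ := by
      ext b; simp only [Finset.mem_filter, Finset.mem_Ioo, Finset.notMem_empty, iff_false]; omega
    rw [e1, Finset.sum_empty, sub_zero, Finset.sum_eq_single (p : ℤ)]
    · simp
    · intro b hb hbp
      simp only [Finset.mem_filter, Finset.mem_Ioc] at hb
      rw [if_neg]
      intro h
      exact hbp (hdvd b h hb.1.1 (by omega))
    · intro h
      exfalso; apply h
      simp only [Finset.mem_filter, Finset.mem_Ioc]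
      omega
  · rw [if_neg hA]
    have hpos : ∑ b ∈ (Finset.Ioc 0 n).filter (fun b => b % 2 = n % 2),
        (if (p : ℤ) ∣ b then ((b : ℚ)⁻¹) ^ r else 0) = 0 := by
      refine Finset.sum_eq_zero fun b hb => ?_
      simp only [Finset.mem_filter, Finset.mem_Ioc] at hb
      rw [if_neg]
      intro h
      have hbp := hdvd b h hb.1.1 (by omega)
      apply hA
      rw [Int.odd_iff]
      omega
    rw [hpos, zero_sub]
    by_cases hB : n < -(p : ℤ) ∧ Odd n
    · rw [if_pos hB]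
      have hn2 : n % 2 = 1 := Int.odd_iff.1 hB.2
      rw [Finset.sum_eq_single (-(p : ℤ))]
      · simp
      · intro b hb hbp
        simp only [Finset.mem_filter, Finset.mem_Ioo] at hb
        rw [if_neg]
        intro h
        exact hbp (hdvd' b h hb.1.2 (by omega))
      · intro h
        exfalso; apply h
        simp only [Finset.mem_filter, Finset.mem_Ioo]
        omega
    · rw [if_neg hB, neg_eq_zero]
      refine Finset.sum_eq_zero fun b hb => ?_
      simp only [Finset.mem_filter, Finset.mem_Ioo] at hb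
      rw [if_neg]
      intro h
      have hbp := hdvd' b h hb.1.2 (by omega)
      apply hB
      rw [Int.odd_iff]
      omega

/-- the polar part of `gs` -/
theorem gs_sub_gst (c : ℚ) {p : ℕ} (hp : Odd p) (n : ℤ) (k : ℕ) (h1 : -(2 * (p : ℤ)) ≤ n)
    (h2 : n < 2 * p) :
    gs c n k - gst c p n k = (-1) ^ k * ((k : ℚ) + 1) *
      (if (p : ℤ) ≤ n ∧ Odd n then ((p : ℚ)⁻¹) ^ (1 + k)
        else if n < -(p : ℤ) ∧ Odd n then -((-(p : ℚ))⁻¹) ^ (1 + k) else 0) := by
  rw [← hs_sub_hst hp (1 + k) n h1 h2]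
  unfold gs gst
  ring

/-- no polar part for `-p ≤ n < p` -/
theorem gs_eq_gst (c : ℚ) {p : ℕ} (hp : Odd p) (n : ℤ) (k : ℕ) (h1 : -(p : ℤ) ≤ n)
    (h2 : n < p) : gs c n k = gst c p n k := by
  have h := gs_sub_gst c hp n k (by omega) (by omega)
  rw [if_neg (by omega), if_neg (by omega), mul_zero] at h
  linarith

end MP_a3a416_nt.SJ
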