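import Pool.Agent.Lib.MP_a3a416_nt.SJ.Defs
import Pool.Agent.Lib.MP_a3a416_nt.SJ.SPoly
import Pool.Agent.Lib.MP_a3a416_nt.SJ.Blocks

/-! # Section 5a (flat primes `p > N`), final statement. -/

open Polynomial

namespace MP_a3a416_nt.SJ

/-! ## Integer jets -/

/-- the jets of an integral polynomial -/
noncomputable def jz (P : ℤ[X]) (n : ℤ) (k : ℕ) : ℤ := (taylor n P).coeff k

theorem jz_mul (P Q : ℤ[X]) (n : ℤ) (k : ℕ) :
    jz (P * Q) n k = ∑ j ∈ Finset.range (k + 1), jz P n j * jz Q n (k - j) := by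
  rw [jz, taylor_mul, coeff_mul, Finset.Nat.sum_antidiagonal_eq_sum_range_succ_mk]
  rfl

theorem jz_add (P Q : ℤ[X]) (n : ℤ) (k : ℕ) : jz (P + Q) n k = jz P n k + jz Q n k := by
  simp [jz, map_add]

theorem jz_sub (P Q : ℤ[X]) (n : ℤ) (k : ℕ) : jz (P - Q) n k = jz P n k - jz Q n k := by
  simp [jz, map_sub]

theorem jz_C_mul (a : ℤ) (P : ℤ[X]) (n : ℤ) (k : ℕ) : jz (C a * P) n k = a * jz P n k := by
  rw [jz, taylor_mul, taylor_C, coeff_C_mul]
  rfl

theorem jz_C (a : ℤ) (n : ℤ) (k : ℕ) : jz (C a) n k = if k = 0 then a else 0 := by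
  rw [jz, taylor_C, coeff_C]

theorem taylor_cast (n : ℤ) (P : ℤ[X]) :
    taylor (n : ℚ) (P.map (Int.castRingHom ℚ)) = (taylor n P).map (Int.castRingHom ℚ) := by
  rw [taylor_apply, taylor_apply, Polynomial.map_comp]
  simp

theorem taylor_X_pow_coeff (i : ℕ) (n : ℤ) (j : ℕ) :
    (taylor (n : ℚ) ((X : ℚ[X]) ^ i)).coeff j = ((jz (X ^ i) n j : ℤ) : ℚ) := by
  have h : ((X : ℚ[X]) ^ i) = ((X : ℤ[X]) ^ i).map (Int.castRingHom ℚ) := by simp
  rw [h, taylor_cast, coeff_map]
  rfl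

/-- shifting the argument -/
theorem jz_comp_sub_one (S : ℤ[X]) (n : ℤ) (k : ℕ) :
    jz (S.comp (X - 1)) n k = jz S (n - 1) k := by
  unfold jz
  congr 1
  rw [taylor_apply, taylor_apply, comp_assoc]
  congr 1
  simp only [sub_comp, X_comp, one_comp, map_sub, map_one]
  ring

theorem jz_eq_sum (P : ℤ[X]) {L : ℕ} (hP : P.natDegree < L) (n : ℤ) (k : ℕ) :
    jz P n k = ∑ l : Fin L, jz (X ^ (l : ℕ)) n k * P.coeff l := by
  conv_lhs => rw [P.as_sum_range' L hP]
  rw [jz, map_sum, finsetSum_coeff, Finset.sum_range]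
  refine Finset.sum_congr rfl fun l _ => ?_
  rw [← C_mul_X_pow_eq_monomial, mul_comm]
  have := jz_C_mul (P.coeff l) (X ^ (l : ℕ)) n k
  rw [jz, mul_comm (C _)] at this
  rw [this, mul_comm]

/-! ## Jets of the blocks -/

theorem J_zB (c : ℚ) (i : ℕ) (n : ℤ) (k : ℕ) : J c .z (X ^ i) n k = (jz (X ^ i) n k : ℚ) := by
  rw [J_eq_sum, Finset.sum_eq_single k]
  · rw [taylor_X_pow_coeff]
    simp [gj]
  · intro j hj hjk
    have hj' := Finset.mem_range.mp hj
    have h : k - j ≠ 0 := by omega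
    simp [gj, h]
  · intro h
    simp at h

theorem J_uB (c : ℚ) (i : ℕ) (n : ℤ) (k : ℕ) :
    J c .u (X ^ i) n k = (if k = 0 then (0 : ℚ) else (jz (X ^ i) n (k - 1) : ℚ)) := by
  rw [J_eq_sum]
  rcases Nat.eq_zero_or_pos k with rfl | hk
  · simp [gj]
  · rw [if_neg (by omega), Finset.sum_eq_single (k - 1)]
    · have h : k - (k - 1) = 1 := by omega
      rw [taylor_X_pow_coeff]
      simp [gj, h]
    · intro j hj hjk
      have hj' := Finset.mem_range.mp hj
      have h : k - j ≠ 1 := by omega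
      simp [gj, h]
    · intro h
      exfalso
      apply h
      rw [Finset.mem_range]
      omega

theorem J_oB (c : ℚ) (i : ℕ) (n : ℤ) (k : ℕ) :
    J c .o (X ^ i) n k = (if Odd n then ((jz (X ^ i) n k : ℤ) : ℚ) else 0) := by
  rw [J_eq_sum, Finset.sum_eq_single k]
  · by_cases h : Odd n
    · rw [taylor_X_pow_coeff]
      simp [gj, h]
    · simp [gj, h]
  · intro j hj hjk
    have hj' := Finset.mem_range.mp hj
    have h : k - j ≠ 0 := by omega
    simp [gj, h]
  · intro h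
    simp at h

theorem J_s (c : ℚ) (i : ℕ) (n : ℤ) (k : ℕ) :
    J c .s (X ^ i) n k = ∑ j ∈ Finset.range (k + 1), (jz (X ^ i) n j : ℚ) * gs c n (k - j) := by
  rw [J_eq_sum]
  refine Finset.sum_congr rfl fun j _ => ?_
  rw [taylor_X_pow_coeff]
  rfl

theorem J_t (c : ℚ) (i : ℕ) (n : ℤ) (k : ℕ) :
    J c .t (X ^ i) n k =
      ∑ j ∈ Finset.range (k + 1), (jz (X ^ i) n j : ℚ) * gs c (n - 1) (k - j) := by
  rw [J_eq_sum]
  refine Finset.sum_congr rfl fun j _ => ?_
  rw [taylor_X_pow_coeff]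
  rfl

/-! ## Congruences modulo `p` -/

theorem val_one_of_dvd {p : ℕ} {m : ℤ} (h : (p : ℤ) ∣ m) [Fact p.Prime] : val p (m : ℚ) 1 := by
  have := val.of_dvd (p := p) (n := m) (k := 1) (by simpa using h)
  simpa using this

/-- `u ≡ x - x^p` modulo `(p, u^4)` -/
theorem jz_u_dvd {p : ℕ} [hp : Fact p.Prime] (hp4 : 4 ≤ p) (i : ℕ) (n : ℤ) {k : ℕ} (hk : k < 4) :
    (p : ℤ) ∣ (if k = 0 then 0 else jz (X ^ i) n (k - 1)) -
      jz (X ^ (i + 1) - X ^ (i + p)) n k := by
  rw [← ZMod.intCast_zmod_eq_zero_iff_dvd]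
  have key : (taylor n (X ^ (i + 1) - X ^ (i + p) : ℤ[X])).map (Int.castRingHom (ZMod p)) =
      ((taylor n (X ^ i : ℤ[X])).map (Int.castRingHom (ZMod p))) * (X - X ^ p) := by
    rw [taylor_apply, taylor_apply]
    simp only [sub_comp, pow_comp, X_comp, Polynomial.map_sub, Polynomial.map_pow,
      Polynomial.map_add, map_X, eq_intCast, Polynomial.map_intCast]
    have h1 : ((X : (ZMod p)[X]) + (n : (ZMod p)[X])) ^ p = X ^ p + (n : (ZMod p)[X]) := by
      rw [add_pow_char]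
      congr 1
      have : ((n : (ZMod p)[X])) = C (n : ZMod p) := by simp
      rw [this, ← C_pow, ZMod.pow_card]
    rw [pow_succ, pow_add, h1]
    ring
  have h2 : ((jz (X ^ (i + 1) - X ^ (i + p)) n k : ℤ) : ZMod p) =
      ((taylor n (X ^ (i + 1) - X ^ (i + p) : ℤ[X])).map (Int.castRingHom (ZMod p))).coeff k := by
    rw [coeff_map]; rfl
  push_cast
  rw [h2, key, mul_sub, coeff_sub]
  have h3 : ((taylor n (X ^ i : ℤ[X])).map (Int.castRingHom (ZMod p)) * X ^ p).coeff k = 0 := by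
    rw [coeff_mul_X_pow']
    rw [if_neg (by omega)]
  rw [h3, sub_zero]
  rcases Nat.eq_zero_or_pos k with rfl | hk0
  · simp
  · obtain ⟨m, rfl⟩ : ∃ m, k = m + 1 := ⟨k - 1, by omega⟩
    rw [coeff_mul_X, coeff_map]
    simp [jz]

/-- the hypothesis on `S` -/
def SHyp (c : ℚ) (p : ℕ) (S : ℤ[X]) (a : ℤ) : Prop :=
  ∀ (n : ℤ) (k : ℕ), k < 4 →
    val p (((jz S n k : ℤ) : ℚ) - (if k = 0 ∧ Odd n then (a : ℚ) else 0) - gst c p n k) 1

/-- for `|n| ≤ p` (and more) no term is dropped -/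
theorem hst_eq {p r : ℕ} {n : ℤ} (h1 : n < p) (h2 : -(p : ℤ) - 1 < n) : hst p r n = hs r n := by
  unfold hst hs
  congr 1
  · refine Finset.sum_congr (Finset.filter_congr fun b hb => ?_) fun _ _ => rfl
    rw [Finset.mem_Ioc] at hb
    refine ⟨fun h => h.1, fun h => ⟨h, fun hd => ?_⟩⟩
    have := Int.le_of_dvd hb.1 hd
    omega
  · refine Finset.sum_congr (Finset.filter_congr fun b hb => ?_) fun _ _ => rfl
    rw [Finset.mem_Ioo] at hb
    refine ⟨fun h => h.1, fun h => ⟨h, fun hd => ?_⟩⟩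
    have hd' : (p : ℤ) ∣ -b := (dvd_neg).mpr hd
    have := Int.le_of_dvd (by omega) hd'
    omega

theorem gst_eq (c : ℚ) {p : ℕ} {n : ℤ} (h1 : n < p) (h2 : -(p : ℤ) - 1 < n) (j : ℕ) :
    gst c p n j = gs c n j := by
  rw [gst, gs, hst_eq h1 h2]

theorem sum_congr_val {p : ℕ} [Fact p.Prime] (i : ℕ) (n : ℤ) {k : ℕ} (hk : k < 4)
    (f g : ℕ → ℚ) (h : ∀ j < 4, val p (f j - g j) 1) :
    val p (∑ j ∈ Finset.range (k + 1), (jz (X ^ i) n j : ℚ) * f (k - j) -
      ∑ j ∈ Finset.range (k + 1), (jz (X ^ i) n j : ℚ) * g (k - j)) 1 := by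
  rw [← Finset.sum_sub_distrib]
  apply val.sum
  intro j _
  rw [← mul_sub]
  exact (h _ (by omega)).int_mul _

theorem sum_delta (i : ℕ) (n : ℤ) (k : ℕ) (b : ℚ) :
    ∑ j ∈ Finset.range (k + 1), (jz (X ^ i) n j : ℚ) * (if k - j = 0 then b else 0) =
      b * jz (X ^ i) n k := by
  rw [Finset.sum_eq_single k]
  · simp [mul_comm]
  · intro j hj hjk
    have hj' := Finset.mem_range.mp hj
    have h : k - j ≠ 0 := by omega
    simp [h]
  · intro h
    simp at h

/-- the block `s` modulo `p` -/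
theorem J_s_congr {c : ℚ} {p : ℕ} [Fact p.Prime] {S : ℤ[X]} {a : ℤ} (hS : SHyp c p S a) (i : ℕ)
    {n : ℤ} (h1 : n < p) (h2 : -(p : ℤ) - 1 < n) {k : ℕ} (hk : k < 4) :
    val p (J c .s (X ^ i) n k - ((jz (X ^ i * S) n k : ℤ) - (a : ℚ) * J c .o (X ^ i) n k)) 1 := by
  have e1 : ((jz (X ^ i * S) n k : ℤ) : ℚ) - (a : ℚ) * J c .o (X ^ i) n k =
      ∑ j ∈ Finset.range (k + 1), (jz (X ^ i) n j : ℚ) *
        ((jz S n (k - j) : ℚ) - (if k - j = 0 then (if Odd n then (a : ℚ) else 0) else 0)) := by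
    simp only [mul_sub, Finset.sum_sub_distrib]
    rw [sum_delta, jz_mul, J_oB]
    push_cast
    split_ifs <;> ring
  rw [e1, J_s]
  refine sum_congr_val i n hk (fun j => gs c n j)
    (fun j => (jz S n j : ℚ) - (if j = 0 then (if Odd n then (a : ℚ) else 0) else 0)) ?_
  intro j hj
  have := (hS n j hj).neg
  rw [gst_eq c h1 h2] at this
  refine (congrArg (fun x => val p x 1) ?_).mp this
  by_cases hj0 : j = 0 <;> by_cases ho : Odd n <;> simp [hj0, ho]

/-- the block `t` modulo `p` -/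
theorem J_t_congr {c : ℚ} {p : ℕ} [Fact p.Prime] {S : ℤ[X]} {a : ℤ} (hS : SHyp c p S a) (i : ℕ)
    {n : ℤ} (h1 : n - 1 < p) (h2 : -(p : ℤ) - 1 < n - 1) {k : ℕ} (hk : k < 4) :
    val p (J c .t (X ^ i) n k -
      ((jz (X ^ i * (S.comp (X - 1) - C a)) n k : ℤ) + (a : ℚ) * J c .o (X ^ i) n k)) 1 := by
  have e1 : ((jz (X ^ i * (S.comp (X - 1) - C a)) n k : ℤ) : ℚ) +
        (a : ℚ) * J c .o (X ^ i) n k =
      ∑ j ∈ Finset.range (k + 1), (jz (X ^ i) n j : ℚ) *
        ((jz S (n - 1) (k - j) : ℚ) -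
          (if k - j = 0 then (if Odd (n - 1) then (a : ℚ) else 0) else 0)) := by
    simp only [mul_sub, Finset.sum_sub_distrib]
    rw [sum_delta, jz_sub, jz_mul, mul_comm (X ^ i) (C a), jz_C_mul, J_oB]
    simp only [jz_comp_sub_one]
    push_cast
    by_cases ho : Odd n
    · have : ¬ Odd (n - 1) := by
        rw [Int.not_odd_iff_even]
        exact ho.sub_odd odd_one
      simp [ho, this]
    · have : Odd (n - 1) := by
        rw [Int.not_odd_iff_even] at ho
        exact ho.sub_odd odd_one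
      simp [ho, this]
  rw [e1, J_t]
  refine sum_congr_val i n hk (fun j => gs c (n - 1) j)
    (fun j => (jz S (n - 1) j : ℚ) -
      (if j = 0 then (if Odd (n - 1) then (a : ℚ) else 0) else 0)) ?_
  intro j hj
  have := (hS (n - 1) j hj).neg
  rw [gst_eq c h1 h2] at this
  refine (congrArg (fun x => val p x 1) ?_).mp this
  by_cases hj0 : j = 0 <;> by_cases ho : Odd (n - 1) <;> simp [hj0, ho]

/-- the block `u` modulo `p` -/
theorem J_u_congr (c : ℚ) {p : ℕ} [Fact p.Prime] (hp4 : 4 ≤ p) (i : ℕ) (n : ℤ) {k : ℕ}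
    (hk : k < 4) :
    val p (J c .u (X ^ i) n k - ((jz (X ^ (i + 1) - X ^ (i + p)) n k : ℤ) : ℚ)) 1 := by
  have h := val_one_of_dvd (jz_u_dvd hp4 i n hk)
  rw [J_uB]
  refine (congrArg (fun x => val p x 1) ?_).mp h
  push_cast
  split_ifs <;> simp

/-! ## The rank bound -/

section rank

variable {K A c0 : ℕ}

/-- the polynomial part of a column modulo `p` -/
noncomputable def PZ (p : ℕ) (S : ℤ[X]) (a : ℤ) : Col K A ⊕ Fin c0 → ℤ[X]
  | .inl ⟨.z, i⟩ => X ^ (i : ℕ)
  | .inl ⟨.u, i⟩ => X ^ ((i : ℕ) + 1) - X ^ ((i : ℕ) + p)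
  | .inl ⟨.s, i⟩ => X ^ (i : ℕ) * S
  | .inl ⟨.t, i⟩ => X ^ (i : ℕ) * (S.comp (X - 1) - C a)
  | .inl ⟨.o, _⟩ => 0
  | .inr _ => 0

/-- the odd part of a column modulo `p`: coefficient of `J_oB(X^i)` -/
def AO (a : ℤ) : Col K A ⊕ Fin c0 → ℕ → ℤ
  | .inl ⟨.z, _⟩, _ => 0
  | .inl ⟨.u, _⟩, _ => 0
  | .inl ⟨.s, i⟩, l => if (i : ℕ) = l then -a else 0
  | .inl ⟨.t, i⟩, l => if (i : ℕ) = l then a else 0
  | .inl ⟨.o, i⟩, l => if (i : ℕ) = l then 1 else 0
  | .inr _, _ => 0

theorem PZ_natDegree {p : ℕ} (hp : 1 ≤ p) {S : ℤ[X]} (hS : S.natDegree < p) (a : ℤ)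
    (x : Col K A ⊕ Fin c0) (hA : 1 ≤ A) : (PZ p S a x).natDegree < max K (A + p) := by
  have hpos : 0 < max K (A + p) := by
    rw [lt_max_iff]; right; omega
  rcases x with ⟨β, i⟩ | j
  · cases β with
    | z =>
      have hi : (i : ℕ) < K := i.2
      simp only [PZ, natDegree_X_pow]
      exact lt_max_of_lt_left hi
    | u =>
      have hi : (i : ℕ) < A := i.2
      simp only [PZ]
      refine lt_of_le_of_lt (natDegree_sub_le _ _) ?_
      rw [natDegree_X_pow, natDegree_X_pow]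
      refine lt_max_of_lt_right ?_
      rw [max_lt_iff]
      omega
    | s =>
      have hi : (i : ℕ) < A := i.2
      simp only [PZ]
      refine lt_of_le_of_lt natDegree_mul_le ?_
      rw [natDegree_X_pow]
      refine lt_max_of_lt_right ?_
      omega
    | t =>
      have hi : (i : ℕ) < A := i.2
      simp only [PZ]
      refine lt_of_le_of_lt natDegree_mul_le ?_
      rw [natDegree_X_pow]
      have h1 : (S.comp (X - 1) - C a).natDegree < p := by
        refine lt_of_le_of_lt (natDegree_sub_le _ _) ?_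
        rw [natDegree_C, max_lt_iff]
        refine ⟨?_, by omega⟩
        refine lt_of_le_of_lt natDegree_comp_le ?_
        have : (X - 1 : ℤ[X]).natDegree = 1 := by
          have := natDegree_X_sub_C (1 : ℤ)
          simpa using this
        rw [this, mul_one]
        exact hS
      refine lt_max_of_lt_right ?_
      omega
    | o =>
      simp only [PZ, natDegree_zero]
      exact hpos
  · simp only [PZ, natDegree_zero]
    exact hpos

end rank

theorem sum_AO {A : ℕ} (i : Fin A) (w : ℕ → ℚ) (b : ℚ) :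
    ∑ l : Fin A, w l * (if (i : ℕ) = (l : ℕ) then b else 0) = b * w i := by
  rw [Finset.sum_eq_single i]
  · simp [mul_comm]
  · intro l _ hl
    rw [if_neg (fun h => hl (Fin.ext h.symm)), mul_zero]
  · simp

/-- the difference between a column and its approximation -/
theorem col_congr {c : ℚ} {N K A c0 : ℕ} {p : ℕ} [Fact p.Prime] (hp4 : 4 ≤ p) {S : ℤ[X]} {a : ℤ}
    (hS : SHyp c p S a) (hpN : N < p) (rr : Fin c0 → Row N) (r : Row N)
    (x : Col K A ⊕ Fin c0) :
    val p (Vh c K A rr r x - ((jz (PZ p S a x) (node r) r.2 : ℤ) +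
      ∑ l : Fin A, J c .o (X ^ (l : ℕ)) (node r) r.2 * (AO a x l : ℤ) +
      ∑ j : Fin c0, (if r = rr j then (1 : ℚ) else 0) * (if x = .inr j then 1 else 0))) 1 := by
  have hk : (r.2 : ℕ) < 4 := r.2.2
  have hn1 : node r ≤ N := by
    have := r.1.2
    simp only [node]; omega
  have hn2 : -(N : ℤ) ≤ node r := by
    simp only [node]; omega
  have hzero : ∀ y : Col K A, ∑ j : Fin c0, (if r = rr j then (1 : ℚ) else 0) *
      (if (Sum.inl y : Col K A ⊕ Fin c0) = .inr j then 1 else 0) = 0 := by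
    intro y
    refine Finset.sum_eq_zero fun j _ => ?_
    simp
  rcases x with ⟨β, i⟩ | j
  · rw [hzero]
    have hV : Vh c K A rr r (.inl ⟨β, i⟩) = J c β (X ^ (i : ℕ)) (node r) r.2 := rfl
    rw [hV]
    cases β with
    | z =>
      have h0 : ∑ l : Fin A, J c .o (X ^ (l : ℕ)) (node r) r.2 *
          ((AO a (.inl ⟨.z, i⟩ : Col K A ⊕ Fin c0) l : ℤ) : ℚ) = 0 :=
        Finset.sum_eq_zero fun l _ => by simp [AO]
      rw [h0, J_zB]
      left
      simp [PZ]
    | u =>
      have h0 : ∑ l : Fin A, J c .o (X ^ (l : ℕ)) (node r) r.2 *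
          ((AO a (.inl ⟨.u, i⟩ : Col K A ⊕ Fin c0) l : ℤ) : ℚ) = 0 :=
        Finset.sum_eq_zero fun l _ => by simp [AO]
      rw [h0, add_zero, add_zero]
      exact J_u_congr c hp4 i (node r) hk
    | s =>
      have h0 : ∑ l : Fin A, J c .o (X ^ (l : ℕ)) (node r) r.2 *
          ((AO a (.inl ⟨.s, i⟩ : Col K A ⊕ Fin c0) l : ℤ) : ℚ) =
          -(a : ℚ) * J c .o (X ^ (i : ℕ)) (node r) r.2 := by
        rw [← sum_AO (A := A) i (fun l => J c .o (X ^ l) (node r) r.2)]
        refine Finset.sum_congr rfl fun l _ => ?_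
        simp only [AO]
        push_cast
        rfl
      rw [h0]
      have := J_s_congr hS i (n := node r) (by omega) (by omega) hk
      refine (congrArg (fun x => val p x 1) ?_).mp this
      simp only [PZ]
      ring
    | t =>
      have h0 : ∑ l : Fin A, J c .o (X ^ (l : ℕ)) (node r) r.2 *
          ((AO a (.inl ⟨.t, i⟩ : Col K A ⊕ Fin c0) l : ℤ) : ℚ) =
          (a : ℚ) * J c .o (X ^ (i : ℕ)) (node r) r.2 := by
        rw [← sum_AO (A := A) i (fun l => J c .o (X ^ l) (node r) r.2)]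
        refine Finset.sum_congr rfl fun l _ => ?_
        simp only [AO]
        push_cast
        rfl
      rw [h0]
      have := J_t_congr hS i (n := node r) (by omega) (by omega) hk
      refine (congrArg (fun x => val p x 1) ?_).mp this
      simp only [PZ]
      ring
    | o =>
      have h0 : ∑ l : Fin A, J c .o (X ^ (l : ℕ)) (node r) r.2 *
          ((AO a (.inl ⟨.o, i⟩ : Col K A ⊕ Fin c0) l : ℤ) : ℚ) =
          (1 : ℚ) * J c .o (X ^ (i : ℕ)) (node r) r.2 := by
        rw [← sum_AO (A := A) i (fun l => J c .o (X ^ l) (node r) r.2)]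
        refine Finset.sum_congr rfl fun l _ => ?_
        simp only [AO]
        push_cast
        rfl
      rw [h0]
      left
      simp [PZ, jz]
  · left
    have h0 : ∑ l : Fin A, J c .o (X ^ (l : ℕ)) (node r) r.2 *
        ((AO a (.inr j : Col K A ⊕ Fin c0) l : ℤ) : ℚ) = 0 :=
      Finset.sum_eq_zero fun l _ => by simp [AO]
    have h1 : ∑ j' : Fin c0, (if r = rr j' then (1 : ℚ) else 0) *
        (if (Sum.inr j : Col K A ⊕ Fin c0) = .inr j' then 1 else 0) =
        if r = rr j then (1 : ℚ) else 0 := by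
      rw [Finset.sum_eq_single j]
      · simp
      · intro j' _ hj'
        have : (Sum.inr j : Col K A ⊕ Fin c0) ≠ .inr j' := fun h => hj' (Sum.inr.inj h).symm
        simp [this]
      · simp
    rw [h0, h1]
    have hV : Vh c K A rr r (.inr j) = if r = rr j then (1 : ℚ) else 0 := rfl
    rw [hV]
    simp [PZ, jz]

theorem val_flat_big (c : ℚ) {N K A c0 : ℕ} (rr : Fin c0 → Row N)
    (e : (Col K A ⊕ Fin c0) ≃ Row N) {p : ℕ} (hp : p.Prime) (hp11 : 11 ≤ p) (hpN : N < p)
    (hpc : ¬ p ∣ c.den) (hf : Flat c p) :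
    val p (sdet e (Vh c K A rr)) (min (3 * (A : ℤ)) ((K : ℤ) + 2 * A - p)) := by
  have : Fact p.Prime := ⟨hp⟩
  obtain ⟨S, a, hSd, hS⟩ := exists_S c hp hp11 hpc hf
  have hS' : SHyp c p S a := hS
  rcases Nat.eq_zero_or_pos A with rfl | hA
  · -- no column of the blocks `u, s, t, o`
    have h := val_det (p := p) ((Vh c K 0 rr).submatrix e id) (fun _ => 0) (fun _ => 0) ?_
    · refine h.mono ?_
      simp
    · rintro x (⟨β, i⟩ | j)
      · rw [add_zero]
        show val p (J c β (X ^ (i : ℕ)) (node (e x)) (e x).2) 0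
        cases β with
        | z => rw [J_zB]; exact val.int _
        | u => exact i.elim0
        | s => exact i.elim0
        | t => exact i.elim0
        | o => exact i.elim0
      · rw [add_zero]
        show val p (if e x = rr j then (1 : ℚ) else 0) 0
        split_ifs
        · exact val.one
        · exact val.zero _
  set L := max K (A + p) with hL
  set W : Matrix (Col K A ⊕ Fin c0) (Fin L ⊕ Fin A ⊕ Fin c0) ℚ := fun x y =>
    Sum.elim (fun l : Fin L => ((jz (X ^ (l : ℕ)) (node (e x)) (e x).2 : ℤ) : ℚ))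
      (Sum.elim (fun l : Fin A => J c .o (X ^ (l : ℕ)) (node (e x)) (e x).2)
        (fun j : Fin c0 => if e x = rr j then (1 : ℚ) else 0)) y with hW
  set Q : Matrix (Fin L ⊕ Fin A ⊕ Fin c0) (Col K A ⊕ Fin c0) ℚ := fun y x =>
    Sum.elim (fun l : Fin L => (((PZ p S a x).coeff l : ℤ) : ℚ))
      (Sum.elim (fun l : Fin A => ((AO a x l : ℤ) : ℚ))
        (fun j : Fin c0 => if x = .inr j then (1 : ℚ) else 0)) y with hQ
  have hmain := val_det_of_rank (p := p) ((Vh c K A rr).submatrix e id) W Q ?_ ?_ ?_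
  · refine hmain.mono ?_
    rw [Fintype.card_sum, Fintype.card_sum, Fintype.card_sum, card_col, Fintype.card_fin,
      Fintype.card_fin, Fintype.card_fin]
    push_cast
    rw [hL]
    push_cast
    omega
  · rintro x (l | l | j)
    · exact val.int _
    · simp only [hW, Sum.elim_inl, Sum.elim_inr]
      rw [J_oB]
      split_ifs
      · exact val.int _
      · exact val.zero _
    · simp only [hW, Sum.elim_inr]
      split_ifs
      · exact val.one
      · exact val.zero _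
  · rintro (l | l | j) x
    · exact val.int _
    · exact val.int _
    · simp only [hQ, Sum.elim_inr]
      split_ifs
      · exact val.one
      · exact val.zero _
  · intro x y
    have h := col_congr (by omega) hS' hpN rr (e x) y
    refine (congrArg (fun z => val p z 1) ?_).mp h
    rw [Matrix.submatrix_apply, Matrix.mul_apply, Fintype.sum_sum_type, Fintype.sum_sum_type]
    simp only [hW, hQ, Sum.elim_inl, Sum.elim_inr, id]
    rw [jz_eq_sum (PZ p S a y) (PZ_natDegree (by omega) hSd a y hA)]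
    push_cast
    ring

end MP_a3a416_nt.SJ
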