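import Pool.Agent.Lib.MP_a3a416_nt.SJ.MidLoc

/-! # Section 5b (flat primes `N/2 < p ≤ N`), final statement. -/

open Polynomial

namespace MP_a3a416_nt.SJ.Mid

/-- the polynomial multipliers of the blocks modulo `p`. -/
noncomputable def Rb (p : ℕ) (S : ℤ[X]) (a : ℤ) : Blk → ℤ[X]
  | .z => 1
  | .u => X - X ^ p
  | .s => S
  | .t => S.comp (X - 1) - C a
  | .o => 0

/-- the multipliers of the block `o`. -/
def kap (a : ℤ) : Blk → ℤ
  | .z => 0
  | .u => 0
  | .s => -a
  | .t => a
  | .o => 1

/-- the local differences. -/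
noncomputable def DD (c : ℚ) (p : ℕ) (S : ℤ[X]) (a : ℤ) (β : Blk) (n : ℤ) (j : ℕ) : ℚ :=
  gj c β n j - (((taylor n (Rb p S a β)).coeff j : ℤ) : ℚ) - (kap a β : ℚ) * gj c .o n j

/-- the columns of the blocks `z` and `o`. -/
noncomputable def Mzo (c : ℚ) (N K A : ℕ) : Matrix (Row N) (Fin K ⊕ Fin A) ℚ := fun r x =>
  Sum.elim (fun l : Fin K => J c .z (X ^ (l : ℕ)) (node r) r.2)
    (fun l : Fin A => J c .o (X ^ (l : ℕ)) (node r) r.2) x

/-- the coefficients of the column operations. -/
noncomputable def Qm (p : ℕ) (S : ℤ[X]) (a : ℤ) (K A c0 : ℕ) :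
    Matrix (Fin K ⊕ Fin A) (Col K A ⊕ Fin c0) ℚ := fun k x =>
  Sum.elim (fun y : Col K A => Sum.elim
      (fun l : Fin K => (((X ^ (y.2 : ℕ) * Rb p S a y.1).coeff l : ℤ) : ℚ))
      (fun l : Fin A => if (l : ℕ) = (y.2 : ℕ) then (kap a y.1 : ℚ) else 0) k)
    (fun _ => 0) x

theorem natDegree_Rb {p : ℕ} {S : ℤ[X]} {a : ℤ} (hp : 1 ≤ p) (hS : S.natDegree < p) (β : Blk) :
    (Rb p S a β).natDegree ≤ p := by
  cases β
  · simp [Rb]
  · simp only [Rb]
    refine (natDegree_sub_le _ _).trans (max_le ?_ ?_)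
    · rw [natDegree_X]; exact hp
    · rw [natDegree_X_pow]
  · simp only [Rb]
    omega
  · simp only [Rb]
    refine (natDegree_sub_le _ _).trans (max_le ?_ ?_)
    · rw [natDegree_comp]
      have : (X - 1 : ℤ[X]).natDegree = 1 := by
        have := natDegree_X_sub_C (1 : ℤ)
        simpa using this
      rw [this]
      omega
    · simp
  · simp [Rb]

theorem len_le {K A : ℕ} (hAK : A ≤ K) (β : Blk) (h : β ≠ .z) : len K A β = A := by
  cases β
  · exact absurd rfl h
  all_goals rfl

/-- the matrix `M - Mzo Q`. -/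
theorem entry_diff (c : ℚ) {N K A c0 p : ℕ} {S : ℤ[X]} {a : ℤ} (rr : Fin c0 → Row N)
    (hp : 1 ≤ p) (hS : S.natDegree < p) (hAK : A + p ≤ K) (r : Row N) (y : Col K A) :
    (Vh c K A rr - Mzo c N K A * Qm p S a K A c0) r (Sum.inl y) =
      LL (X ^ (y.2 : ℕ)) (node r) (DD c p S a y.1 (node r)) r.2 := by
  obtain ⟨β, i⟩ := y
  have hdeg : (X ^ (i : ℕ) * Rb p S a β : ℤ[X]).natDegree < K := by
    cases β
    · simp only [Rb, mul_one, natDegree_X_pow]
      exact i.2
    · have h1 := natDegree_Rb (a := a) hp hS Blk.u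
      have h2 : (i : ℕ) < A := i.2
      refine lt_of_le_of_lt natDegree_mul_le ?_
      rw [natDegree_X_pow]
      omega
    · have h1 := natDegree_Rb (a := a) hp hS Blk.s
      have h2 : (i : ℕ) < A := i.2
      refine lt_of_le_of_lt natDegree_mul_le ?_
      rw [natDegree_X_pow]
      omega
    · have h1 := natDegree_Rb (a := a) hp hS Blk.t
      have h2 : (i : ℕ) < A := i.2
      refine lt_of_le_of_lt natDegree_mul_le ?_
      rw [natDegree_X_pow]
      omega
    · simp only [Rb, mul_zero, natDegree_zero]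
      omega
  have hz := sum_J_z c (X ^ (i : ℕ) * Rb p S a β) hdeg (node r) r.2
  have ho : ∑ l : Fin A, J c .o (X ^ (l : ℕ)) (node r) r.2 *
      (if (l : ℕ) = (i : ℕ) then (kap a β : ℚ) else 0) =
      (kap a β : ℚ) * J c .o (X ^ (i : ℕ)) (node r) r.2 := by
    by_cases hβ : β = .z
    · subst hβ
      simp [kap]
    · have hlen : len K A β = A := len_le (by omega) β hβ
      have hi : (i : ℕ) < A := by
        have := i.2
        omega
      rw [Finset.sum_eq_single (⟨(i : ℕ), hi⟩ : Fin A)]
      · simp [mul_comm]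
      · intro l _ hl
        rw [if_neg, mul_zero]
        intro h
        exact hl (Fin.ext h)
      · intro h
        exact absurd (Finset.mem_univ _) h
  have hcoef : (((taylor (node r) (X ^ (i : ℕ) * Rb p S a β)).coeff r.2 : ℤ) : ℚ) =
      LL (X ^ (i : ℕ)) (node r) (fun j => (((taylor (node r) (Rb p S a β)).coeff j : ℤ) : ℚ)) r.2 := by
    rw [← coeff_taylor_map_int, Polynomial.map_mul, Polynomial.map_pow, Polynomial.map_X,
      coeff_taylor_mul]
    simp only [coeff_taylor_map_int]
  rw [Matrix.sub_apply, Matrix.mul_apply, Fintype.sum_sum_type]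
  have e1 : ∑ l : Fin K, Mzo c N K A r (Sum.inl l) * Qm p S a K A c0 (Sum.inl l) (Sum.inl ⟨β, i⟩)
      = ∑ l : Fin K, J c .z (X ^ (l : ℕ)) (node r) r.2 *
          (((X ^ (i : ℕ) * Rb p S a β).coeff l : ℤ) : ℚ) := rfl
  have e2 : ∑ l : Fin A, Mzo c N K A r (Sum.inr l) * Qm p S a K A c0 (Sum.inr l) (Sum.inl ⟨β, i⟩)
      = ∑ l : Fin A, J c .o (X ^ (l : ℕ)) (node r) r.2 *
          (if (l : ℕ) = (i : ℕ) then (kap a β : ℚ) else 0) := rfl
  have e3 : Vh c K A rr r (Sum.inl ⟨β, i⟩) = J c β (X ^ (i : ℕ)) (node r) r.2 := rfl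
  rw [e1, e2, e3, hz, ho, hcoef, J_eq_LL, J_eq_LL]
  have e4 : DD c p S a β (node r) = fun j => gj c β (node r) j -
      (((taylor (node r) (Rb p S a β)).coeff j : ℤ) : ℚ) - (kap a β : ℚ) * gj c .o (node r) j := rfl
  show _ = LL (X ^ (i : ℕ)) (node r) (DD c p S a β (node r)) r.2
  rw [e4, LL_sub, LL_sub, LL_smul]
  ring

theorem entry_diff_unit (c : ℚ) {N K A c0 p : ℕ} {S : ℤ[X]} {a : ℤ} (rr : Fin c0 → Row N)
    (r : Row N) (t : Fin c0) :
    (Vh c K A rr - Mzo c N K A * Qm p S a K A c0) r (Sum.inr t) = if r = rr t then 1 else 0 := by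
  rw [Matrix.sub_apply, Matrix.mul_apply]
  have : ∀ k, Qm p S a K A c0 k (Sum.inr t) = 0 := fun _ => rfl
  simp only [this, mul_zero, Finset.sum_const_zero, sub_zero]
  rfl

section

variable {p : ℕ} [hp : Fact p.Prime]

theorem val_coeff_X_pow (i : ℕ) (n : ℤ) (k : ℕ) : val p ((taylor (n : ℚ) (X ^ i)).coeff k) 0 := by
  have h := coeff_taylor_map_int n (X ^ i) k
  rw [Polynomial.map_pow, Polynomial.map_X] at h
  rw [h]
  exact val.int _

theorem val_LL (i : ℕ) (n : ℤ) (g : ℕ → ℚ) (b : ℤ) (k : ℕ) (hg : ∀ j, j ≤ k → val p (g j) b) :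
    val p (LL (X ^ i) n g k) b := by
  apply val.sum
  intro j hj
  have := (val_coeff_X_pow (p := p) i n j).mul (hg (k - j) (by omega))
  simpa using this

/-- the local differences: a polar part and a part divisible by `p`. -/
theorem DD_val (c : ℚ) {N : ℕ} (hodd : Odd p) (hN : N < 2 * p) (hp11 : 11 ≤ p)
    {S : ℤ[X]} {a : ℤ}
    (hS : ∀ (n : ℤ) (k : ℕ), k < 4 →
      val p (((taylor n S).coeff k : ℤ) - (if k = 0 ∧ Odd n then (a : ℚ) else 0) - gst c p n k) 1)
    (β : Blk) (n : ℤ) (h1 : -(N : ℤ) ≤ n) (h2 : n ≤ N) :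
    ∃ (θ : ℚ) (err : ℕ → ℚ), (θ = 0 ∨ θ = 1) ∧ (∀ k, k < 4 → val p (err k) 1) ∧
      ∀ k, k < 4 → DD c p S a β n k = (if InO p n then θ * pol p (sg n) k else 0) + err k := by
  have hp' : ((p : ℕ) : ℤ) % 2 = 1 := by
    obtain ⟨m, hm⟩ := hodd
    omega
  cases β
  · refine ⟨0, fun _ => 0, Or.inl rfl, fun _ _ => val.zero _, fun k _ => ?_⟩
    have e1 : ((taylor n (1 : ℤ[X])).coeff k) = if k = 0 then 1 else 0 := by
      rw [taylor_one, coeff_C]
    simp only [DD, Rb, kap, gj, e1]
    split_ifs <;> simp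
  · refine ⟨0, fun k => DD c p S a .u n k, Or.inl rfl, fun k hk => ?_, fun k _ => by simp⟩
    have e1 : taylor n (X - X ^ p : ℤ[X]) = (X + C n) - (X + C n) ^ p := by
      rw [taylor_apply]; simp
    simp only [DD, Rb, kap, gj, Int.cast_zero, zero_mul, sub_zero, e1]
    have e2 : ((if k = 1 then (1 : ℚ) else 0) - ((((X + C n) - (X + C n) ^ p).coeff k : ℤ) : ℚ)) =
        (((if k = 1 then (1 : ℤ) else 0) - ((X + C n) - (X + C n) ^ p).coeff k : ℤ) : ℚ) := by
      push_cast
      split_ifs <;> simp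
    rw [e2]
    have e3 : (p : ℤ) ^ 1 ∣ ((if k = 1 then (1 : ℤ) else 0) -
        ((X + C n) - (X + C n) ^ p).coeff k) := by
      rw [pow_one, coeff_sub, coeff_X_add_C_pow, coeff_add, coeff_X, coeff_C]
      rcases Nat.eq_zero_or_pos k with h0 | h0
      · subst h0
        simp only [Nat.sub_zero, Nat.choose_zero_right, Nat.cast_one, mul_one]
        have h3 : (p : ℤ) ∣ n ^ p - n := by
          rw [← ZMod.intCast_zmod_eq_zero_iff_dvd]
          push_cast
          rw [ZMod.pow_card, sub_self]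
        convert h3 using 1
        simp
      · have h3 : (p : ℤ) ∣ ((p.choose k : ℕ) : ℤ) := by
          exact_mod_cast hp.out.dvd_choose_self (by omega) (by omega)
        have h4 : ((if k = 1 then (1 : ℤ) else 0) -
            ((if (1 : ℕ) = k then (1 : ℤ) else 0) + (if k = 0 then n else 0) -
              n ^ (p - k) * ((p.choose k : ℕ) : ℤ))) = n ^ (p - k) * ((p.choose k : ℕ) : ℤ) := by
          rw [if_neg (show ¬ k = 0 by omega)]
          by_cases hk1 : k = 1
          · simp [hk1]
          · rw [if_neg hk1, if_neg (fun h => hk1 h.symm)]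
            ring
        rw [h4]
        exact Dvd.dvd.mul_left h3 _
    exact_mod_cast val.of_dvd e3
  · refine ⟨if Odd n then 1 else 0, fun k => -(((taylor n S).coeff k : ℤ) -
      (if k = 0 ∧ Odd n then (a : ℚ) else 0) - gst c p n k), by split_ifs <;> simp,
      fun k hk => (hS n k hk).neg, fun k hk => ?_⟩
    have h3 := gs_sub_gst c hodd n (by omega) (by omega) k
    simp only [DD, Rb, kap, gj]
    have h4 : gs c n k = gst c p n k + (if InO p n ∧ Odd n then pol p (sg n) k else 0) := by
      linear_combination h3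
    rw [h4]
    by_cases ho : Odd n
    · by_cases hI : InO p n
      · simp only [ho, hI, and_self, if_true, and_true]
        push_cast
        split_ifs <;> ring
      · simp only [ho, hI, false_and, if_false, and_true]
        push_cast
        split_ifs <;> ring
    · simp only [ho, and_false, if_false, ite_self]
      push_cast
      split_ifs <;> ring
  · have hodd' : Odd (n - 1) ↔ ¬ Odd n := by
      rw [Int.odd_sub]
      simp
    refine ⟨if Odd (n - 1) then (if InO p (n - 1) then 1 else 0) else 0,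
      fun k => -(((taylor (n - 1) S).coeff k : ℤ) -
      (if k = 0 ∧ Odd (n - 1) then (a : ℚ) else 0) - gst c p (n - 1) k), by split_ifs <;> simp,
      fun k hk => (hS (n - 1) k hk).neg, fun k hk => ?_⟩
    have h3 := gs_sub_gst c hodd (n - 1) (by omega) (by omega) k
    have h4 : gs c (n - 1) k = gst c p (n - 1) k +
        (if InO p (n - 1) ∧ Odd (n - 1) then pol p (sg (n - 1)) k else 0) := by
      linear_combination h3
    have e1 : taylor n (S.comp (X - 1) - C a) = taylor (n - 1) S - C a := by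
      rw [map_sub, taylor_C, taylor_apply, taylor_apply, comp_assoc]
      congr 2
      simp only [sub_comp, X_comp, one_comp, C_sub, map_one]
      ring
    have e2 : (if InO p (n - 1) ∧ Odd (n - 1) then pol p (sg (n - 1)) k else 0) =
        (if InO p n then (if Odd (n - 1) then (if InO p (n - 1) then (1 : ℚ) else 0) else 0) *
          pol p (sg n) k else 0) := by
      by_cases ho : Odd (n - 1)
      · have ho' : (n - 1) % 2 = 1 := Int.odd_iff.1 ho
        by_cases hI : InO p (n - 1)
        · have hI2 : InO p n := by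
            rcases hI with h | h
            · left; omega
            · right; omega
          have hsg : sg (n - 1) = sg n := by
            unfold sg
            rcases hI with h | h
            · rw [if_pos (by omega), if_pos (by omega)]
            · rw [if_neg (by omega), if_neg (by omega)]
          simp only [hI, hI2, ho, and_self, if_true, hsg, one_mul]
        · simp only [hI, ho, and_true, if_false, if_true, zero_mul, ite_self]
      · simp only [ho, and_false, if_false, zero_mul, ite_self]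
    simp only [DD, Rb, kap, gj, e1, coeff_sub, coeff_C]
    rw [h4, e2]
    by_cases hk0 : k = 0
    · subst hk0
      by_cases ho : Odd n
      · have ho1 : ¬ Odd (n - 1) := by rw [hodd']; exact not_not.2 ho
        simp only [ho, ho1, and_self, if_true, if_false, and_false]
        push_cast
        ring
      · have ho1 : Odd (n - 1) := by rw [hodd']; exact ho
        simp only [ho, ho1, and_self, if_true, if_false, and_false]
        push_cast
        ring
    · simp only [hk0, false_and, if_false]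
      push_cast
      ring
  · refine ⟨0, fun _ => 0, Or.inl rfl, fun _ _ => val.zero _, fun k _ => ?_⟩
    simp [DD, Rb, kap, gj]

/-- the row potentials. -/
def apot (p : ℕ) {N : ℕ} (r : Row N) : ℤ := if InO p (node r) then ((r.2 : ℕ) : ℤ) - 2 else 0

/-- the column potentials. -/
def bpot {K A c0 : ℕ} (x : Col K A ⊕ Fin c0) : ℤ := Sum.elim (fun _ => 1) (fun _ => 0) x

theorem val_B_int {N : ℕ} {κ : Type*} (M : Matrix (Row N) κ ℚ) (x : κ) (a : ℤ)
    (hM : ∀ r, val p (M r x) a) (r : Row N) :
    val p ((Bop p N * M) r x) (apot p r + a) := by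
  rw [Bop_mul]
  unfold Bn apot
  split_ifs with h
  · have := val_row_int (p := p) (sg (node r)) (val_sg _) (fun j => M (r.1, j) x) a
      (fun j => hM _) r.2
    refine this.mono ?_
    omega
  · rw [Finset.sum_eq_single r.2]
    · rw [Matrix.one_apply_eq, one_mul, zero_add]
      exact hM _
    · intro j _ hj
      rw [Matrix.one_apply_ne (fun h => hj h.symm), zero_mul]
    · intro h
      exact absurd (Finset.mem_univ _) h

theorem val_B_diff (c : ℚ) {N K A c0 : ℕ} (hodd : Odd p) (hN : N < 2 * p) (hp11 : 11 ≤ p)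
    {S : ℤ[X]} {a : ℤ} (hSd : S.natDegree < p) (hAK : A + p ≤ K)
    (hS : ∀ (n : ℤ) (k : ℕ), k < 4 →
      val p (((taylor n S).coeff k : ℤ) - (if k = 0 ∧ Odd n then (a : ℚ) else 0) - gst c p n k) 1)
    (rr : Fin c0 → Row N) (r : Row N) (y : Col K A) :
    val p ((Bop p N * (Vh c K A rr - Mzo c N K A * Qm p S a K A c0)) r (Sum.inl y))
      (apot p r + 1) := by
  have hnode : ∀ j : Fin 4, node (r.1, j) = node r := fun _ => rfl
  have hn1 : -(N : ℤ) ≤ node r := by
    unfold node
    have := r.1.2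
    omega
  have hn2 : node r ≤ N := by
    unfold node
    have := r.1.2
    omega
  obtain ⟨θ, err, hθ, herr, hD⟩ := DD_val c hodd hN hp11 hS y.1 (node r) hn1 hn2
  have hent : ∀ j : Fin 4, (Vh c K A rr - Mzo c N K A * Qm p S a K A c0) (r.1, j) (Sum.inl y) =
      LL (X ^ (y.2 : ℕ)) (node r) (fun k => if InO p (node r) then θ * pol p (sg (node r)) k else 0) j
        + LL (X ^ (y.2 : ℕ)) (node r) err j := by
    intro j
    rw [entry_diff c rr (by omega) hSd hAK, ← LL_add]
    show LL _ (node r) _ _ = _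
    unfold LL
    apply Finset.sum_congr rfl
    intro i _
    have h5 := hD ((j : ℕ) - i) (by omega)
    show (taylor (node r : ℚ) (X ^ (y.2 : ℕ))).coeff i * DD c p S a y.1 (node r) ((j : ℕ) - i) = _
    rw [h5]
  rw [Bop_mul]
  simp only [hent, mul_add, Finset.sum_add_distrib]
  apply val.add
  · by_cases hI : InO p (node r)
    · simp only [Bn, hI, if_true]
      have e1 : ∑ j : Fin 4, Bmat p (sg (node r)) r.2 j *
          LL (X ^ (y.2 : ℕ)) (node r) (fun k => θ * pol p (sg (node r)) k) j =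
          θ * ((p : ℚ) ^ (((r.2 : ℕ) : ℤ)) * (p : ℚ) ^ (-1 : ℤ) *
            (taylor (node r : ℚ) (X ^ (y.2 : ℕ))).coeff r.2) := by
        rw [← row_pol hp.out.ne_zero (sg (node r)) (sg_mul_self _)
          (fun i => (taylor (node r : ℚ) (X ^ (y.2 : ℕ))).coeff i) r.2, Finset.mul_sum]
        apply Finset.sum_congr rfl
        intro j _
        rw [LL_smul]
        unfold LL
        ring
      rw [e1]
      have h1 := ((val.p_zpow (p := p) ((r.2 : ℕ) : ℤ)).mul (val.p_zpow (p := p) (-1 : ℤ))).mul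
        (val_coeff_X_pow (p := p) (y.2 : ℕ) (node r) r.2)
      have h2 : val p θ 0 := by
        rcases hθ with h | h
        · rw [h]; exact val.zero _
        · rw [h]; exact val.one
      refine (h2.mul h1).mono ?_
      unfold apot
      rw [if_pos hI]
      omega
    · simp only [hI, if_false, LL_zero, mul_zero, Finset.sum_const_zero]
      exact val.zero _
  · have hR : ∀ j : Fin 4, val p (LL (X ^ (y.2 : ℕ)) (node r) err j) 1 := by
      intro j
      apply val_LL
      intro k hk
      exact herr k (by omega)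
    unfold Bn apot
    split_ifs with h
    · have := val_row_int (p := p) (sg (node r)) (val_sg _)
        (fun j : Fin 4 => LL (X ^ (y.2 : ℕ)) (node r) err j) 1 hR r.2
      refine this.mono ?_
      omega
    · rw [Finset.sum_eq_single r.2]
      · rw [Matrix.one_apply_eq, one_mul, zero_add]
        exact hR _
      · intro j _ hj
        rw [Matrix.one_apply_ne (fun h => hj h.symm), zero_mul]
      · intro h
        exact absurd (Finset.mem_univ _) h

theorem sum_apot {N : ℕ} (hpN : p ≤ N) : ∑ r : Row N, apot p r = -2 * (2 * ((N : ℤ) - p) + 1) := by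
  rw [Fintype.sum_prod_type]
  have h1 : ∀ i : Fin (2 * N + 1), ∑ j : Fin 4, apot p ((i, j) : Row N) =
      if InO p (((i : ℕ) : ℤ) - N) then -2 else 0 := by
    intro i
    simp only [apot, node]
    split_ifs with h
    · simp [Fin.sum_univ_succ]
    · simp
  simp only [h1]
  rw [← Finset.sum_filter, Finset.sum_const, card_InO hpN]
  push_cast
  rw [nsmul_eq_mul]
  push_cast [Nat.cast_sub hpN]
  ring

theorem val_Q (S : ℤ[X]) (a : ℤ) {K A c0 : ℕ} (k : Fin K ⊕ Fin A) (x : Col K A ⊕ Fin c0) :
    val p (Qm p S a K A c0 k x) (-1 + bpot x) := by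
  rcases x with y | t
  · have h0 : (-1 + bpot (Sum.inl y : Col K A ⊕ Fin c0)) = 0 := rfl
    rw [h0]
    rcases k with l | l
    · exact val.int _
    · show val p (if (l : ℕ) = (y.2 : ℕ) then (kap a y.1 : ℚ) else 0) 0
      split_ifs
      · exact val.int _
      · exact val.zero _
  · exact val.zero _

theorem val_Mzo (c : ℚ) {N K A : ℕ} (k : Fin K ⊕ Fin A) (r : Row N) :
    val p (Mzo c N K A r k) 0 := by
  rcases k with l | l
  · show val p (J c .z (X ^ (l : ℕ)) (node r) r.2) 0
    rw [J_z]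
    exact val_coeff_X_pow _ _ _
  · show val p (J c .o (X ^ (l : ℕ)) (node r) r.2) 0
    rw [J_eq_LL]
    apply val_LL
    intro j _
    simp only [gj]
    split_ifs
    · exact val.one
    · exact val.zero _

end

end MP_a3a416_nt.SJ.Mid

namespace MP_a3a416_nt.SJ

open Mid

theorem val_flat_mid (c : ℚ) {N K A c0 : ℕ} (rr : Fin c0 → Row N)
    (e : (Col K A ⊕ Fin c0) ≃ Row N) {p : ℕ} (hp : p.Prime) (hp11 : 11 ≤ p) (hpN : p ≤ N)
    (hp2 : N < 2 * p) (hAK : A + p ≤ K) (hpc : ¬ p ∣ c.den) (hf : Flat c p) :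
    val p (sdet e (Vh c K A rr)) (3 * (A : ℤ) - 8 * (2 * ((N : ℤ) - p) + 1)) := by
  have : Fact p.Prime := ⟨hp⟩
  have hodd : Odd p := hp.odd_of_ne_two (by omega)
  obtain ⟨S, a, hSd, hS⟩ := exists_S c hp hp11 hpc hf
  have hM : val p (sdet e (Bop p N * Vh c K A rr))
      (∑ r : Row N, apot p r + ∑ x : Col K A ⊕ Fin c0, bpot x +
        (∑ _k : Fin K ⊕ Fin A, (0 : ℤ) + ∑ _k : Fin K ⊕ Fin A, (-1 : ℤ))) := by
    apply val_sdet_blocks e (Bop p N * Vh c K A rr) (Bop p N * Mzo c N K A)
      (Qm p S a K A c0) (fun r => apot p r) bpot (fun _ => 0) (fun _ => -1)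
    · intro r k
      exact val_B_int _ k 0 (fun r => val_Mzo c k r) r
    · intro k x
      exact val_Q S a k x
    · intro k
      norm_num
    · intro r x
      have e1 : (Bop p N * Vh c K A rr) r x - (Bop p N * Mzo c N K A * Qm p S a K A c0) r x =
          (Bop p N * (Vh c K A rr - Mzo c N K A * Qm p S a K A c0)) r x := by
        rw [Matrix.mul_sub, Matrix.sub_apply, Matrix.mul_assoc]
      rw [e1]
      rcases x with y | t
      · exact val_B_diff c hodd hp2 hp11 hSd hAK hS rr r y
      · refine val_B_int _ (Sum.inr t) 0 (fun r => ?_) r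
        rw [entry_diff_unit]
        split_ifs
        · exact val.one
        · exact val.zero _
  rw [sdet_mul_left] at hM
  have hdet : (Bop p N).det = (p : ℚ) ^ (6 * (2 * (N - p) + 1)) := by
    rw [det_Bop, ← Finset.prod_filter, Finset.prod_const, card_InO hpN, ← pow_mul]
  have hsum : (∑ r : Row N, apot p r + ∑ x : Col K A ⊕ Fin c0, bpot x +
        (∑ _k : Fin K ⊕ Fin A, (0 : ℤ) + ∑ _k : Fin K ⊕ Fin A, (-1 : ℤ))) =
      3 * (A : ℤ) - 2 * (2 * ((N : ℤ) - p) + 1) := by
    rw [sum_apot hpN, Fintype.sum_sum_type]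
    simp only [bpot, Sum.elim_inl, Sum.elim_inr, Finset.sum_const_zero, Finset.sum_const,
      Finset.card_univ, card_col, Fintype.card_sum, Fintype.card_fin, nsmul_eq_mul]
    push_cast
    ring
  rw [hsum] at hM
  by_cases h0 : sdet e (Vh c K A rr) = 0
  · exact Or.inl h0
  right
  have hp0 : (p : ℚ) ≠ 0 := by exact_mod_cast hp.ne_zero
  have hB0 : (Bop p N).det ≠ 0 := by
    rw [hdet]
    exact pow_ne_zero _ hp0
  have h1 := hM.le_of_ne (mul_ne_zero hB0 h0)
  rw [padicValRat.mul hB0 h0, hdet, padicValRat.pow, padicValRat.self hp.one_lt] at h1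
  push_cast [Nat.cast_sub hpN] at h1
  linarith

end MP_a3a416_nt.SJ
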