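import Pool.Agent.Lib.MP_a3a416_nt.SJ.QCoef
import Pool.Agent.Lib.MP_a3a416_nt.SJ.SDet
import Pool.Agent.Lib.MP_a3a416_nt.SJ.ColChange

/-! # Section 3 (every prime), final statements. -/

open Polynomial Finset

namespace MP_a3a416_nt.SJ

namespace Gen

/-- column potentials. -/
def bG (p : ℕ) (c : ℚ) (N K : ℕ) : Blk → ℕ → ℤ
  | .z, i => (padicValNat p i.factorial : ℤ)
  | .u, i => (padicValNat p i.factorial : ℤ) + (Nat.log p K : ℤ)
  | .s, i => (padicValNat p i.factorial : ℤ) - (Nat.log p N : ℤ) - (padicValNat p (8 * c.den) : ℤ)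
  | .t, i => (padicValNat p i.factorial : ℤ) - (Nat.log p N : ℤ) - (padicValNat p (8 * c.den) : ℤ)
  | .o, i => (padicValNat p i.factorial : ℤ)

theorem node_bd {N : ℕ} (ρ : Row N) : -(N : ℤ) ≤ node ρ ∧ node ρ ≤ N := by
  have h := ρ.1.2
  unfold node
  omega

theorem sum_row (N : ℕ) : ∑ ρ : Row N, (((ρ.2 : ℕ) : ℤ)) = 6 * (2 * N + 1) := by
  rw [Fintype.sum_prod_type]
  simp only [Fin.sum_univ_four]
  simp
  ring

theorem val_entry {p : ℕ} [hp : Fact p.Prime] (c : ℚ) {N K A c0 : ℕ} (hNK : N ≤ K) (hAK : A ≤ K)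
    (rr : Fin c0 → Row N) (ρ : Row N) (x : Col K A ⊕ Fin c0) :
    val p (VP c K A (fun _ i => qf i) rr ρ x) (-((ρ.2 : ℕ) * (Nat.log p K : ℤ))
      + Sum.elim (fun w : Col K A => bG p c N K w.1 w.2) (fun _ => 0) x) := by
  obtain ⟨hn1, hn2⟩ := node_bd ρ
  rcases x with w | w
  · obtain ⟨β, i⟩ := w
    show val p (J c β (qf i) (node ρ) ρ.2) (-((ρ.2 : ℕ) * (Nat.log p K : ℤ)) + bG p c N K β i)
    have hi : (i : ℕ) ≤ K := by
      refine le_trans (le_of_lt i.2) ?_
      cases β
      · exact le_rfl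
      all_goals exact hAK
    cases β with
    | z =>
      rw [J_z]
      refine (val_taylor_qf (p := p) (node ρ) hi ρ.2).mono ?_
      simp only [bG]
      linarith
    | o =>
      rw [J_o]
      split_ifs
      · refine (val_taylor_qf (p := p) (node ρ) hi ρ.2).mono ?_
        simp only [bG]
        linarith
      · exact val.zero _
    | u =>
      exact val_J_u (p := p) c (node ρ) hi ρ.2
    | s =>
      exact val_J_s (p := p) c hn1 hn2 hNK hi ρ.2
    | t =>
      exact val_J_t (p := p) c hn1 hn2 hNK hi ρ.2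
  · show val p (if ρ = rr w then (1 : ℚ) else 0) _
    have hL : (0 : ℤ) ≤ ((ρ.2 : ℕ) : ℤ) * (Nat.log p K : ℤ) := by positivity
    split_ifs
    · refine (val.one (p := p)).mono ?_
      simp only [Sum.elim_inr]
      linarith
    · exact val.zero _

theorem sum_bG (p : ℕ) (c : ℚ) (N K A c0 : ℕ) :
    ∑ x : Col K A ⊕ Fin c0, Sum.elim (fun w : Col K A => bG p c N K w.1 w.2) (fun _ => 0) x
      = ∑ i ∈ range K, (padicValNat p i.factorial : ℤ)
        + 4 * ∑ i ∈ range A, (padicValNat p i.factorial : ℤ) + A * (Nat.log p K : ℤ)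
        - 2 * A * (Nat.log p N : ℤ) - 2 * A * (padicValNat p (8 * c.den) : ℤ) := by
  rw [Fintype.sum_sum_type, Fintype.sum_sigma, sum_blk]
  simp only [Sum.elim_inl, Sum.elim_inr, Finset.sum_const_zero, add_zero]
  have hz : ∑ i : Fin (len K A .z), bG p c N K .z i
      = ∑ i ∈ range K, (padicValNat p i.factorial : ℤ) := by
    show ∑ i : Fin K, bG p c N K .z i = _
    rw [← Finset.sum_range (fun i => bG p c N K .z i)]
    rfl
  have ho : ∑ i : Fin (len K A .o), bG p c N K .o i
      = ∑ i ∈ range A, (padicValNat p i.factorial : ℤ) := by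
    show ∑ i : Fin A, bG p c N K .o i = _
    rw [← Finset.sum_range (fun i => bG p c N K .o i)]
    rfl
  have hu : ∑ i : Fin (len K A .u), bG p c N K .u i
      = ∑ i ∈ range A, (padicValNat p i.factorial : ℤ) + A * (Nat.log p K : ℤ) := by
    show ∑ i : Fin A, bG p c N K .u i = _
    rw [← Finset.sum_range (fun i => bG p c N K .u i)]
    simp only [bG, Finset.sum_add_distrib]
    simp
  have hs : ∑ i : Fin (len K A .s), bG p c N K .s i
      = ∑ i ∈ range A, (padicValNat p i.factorial : ℤ) - A * (Nat.log p N : ℤ)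
        - A * (padicValNat p (8 * c.den) : ℤ) := by
    show ∑ i : Fin A, bG p c N K .s i = _
    rw [← Finset.sum_range (fun i => bG p c N K .s i)]
    simp only [bG, Finset.sum_sub_distrib]
    simp
  have ht : ∑ i : Fin (len K A .t), bG p c N K .t i
      = ∑ i ∈ range A, (padicValNat p i.factorial : ℤ) - A * (Nat.log p N : ℤ)
        - A * (padicValNat p (8 * c.den) : ℤ) := by
    show ∑ i : Fin A, bG p c N K .t i = _
    rw [← Finset.sum_range (fun i => bG p c N K .t i)]
    simp only [bG, Finset.sum_sub_distrib]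
    simp
  rw [hz, ho, hu, hs, ht]
  ring

end Gen

open Gen

theorem val_gen (c : ℚ) {N K A c0 : ℕ} (rr : Fin c0 → Row N) (e : (Col K A ⊕ Fin c0) ≃ Row N)
    {p : ℕ} (hp : p.Prime) (_hN : 1 ≤ N) (hNK : N ≤ K) (hAK : A ≤ K) :
    val p (sdet e (Vh c K A rr))
      (∑ i ∈ Finset.range K, (padicValNat p i.factorial : ℤ)
        + 4 * ∑ i ∈ Finset.range A, (padicValNat p i.factorial : ℤ)
        + A * (Nat.log p K : ℤ) - 2 * A * (Nat.log p N : ℤ)
        - 6 * (2 * N + 1) * (Nat.log p K : ℤ)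
        - 2 * A * (padicValNat p (8 * c.den) : ℤ)) := by
  have : Fact p.Prime := ⟨hp⟩
  rw [← sdet_VP_eq c rr e (fun _ i => qf i) (fun _ i => qf_monic i)]
  refine (val_sdet (p := p) e (VP c K A (fun _ i => qf i) rr)
    (fun ρ => -((ρ.2 : ℕ) * (Nat.log p K : ℤ)))
    (fun x => Sum.elim (fun w : Col K A => bG p c N K w.1 w.2) (fun _ => 0) x)
    (fun ρ x => val_entry c hNK hAK rr ρ x)).mono (le_of_eq ?_)
  rw [sum_bG, Finset.sum_neg_distrib, ← Finset.sum_mul, sum_row]
  ring

theorem val_large (c : ℚ) {N K A c0 : ℕ} (rr : Fin c0 → Row N) (e : (Col K A ⊕ Fin c0) ≃ Row N)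
    {p : ℕ} (hp : p.Prime) (_hp2 : p ≠ 2) (hpN : N < p) :
    val p (sdet e (Vh c K A rr)) (-(2 * A * (padicValNat p (8 * c.den) : ℤ))) := by
  have : Fact p.Prime := ⟨hp⟩
  set w : ℤ := (padicValNat p (8 * c.den) : ℤ) with hw
  have hw0 : 0 ≤ w := by positivity
  have hlog : Nat.log p N = 0 := Nat.log_of_lt hpN
  have hint : ∀ (n : ℤ) (i k : ℕ), val p ((taylor (n : ℚ) ((X : ℚ[X]) ^ i)).coeff k) 0 := by
    intro n i k
    have h1 : taylor (n : ℚ) ((X : ℚ[X]) ^ i) = ((taylor n ((X : ℤ[X]) ^ i)).map (Int.castRingHom ℚ)) := by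
      rw [taylor_apply, taylor_apply]
      simp
    rw [h1, coeff_map]
    exact val.int _
  have hgs : ∀ (n : ℤ) (j : ℕ), -(N : ℤ) - 1 ≤ n → n ≤ N → val p (gs c n j) (-w) := by
    intro n j h1 h2
    refine (val_gs (p := p) c h1 h2 j).mono ?_
    rw [hlog]
    simp [hw]
  have h := val_sdet (p := p) e (Vh c K A rr) (fun _ => 0)
    (fun x => Sum.elim (fun w' : Col K A => if w'.1 = .s ∨ w'.1 = .t then -w else 0) (fun _ => 0) x)
    (fun ρ x => by
      obtain ⟨hn1, hn2⟩ := node_bd ρ
      rcases x with x | x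
      · obtain ⟨β, i⟩ := x
        show val p (J c β (X ^ (i : ℕ)) (node ρ) ρ.2) (0 + if β = .s ∨ β = .t then -w else 0)
        cases β with
        | z =>
          rw [J_z, if_neg (by decide), add_zero]
          exact hint (node ρ) i ρ.2
        | o =>
          rw [J_o, if_neg (by decide : ¬ (Blk.o = .s ∨ Blk.o = .t)), add_zero]
          split_ifs
          · exact hint (node ρ) i ρ.2
          · exact val.zero _
        | u =>
          rw [J_u, if_neg (by decide : ¬ (Blk.u = .s ∨ Blk.u = .t)), add_zero]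
          split_ifs
          · exact val.zero _
          · exact hint (node ρ) i (ρ.2 - 1)
        | s =>
          rw [J_eq_sum]
          apply val.sum
          intro l _
          refine ((hint (node ρ) i l).mul (hgs (node ρ) _ (by omega) (by omega))).mono ?_
          simp
        | t =>
          rw [J_eq_sum]
          apply val.sum
          intro l _
          refine ((hint (node ρ) i l).mul (hgs (node ρ - 1) _ (by omega) (by omega))).mono ?_
          simp
      · show val p (if ρ = rr x then (1 : ℚ) else 0) _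
        split_ifs
        · simpa using (val.one (p := p))
        · exact val.zero _)
  refine h.mono (le_of_eq ?_)
  rw [Fintype.sum_sum_type, Fintype.sum_sigma, sum_blk]
  simp only [Sum.elim_inl, Sum.elim_inr, Finset.sum_const_zero, add_zero]
  have e1 : ∀ v : ℤ, ∑ _i : Fin (len K A .s), v = A * v := by
    intro v
    show ∑ _i : Fin A, v = _
    simp
  have e2 : ∀ v : ℤ, ∑ _i : Fin (len K A .t), v = A * v := by
    intro v
    show ∑ _i : Fin A, v = _
    simp
  simp only [e1, e2]
  simp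
  ring

end MP_a3a416_nt.SJ
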