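import Pool.Agent.Lib.MP_a3a416_nt.SJ.TwoPoly
import Pool.Agent.Lib.MP_a3a416_nt.SJ.SDet
import Pool.Agent.Lib.MP_a3a416_nt.SJ.ColChange

/-! # Section 4 (p = 2, merging of the blocks `1` and `1_odd`), final statement. -/

open Polynomial Finset

namespace MP_a3a416_nt.SJ

namespace Two

/-- monomials in the blocks `1`, `1_odd`, falling factorials in the others. -/
noncomputable def PT (β : Blk) (i : ℕ) : ℚ[X] := if β = .z ∨ β = .o then X ^ i else qf i

theorem PT_monic (β : Blk) (i : ℕ) : (PT β i).Monic ∧ (PT β i).natDegree = i := by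
  unfold PT
  split_ifs
  · exact ⟨monic_X_pow i, natDegree_X_pow i⟩
  · exact qf_monic i

/-- the vectors `Y_{E,j}`, `Y_{O,j}`. -/
noncomputable def YT (N K : ℕ) : Matrix (Row N) (Bool × Fin K) ℚ := fun ρ y =>
  if y.1 then (if Even (node ρ) then (taylor ((node ρ : ℤ) : ℚ) (EQ 0 y.2)).coeff ρ.2 else 0)
  else (if Odd (node ρ) then (taylor ((node ρ : ℤ) : ℚ) (EQ 1 y.2)).coeff ρ.2 else 0)

/-- the coefficients. -/
noncomputable def qT (K A c0 : ℕ) (y : Bool × Fin K) (x : Col K A ⊕ Fin c0) : ℚ :=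
  Sum.elim (fun w => if y.1 then (if w.1 = .z then ((aZ 0 w.2 y.2 : ℤ) : ℚ) else 0)
    else ((aZ 1 w.2 y.2 : ℤ) : ℚ)) (fun _ => 0) x

/-- the columns of the blocks `1`, `1_odd`. -/
def JT (K A c0 : ℕ) : Finset (Col K A ⊕ Fin c0) :=
  univ.filter (fun x => Sum.elim (fun w : Col K A => decide (w.1 = .z ∨ w.1 = .o)) (fun _ => false) x = true)

/-- column potentials. -/
def bT (c : ℚ) (N K : ℕ) : Blk → ℕ → ℤ
  | .z, _ => 0
  | .u, i => (padicValNat 2 i.factorial : ℤ) + (Nat.log 2 K : ℤ)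
  | .s, i => (padicValNat 2 i.factorial : ℤ) - (Nat.log 2 N : ℤ) - (padicValNat 2 (8 * c.den) : ℤ)
  | .t, i => (padicValNat 2 i.factorial : ℤ) - (Nat.log 2 N : ℤ) - (padicValNat 2 (8 * c.den) : ℤ)
  | .o, _ => 0

end Two

open Two

theorem node_bounds {N : ℕ} (ρ : Row N) : -(N : ℤ) ≤ node ρ ∧ node ρ ≤ N := by
  have h := ρ.1.2
  unfold node
  omega

theorem val_YT {N K : ℕ} (ρ : Row N) (y : Bool × Fin K) :
    val 2 (YT N K ρ y) (-((ρ.2 : ℕ) * ((Nat.log 2 K : ℤ) + 1))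
      + (((y.2 : ℕ) : ℤ) + (padicValNat 2 (y.2 : ℕ).factorial : ℤ))) := by
  unfold YT
  split_ifs with h1 h2 h2
  · obtain ⟨m, hm⟩ := h2
    have h3 : node ρ = 0 + 2 * m := by omega
    rw [h3]
    exact val_taylor_EQ 0 m y.2.2.le ρ.2
  · exact val.zero _
  · obtain ⟨m, hm⟩ := h2
    have h3 : node ρ = 1 + 2 * m := by omega
    rw [h3]
    exact val_taylor_EQ 1 m y.2.2.le ρ.2
  · exact val.zero _

theorem merge_eq (c : ℚ) {N K A c0 : ℕ} (hAK : A ≤ K) (rr : Fin c0 → Row N) (ρ : Row N)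
    (x : Col K A ⊕ Fin c0) (hx : x ∈ JT K A c0) :
    VP c K A PT rr ρ x = ∑ y, YT N K ρ y * qT K A c0 y x := by
  rcases x with w | w
  swap
  · simp [JT] at hx
  obtain ⟨β, i⟩ := w
  have hβ : β = .z ∨ β = .o := by simpa [JT] using hx
  have hi : (i : ℕ) < K := by
    have := i.2
    rcases hβ with rfl | rfl
    · exact this
    · exact lt_of_lt_of_le this hAK
  have hP : PT β i = X ^ (i : ℕ) := by rw [PT, if_pos hβ]
  have hexp : ∀ r : ℤ, (taylor ((node ρ : ℤ) : ℚ) ((X : ℚ[X]) ^ (i : ℕ))).coeff ρ.2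
      = ∑ j : Fin K, (taylor ((node ρ : ℤ) : ℚ) (EQ r j)).coeff ρ.2 * ((aZ r i j : ℤ) : ℚ) := by
    intro r
    rw [X_pow_eq r hi, map_sum, finsetSum_coeff, Finset.sum_range]
    refine Finset.sum_congr rfl fun j _ => ?_
    rw [taylor_mul, taylor_C, coeff_C_mul, mul_comm]
  have hsum : ∑ y : Bool × Fin K, YT N K ρ y * qT K A c0 y (Sum.inl ⟨β, i⟩)
      = (∑ j : Fin K, YT N K ρ (true, j) * qT K A c0 (true, j) (Sum.inl ⟨β, i⟩))
        + ∑ j : Fin K, YT N K ρ (false, j) * qT K A c0 (false, j) (Sum.inl ⟨β, i⟩) := by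
    rw [Fintype.sum_prod_type, Fintype.sum_bool]
  rw [hsum]
  show J c β (PT β i) (node ρ) ρ.2 = _
  rw [hP]
  rcases Int.even_or_odd (node ρ) with he | ho
  · have hno : ¬ Odd (node ρ) := Int.not_odd_iff_even.2 he
    have h2 : ∑ j : Fin K, YT N K ρ (false, j) * qT K A c0 (false, j) (Sum.inl ⟨β, i⟩) = 0 := by
      apply Finset.sum_eq_zero
      intro j _
      simp [YT, hno]
    rw [h2, add_zero]
    rcases hβ with rfl | rfl
    · rw [J_z, hexp 0]
      refine Finset.sum_congr rfl fun j _ => ?_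
      simp [YT, qT, he]
    · rw [J_o, if_neg hno]
      symm
      apply Finset.sum_eq_zero
      intro j _
      simp [qT]
  · have hne : ¬ Even (node ρ) := Int.not_even_iff_odd.2 ho
    have h2 : ∑ j : Fin K, YT N K ρ (true, j) * qT K A c0 (true, j) (Sum.inl ⟨β, i⟩) = 0 := by
      apply Finset.sum_eq_zero
      intro j _
      simp [YT, hne]
    rw [h2, zero_add]
    rcases hβ with rfl | rfl
    · rw [J_z, hexp 1]
      refine Finset.sum_congr rfl fun j _ => ?_
      simp [YT, qT, ho]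
    · rw [J_o, if_pos ho, hexp 1]
      refine Finset.sum_congr rfl fun j _ => ?_
      simp [YT, qT, ho]

theorem val_other (c : ℚ) {N K A c0 : ℕ} (hNK : N ≤ K) (hAK : A ≤ K) (rr : Fin c0 → Row N) (ρ : Row N)
    (x : Col K A ⊕ Fin c0) (hx : x ∉ JT K A c0) :
    val 2 (VP c K A PT rr ρ x) (-((ρ.2 : ℕ) * ((Nat.log 2 K : ℤ) + 1))
      + Sum.elim (fun w : Col K A => bT c N K w.1 w.2) (fun _ => 0) x) := by
  obtain ⟨hn1, hn2⟩ := node_bounds ρ
  have hk : (0 : ℤ) ≤ ((ρ.2 : ℕ) : ℤ) := by positivity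
  rcases x with w | w
  · obtain ⟨β, i⟩ := w
    have hβ : ¬ (β = .z ∨ β = .o) := by simpa [JT] using hx
    have hP : PT β i = qf i := by rw [PT, if_neg hβ]
    show val 2 (J c β (PT β i) (node ρ) ρ.2) (-((ρ.2 : ℕ) * ((Nat.log 2 K : ℤ) + 1)) + bT c N K β i)
    rw [hP]
    cases β with
    | z => exact absurd (Or.inl rfl) hβ
    | o => exact absurd (Or.inr rfl) hβ
    | u =>
      have hi : (i : ℕ) ≤ K := le_trans (le_of_lt i.2) hAK
      refine (val_J_u (p := 2) c (node ρ) hi ρ.2).mono ?_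
      simp only [bT]
      linarith
    | s =>
      have hi : (i : ℕ) ≤ K := le_trans (le_of_lt i.2) hAK
      refine (val_J_s (p := 2) c hn1 hn2 hNK hi ρ.2).mono ?_
      simp only [bT]
      linarith
    | t =>
      have hi : (i : ℕ) ≤ K := le_trans (le_of_lt i.2) hAK
      refine (val_J_t (p := 2) c hn1 hn2 hNK hi ρ.2).mono ?_
      simp only [bT]
      linarith
  · show val 2 (if ρ = rr w then (1 : ℚ) else 0) _
    have hL : (0 : ℤ) ≤ ((ρ.2 : ℕ) : ℤ) * ((Nat.log 2 K : ℤ) + 1) := by positivity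
    split_ifs
    · refine (val.one (p := 2)).mono ?_
      simp only [Sum.elim_inr]
      linarith
    · exact val.zero _

theorem sum_row_k (N : ℕ) : ∑ ρ : Row N, (((ρ.2 : ℕ) : ℤ)) = 6 * (2 * N + 1) := by
  rw [Fintype.sum_prod_type]
  simp only [Fin.sum_univ_four]
  simp
  ring

theorem card_JT (K A c0 : ℕ) : ((JT K A c0).card : ℤ) = K + A := by
  rw [JT, Finset.card_filter, Nat.cast_sum, Fintype.sum_sum_type, Fintype.sum_sigma, sum_blk]
  simp
  rfl

theorem sum_bT (c : ℚ) (N K A c0 : ℕ) :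
    ∑ x ∈ (JT K A c0)ᶜ, Sum.elim (fun w : Col K A => bT c N K w.1 w.2) (fun _ => 0) x
      = 3 * ∑ i ∈ range A, (padicValNat 2 i.factorial : ℤ) + A * (Nat.log 2 K : ℤ)
        - 2 * A * (Nat.log 2 N : ℤ) - 2 * A * (padicValNat 2 (8 * c.den) : ℤ) := by
  have h1 : ∑ x ∈ (JT K A c0)ᶜ, Sum.elim (fun w : Col K A => bT c N K w.1 w.2) (fun _ => 0) x
      = ∑ x : Col K A ⊕ Fin c0, Sum.elim (fun w : Col K A => bT c N K w.1 w.2) (fun _ => 0) x := by
    apply Finset.sum_subset (Finset.subset_univ _)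
    intro x _ hx
    rw [Finset.mem_compl, not_not] at hx
    rcases x with w | w
    · obtain ⟨β, i⟩ := w
      have hβ : β = .z ∨ β = .o := by simpa [JT] using hx
      rcases hβ with rfl | rfl <;> rfl
    · rfl
  rw [h1, Fintype.sum_sum_type, Fintype.sum_sigma, sum_blk]
  simp only [Sum.elim_inl, Sum.elim_inr, Finset.sum_const_zero, add_zero]
  have hz : ∑ i : Fin (len K A .z), bT c N K .z i = 0 := by simp [bT]
  have ho : ∑ i : Fin (len K A .o), bT c N K .o i = 0 := by simp [bT]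
  have hu : ∑ i : Fin (len K A .u), bT c N K .u i
      = ∑ i ∈ range A, (padicValNat 2 i.factorial : ℤ) + A * (Nat.log 2 K : ℤ) := by
    show ∑ i : Fin A, bT c N K .u i = _
    rw [← Finset.sum_range (fun i => bT c N K .u i)]
    simp only [bT, Finset.sum_add_distrib]
    simp
  have hs : ∑ i : Fin (len K A .s), bT c N K .s i
      = ∑ i ∈ range A, (padicValNat 2 i.factorial : ℤ) - A * (Nat.log 2 N : ℤ)
        - A * (padicValNat 2 (8 * c.den) : ℤ) := by
    show ∑ i : Fin A, bT c N K .s i = _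
    rw [← Finset.sum_range (fun i => bT c N K .s i)]
    simp only [bT, Finset.sum_sub_distrib]
    simp
  have ht : ∑ i : Fin (len K A .t), bT c N K .t i
      = ∑ i ∈ range A, (padicValNat 2 i.factorial : ℤ) - A * (Nat.log 2 N : ℤ)
        - A * (padicValNat 2 (8 * c.den) : ℤ) := by
    show ∑ i : Fin A, bT c N K .t i = _
    rw [← Finset.sum_range (fun i => bT c N K .t i)]
    simp only [bT, Finset.sum_sub_distrib]
    simp
  rw [hz, ho, hu, hs, ht]
  ring

theorem sum_dj {K H : ℕ} (hH : H ≤ K) :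
    ∑ y ∈ univ.filter (fun y : Bool × Fin K =>
        ((y.2 : ℕ) : ℤ) + (padicValNat 2 (y.2 : ℕ).factorial : ℤ)
          < (H : ℤ) + (padicValNat 2 H.factorial : ℤ)),
      ((((y.2 : ℕ) : ℤ) + (padicValNat 2 (y.2 : ℕ).factorial : ℤ))
        - ((H : ℤ) + (padicValNat 2 H.factorial : ℤ)))
      = 2 * ∑ j ∈ range H, ((j : ℤ) + (padicValNat 2 j.factorial : ℤ))
        - 2 * H * ((H : ℤ) + (padicValNat 2 H.factorial : ℤ)) := by
  set B : ℤ := (H : ℤ) + (padicValNat 2 H.factorial : ℤ) with hB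
  have hlt : ∀ j : ℕ, ((j : ℤ) + (padicValNat 2 j.factorial : ℤ) < B) ↔ j < H := fun j =>
    dj_strictMono.lt_iff_lt (a := j) (b := H)
  rw [Finset.sum_filter, Fintype.sum_prod_type, Fintype.sum_bool]
  simp only [hlt]
  rw [← Finset.sum_range (fun j => if j < H then ((j : ℤ) + (padicValNat 2 j.factorial : ℤ)) - B else 0)]
  rw [← Finset.sum_filter]
  have h1 : (range K).filter (fun j => j < H) = range H := by
    ext j
    simp only [mem_filter, mem_range]
    omega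
  rw [h1, Finset.sum_sub_distrib]
  simp
  ring

theorem val_two (c : ℚ) {N K A c0 : ℕ} (rr : Fin c0 → Row N) (e : (Col K A ⊕ Fin c0) ≃ Row N)
    (_hN : 1 ≤ N) (hNK : N ≤ K) (hAK : A ≤ K) (hKA : Even (K + A)) :
    val 2 (sdet e (Vh c K A rr))
      (2 * ∑ j ∈ Finset.range ((K + A) / 2), ((j : ℤ) + (padicValNat 2 j.factorial : ℤ))
        + 3 * ∑ i ∈ Finset.range A, (padicValNat 2 i.factorial : ℤ)
        + A * (Nat.log 2 K : ℤ) - 2 * A * (Nat.log 2 N : ℤ)
        - 6 * (2 * N + 1) * ((Nat.log 2 K : ℤ) + 1)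
        - 2 * A * (padicValNat 2 (8 * c.den) : ℤ)) := by
  set H := (K + A) / 2 with hH
  have hH2 : K + A = 2 * H := by
    obtain ⟨m, hm⟩ := hKA
    omega
  have hHK : H ≤ K := by omega
  rw [← sdet_VP_eq c rr e PT PT_monic]
  have h := val_sdet_merge (p := 2) e (VP c K A PT rr) (YT N K) (qT K A c0) (JT K A c0)
    (fun ρ => -((ρ.2 : ℕ) * ((Nat.log 2 K : ℤ) + 1)))
    (fun x => Sum.elim (fun w : Col K A => bT c N K w.1 w.2) (fun _ => 0) x)
    (fun y => ((y.2 : ℕ) : ℤ) + (padicValNat 2 (y.2 : ℕ).factorial : ℤ))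
    ((H : ℤ) + (padicValNat 2 H.factorial : ℤ))
    (fun ρ y => val_YT ρ y)
    (fun y x _ => by
      rcases x with w | w
      · simp only [qT, Sum.elim_inl]
        split_ifs
        · exact val.int _
        · exact val.zero _
        · exact val.int _
      · exact val.zero _)
    (fun ρ x hx => merge_eq c hAK rr ρ x hx)
    (fun ρ x hx => val_other c hNK hAK rr ρ x hx)
  refine h.mono (le_of_eq ?_)
  rw [sum_bT, sum_dj hHK, card_JT, Finset.sum_neg_distrib, ← Finset.sum_mul, sum_row_k]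
  have h3 : (K : ℤ) + A = 2 * H := by exact_mod_cast hH2
  rw [h3]
  ring

end MP_a3a416_nt.SJ
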