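import Pool.Agent.Lib.MP_a3a416_nt.SJ.ZeroEst
import Pool.Agent.Lib.MP_a3a416_nt.SJ.ArchBound
import Pool.Agent.Lib.MP_a3a416_nt.SJ.GenBound
import Pool.Agent.Lib.MP_a3a416_nt.SJ.TwoBound
import Pool.Agent.Lib.MP_a3a416_nt.SJ.FlatBig
import Pool.Agent.Lib.MP_a3a416_nt.SJ.FlatMid
import Pool.Agent.Lib.MP_a3a416_nt.SJ.PF
import Pool.Agent.Lib.MP_a3a416_nt.SJ.FMain

/-! # Sections 6, 7: the theorem. -/

set_option autoImplicit false

open Polynomial Finset Filter

namespace MP_a3a416_nt.SJ

theorem val_le_of {p : ℕ} {x : ℚ} {a : ℤ} (h : val p x a) (hx : x ≠ 0) : a ≤ padicValRat p x :=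
  h.resolve_left hx

open Classical in
/-- the local bound used at `p`, without the contribution of the denominator of `c` -/
noncomputable def fl (m : ℕ) (flat : ℕ → Prop) (p : ℕ) : ℤ :=
  if p ≤ 2 then g2 1 m else if p ≤ 36 * m then f1 1 m p else
    if p ≤ 60 * m then (if flat p then f2 m p else f1 1 m p) else (if flat p then f3 m p else 0)

theorem f3_eq_zero (m p : ℕ) (h : 420 * m < p) : f3 m p = 0 := by
  unfold f3
  apply max_eq_left
  apply (min_le_right _ _).trans
  omega

open Classical in
theorem sum_fl (m d : ℕ) (hm : 1 ≤ m) (flat : ℕ → Prop) :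
    ∑ p ∈ (Ioc 1 (420 * m + d)).filter Nat.Prime, (fl m flat p : ℝ) * Real.log p =
      LBs 1 m flat := by
  unfold LBs prs
  simp only [sum_filter]
  rw [← sum_Ioc_consecutive _ (show 1 ≤ 420 * m by omega) (show 420 * m ≤ 420 * m + d by omega),
    ← sum_Ioc_consecutive _ (show 1 ≤ 60 * m by omega) (show 60 * m ≤ 420 * m by omega),
    ← sum_Ioc_consecutive _ (show 1 ≤ 36 * m by omega) (show 36 * m ≤ 60 * m by omega),
    ← sum_Ioc_consecutive _ (show 1 ≤ 2 by omega) (show 2 ≤ 36 * m by omega)]
  have e0 : ∑ p ∈ Ioc (420 * m) (420 * m + d), (if Nat.Prime p then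
      (fl m flat p : ℝ) * Real.log p else 0) = 0 := by
    apply sum_eq_zero
    intro p hp
    rw [mem_Ioc] at hp
    have : fl m flat p = 0 := by
      unfold fl
      rw [if_neg (by omega), if_neg (by omega), if_neg (by omega), f3_eq_zero m p hp.1]
      simp
    rw [this]
    simp
  rw [e0, add_zero]
  congr 1
  · congr 1
    · congr 1
      · have e2 : Ioc 1 2 = {2} := by decide
        rw [e2, sum_singleton, if_pos Nat.prime_two]
        simp [fl]
      · apply sum_congr rfl
        intro p hp
        rw [mem_Ioc] at hp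
        have : fl m flat p = f1 1 m p := by
          unfold fl
          rw [if_neg (by omega), if_pos (by omega)]
        rw [this]
    · apply sum_congr rfl
      intro p hp
      rw [mem_Ioc] at hp
      have : fl m flat p = if flat p then f2 m p else f1 1 m p := by
        unfold fl
        rw [if_neg (by omega), if_neg (by omega), if_pos (by omega)]
      rw [this]
  · apply sum_congr rfl
    intro p hp
    rw [mem_Ioc] at hp
    have : fl m flat p = if flat p then f3 m p else 0 := by
      unfold fl
      rw [if_neg (by omega), if_neg (by omega), if_neg (by omega)]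
    rw [this]

/-- the flat primes that are used -/
def Fl (c : ℚ) (p : ℕ) : Prop := Flat c p ∧ ¬ p ∣ c.den

open Classical in
theorem main_ineq : ∃ C : ℝ, 0 ≤ C ∧ ∀ m : ℕ, 10 ≤ m → ∀ c : ℚ,
    LBs 1 m (Fl c) ≤ UB m
      + 140 * m * Real.log (1 + |(c : ℝ)|) + 140 * m * Real.log (8 * c.den)
      + C * m * Real.log (60 * m) := by
  obtain ⟨C, hC⟩ := arch_bound
  refine ⟨60 * |C|, by positivity, ?_⟩
  intro m hm c
  have hden : 0 < c.den := c.den_pos
  have hm1 : 1 ≤ m := by omega
  obtain ⟨rr, e, hD⟩ := exists_rows c (N := 60 * m) (K := 200 * m - 100) (A := 70 * m) (c0 := 104)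
    (by omega) (by omega) (by omega) (by omega)
  set D := sdet e (Vh c (200 * m - 100) (70 * m) rr) with hDdef
  have harch := hC c (60 * m) (200 * m - 100) (70 * m) 104 rr e (by omega)
    (Nat.even_mul.2 (Or.inl (by decide))) (by omega) (by omega) (by omega) (by omega) hD
  rw [← hDdef] at harch
  have hpf := pf D hD ((Ioc 1 (420 * m + 8 * c.den)).filter Nat.Prime)
    (fun p hp => (mem_filter.1 hp).2)
    (fun p => (fl m (Fl c) p : ℝ) - 140 * m * (padicValNat p (8 * c.den) : ℝ)) ?_ ?_
  · simp only [sub_mul] at hpf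
    rw [sum_sub_distrib, sum_fl m _ hm1] at hpf
    have h2 : ∑ p ∈ (Ioc 1 (420 * m + 8 * c.den)).filter Nat.Prime,
        140 * (m : ℝ) * (padicValNat p (8 * c.den) : ℝ) * Real.log p =
        140 * m * Real.log (8 * c.den : ℕ) := by
      rw [log_nat_eq_sum (8 * c.den) ((Ioc 1 (420 * m + 8 * c.den)).filter Nat.Prime)
        (fun p hp => (mem_filter.1 hp).2), mul_sum]
      · apply sum_congr rfl
        intro p _
        ring
      · intro p hp
        have hp1 := Nat.prime_of_mem_primeFactors hp
        have hp2 := Nat.le_of_dvd (by omega) (Nat.dvd_of_mem_primeFactors hp)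
        rw [mem_filter, mem_Ioc]
        exact ⟨⟨hp1.one_lt, by omega⟩, hp1⟩
    rw [h2] at hpf
    have h3 : ((200 * m - 100 : ℕ) : ℝ) = 200 * m - 100 := by
      rw [Nat.cast_sub (by omega)]
      push_cast
      ring
    rw [h3] at harch
    have hUB : 11 / 2 * ((60 * m : ℕ) : ℝ) ^ 2 * (Real.log (2 * ((60 * m : ℕ) : ℝ)) - 3 / 2)
        + (((200 * (m : ℝ) - 100) - ((60 * m : ℕ) : ℝ)) ^ 2 / 2 +
          4 * ((((70 * m : ℕ) : ℝ) - ((60 * m : ℕ) : ℝ)) ^ 2 / 2)) *
          Real.log (((60 * m : ℕ) : ℝ) / 2) = UB m := by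
      unfold UB
      push_cast
      ring
    rw [hUB] at harch
    push_cast at harch hpf ⊢
    have hmr : (10 : ℝ) ≤ m := by exact_mod_cast (by omega : 10 ≤ m)
    have h7 : 0 ≤ Real.log (60 * (m : ℝ)) := Real.log_nonneg (by linarith)
    have h10 : C * (60 * (m : ℝ)) * Real.log (60 * m) ≤
        60 * |C| * m * Real.log (60 * m) := by
      apply mul_le_mul_of_nonneg_right _ h7
      nlinarith [le_abs_self C]
    have h11 : 2 * (70 * (m : ℝ)) * Real.log (1 + |(c : ℝ)|) =
        140 * m * Real.log (1 + |(c : ℝ)|) := by ring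
    linarith [harch, hpf, h10]
  · -- the local bounds
    intro p hp
    rw [mem_filter, mem_Ioc] at hp
    obtain ⟨⟨hp1, _⟩, hpp⟩ := hp
    have hgen := val_le_of (val_gen c (N := 60 * m) (K := 200 * m - 100) (A := 70 * m) rr e hpp
      (by omega) (by omega) (by omega)) hD
    rw [← hDdef] at hgen
    have key : fl m (Fl c) p - 140 * m * ((padicValNat p (8 * c.den) : ℕ) : ℤ) ≤
        padicValRat p D := by
      have hgen' : f1 1 m p - 140 * m * ((padicValNat p (8 * c.den) : ℕ) : ℤ) ≤
          padicValRat p D := by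
        refine le_trans (le_of_eq ?_) hgen
        unfold f1 SF
        rw [padicValNat_one_right]
        push_cast
        ring
      unfold fl
      by_cases h2 : p ≤ 2
      · rw [if_pos h2]
        have hp2 : p = 2 := by omega
        subst hp2
        have htwo := val_le_of (val_two c (N := 60 * m) (K := 200 * m - 100) (A := 70 * m) rr e
          (by omega) (by omega) (by omega) (by
            have : 200 * m - 100 + 70 * m = 2 * (135 * m - 50) := by omega
            rw [this]; exact even_two_mul _)) hD
        rw [← hDdef] at htwo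
        refine le_trans (le_of_eq ?_) htwo
        have h270 : (270 * m - 100) / 2 = (200 * m - 100 + 70 * m) / 2 := by omega
        unfold g2 SF
        rw [padicValNat_one_right, h270]
        push_cast
        ring
      rw [if_neg h2]
      by_cases h36 : p ≤ 36 * m
      · rw [if_pos h36]
        exact hgen'
      rw [if_neg h36]
      have h36' : 36 * m < p := not_le.1 h36
      have he0 : Fl c p → padicValNat p (8 * c.den) = 0 := by
        intro hf
        apply padicValNat.eq_zero_of_not_dvd
        intro hd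
        rcases (Nat.Prime.dvd_mul hpp).1 hd with hd | hd
        · have := Nat.le_of_dvd (by norm_num) hd
          omega
        · exact hf.2 hd
      by_cases h60 : p ≤ 60 * m
      · rw [if_pos h60]
        by_cases hf : Fl c p
        · rw [if_pos hf]
          have h := val_le_of (val_flat_mid c (N := 60 * m) (K := 200 * m - 100) (A := 70 * m) rr e
            hpp (by omega) h60 (by omega) (by omega) hf.2 hf.1) hD
          rw [← hDdef] at h
          rw [he0 hf]
          unfold f2
          push_cast at h ⊢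
          linarith
        · rw [if_neg hf]
          exact hgen'
      · rw [if_neg h60]
        have h60' : 60 * m < p := not_le.1 h60
        by_cases hf : Fl c p
        · have h0 := val_le_of (val_large c (N := 60 * m) (K := 200 * m - 100) (A := 70 * m) rr e
            hpp (by omega) h60') hD
          rw [← hDdef] at h0
          rw [he0 hf] at h0
          rw [if_pos hf, he0 hf]
          have h := val_le_of (val_flat_big c (N := 60 * m) (K := 200 * m - 100) (A := 70 * m) rr e
            hpp (by omega) h60' hf.2 hf.1) hD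
          rw [← hDdef] at h
          have h0' : 0 ≤ padicValRat p D := by simpa using h0
          have h200 : ((200 * m - 100 : ℕ) : ℤ) = 200 * m - 100 := by omega
          rw [h200] at h
          unfold f3
          have h3 := max_le h0' h
          simpa using h3
        · have h0 := val_le_of (val_large c (N := 60 * m) (K := 200 * m - 100) (A := 70 * m) rr e
            hpp (by omega) h60') hD
          rw [← hDdef] at h0
          rw [if_neg hf]
          refine le_trans (le_of_eq ?_) h0
          push_cast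
          ring
    have key' : ((fl m (Fl c) p - 140 * m * ((padicValNat p (8 * c.den) : ℕ) : ℤ) : ℤ) : ℝ) ≤
        ((padicValRat p D : ℤ) : ℝ) := Int.cast_le.2 key
    rw [Int.cast_sub, Int.cast_mul, Int.cast_mul, Int.cast_natCast, Int.cast_natCast] at key'
    simpa using key'
  · intro p hpp hpS
    have hp420 : 420 * m + 8 * c.den < p := by
      by_contra h
      exact hpS (by rw [mem_filter, mem_Ioc]; exact ⟨⟨hpp.one_lt, by omega⟩, hpp⟩)
    have h0 := val_le_of (val_large c (N := 60 * m) (K := 200 * m - 100) (A := 70 * m) rr e hpp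
      (by omega) (by omega)) hD
    rw [← hDdef] at h0
    have : padicValNat p (8 * c.den) = 0 := by
      apply padicValNat.eq_zero_of_not_dvd
      intro hd
      have := Nat.le_of_dvd (by omega) hd
      omega
    rw [this] at h0
    simpa using h0

open Classical in
/-- the primes dividing the denominator cost little -/
theorem sum_den (c : ℚ) (a b : ℕ) :
    ∑ p ∈ (Ioc a b).filter (fun p => p.Prime ∧ ¬ Fl c p), Real.log p ≤
      ∑ p ∈ (Ioc a b).filter (fun p => p.Prime ∧ ¬ Flat c p), Real.log p + Real.log c.den := by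
  have h1 : (Ioc a b).filter (fun p => p.Prime ∧ ¬ Fl c p) ⊆
      (Ioc a b).filter (fun p => p.Prime ∧ ¬ Flat c p) ∪ c.den.primeFactors := by
    intro p hp
    rw [mem_filter] at hp
    rw [mem_union, mem_filter, Nat.mem_primeFactors]
    by_cases hF : Flat c p
    · right
      refine ⟨hp.2.1, ?_, c.den_nz⟩
      by_contra h
      exact hp.2.2 ⟨hF, h⟩
    · left
      exact ⟨hp.1, hp.2.1, hF⟩
  have h0 : ∀ p : ℕ, 0 ≤ Real.log p := fun p => Real.log_natCast_nonneg p
  calc ∑ p ∈ (Ioc a b).filter (fun p => p.Prime ∧ ¬ Fl c p), Real.log p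
      ≤ ∑ p ∈ (Ioc a b).filter (fun p => p.Prime ∧ ¬ Flat c p) ∪ c.den.primeFactors,
          Real.log p := sum_le_sum_of_subset_of_nonneg h1 (fun p _ _ => h0 p)
    _ ≤ ∑ p ∈ (Ioc a b).filter (fun p => p.Prime ∧ ¬ Flat c p), Real.log p +
        ∑ p ∈ c.den.primeFactors, Real.log p := by
        rw [← sum_union_inter]
        have := sum_nonneg (s := (Ioc a b).filter (fun p => p.Prime ∧ ¬ Flat c p) ∩
          c.den.primeFactors) (f := fun p : ℕ => Real.log p) (fun p _ => h0 p)
        linarith
    _ ≤ _ := by
        apply add_le_add_right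
        rw [log_nat_eq_sum c.den c.den.primeFactors (fun p hp => Nat.prime_of_mem_primeFactors hp)
          (Subset.refl _)]
        apply sum_le_sum
        intro p hp
        have hpp := Nat.prime_of_mem_primeFactors hp
        have : 1 ≤ padicValNat p c.den := by
          have := Fact.mk hpp
          exact one_le_padicValNat_of_dvd c.den_nz (Nat.dvd_of_mem_primeFactors hp)
        have h2 : (1 : ℝ) ≤ padicValNat p c.den := by exact_mod_cast this
        nlinarith [h0 p]

/-- For `x ≥ x₀` and every rational `c` of height at most `exp (x / 10000)` at least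
`x / (1000 log x)` primes `5 ≤ p ≤ x` satisfy `B_{p-3} ≢ c` modulo `p`. -/
theorem main : ∀ᶠ x : ℕ in Filter.atTop, ∀ c : ℚ,
    |(c.num : ℝ)| ≤ Real.exp (x / 10000) → (c.den : ℝ) ≤ Real.exp (x / 10000) →
    (x : ℝ) / (1000 * Real.log x) ≤
      (((Finset.range (x + 1)).filter (fun p : ℕ => p.Prime ∧ 5 ≤ p ∧
        ¬ (p : ℤ) ∣ (_root_.bernoulli (p - 3) - c).num)).card : ℝ) := by
  classical
  obtain ⟨C, hC0, hC⟩ := main_ineq
  have hlim : ∀ᶠ m : ℕ in atTop, C * Real.log (60 * m) ≤ m / 20 := by
    have h1 : Tendsto (fun m : ℕ => (60 * (m : ℝ))) atTop atTop :=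
      (tendsto_natCast_atTop_atTop).const_mul_atTop (by norm_num)
    have h2 := (Real.isLittleO_log_id_atTop.comp_tendsto h1).bound
      (show (0 : ℝ) < 1 / (1200 * (C + 1)) by positivity)
    filter_upwards [h2, eventually_ge_atTop 1] with m hm hm1
    have hmr : (1 : ℝ) ≤ m := by exact_mod_cast hm1
    simp only [Function.comp_apply, id, Real.norm_eq_abs] at hm
    have h3 : 0 ≤ Real.log (60 * (m : ℝ)) := Real.log_nonneg (by linarith)
    rw [abs_of_nonneg h3, abs_of_nonneg (show (0 : ℝ) ≤ 60 * m by positivity)] at hm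
    have h4 : C * Real.log (60 * m) ≤ (C + 1) * Real.log (60 * m) := by
      apply mul_le_mul_of_nonneg_right _ h3
      linarith
    have h5 : (C + 1) * Real.log (60 * m) ≤ (C + 1) * (1 / (1200 * (C + 1)) * (60 * m)) :=
      mul_le_mul_of_nonneg_left hm (by positivity)
    have h6 : (C + 1) * (1 / (1200 * (C + 1)) * (60 * (m : ℝ))) = m / 20 := by
      field_simp
      ring
    linarith
  have hev := (hlim.and (F_main 1 one_pos 0)).and (eventually_ge_atTop 8100)
  obtain ⟨m0, hm0⟩ := eventually_atTop.1 hev
  filter_upwards [eventually_ge_atTop (420 * (m0 + 1)), eventually_ge_atTop 200000] with x hx hx2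
  intro c hc1 hc2
  set m := x / 420 with hm
  have hm1 : m0 + 1 ≤ m := by
    rw [hm, Nat.le_div_iff_mul_le (by norm_num)]
    linarith
  have hmx : 420 * m ≤ x := Nat.mul_div_le x 420
  have hxm : x < 420 * (m + 1) := by
    have := Nat.lt_mul_div_succ x (show 0 < 420 by norm_num)
    simpa [hm] using this
  obtain ⟨⟨h1, h2⟩, h3⟩ := hm0 m (by omega)
  have hmr : (8100 : ℝ) ≤ m := by exact_mod_cast h3
  have hxr : (200000 : ℝ) ≤ x := by exact_mod_cast hx2
  have hxm' : (x : ℝ) ≤ 420 * (m + 1) := by exact_mod_cast hxm.le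
  have hmain := hC m (by omega) c
  have hfs := h2 (Fl c)
  have hsd := sum_den c (36 * m) (420 * m)
  have hdenpos : (0 : ℝ) < c.den := by exact_mod_cast c.den_pos
  have hden1 : (1 : ℝ) ≤ c.den := by exact_mod_cast c.den_pos
  -- the height
  have hl1 : Real.log c.den ≤ x / 10000 := by
    rw [Real.log_le_iff_le_exp hdenpos]
    exact hc2
  have hl2 : Real.log (8 * c.den) ≤ 3 + x / 10000 := by
    rw [Real.log_mul (by norm_num) hdenpos.ne']
    have : Real.log 8 ≤ 3 := by
      have : Real.log 8 = 3 * Real.log 2 := by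
        rw [show (8 : ℝ) = 2 ^ 3 by norm_num, Real.log_pow]; norm_num
      rw [this]
      have := Real.log_two_lt_d9
      linarith
    linarith
  have hl3 : Real.log (1 + |(c : ℝ)|) ≤ 1 + x / 10000 := by
    have hcabs : |(c : ℝ)| ≤ Real.exp (x / 10000) := by
      rw [Rat.cast_def, abs_div, Nat.abs_cast]
      exact (div_le_self (abs_nonneg _) hden1).trans hc1
    have he1 : 1 ≤ Real.exp ((x : ℝ) / 10000) := Real.one_le_exp (by positivity)
    rw [Real.log_le_iff_le_exp (by positivity), Real.exp_add]
    have := Real.exp_one_gt_d9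
    nlinarith
  -- all together
  set S := ∑ p ∈ (Ioc (36 * m) (420 * m)).filter (fun p => p.Prime ∧ ¬ Flat c p),
    Real.log p with hS
  set S' := ∑ p ∈ (Ioc (36 * m) (420 * m)).filter (fun p => p.Prime ∧ ¬ Fl c p),
    Real.log p with hS'
  have hSS : S' ≤ S + Real.log c.den := hsd
  have hTh : Th m (Fl c) = S' := by
    unfold Th prs
    rw [filter_filter]
  have e1 : 140 * (m : ℝ) * Real.log (1 + |(c : ℝ)|) ≤ 140 * m * (1 + x / 10000) :=
    mul_le_mul_of_nonneg_left hl3 (by positivity)
  have e2 : 140 * (m : ℝ) * Real.log (8 * c.den) ≤ 140 * m * (3 + x / 10000) :=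
    mul_le_mul_of_nonneg_left hl2 (by positivity)
  have e3 : C * m * Real.log (60 * m) ≤ m / 20 * m := by
    have := mul_le_mul_of_nonneg_right h1 (show (0 : ℝ) ≤ m by positivity)
    linarith
  have e4 : 540 * (m : ℝ) ^ 2 - 1140 * m * S' ≤
      140 * m * (1 + x / 10000) + 140 * m * (3 + x / 10000) + m / 20 * m := by
    rw [hTh] at hfs
    linarith
  have e5 : (m : ℝ) * (540 * m - 1140 * S') ≤
      m * (140 * (4 + x / 5000) + m / 20) := by
    nlinarith
  have e6 := le_of_mul_le_mul_left e5 (by linarith)
  have e7 : (x : ℝ) / 1000 ≤ S := by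
    linarith
  -- from the sum to the number of primes
  have hlx : 0 < Real.log x := Real.log_pos (by linarith)
  have h8 : S ≤ (((range (x + 1)).filter (fun p : ℕ => p.Prime ∧ 5 ≤ p ∧
        ¬ (p : ℤ) ∣ (_root_.bernoulli (p - 3) - c).num)).card : ℝ) * Real.log x := by
    calc S ≤ ∑ p ∈ (range (x + 1)).filter (fun p : ℕ => p.Prime ∧ 5 ≤ p ∧
        ¬ (p : ℤ) ∣ (_root_.bernoulli (p - 3) - c).num), Real.log p := by
          apply sum_le_sum_of_subset_of_nonneg
          · intro p hp
            rw [mem_filter, mem_Ioc] at hp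
            rw [mem_filter, mem_range]
            exact ⟨by omega, hp.2.1, by omega, hp.2.2⟩
          · intro p _ _
            exact Real.log_natCast_nonneg p
      _ ≤ ∑ p ∈ (range (x + 1)).filter (fun p : ℕ => p.Prime ∧ 5 ≤ p ∧
        ¬ (p : ℤ) ∣ (_root_.bernoulli (p - 3) - c).num), Real.log x := by
          apply sum_le_sum
          intro p hp
          rw [mem_filter, mem_range] at hp
          apply Real.log_le_log
          · exact_mod_cast hp.2.1.pos
          · exact_mod_cast (by omega : p ≤ x)
      _ = _ := by rw [sum_const, nsmul_eq_mul]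
  rw [← div_div, div_le_iff₀ hlx]
  exact e7.trans h8

end MP_a3a416_nt.SJ
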