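import Pool.Agent.Lib.MP_a3a416_nt.SJ.MidRow

/-! # Section 5b: local computations. -/

open Polynomial

namespace MP_a3a416_nt.SJ.Mid

/-- `[u^k] P(n+u) g(u)` for a sequence `g` of coefficients. -/
noncomputable def LL (P : ℚ[X]) (n : ℤ) (g : ℕ → ℚ) (k : ℕ) : ℚ :=
  ∑ i ∈ Finset.range (k + 1), (taylor (n : ℚ) P).coeff i * g (k - i)

theorem J_eq_LL (c : ℚ) (β : Blk) (P : ℚ[X]) (n : ℤ) (k : ℕ) :
    J c β P n k = LL P n (gj c β n) k := J_eq_sum c β P n k

theorem J_z (c : ℚ) (P : ℚ[X]) (n : ℤ) (k : ℕ) : J c .z P n k = (taylor (n : ℚ) P).coeff k := by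
  rw [J_eq_LL, LL, Finset.sum_eq_single k]
  · simp [gj]
  · intro i hi hik
    rw [Finset.mem_range] at hi
    simp only [gj]
    rw [if_neg (by omega), mul_zero]
  · intro h
    exact absurd (Finset.mem_range.2 (by omega)) h

theorem taylor_map_int (n : ℤ) (S : ℤ[X]) :
    taylor (n : ℚ) (S.map (Int.castRingHom ℚ)) = (taylor n S).map (Int.castRingHom ℚ) := by
  rw [taylor_apply, taylor_apply, Polynomial.map_comp]
  simp

theorem coeff_taylor_map_int (n : ℤ) (S : ℤ[X]) (k : ℕ) :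
    (taylor (n : ℚ) (S.map (Int.castRingHom ℚ))).coeff k = (((taylor n S).coeff k : ℤ) : ℚ) := by
  rw [taylor_map_int, coeff_map]
  simp

theorem coeff_taylor_mul (n : ℤ) (P R : ℚ[X]) (k : ℕ) :
    (taylor (n : ℚ) (P * R)).coeff k = LL P n (fun j => (taylor (n : ℚ) R).coeff j) k := by
  rw [taylor_mul, coeff_mul, Finset.Nat.sum_antidiagonal_eq_sum_range_succ_mk, LL]

theorem LL_add (P : ℚ[X]) (n : ℤ) (g h : ℕ → ℚ) (k : ℕ) :
    LL P n (fun j => g j + h j) k = LL P n g k + LL P n h k := by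
  unfold LL
  rw [← Finset.sum_add_distrib]
  apply Finset.sum_congr rfl
  intro i _
  ring

theorem LL_sub (P : ℚ[X]) (n : ℤ) (g h : ℕ → ℚ) (k : ℕ) :
    LL P n (fun j => g j - h j) k = LL P n g k - LL P n h k := by
  unfold LL
  rw [← Finset.sum_sub_distrib]
  apply Finset.sum_congr rfl
  intro i _
  ring

theorem LL_smul (P : ℚ[X]) (n : ℤ) (a : ℚ) (g : ℕ → ℚ) (k : ℕ) :
    LL P n (fun j => a * g j) k = a * LL P n g k := by
  unfold LL
  rw [Finset.mul_sum]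
  apply Finset.sum_congr rfl
  intro i _
  ring

theorem LL_zero (P : ℚ[X]) (n : ℤ) (k : ℕ) : LL P n (fun _ => 0) k = 0 := by
  simp [LL]

/-- `J_z` of a polynomial of degree `< K` is a combination of the columns `J_z(X^l)`. -/
theorem sum_J_z (c : ℚ) {K : ℕ} (P : ℤ[X]) (hP : P.natDegree < K) (n : ℤ) (k : ℕ) :
    ∑ l : Fin K, J c .z (X ^ (l : ℕ)) n k * (((P.coeff l : ℤ) : ℚ)) =
      (((taylor n P).coeff k : ℤ) : ℚ) := by
  rw [← coeff_taylor_map_int]
  have h1 : P.map (Int.castRingHom ℚ) =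
      ∑ l ∈ Finset.range K, C ((P.coeff l : ℤ) : ℚ) * X ^ l := by
    have h2 := Polynomial.as_sum_range_C_mul_X_pow' (P.map (Int.castRingHom ℚ)) (n := K)
      (lt_of_le_of_lt (Polynomial.natDegree_map_le) hP)
    simpa only [coeff_map, eq_intCast] using h2
  rw [h1, map_sum, finsetSum_coeff,
    Fin.sum_univ_eq_sum_range (fun l : ℕ => J c .z (X ^ l) n k * ((P.coeff l : ℤ) : ℚ)) K]
  apply Finset.sum_congr rfl
  intro l _
  rw [J_z, taylor_mul, taylor_C, coeff_C_mul]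
  ring

/-- the polar row computation. -/
theorem row_pol {p : ℕ} (hp : p ≠ 0) (s : ℚ) (hs : s * s = 1) (cf : ℕ → ℚ) (l : Fin 4) :
    ∑ j : Fin 4, Bmat p s l j * (∑ i ∈ Finset.range ((j : ℕ) + 1), cf i * pol p s ((j : ℕ) - i)) =
      (p : ℚ) ^ ((l : ℕ) : ℤ) * (p : ℚ) ^ (-1 : ℤ) * cf l := by
  have hp' : (p : ℚ) ≠ 0 := by exact_mod_cast hp
  have hB : ∀ l j : Fin 4, Bmat p s l j = if (l : ℕ) = j then (p : ℚ) ^ (j : ℕ)
      else if (l : ℕ) = j + 1 then 2 * s * (p : ℚ) ^ (j : ℕ)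
      else if (l : ℕ) = j + 2 then (p : ℚ) ^ (j : ℕ)
      else 0 := fun _ _ => rfl
  fin_cases l
  · simp [Fin.sum_univ_succ, hB, pol, Finset.sum_range_succ]
    ring
  · simp [Fin.sum_univ_succ, hB, pol, Finset.sum_range_succ]
    field_simp
    ring
  · simp [Fin.sum_univ_succ, hB, pol, Finset.sum_range_succ]
    field_simp
    linear_combination (-cf 0) * hs
  · simp [Fin.sum_univ_succ, hB, pol, Finset.sum_range_succ]
    field_simp
    linear_combination (2 * s * cf 0 - (p : ℚ) * cf 1) * hs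

end MP_a3a416_nt.SJ.Mid
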