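import Pool.Agent.Lib.MP_a3a416_nt.SJ.SPoly
import Pool.Agent.Lib.MP_a3a416_nt.SJ.PL

/-! # Section 5b: the polar part of `s(n)(u)` for `|n| < 2p`. -/

open Polynomial

namespace MP_a3a416_nt.SJ.Mid

/-- the sign of a node. -/
def sg (n : ℤ) : ℚ := if 0 ≤ n then 1 else -1

theorem sg_mul_self (n : ℤ) : sg n * sg n = 1 := by
  unfold sg
  split_ifs <;> norm_num

/-- the nodes with a polar part. -/
def InO (p : ℕ) (n : ℤ) : Prop := (p : ℤ) ≤ n ∨ n < -(p : ℤ)

instance (p : ℕ) (n : ℤ) : Decidable (InO p n) := by unfold InO; infer_instance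

/-- coefficient of `u^k` of `p / (p + ε u)^2` -/
def pol (p : ℕ) (s : ℚ) (k : ℕ) : ℚ := (-s) ^ k * ((k : ℚ) + 1) * ((p : ℚ)⁻¹) ^ (1 + k)

theorem gs_sub_gst (c : ℚ) {p : ℕ} (hp : Odd p) (n : ℤ) (h1 : -(2 * p : ℤ) ≤ n)
    (h2 : n < 2 * p) (k : ℕ) :
    gs c n k - gst c p n k = if InO p n ∧ Odd n then pol p (sg n) k else 0 := by
  have hp' : ((p : ℕ) : ℤ) % 2 = 1 := by
    obtain ⟨m, hm⟩ := hp
    omega
  have hp0 : 0 < (p : ℤ) := by
    obtain ⟨m, hm⟩ := hp
    omega
  have hdiv : ∀ b : ℤ, -(2 * p : ℤ) < b → b < 2 * p → b % 2 = n % 2 → b ≠ 0 → (p : ℤ) ∣ b →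
      (b = p ∨ b = -p) := by
    rintro b hb1 hb2 - hb0 ⟨q, rfl⟩
    have hq1 : -2 < q := by
      by_contra h
      push Not at h
      nlinarith
    have hq2 : q < 2 := by
      by_contra h
      push Not at h
      nlinarith
    have hq0 : q ≠ 0 := by
      rintro rfl
      simp at hb0
    have : q = 1 ∨ q = -1 := by omega
    rcases this with h | h
    · left; rw [h]; ring
    · right; rw [h]; ring
  have hsplit : ∀ (s : Finset ℤ) (r : ℕ),
      ∑ b ∈ s.filter (fun b => b % 2 = n % 2), ((b : ℚ)⁻¹) ^ r =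
      ∑ b ∈ s.filter (fun b => b % 2 = n % 2 ∧ ¬ (p : ℤ) ∣ b), ((b : ℚ)⁻¹) ^ r +
      ∑ b ∈ s.filter (fun b => b % 2 = n % 2 ∧ (p : ℤ) ∣ b), ((b : ℚ)⁻¹) ^ r := by
    intro s r
    rw [← Finset.sum_filter_add_sum_filter_not (s.filter (fun b => b % 2 = n % 2))
      (fun b => ¬ (p : ℤ) ∣ b)]
    simp only [Finset.filter_filter, not_not]
  have hmain : ∀ r : ℕ, hs r n - hst p r n =
      if InO p n ∧ Odd n then (if 0 ≤ n then ((p : ℚ)⁻¹) ^ r else -((-(p : ℚ))⁻¹) ^ r) else 0 := by
    intro r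
    unfold hs hst
    rw [hsplit, hsplit]
    have hodd : Odd n ↔ n % 2 = 1 := Int.odd_iff
    by_cases hO : InO p n ∧ Odd n
    · rw [if_pos hO]
      obtain ⟨hO1, hO2⟩ := hO
      rw [hodd] at hO2
      rcases hO1 with h | h
      · have e1 : (Finset.Ioc 0 n).filter (fun b => b % 2 = n % 2 ∧ (p : ℤ) ∣ b) = {(p : ℤ)} := by
          ext b
          simp only [Finset.mem_filter, Finset.mem_Ioc, Finset.mem_singleton]
          constructor
          · rintro ⟨⟨a1, a2⟩, a3, a4⟩
            rcases hdiv b (by omega) (by omega) a3 (by omega) a4 with h' | h' <;> omega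
          · rintro rfl
            exact ⟨⟨hp0, h⟩, by omega, dvd_rfl⟩
        have e2 : (Finset.Ioo n 0).filter (fun b => b % 2 = n % 2 ∧ (p : ℤ) ∣ b) = ∅ := by
          ext b
          simp only [Finset.mem_filter, Finset.mem_Ioo, Finset.notMem_empty, iff_false]
          rintro ⟨⟨a1, a2⟩, a3, a4⟩
          omega
        rw [e1, e2, if_pos (by omega)]
        simp
      · have e1 : (Finset.Ioc 0 n).filter (fun b => b % 2 = n % 2 ∧ (p : ℤ) ∣ b) = ∅ := by
          ext b
          simp only [Finset.mem_filter, Finset.mem_Ioc, Finset.notMem_empty, iff_false]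
          rintro ⟨⟨a1, a2⟩, a3, a4⟩
          omega
        have e2 : (Finset.Ioo n 0).filter (fun b => b % 2 = n % 2 ∧ (p : ℤ) ∣ b) = {-(p : ℤ)} := by
          ext b
          simp only [Finset.mem_filter, Finset.mem_Ioo, Finset.mem_singleton]
          constructor
          · rintro ⟨⟨a1, a2⟩, a3, a4⟩
            rcases hdiv b (by omega) (by omega) a3 (by omega) a4 with h' | h' <;> omega
          · rintro rfl
            exact ⟨⟨h, by omega⟩, by omega, by simp⟩
        rw [e1, e2, if_neg (by omega), Finset.sum_empty, Finset.sum_singleton]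
        push_cast
        abel
    · rw [if_neg hO]
      have e1 : (Finset.Ioc 0 n).filter (fun b => b % 2 = n % 2 ∧ (p : ℤ) ∣ b) = ∅ := by
        ext b
        simp only [Finset.mem_filter, Finset.mem_Ioc, Finset.notMem_empty, iff_false]
        rintro ⟨⟨a1, a2⟩, a3, a4⟩
        apply hO
        rw [hodd]
        rcases hdiv b (by omega) (by omega) a3 (by omega) a4 with h' | h'
        · exact ⟨Or.inl (by omega), by omega⟩
        · omega
      have e2 : (Finset.Ioo n 0).filter (fun b => b % 2 = n % 2 ∧ (p : ℤ) ∣ b) = ∅ := by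
        ext b
        simp only [Finset.mem_filter, Finset.mem_Ioo, Finset.notMem_empty, iff_false]
        rintro ⟨⟨a1, a2⟩, a3, a4⟩
        apply hO
        rw [hodd]
        rcases hdiv b (by omega) (by omega) a3 (by omega) a4 with h' | h'
        · omega
        · exact ⟨Or.inr (by omega), by omega⟩
      rw [e1, e2]
      simp
  unfold gs gst
  have := hmain (1 + k)
  have e3 : (-1) ^ k * ((k : ℚ) + 1) * hs (1 + k) n
      - (if k = 2 then (if Even n then c / 8 else 7 * c / 8) else 0) -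
      ((-1) ^ k * ((k : ℚ) + 1) * hst p (1 + k) n
      - (if k = 2 then (if Even n then c / 8 else 7 * c / 8) else 0)) =
      (-1) ^ k * ((k : ℚ) + 1) * (hs (1 + k) n - hst p (1 + k) n) := by ring
  rw [e3, this]
  by_cases hO : InO p n ∧ Odd n
  · rw [if_pos hO, if_pos hO]
    unfold pol sg
    by_cases hn : 0 ≤ n
    · rw [if_pos hn, if_pos hn]
    · rw [if_neg hn, if_neg hn, neg_neg, one_pow, inv_neg, neg_pow, pow_add]
      have h4 : ((-1 : ℚ)) ^ k * (-1) ^ k = 1 := by
        rw [← mul_pow]; norm_num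
      linear_combination (((k : ℚ) + 1) * (p : ℚ)⁻¹ ^ (1 + k)) * h4
  · rw [if_neg hO, if_neg hO, mul_zero]

end MP_a3a416_nt.SJ.Mid
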