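import Pool.Agent.Lib.MP_a3a416_nt.SJ.MidPol
import Pool.Agent.Lib.MP_a3a416_nt.SJ.SDet

/-! # Section 5b: the row operation at the nodes with a polar part. -/

open Polynomial

namespace MP_a3a416_nt.SJ.Mid

/-- multiplication of a jet in `v = u / p` by `(1 + ε v)^2`. -/
def Bmat (p : ℕ) (s : ℚ) : Matrix (Fin 4) (Fin 4) ℚ := fun l j =>
  if (l : ℕ) = j then (p : ℚ) ^ (j : ℕ)
  else if (l : ℕ) = j + 1 then 2 * s * (p : ℚ) ^ (j : ℕ)
  else if (l : ℕ) = j + 2 then (p : ℚ) ^ (j : ℕ)
  else 0

theorem det_Bmat (p : ℕ) (s : ℚ) : (Bmat p s).det = (p : ℚ) ^ 6 := by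
  rw [Matrix.det_of_isLowerTriangular]
  · simp [Fin.prod_univ_succ, Bmat]
    ring
  · intro i j hij
    have hij' : (i : ℕ) < j := hij
    unfold Bmat
    rw [if_neg (by omega), if_neg (by omega), if_neg (by omega)]

/-- the block at the node `n`. -/
def Bn (p : ℕ) (n : ℤ) : Matrix (Fin 4) (Fin 4) ℚ := if InO p n then Bmat p (sg n) else 1

/-- the row operation. -/
def Bop (p N : ℕ) : Matrix (Row N) (Row N) ℚ := fun r r' =>
  if r.1 = r'.1 then Bn p (node r) r.2 r'.2 else 0

theorem det_Bop (p N : ℕ) : (Bop p N).det = ∏ i : Fin (2 * N + 1),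
    (if InO p (((i : ℕ) : ℤ) - N) then (p : ℚ) ^ 6 else 1) := by
  have h : Bop p N = (Matrix.blockDiagonal
      (fun i : Fin (2 * N + 1) => Bn p (((i : ℕ) : ℤ) - N))).submatrix
        (Equiv.prodComm _ _) (Equiv.prodComm _ _) := by
    ext r r'
    simp only [Bop, Matrix.submatrix_apply, Matrix.blockDiagonal_apply, Equiv.prodComm_apply,
      Prod.snd_swap, Prod.fst_swap, node]
  rw [h, Matrix.det_submatrix_equiv_self, Matrix.det_blockDiagonal]
  apply Finset.prod_congr rfl
  intro i _
  unfold Bn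
  split_ifs with h1
  · exact det_Bmat _ _
  · exact Matrix.det_one

theorem card_InO {p N : ℕ} (hpN : p ≤ N) :
    (Finset.univ.filter (fun i : Fin (2 * N + 1) => InO p (((i : ℕ) : ℤ) - N))).card
      = 2 * (N - p) + 1 := by
  have h1 : (Finset.univ.filter (fun i : Fin (2 * N + 1) => InO p (((i : ℕ) : ℤ) - N))).card =
      ((Finset.range (2 * N + 1)).filter (fun i : ℕ => InO p ((i : ℤ) - N))).card := by
    rw [Finset.card_filter, Finset.card_filter]
    exact Fin.sum_univ_eq_sum_range (fun i : ℕ => if InO p ((i : ℤ) - N) then 1 else 0) _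
  rw [h1]
  have h2 : (Finset.range (2 * N + 1)).filter (fun i : ℕ => InO p ((i : ℤ) - N)) =
      Finset.range (N - p) ∪ Finset.Ico (N + p) (2 * N + 1) := by
    ext i
    simp only [Finset.mem_filter, Finset.mem_range, Finset.mem_union, Finset.mem_Ico, InO]
    omega
  rw [h2, Finset.card_union_of_disjoint, Finset.card_range, Nat.card_Ico]
  · omega
  · rw [Finset.disjoint_left]
    intro i
    simp only [Finset.mem_range, Finset.mem_Ico]
    omega

theorem Bop_mul {p N : ℕ} {κ : Type*} (M : Matrix (Row N) κ ℚ) (r : Row N) (x : κ) :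
    (Bop p N * M) r x = ∑ j : Fin 4, Bn p (node r) r.2 j * M (r.1, j) x := by
  rw [Matrix.mul_apply, Fintype.sum_prod_type]
  rw [Finset.sum_eq_single r.1]
  · apply Finset.sum_congr rfl
    intro j _
    simp [Bop]
  · intro i _ hi
    apply Finset.sum_eq_zero
    intro j _
    simp only [Bop]
    rw [if_neg (fun h => hi h.symm), zero_mul]
  · intro h
    exact absurd (Finset.mem_univ _) h

variable {p : ℕ}

theorem val_sg (n : ℤ) : val p (sg n) 0 := by
  unfold sg
  split_ifs
  · exact val.one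
  · exact val.one.neg

section
variable [hp : Fact p.Prime]

theorem val_pow_p (j : ℕ) : val p ((p : ℚ) ^ j) j := by
  have := val.p_zpow (p := p) (j : ℤ)
  simpa using this

/-- entries of the block of the row operation. -/
theorem val_Bmat (s : ℚ) (hs : val p s 0) (l j : Fin 4) : val p (Bmat p s l j) j := by
  have h2 : val p (2 * s) 0 := by
    have := (val.int (p := p) 2).mul hs
    simpa using this
  unfold Bmat
  split_ifs
  · exact val_pow_p _
  · have := h2.mul (val_pow_p (p := p) j)
    simpa using this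
  · exact val_pow_p _
  · exact val.zero _

omit hp in
theorem Bmat_eq_zero (s : ℚ) {l j : Fin 4} (h : (l : ℕ) < j ∨ (j : ℕ) + 2 < l) :
    Bmat p s l j = 0 := by
  unfold Bmat
  rw [if_neg (by omega), if_neg (by omega), if_neg (by omega)]

/-- integral rows. -/
theorem val_row_int (s : ℚ) (hs : val p s 0) (R : Fin 4 → ℚ) (a : ℤ) (hR : ∀ j, val p (R j) a)
    (l : Fin 4) : val p (∑ j : Fin 4, Bmat p s l j * R j) (a + (((l : ℕ) : ℤ) - 2)) := by
  apply val.sum
  intro j _
  by_cases h : (l : ℕ) < j ∨ (j : ℕ) + 2 < l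
  · rw [Bmat_eq_zero s h, zero_mul]
    exact val.zero _
  · have := (val_Bmat s hs l j).mul (hR j)
    refine this.mono ?_
    omega

end

end MP_a3a416_nt.SJ.Mid
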