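import Pool.Agent.Lib.MP_a3a416_nt.SJ.PL
import Pool.Agent.Lib.MP_a3a416_nt.BB.Denom

/-!
# SJ-QCoef
Values and linearity of the jets `J`; valuations of the Taylor coefficients of the falling factorials
`q_i = X(X-1)...(X-i+1)` and of the harmonic sums.
-/

open Polynomial Finset

namespace MP_a3a416_nt.SJ

theorem J_z (c : ℚ) (P : ℚ[X]) (n : ℤ) (k : ℕ) : J c .z P n k = (taylor (n : ℚ) P).coeff k := by
  rw [J_eq_sum, Finset.sum_eq_single k]
  · simp [gj]
  · intro i hi hik
    have : k - i ≠ 0 := by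
      have := Finset.mem_range.1 hi
      omega
    simp [gj, this]
  · intro h
    exact absurd (Finset.mem_range.2 (Nat.lt_succ_self k)) h

theorem J_o (c : ℚ) (P : ℚ[X]) (n : ℤ) (k : ℕ) :
    J c .o P n k = if Odd n then (taylor (n : ℚ) P).coeff k else 0 := by
  by_cases hn : Odd n
  · rw [if_pos hn, J_eq_sum, Finset.sum_eq_single k]
    · simp [gj, hn]
    · intro i hi hik
      have : k - i ≠ 0 := by
        have := Finset.mem_range.1 hi
        omega
      simp [gj, this]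
    · intro h
      exact absurd (Finset.mem_range.2 (Nat.lt_succ_self k)) h
  · rw [if_neg hn, J_eq_sum]
    apply Finset.sum_eq_zero
    intro i _
    simp [gj, hn]

theorem J_u (c : ℚ) (P : ℚ[X]) (n : ℤ) (k : ℕ) :
    J c .u P n k = if k = 0 then 0 else (taylor (n : ℚ) P).coeff (k - 1) := by
  rcases k with _ | k
  · rw [J_eq_sum]
    simp [gj]
  · rw [if_neg (Nat.succ_ne_zero k), J_eq_sum, Finset.sum_eq_single k]
    · simp [gj]
    · intro i hi hik
      have : k + 1 - i ≠ 1 := by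
        have := Finset.mem_range.1 hi
        omega
      simp [gj, this]
    · intro h
      exact absurd (Finset.mem_range.2 (by omega)) h

theorem J_sum (c : ℚ) (β : Blk) {ι : Type*} (s : Finset ι) (a : ι → ℚ) (P : ι → ℚ[X]) (n : ℤ) (k : ℕ) :
    J c β (∑ i ∈ s, C (a i) * P i) n k = ∑ i ∈ s, a i * J c β (P i) n k := by
  simp only [J_eq_sum, map_sum, finsetSum_coeff, Finset.sum_mul, Finset.mul_sum]
  rw [Finset.sum_comm]
  refine Finset.sum_congr rfl fun i _ => Finset.sum_congr rfl fun l _ => ?_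
  rw [taylor_mul, taylor_C, coeff_C_mul]
  ring

/-- the falling factorial `X(X-1)...(X-i+1)`. -/
noncomputable def qf (i : ℕ) : ℚ[X] := (BB.prodLin 1 0 (range i)).map (Int.castRingHom ℚ)

theorem qf_succ (i : ℕ) : qf (i + 1) = qf i * (X - C (i : ℚ)) := by
  unfold qf BB.prodLin
  rw [Finset.prod_range_succ, Polynomial.map_mul]
  congr 1
  simp [sub_eq_add_neg]

theorem qf_monic (i : ℕ) : (qf i).Monic ∧ (qf i).natDegree = i := by
  induction i with
  | zero => simp [qf, BB.prodLin]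
  | succ i ih =>
    rw [qf_succ]
    refine ⟨ih.1.mul (monic_X_sub_C _), ?_⟩
    rw [ih.1.natDegree_mul (monic_X_sub_C _), ih.2, natDegree_X_sub_C]

theorem taylor_map_prodLin (n : ℤ) (z : ℤ) (s : Finset ℕ) :
    taylor (n : ℚ) ((BB.prodLin 1 z s).map (Int.castRingHom ℚ))
      = (BB.prodLin 1 (n + z) s).map (Int.castRingHom ℚ) := by
  unfold BB.prodLin
  rw [Polynomial.map_prod, Polynomial.map_prod, taylor_apply, Polynomial.prod_comp]
  refine Finset.prod_congr rfl fun j _ => ?_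
  simp only [Polynomial.map_add, Polynomial.map_mul, map_X, map_C, add_comp, mul_comp, C_comp, X_comp]
  push_cast
  simp only [Int.cast_natCast, eq_intCast, map_add, map_sub, map_one]
  ring

variable {p : ℕ} [hp : Fact p.Prime]

/-- an `Adm` polynomial, in terms of `val`. -/
theorem val_of_adm {L : ℕ} {c : ℕ → ℕ} {P : ℤ[X]} (h : BB.Adm p L c P) (k : ℕ) {v : ℤ}
    (hv : v ≤ ∑ l ∈ Icc 1 L, ((c l : ℤ) - k)) :
    val p ((P.map (Int.castRingHom ℚ)).coeff k) v := by
  rw [coeff_map]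
  have h1 : val p (((P.coeff k : ℤ) : ℚ)) ((∑ l ∈ Icc 1 L, (c l - k) : ℕ) : ℤ) := val.of_dvd (h k)
  refine h1.mono (hv.trans ?_)
  rw [Nat.cast_sum]
  apply Finset.sum_le_sum
  intro l _
  omega

theorem padicVal_factorial_eq {i L : ℕ} (hi : i < p ^ (L + 1)) :
    (padicValNat p i.factorial : ℤ) = ∑ l ∈ Icc 1 L, ((i / p ^ l : ℕ) : ℤ) := by
  rw [padicValNat_factorial (b := L + 1) (Nat.log_lt_of_lt_pow' (by omega) hi)]
  push_cast
  rfl

theorem val_taylor_qf (n : ℤ) {i K : ℕ} (hi : i ≤ K) (k : ℕ) :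
    val p ((taylor (n : ℚ) (qf i)).coeff k)
      ((padicValNat p i.factorial : ℤ) - k * (Nat.log p K : ℤ)) := by
  have hiK : i < p ^ (Nat.log p K + 1) :=
    lt_of_le_of_lt hi (Nat.lt_pow_succ_log_self hp.out.one_lt K)
  rw [qf, taylor_map_prodLin]
  refine val_of_adm (L := Nat.log p K) (BB.Adm.blk p _ hp.out.one_le i _ 1) k ?_
  rw [padicVal_factorial_eq hiK, Finset.sum_sub_distrib]
  simp
  linarith

theorem val_inv_int {N : ℕ} {b : ℤ} (_hb : b ≠ 0) (hbN : |b| ≤ N) (r : ℕ) :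
    val p (((b : ℚ)⁻¹) ^ r) (-(r * (Nat.log p N : ℤ))) := by
  have h1 : val p ((b : ℚ)⁻¹) (-(Nat.log p N : ℤ)) := by
    right
    rw [padicValRat.inv, padicValRat.of_int, neg_le_neg_iff]
    rw [padicValInt]
    have h2 : b.natAbs ≤ N := by
      have h4 : ((b.natAbs : ℕ) : ℤ) = |b| := Int.natCast_natAbs b
      omega
    have h3 : padicValNat p b.natAbs ≤ Nat.log p b.natAbs := padicValNat_le_nat_log _
    exact_mod_cast h3.trans (Nat.log_mono_right h2)
  have := h1.pow r
  refine this.mono (le_of_eq ?_)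
  ring

theorem val_hs {N : ℕ} {n : ℤ} (h1 : -(N : ℤ) - 1 ≤ n) (h2 : n ≤ N) (r : ℕ) :
    val p (hs r n) (-(r * (Nat.log p N : ℤ))) := by
  unfold hs
  apply val.sub
  · apply val.sum
    intro b hb
    simp only [Finset.mem_filter, Finset.mem_Ioc] at hb
    exact val_inv_int (by omega) (by rw [abs_le]; omega) r
  · apply val.sum
    intro b hb
    simp only [Finset.mem_filter, Finset.mem_Ioo] at hb
    exact val_inv_int (by omega) (by rw [abs_le]; omega) r

theorem val_c8 (c : ℚ) (m : ℤ) :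
    val p ((m : ℚ) * c / 8) (-(padicValNat p (8 * c.den) : ℤ)) := by
  have h8 : ((8 * c.den : ℕ) : ℚ) ≠ 0 := by
    have := c.den_nz
    positivity
  have h1 : (m : ℚ) * c / 8 = ((m * c.num : ℤ) : ℚ) / ((8 * c.den : ℕ) : ℤ) := by
    have hd : (c.den : ℚ) ≠ 0 := by exact_mod_cast c.den_nz
    have hc : c * c.den = c.num := Rat.mul_den_eq_num c
    push_cast
    rw [div_eq_div_iff (by norm_num) (by positivity)]
    linear_combination 8 * (m : ℚ) * hc
  rw [h1]
  have h2 := (val.int (p := p) (m * c.num)).div_int (n := ((8 * c.den : ℕ) : ℤ))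
    (k := padicValNat p (8 * c.den)) (by exact_mod_cast h8) (le_of_eq (by rw [padicValInt.of_nat]))
  simpa using h2

theorem val_gs (c : ℚ) {N : ℕ} {n : ℤ} (h1 : -(N : ℤ) - 1 ≤ n) (h2 : n ≤ N) (j : ℕ) :
    val p (gs c n j) (-((1 + j) * (Nat.log p N : ℤ)) - (padicValNat p (8 * c.den) : ℤ)) := by
  unfold gs
  apply val.sub
  · have h3 := (val_hs (p := p) h1 h2 (1 + j)).int_mul (((-1) ^ j * (j + 1) : ℤ))
    push_cast at h3
    refine h3.mono ?_
    have : (0 : ℤ) ≤ (padicValNat p (8 * c.den) : ℤ) := by positivity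
    linarith
  · have hnn : (0 : ℤ) ≤ (1 + j) * (Nat.log p N : ℤ) := by positivity
    split_ifs
    · refine (by simpa using val_c8 (p := p) c 1 : val p (c / 8) _).mono (by linarith)
    · refine (by simpa using val_c8 (p := p) c 7 : val p (7 * c / 8) _).mono (by linarith)
    · exact val.zero _

/-- the jets of `q_i u`. -/
theorem val_J_u (c : ℚ) (n : ℤ) {i K : ℕ} (hi : i ≤ K) (k : ℕ) :
    val p (J c .u (qf i) n k)
      (-(k * (Nat.log p K : ℤ)) + ((padicValNat p i.factorial : ℤ) + (Nat.log p K : ℤ))) := by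
  rw [J_u]
  split_ifs with hk
  · exact val.zero _
  · refine (val_taylor_qf n hi (k - 1)).mono (le_of_eq ?_)
    have : ((k - 1 : ℕ) : ℤ) = k - 1 := by omega
    rw [this]
    ring

theorem val_conv {f g : ℕ → ℚ} {k : ℕ} {a b : ℤ} {L L' : ℤ} (hL : L' ≤ L)
    (hf : ∀ i, val p (f i) (a - i * L)) (hg : ∀ j, val p (g j) (b - j * L')) :
    val p (∑ i ∈ range (k + 1), f i * g (k - i)) (a + b - k * L) := by
  apply val.sum
  intro i hi
  refine ((hf i).mul (hg (k - i))).mono ?_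
  have h1 : i ≤ k := by
    have := Finset.mem_range.1 hi
    omega
  have h2 : ((k - i : ℕ) : ℤ) = k - i := by omega
  rw [h2]
  have h3 : (0 : ℤ) ≤ ((k : ℤ) - i) * (L - L') := mul_nonneg (by omega) (by linarith)
  nlinarith

theorem val_J_s (c : ℚ) {N : ℕ} {n : ℤ} (h1 : -(N : ℤ) ≤ n) (h2 : n ≤ N) {i K : ℕ} (hNK : N ≤ K)
    (hi : i ≤ K) (k : ℕ) :
    val p (J c .s (qf i) n k)
      (-(k * (Nat.log p K : ℤ)) + ((padicValNat p i.factorial : ℤ) - (Nat.log p N : ℤ)
        - (padicValNat p (8 * c.den) : ℤ))) := by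
  rw [J_eq_sum]
  refine (val_conv (L := (Nat.log p K : ℤ)) (L' := (Nat.log p N : ℤ))
    (a := (padicValNat p i.factorial : ℤ))
    (b := -(Nat.log p N : ℤ) - (padicValNat p (8 * c.den) : ℤ))
    (by exact_mod_cast Nat.log_mono_right hNK)
    (fun l => val_taylor_qf n hi l) (fun j => ?_)).mono (le_of_eq (by ring))
  refine (val_gs (p := p) c (N := N) (n := n) (by omega) (by omega) j).mono (le_of_eq (by ring))

theorem val_J_t (c : ℚ) {N : ℕ} {n : ℤ} (h1 : -(N : ℤ) ≤ n) (h2 : n ≤ N) {i K : ℕ} (hNK : N ≤ K)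
    (hi : i ≤ K) (k : ℕ) :
    val p (J c .t (qf i) n k)
      (-(k * (Nat.log p K : ℤ)) + ((padicValNat p i.factorial : ℤ) - (Nat.log p N : ℤ)
        - (padicValNat p (8 * c.den) : ℤ))) := by
  rw [J_eq_sum]
  refine (val_conv (L := (Nat.log p K : ℤ)) (L' := (Nat.log p N : ℤ))
    (a := (padicValNat p i.factorial : ℤ))
    (b := -(Nat.log p N : ℤ) - (padicValNat p (8 * c.den) : ℤ))
    (by exact_mod_cast Nat.log_mono_right hNK)
    (fun l => val_taylor_qf n hi l) (fun j => ?_)).mono (le_of_eq (by ring))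
  refine (val_gs (p := p) c (N := N) (n := n - 1) (by omega) (by omega) j).mono (le_of_eq (by ring))

end MP_a3a416_nt.SJ
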