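import Pool.Agent.Lib.MP_a3a416_nt.SJ.QCoef

/-!
# SJ-TwoPoly
The products `e_j = ∏_{l<j} (X - (r + 2l))` (`r = 0`: even nodes, `r = 1`: odd nodes): integer expansion of the
monomials, 2-adic valuation of the Taylor coefficients at the nodes `n ≡ r` mod 2.
-/

open Polynomial Finset

namespace MP_a3a416_nt.SJ

/-- `∏_{l<j} (X - (r + 2l))` over `ℤ`. -/
noncomputable def EZ (r : ℤ) (j : ℕ) : ℤ[X] := ∏ l ∈ range j, (X - C (r + 2 * (l : ℤ)))

theorem EZ_succ (r : ℤ) (j : ℕ) : EZ r (j + 1) = EZ r j * (X - C (r + 2 * (j : ℤ))) := by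
  rw [EZ, Finset.prod_range_succ]; rfl

theorem expand_EZ (r : ℤ) (i : ℕ) : ∃ a : ℕ → ℤ, (∀ j, i < j → a j = 0) ∧
    ∀ K, i < K → (X : ℤ[X]) ^ i = ∑ j ∈ range K, C (a j) * EZ r j := by
  induction i with
  | zero =>
    refine ⟨fun j => if j = 0 then 1 else 0, fun j hj => if_neg (by omega), fun K hK => ?_⟩
    rw [Finset.sum_eq_single 0]
    · simp [EZ]
    · intro j _ hj
      simp [hj]
    · intro h
      exact absurd (Finset.mem_range.2 hK) h
  | succ i ih =>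
    obtain ⟨a, ha0, ha⟩ := ih
    refine ⟨fun j => (if j = 0 then 0 else a (j - 1)) + (r + 2 * (j : ℤ)) * a j, ?_, ?_⟩
    · intro j hj
      have h1 : j ≠ 0 := by omega
      simp only [h1, if_false]
      rw [ha0 (j - 1) (by omega), ha0 j (by omega)]
      ring
    · intro K hK
      obtain ⟨K, rfl⟩ : ∃ K', K = K' + 1 := ⟨K - 1, by omega⟩
      have hK' : i < K := by omega
      have h1 : ∑ j ∈ range (K + 1), C ((if j = 0 then 0 else a (j - 1)) + (r + 2 * (j : ℤ)) * a j) * EZ r j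
          = ∑ j ∈ range (K + 1), C (if j = 0 then 0 else a (j - 1)) * EZ r j
            + ∑ j ∈ range (K + 1), C ((r + 2 * (j : ℤ)) * a j) * EZ r j := by
        rw [← Finset.sum_add_distrib]
        refine Finset.sum_congr rfl fun j _ => ?_
        rw [C_add, add_mul]
      rw [h1, Finset.sum_range_succ' (fun j => C (if j = 0 then 0 else a (j - 1)) * EZ r j),
        Finset.sum_range_succ (fun j => C ((r + 2 * (j : ℤ)) * a j) * EZ r j), ha0 K hK']
      simp only [if_true, Nat.succ_ne_zero, if_false, Nat.add_sub_cancel, C_0, zero_mul, add_zero, mul_zero]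
      rw [← Finset.sum_add_distrib, pow_succ, ha K hK', Finset.sum_mul]
      refine Finset.sum_congr rfl fun j _ => ?_
      rw [EZ_succ, C_mul]
      ring

/-- the coefficients of `X^i` in the basis `EZ r`. -/
noncomputable def aZ (r : ℤ) (i : ℕ) : ℕ → ℤ := (expand_EZ r i).choose

theorem aZ_spec (r : ℤ) {i K : ℕ} (h : i < K) :
    (X : ℤ[X]) ^ i = ∑ j ∈ range K, C (aZ r i j) * EZ r j := (expand_EZ r i).choose_spec.2 K h

/-- the basis over `ℚ`. -/
noncomputable def EQ (r : ℤ) (j : ℕ) : ℚ[X] := (EZ r j).map (Int.castRingHom ℚ)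

theorem X_pow_eq (r : ℤ) {i K : ℕ} (h : i < K) :
    (X : ℚ[X]) ^ i = ∑ j ∈ range K, C ((aZ r i j : ℤ) : ℚ) * EQ r j := by
  have h1 := congrArg (Polynomial.map (Int.castRingHom ℚ)) (aZ_spec r h)
  rw [Polynomial.map_pow, map_X, Polynomial.map_sum] at h1
  rw [h1]
  refine Finset.sum_congr rfl fun j _ => ?_
  rw [Polynomial.map_mul, map_C, EQ]
  simp

theorem taylor_EQ (r m : ℤ) (j : ℕ) :
    taylor ((r + 2 * m : ℤ) : ℚ) (EQ r j)
      = (∏ l ∈ range j, (C (1 : ℤ) * X + C (2 * (m - (l : ℤ))))).map (Int.castRingHom ℚ) := by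
  unfold EQ EZ
  rw [Polynomial.map_prod, Polynomial.map_prod, taylor_apply, Polynomial.prod_comp]
  refine Finset.prod_congr rfl fun l _ => ?_
  have hA : ((X - C (r + 2 * (l : ℤ)) : ℤ[X]).map (Int.castRingHom ℚ))
      = X - C (((r + 2 * (l : ℤ) : ℤ)) : ℚ) := by
    rw [Polynomial.map_sub, map_X, map_C]; rfl
  have hB : ((C (1 : ℤ) * X + C (2 * (m - (l : ℤ))) : ℤ[X]).map (Int.castRingHom ℚ))
      = X + C (((2 * (m - (l : ℤ)) : ℤ)) : ℚ) := by
    rw [C_1, one_mul, Polynomial.map_add, map_X, map_C]; rfl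
  rw [hA, hB, sub_comp, X_comp, C_comp, add_sub_assoc, ← C_sub]
  congr 2
  push_cast
  ring

theorem adm_two (m : ℤ) (j L : ℕ) :
    BB.Adm 2 L (fun l => j / 2 ^ (l - 1)) (∏ l ∈ range j, (C (1 : ℤ) * X + C (2 * (m - (l : ℤ))))) := by
  have h := BB.Adm.prod (q := 2) (L := L) (range j)
    (fun (i : ℕ) l => if ((2 : ℕ) : ℤ) ^ l ∣ 2 * (m - i) then 1 else 0)
    (fun i => C (1 : ℤ) * X + C (2 * (m - (i : ℤ)))) (fun i _ => BB.Adm.linear 2 L (2 * (m - i)) 1)
  refine BB.Adm.mono h ?_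
  intro l hl
  obtain ⟨l, rfl⟩ : ∃ l', l = l' + 1 := ⟨l - 1, by omega⟩
  have h1 := BB.count_dvd_ge j (2 ^ l) (Nat.one_le_pow _ _ (by norm_num)) m
  rw [card_filter] at h1
  rw [Nat.add_sub_cancel]
  refine h1.trans (le_of_eq (Finset.sum_congr rfl fun i _ => ?_))
  have h2 : (((2 ^ l : ℕ) : ℤ) ∣ m - i) ↔ (((2 : ℕ) : ℤ) ^ (l + 1) ∣ 2 * (m - i)) := by
    rw [pow_succ, mul_comm (((2 : ℕ) : ℤ) ^ l)]
    push_cast
    exact (mul_dvd_mul_iff_left (by norm_num : (2 : ℤ) ≠ 0)).symm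
  by_cases h3 : ((2 ^ l : ℕ) : ℤ) ∣ m - i
  · rw [if_pos h3, if_pos (h2.1 h3)]
  · rw [if_neg h3, if_neg (fun h4 => h3 (h2.2 h4))]

theorem val_taylor_EQ (r m : ℤ) {j K : ℕ} (hj : j ≤ K) (k : ℕ) :
    val 2 ((taylor ((r + 2 * m : ℤ) : ℚ) (EQ r j)).coeff k)
      (-(k * ((Nat.log 2 K : ℤ) + 1)) + ((j : ℤ) + (padicValNat 2 j.factorial : ℤ))) := by
  have hjK : j < 2 ^ (Nat.log 2 K + 1) :=
    lt_of_le_of_lt hj (Nat.lt_pow_succ_log_self (by norm_num) K)
  rw [taylor_EQ]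
  refine val_of_adm (L := Nat.log 2 K + 1) (adm_two m j _) k ?_
  rw [padicVal_factorial_eq (p := 2) hjK, Finset.sum_sub_distrib]
  have h1 : ∑ l ∈ Icc 1 (Nat.log 2 K + 1), (((j / 2 ^ (l - 1) : ℕ) : ℤ))
      = (j : ℤ) + ∑ l ∈ Icc 1 (Nat.log 2 K), ((j / 2 ^ l : ℕ) : ℤ) := by
    have h2 : Icc 1 (Nat.log 2 K + 1) = Ico 1 (Nat.log 2 K + 2) := by
      ext x; simp only [mem_Icc, mem_Ico]; omega
    have h3 : Icc 1 (Nat.log 2 K) = Ico 1 (Nat.log 2 K + 1) := by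
      ext x; simp only [mem_Icc, mem_Ico]; omega
    rw [h2, h3, Finset.sum_Ico_eq_sum_range, Finset.sum_Ico_eq_sum_range]
    rw [show Nat.log 2 K + 2 - 1 = (Nat.log 2 K + 1 - 1) + 1 by omega, Finset.sum_range_succ']
    simp only [Nat.add_sub_cancel_left, add_zero, Nat.sub_self, pow_zero, Nat.div_one]
    rw [add_comm]
    congr 1
    refine Finset.sum_congr rfl fun x _ => ?_
    rw [add_comm 1 x]
  rw [h1]
  simp
  linarith

/-- `d_j = j + v_2(j!)` is strictly increasing. -/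
theorem dj_strictMono : StrictMono (fun j : ℕ => (j : ℤ) + (padicValNat 2 j.factorial : ℤ)) := by
  apply strictMono_nat_of_lt_succ
  intro j
  have h1 : padicValNat 2 j.factorial ≤ padicValNat 2 (j + 1).factorial :=
    (padicValNat_dvd_iff_le (Nat.factorial_ne_zero _)).1
      (pow_padicValNat_dvd.trans (Nat.factorial_dvd_factorial (by omega)))
  have h2 : (padicValNat 2 j.factorial : ℤ) ≤ (padicValNat 2 (j + 1).factorial : ℤ) := by
    exact_mod_cast h1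
  show (j : ℤ) + (padicValNat 2 j.factorial : ℤ)
    < ((j + 1 : ℕ) : ℤ) + (padicValNat 2 (j + 1).factorial : ℤ)
  rw [Nat.cast_succ]
  linarith

end MP_a3a416_nt.SJ
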