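import Pool.Agent.Lib.MP_a3a416_nt.BB.ZShift
import Pool.Agent.Lib.MP_a3a416_nt.BB.ZReg
import Pool.Agent.Lib.MP_a3a416_nt.BB.ZFirst

/-!
# SJ-ZBase
Zero estimate of the design J = 1, part 1: rational functions and the shift `x ↦ x + 1`
(`sh g = -g` implies `g = 0`, 2-periodic functions are constant, the pole lemma), Cramer's rule with
column degrees, counting zeros at integers.
-/

namespace MP_a3a416_nt.SJ

open Polynomial BBZ

/-! ## the shift -/

theorem alg_inj : Function.Injective (algebraMap ℚ[X] (RatFunc ℚ)) := RatFunc.algebraMap_injective ℚ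

theorem alg_ne {p : ℚ[X]} (hp : p ≠ 0) : algebraMap ℚ[X] (RatFunc ℚ) p ≠ 0 := fun h =>
  hp ((map_eq_zero_iff _ alg_inj).1 h)

/-- a square root of a constant is a constant -/
theorem const_of_sq (g : RatFunc ℚ) (c : ℚ) (h : g * g = algebraMap ℚ[X] (RatFunc ℚ) (C c)) :
    ∃ r : ℚ, g = algebraMap ℚ[X] (RatFunc ℚ) (C r) := by
  obtain ⟨p, q, hq, hg⟩ := IsFractionRing.div_surjective (A := ℚ[X]) g
  have hq0 : q ≠ 0 := nonZeroDivisors.ne_zero hq
  have hq0' := alg_ne hq0
  have h1 : p * p = C c * (q * q) := by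
    apply alg_inj
    rw [map_mul, map_mul, map_mul, ← h, ← hg]
    field_simp
  have h2 : p.leadingCoeff * p.leadingCoeff = c * (q.leadingCoeff * q.leadingCoeff) := by
    have := congrArg leadingCoeff h1
    rwa [leadingCoeff_mul, leadingCoeff_mul, leadingCoeff_mul, leadingCoeff_C] at this
  have hlq : q.leadingCoeff ≠ 0 := leadingCoeff_ne_zero.2 hq0
  set r : ℚ := p.leadingCoeff / q.leadingCoeff with hr
  have hc : c = r * r := by
    rw [hr]
    field_simp
    linear_combination -h2
  have h3 : (p - C r * q) * (p + C r * q) = 0 := by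
    have h4 : (C c : ℚ[X]) = C r * C r := by rw [hc, C_mul]
    rw [h4] at h1
    linear_combination h1
  rcases mul_eq_zero.1 h3 with h4 | h4
  · refine ⟨r, ?_⟩
    rw [← hg, sub_eq_zero.1 h4, map_mul]
    field_simp
  · refine ⟨-r, ?_⟩
    rw [← hg, eq_neg_of_add_eq_zero_left h4, C_neg, map_neg, map_mul, map_neg]
    field_simp

theorem sh_C (r : ℚ) : sh (algebraMap ℚ[X] (RatFunc ℚ) (C r)) = algebraMap ℚ[X] (RatFunc ℚ) (C r) := by
  rw [sh_algebraMap, taylor_C]

theorem sh_inj : Function.Injective sh := sh.injective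

/-- an anti-invariant rational function vanishes -/
theorem sh_neg (g : RatFunc ℚ) (h : sh g = -g) : g = 0 := by
  obtain ⟨c, hc⟩ := sh_const (g * g) (by rw [map_mul, h]; ring)
  obtain ⟨r, hr⟩ := const_of_sq g c hc
  have h1 : g = -g := by
    conv_lhs => rw [hr, ← sh_C, ← hr, h]
  have h2 : (2 : RatFunc ℚ) * g = 0 := by linear_combination h1
  rcases mul_eq_zero.1 h2 with h3 | h3
  · exact absurd h3 two_ne_zero
  · exact h3

/-- 2-periodic implies 1-periodic -/
theorem sh_sh (g : RatFunc ℚ) (h : sh (sh g) = g) : sh g = g := by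
  have h1 := sh_neg (g - sh g) (by rw [map_sub, h]; ring)
  exact (sub_eq_zero.1 h1).symm

/-! ## poles -/

theorem reg_of_sh {x : ℚ} {f : RatFunc ℚ} (h : Reg x (sh f)) : Reg (x + 1) f := by
  obtain ⟨p, q, hq, e⟩ := h
  refine ⟨taylor (-1) p, taylor (-1) q, ?_, ?_⟩
  · rw [taylor_eval]
    simpa using hq
  · apply sh_inj
    rw [map_mul, sh_algebraMap, sh_algebraMap, taylor_taylor, taylor_taylor]
    simpa using e

theorem reg_sh {x : ℚ} {f : RatFunc ℚ} (h : Reg (x + 1) f) : Reg x (sh f) := by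
  have := Reg.iterate (x := x) (f := f) 1 (by simpa using h)
  simpa using this

/-- `1/(x+1)²` -/
noncomputable def rr : RatFunc ℚ := (algebraMap ℚ[X] (RatFunc ℚ) ((X + 1) ^ 2))⁻¹

theorem rr_reg (x : ℚ) (hx : x ≠ -1) : Reg x rr := by
  unfold rr
  refine Reg.inv ?_
  simp only [eval_pow, eval_add, eval_X, eval_one]
  exact pow_ne_zero 2 (fun h => hx (by linarith))

theorem rr_not_reg : ¬ Reg (-1) rr := by
  intro h
  have h1 : rr = algebraMap ℚ[X] (RatFunc ℚ) (C 1)
      / (algebraMap ℚ[X] (RatFunc ℚ) (X - C (-1))) ^ 2 := by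
    unfold rr
    rw [C_1, map_one, one_div, map_pow, C_neg, C_1, sub_neg_eq_add]
  rw [h1] at h
  exact one_ne_zero (Reg.double_pole h)

/-- POLE LEMMA: `g(x+1) + e g(x) = 1/(x+1)²` has no solution in `ℚ(x)` (`e ≠ 0`) -/
theorem no_solution (g : RatFunc ℚ) (e : ℚ) (he : e ≠ 0)
    (h : sh g + algebraMap ℚ[X] (RatFunc ℚ) (C e) * g = rr) : False := by
  obtain ⟨M, hM⟩ := Reg.eventually (-1) g
  have hCe : algebraMap ℚ[X] (RatFunc ℚ) (C e) ≠ 0 := alg_ne (by rwa [Ne, C_eq_zero])
  have hg : g = algebraMap ℚ[X] (RatFunc ℚ) (C e⁻¹) * (rr + -sh g) := by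
    have h1 : algebraMap ℚ[X] (RatFunc ℚ) (C e⁻¹) * algebraMap ℚ[X] (RatFunc ℚ) (C e) = 1 := by
      rw [← map_mul, ← C_mul, inv_mul_cancel₀ he, C_1, map_one]
    rw [← h]
    linear_combination -g * h1
  -- descending
  have hdown : ∀ j : ℕ, j ≤ M → Reg (-1 + ((M - j : ℕ) + 1 : ℕ)) g := by
    intro j
    induction j with
    | zero =>
      intro _
      exact (hM (M + 1) (by omega)).1
    | succ j ih =>
      intro hj
      have h1 := ih (by omega)
      have e1 : M - j = (M - (j + 1)) + 1 := by omega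
      rw [e1] at h1
      set m : ℕ := M - (j + 1)
      rw [hg]
      refine (Reg.poly _ _).mul (Reg.add (rr_reg _ ?_) (Reg.neg (reg_sh ?_)))
      · intro h2
        have h3 : ((m + 1 : ℕ) : ℚ) = 0 := by linarith
        have h4 : m + 1 = 0 := by exact_mod_cast h3
        omega
      · have h2 : (-1 : ℚ) + ((m + 1 : ℕ) : ℚ) + 1 = -1 + ((m + 1 + 1 : ℕ) : ℚ) := by push_cast; ring
        rw [h2]
        exact h1
  have hup : ∀ j : ℕ, j ≤ M → Reg (-1 - ((M - j : ℕ) : ℕ)) g := by
    intro j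
    induction j with
    | zero =>
      intro _
      exact (hM M le_rfl).2
    | succ j ih =>
      intro hj
      have h1 := ih (by omega)
      have e1 : M - j = (M - (j + 1)) + 1 := by omega
      rw [e1] at h1
      set m : ℕ := M - (j + 1)
      have h2 : Reg (-1 - ((m + 1 : ℕ) : ℚ)) (sh g) := by
        have h3 : sh g = rr + -(algebraMap ℚ[X] (RatFunc ℚ) (C e) * g) := by
          rw [← h]; ring
        rw [h3]
        refine Reg.add (rr_reg _ ?_) (Reg.neg ((Reg.poly _ _).mul h1))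
        intro h4
        have h5 : ((m + 1 : ℕ) : ℚ) = 0 := by linarith
        have h6 : m + 1 = 0 := by exact_mod_cast h5
        omega
      have h3 := reg_of_sh h2
      have h4 : (-1 : ℚ) - ((m + 1 : ℕ) : ℚ) + 1 = -1 - (m : ℚ) := by push_cast; ring
      rw [h4] at h3
      exact h3
  have h0 : Reg (-1 + 1) g := by
    have := hdown M le_rfl
    simpa using this
  have h1 : Reg (-1) g := by
    have := hup M le_rfl
    simpa using this
  apply rr_not_reg
  rw [← h]
  exact Reg.add (reg_sh h0) ((Reg.poly _ _).mul h1)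

/-! ## Cramer's rule -/

private theorem cramer_columns {K : Type*} [Field K] {ι : Type*} [Fintype ι] (k : ℕ)
    (A : Matrix (Fin k) ι K) (hA : LinearIndependent K A.row) :
    ∃ f : Fin k → ι, (Matrix.of fun (j l : Fin k) => A j (f l)).det ≠ 0 := by
  classical
  have hrank : A.rank = k := by
    rw [hA.rank_matrix, Fintype.card_fin]
  obtain ⟨κ, a, ha, hspan, hli⟩ := exists_linearIndependent' K A.col
  have : Finite κ := Finite.of_injective a ha
  have : Fintype κ := Fintype.ofFinite κ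
  have hcard : Fintype.card κ = k := by
    rw [← finrank_span_eq_card hli, hspan, ← Matrix.rank_eq_finrank_span_cols, hrank]
  let e : Fin k ≃ κ := (Fintype.equivFinOfCardEq hcard).symm
  refine ⟨a ∘ e, ?_⟩
  have hli2 : LinearIndependent K
      (Matrix.of fun (j l : Fin k) => A j ((a ∘ e) l)).col := by
    have := hli.comp e e.injective
    exact this
  have hu := Matrix.linearIndependent_cols_iff_isUnit.1 hli2
  exact ((Matrix.isUnit_iff_isUnit_det _).1 hu).ne_zero

/-- Cramer's rule with row and column degrees; the minor is taken in the columns `emb i`. -/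
theorem cramerE {ι κ : Type*} [Fintype ι] [Fintype κ] [DecidableEq κ] (k : ℕ) (ρ : Fin k → ι → ℚ[X])
    (emb : κ → ι)
    (hli : LinearIndependent (RatFunc ℚ)
      (fun j : Fin k => fun i : κ => algebraMap ℚ[X] (RatFunc ℚ) (ρ j (emb i))))
    (D : Fin k → ℕ) (E : κ → ℕ) (hD : ∀ j i, (ρ j (emb i)).natDegree ≤ D j + E i)
    (w : ι → ℚ[X])
    (hw : (fun i : ι => algebraMap ℚ[X] (RatFunc ℚ) (w i)) ∈ Submodule.span (RatFunc ℚ)
      (Set.range fun j : Fin k => fun i : ι => algebraMap ℚ[X] (RatFunc ℚ) (ρ j i))) :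
    ∃ (δ : ℚ[X]) (G : Fin k → ℚ[X]), δ ≠ 0 ∧ δ.natDegree ≤ ∑ j, D j + ∑ i, E i ∧
      ∀ i, δ * w i = ∑ j, G j * ρ j i := by
  classical
  set φ : ℚ[X] →+* RatFunc ℚ := algebraMap ℚ[X] (RatFunc ℚ) with hφ
  have hinj : Function.Injective φ := RatFunc.algebraMap_injective ℚ
  obtain ⟨f, hf⟩ := cramer_columns k (Matrix.of fun j i => φ (ρ j (emb i))) hli
  have hfinj : Function.Injective f := by
    intro a b hab
    by_contra hne
    apply hf
    refine Matrix.det_zero_of_column_eq hne fun j => ?_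
    simp only [Matrix.of_apply, hab]
  set M : Matrix (Fin k) (Fin k) ℚ[X] := Matrix.of fun j l => ρ j (emb (f l)) with hM
  have hMφ : φ.mapMatrix M
      = Matrix.of fun (j l : Fin k) => (Matrix.of fun (j : Fin k) (i : κ) => φ (ρ j (emb i))) j (f l) := by
    ext j l
    simp [hM]
  have hdet : φ M.det ≠ 0 := by
    rw [RingHom.map_det, hMφ]
    exact hf
  have hdet0 : M.det ≠ 0 := fun h => hdet (by rw [h, map_zero])
  obtain ⟨g, hg⟩ := (Submodule.mem_span_range_iff_exists_fun (RatFunc ℚ)).1 hw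
  have hgi : ∀ i, φ (w i) = ∑ j, g j * φ (ρ j i) := by
    intro i
    have := congrFun hg i
    simp only [Finset.sum_apply, Pi.smul_apply, smul_eq_mul] at this
    exact this.symm
  let G : Fin k → ℚ[X] := fun j => ∑ l, w (emb (f l)) * M.adjugate l j
  have hG : ∀ j, φ (G j) = φ M.det * g j := by
    intro j
    have h1 : ∀ l j', φ (ρ j' (emb (f l))) = φ (M j' l) := fun l j' => rfl
    calc φ (G j) = ∑ l, φ (w (emb (f l))) * φ (M.adjugate l j) := by
          simp only [G, map_sum, map_mul]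
      _ = ∑ l, (∑ j', g j' * φ (M j' l)) * φ (M.adjugate l j) := by
          refine Finset.sum_congr rfl fun l _ => ?_
          rw [hgi]
          rfl
      _ = ∑ j', g j' * φ (∑ l, M j' l * M.adjugate l j) := by
          simp only [map_sum, map_mul, Finset.sum_mul, Finset.mul_sum]
          rw [Finset.sum_comm]
          refine Finset.sum_congr rfl fun _ _ => Finset.sum_congr rfl fun _ _ => by ring
      _ = ∑ j', g j' * φ ((M * M.adjugate) j' j) := by
          simp only [Matrix.mul_apply]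
      _ = φ M.det * g j := by
          rw [Matrix.mul_adjugate]
          rw [Finset.sum_eq_single j]
          · simp [Matrix.smul_apply, mul_comm]
          · intro b _ hb
            simp [Matrix.smul_apply, Matrix.one_apply_ne hb]
          · intro h
            exact absurd (Finset.mem_univ j) h
  refine ⟨M.det, G, hdet0, ?_, ?_⟩
  · rw [Matrix.det_apply]
    refine natDegree_sum_le_of_forall_le _ _ fun σ _ => ?_
    have h1 : (Equiv.Perm.sign σ • ∏ i, M (σ i) i).natDegree ≤ (∏ i, M (σ i) i).natDegree := by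
      rcases Int.units_eq_one_or (Equiv.Perm.sign σ) with h | h
      · rw [h, one_smul]
      · rw [h, Units.neg_smul, one_smul, natDegree_neg]
    refine h1.trans ((natDegree_prod_le _ _).trans ?_)
    calc ∑ i, (M (σ i) i).natDegree ≤ ∑ i, (D (σ i) + E (f i)) :=
          Finset.sum_le_sum fun i _ => hD (σ i) (f i)
      _ = ∑ j, D j + ∑ i, E (f i) := by
          rw [Finset.sum_add_distrib, Equiv.sum_comp σ D]
      _ ≤ ∑ j, D j + ∑ i, E i := by
          refine Nat.add_le_add_left ?_ _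
          rw [← Finset.sum_image (f := E) (s := Finset.univ) (g := f) (fun a _ b _ h => hfinj h)]
          exact Finset.sum_le_sum_of_subset (Finset.subset_univ _)
  · intro i
    apply hinj
    rw [map_mul, hgi, map_sum, Finset.mul_sum]
    refine Finset.sum_congr rfl fun j _ => ?_
    rw [map_mul, hG]
    ring

/-! ## counting zeros -/

theorem countZ (δ : ℚ[X]) (hδ : δ ≠ 0) (S : Finset ℤ) (t : ℕ)
    (h : ∀ n ∈ S, PowerSeries.X ^ t ∣ ((taylor (n : ℚ) δ : ℚ[X]) : PowerSeries ℚ)) :
    S.card * t ≤ δ.natDegree := by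
  have h1 : ∀ n ∈ S, (X - C (n : ℚ)) ^ t ∣ δ := by
    intro n hn
    have h2 : (X : ℚ[X]) ^ t ∣ taylor (n : ℚ) δ := by
      rw [Polynomial.X_pow_dvd_iff]
      intro d hd
      have h3 := (PowerSeries.X_pow_dvd_iff.1 (h n hn)) d hd
      rwa [Polynomial.coeff_coe] at h3
    obtain ⟨g, hg⟩ := h2
    refine ⟨taylor (-(n : ℚ)) g, ?_⟩
    have h4 : taylor (-(n : ℚ)) (taylor (n : ℚ) δ) = δ := by
      rw [taylor_taylor]
      simp
    rw [← h4, hg, taylor_mul, taylor_pow, taylor_X]
    simp [sub_eq_add_neg]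
  have h5 : (∏ n ∈ S, (X - C (n : ℚ)) ^ t) ∣ δ := by
    refine Finset.prod_dvd_of_coprime ?_ fun n hn => h1 n hn
    intro i _ j _ hij
    refine IsCoprime.pow ?_
    exact Polynomial.isCoprime_X_sub_C_of_isUnit_sub
      (isUnit_iff_ne_zero.2 (sub_ne_zero.2 (by exact_mod_cast hij)))
  have h6 := natDegree_le_of_dvd h5 hδ
  rw [natDegree_prod_of_monic _ _ (fun n _ => (monic_X_sub_C _).pow t)] at h6
  have h7 : ∀ n ∈ S, ((X - C (n : ℚ)) ^ t).natDegree = t := by
    intro n _
    rw [natDegree_pow, natDegree_X_sub_C, mul_one]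
  rw [Finset.sum_congr rfl h7, Finset.sum_const, smul_eq_mul] at h6
  exact h6

end MP_a3a416_nt.SJ
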