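import Pool.Agent.Lib.MP_a3a416_nt.SJ.ZBase

/-!
# SJ-Zero
The zero estimate of the design J = 1 (`SJ53_proof.md`, section 1), for an arbitrary sequence of power
series `s` with `(n+u)² s(n) = (n+u)² s(n-2) + n`.
-/

namespace MP_a3a416_nt.SJ

open Polynomial BBZ

/-- indicator of the odd integers -/
noncomputable def oo (n : ℤ) : ℚ := if Odd n then 1 else 0

theorem oo_succ (n : ℤ) : oo (n + 1) = 1 - oo n := by
  unfold oo
  rcases Int.even_or_odd n with h | h
  · rw [if_pos h.add_one, if_neg (by rwa [Int.not_odd_iff_even]), sub_zero]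
  · rw [if_neg (by rw [Int.not_odd_iff_even]; exact h.add_one), if_pos h, sub_self]

/-- the jet at `n` of the function attached to `P = (P_0, P_u, P_s, P_t, P_o)` -/
noncomputable def F5 (s : ℤ → PowerSeries ℚ) (n : ℤ) (P : Fin 5 → ℚ[X]) : PowerSeries ℚ :=
  ((taylor (n : ℚ) (P 0) : ℚ[X]) : PowerSeries ℚ)
    + PowerSeries.X * ((taylor (n : ℚ) (P 1) : ℚ[X]) : PowerSeries ℚ)
    + s n * ((taylor (n : ℚ) (P 2) : ℚ[X]) : PowerSeries ℚ)
    + s (n - 1) * ((taylor (n : ℚ) (P 3) : ℚ[X]) : PowerSeries ℚ)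
    + PowerSeries.C (oo n) * ((taylor (n : ℚ) (P 4) : ℚ[X]) : PowerSeries ℚ)

/-- the difference operator -/
noncomputable def tau5 (P : Fin 5 → ℚ[X]) : Fin 5 → ℚ[X] :=
  ![(X + 1) ^ 2 * (taylor 1 (P 0) + taylor 1 (P 4)) + (X + 1) * taylor 1 (P 2),
    (X + 1) ^ 2 * taylor 1 (P 1) - taylor 1 (P 2),
    (X + 1) ^ 2 * taylor 1 (P 3),
    (X + 1) ^ 2 * taylor 1 (P 2),
    -((X + 1) ^ 2 * taylor 1 (P 4))]

private theorem z_taylor (n : ℤ) (p : ℚ[X]) :
    taylor (n : ℚ) (taylor 1 p) = taylor ((n + 1 : ℤ) : ℚ) p := by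
  rw [taylor_taylor]
  push_cast
  rfl

theorem F5_tau (s : ℤ → PowerSeries ℚ)
    (hs : ∀ n : ℤ, (PowerSeries.C (n : ℚ) + PowerSeries.X) ^ 2 * s n =
      (PowerSeries.C (n : ℚ) + PowerSeries.X) ^ 2 * s (n - 2) + PowerSeries.C (n : ℚ))
    (n : ℤ) (P : Fin 5 → ℚ[X]) :
    F5 s n (tau5 P) = (PowerSeries.C ((n + 1 : ℤ) : ℚ) + PowerSeries.X) ^ 2 * F5 s (n + 1) P := by
  have h1 := hs (n + 1)
  rw [show n + 1 - 2 = n - 1 by ring] at h1
  have hX : (((taylor (n : ℚ) (X : ℚ[X])) : ℚ[X]) : PowerSeries ℚ) +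
      (((taylor (n : ℚ) (1 : ℚ[X])) : ℚ[X]) : PowerSeries ℚ) =
      PowerSeries.C ((n + 1 : ℤ) : ℚ) + PowerSeries.X := by
    rw [taylor_X, taylor_one]
    push_cast
    rw [map_add, map_one]
    ring
  have hoo : (PowerSeries.C (oo (n + 1)) : PowerSeries ℚ) = 1 - PowerSeries.C (oo n) := by
    rw [oo_succ, map_sub, map_one]
  unfold F5
  rw [show n + 1 - 1 = n by ring, hoo]
  simp only [tau5, Matrix.cons_val_zero, Matrix.cons_val_one, Matrix.cons_val]
  simp only [map_add, map_sub, map_neg, taylor_mul, taylor_pow, z_taylor, Polynomial.coe_add,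
    Polynomial.coe_sub, Polynomial.coe_neg, Polynomial.coe_mul, Polynomial.coe_pow]
  rw [hX]
  linear_combination (-(((taylor ((n + 1 : ℤ) : ℚ) (P 2)) : ℚ[X]) : PowerSeries ℚ)) * h1

/-- the iterates vanish too, at one point less each time -/
theorem F5_iterate (s : ℤ → PowerSeries ℚ)
    (hs : ∀ n : ℤ, (PowerSeries.C (n : ℚ) + PowerSeries.X) ^ 2 * s n =
      (PowerSeries.C (n : ℚ) + PowerSeries.X) ^ 2 * s (n - 2) + PowerSeries.C (n : ℚ))
    (P : Fin 5 → ℚ[X]) (a b : ℤ) (T : ℕ)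
    (h : ∀ n : ℤ, a ≤ n → n ≤ b → PowerSeries.X ^ T ∣ F5 s n P) (j : ℕ) (n : ℤ) (h1 : a ≤ n)
    (h2 : n + j ≤ b) : PowerSeries.X ^ T ∣ F5 s n (tau5^[j] P) := by
  induction j generalizing n with
  | zero => exact h n h1 (by simpa using h2)
  | succ j ih =>
    rw [Function.iterate_succ_apply', F5_tau s hs]
    exact Dvd.dvd.mul_left (ih (n + 1) (by omega) (by push_cast at h2; omega)) _

/-- column degrees -/
def E5 (K A : ℕ) : Fin 5 → ℕ := ![K - 1, A - 1, A - 1, A - 1, A - 1]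

private theorem tau5_deg (K A : ℕ) (hAK : A ≤ K) (D : ℕ) (P : Fin 5 → ℚ[X])
    (hP : ∀ i, (P i).natDegree ≤ D + E5 K A i) (i : Fin 5) :
    (tau5 P i).natDegree ≤ D + 2 + E5 K A i := by
  have hT : ∀ i, (taylor 1 (P i)).natDegree ≤ D + E5 K A i := fun i => by
    rw [natDegree_taylor]
    exact hP i
  have hX1 : (X + 1 : ℚ[X]).natDegree ≤ 1 := by
    have : (X + 1 : ℚ[X]) = X + C 1 := by simp
    rw [this, natDegree_X_add_C]
  have hX2 : ((X + 1) ^ 2 : ℚ[X]).natDegree ≤ 2 := by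
    refine natDegree_pow_le.trans ?_
    omega
  have h0 := hT 0
  have h1 := hT 1
  have h2 := hT 2
  have h3 := hT 3
  have h4 := hT 4
  simp only [E5, Matrix.cons_val_zero, Matrix.cons_val_one, Matrix.cons_val] at h0 h1 h2 h3 h4
  have hm : ∀ (p q : ℚ[X]) (a b : ℕ), p.natDegree ≤ a → q.natDegree ≤ b → (p * q).natDegree ≤ a + b :=
    fun p q a b hp hq => natDegree_mul_le.trans (Nat.add_le_add hp hq)
  fin_cases i
  · simp only [tau5, E5, Fin.zero_eta, Matrix.cons_val_zero]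
    refine (natDegree_add_le _ _).trans (max_le ?_ ?_)
    · refine (hm _ _ 2 (D + (K - 1)) hX2 ((natDegree_add_le _ _).trans (max_le h0 ?_))).trans ?_
      · omega
      · omega
    · refine (hm _ _ 1 (D + (A - 1)) hX1 h2).trans ?_
      omega
  · simp only [tau5, E5, Fin.mk_one, Matrix.cons_val_one]
    refine (natDegree_sub_le _ _).trans (max_le ?_ ?_)
    · refine (hm _ _ 2 (D + (A - 1)) hX2 h1).trans ?_
      simp only [Matrix.cons_val_zero]
      omega
    · simp only [Matrix.cons_val_zero]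
      omega
  · simp only [tau5, E5, Fin.reduceFinMk, Matrix.cons_val]
    refine (hm _ _ 2 (D + (A - 1)) hX2 h3).trans ?_
    omega
  · simp only [tau5, E5, Fin.reduceFinMk, Matrix.cons_val]
    refine (hm _ _ 2 (D + (A - 1)) hX2 h2).trans ?_
    omega
  · simp only [tau5, E5, Fin.reduceFinMk, Matrix.cons_val]
    rw [natDegree_neg]
    refine (hm _ _ 2 (D + (A - 1)) hX2 h4).trans ?_
    omega

theorem tau5_natDegree (K A : ℕ) (hAK : A ≤ K) (P : Fin 5 → ℚ[X])
    (hP : ∀ i, (P i).natDegree ≤ E5 K A i) (j : ℕ) (i : Fin 5) :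
    (tau5^[j] P i).natDegree ≤ 2 * j + E5 K A i := by
  induction j generalizing i with
  | zero => simpa using hP i
  | succ j ih =>
    rw [Function.iterate_succ_apply']
    have := tau5_deg K A hAK (2 * j) _ ih i
    omega

/-! ## the semilinear operator -/

/-- `x + 1` in `ℚ(x)` -/
noncomputable def xi : RatFunc ℚ := algebraMap ℚ[X] (RatFunc ℚ) (X + 1)

theorem xi_ne : xi ≠ 0 := alg_ne (by
  have : (X + 1 : ℚ[X]) = X + C 1 := by simp
  rw [this]
  exact X_add_C_ne_zero 1)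

theorem rr_eq : rr = (xi ^ 2)⁻¹ := by
  unfold rr xi
  rw [map_pow]

/-- polynomial vectors as vectors of rational functions -/
noncomputable def toK5 (P : Fin 5 → ℚ[X]) : Fin 5 → RatFunc ℚ :=
  fun i => algebraMap ℚ[X] (RatFunc ℚ) (P i)

/-- `Φ = (x+1)⁻² τ` -/
noncomputable def Phi5 (w : Fin 5 → RatFunc ℚ) : Fin 5 → RatFunc ℚ :=
  ![sh (w 0) + sh (w 4) + sh (w 2) * xi⁻¹, sh (w 1) - sh (w 2) * rr, sh (w 3), sh (w 2), -sh (w 4)]

theorem toK5_tau (P : Fin 5 → ℚ[X]) : toK5 (tau5 P) = xi ^ 2 • Phi5 (toK5 P) := by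
  have h := xi_ne
  have hX : algebraMap ℚ[X] (RatFunc ℚ) (X + 1) = xi := rfl
  funext i
  rw [Pi.smul_apply, smul_eq_mul]
  fin_cases i
  · simp only [toK5, tau5, Phi5, Fin.zero_eta, Matrix.cons_val_zero, map_add (algebraMap ℚ[X] (RatFunc ℚ)),
      map_mul, map_pow, sh_algebraMap]
    rw [← map_add (algebraMap ℚ[X] (RatFunc ℚ)) X 1, hX]
    field_simp
  · simp only [toK5, tau5, Phi5, Fin.mk_one, Matrix.cons_val_one, map_sub, map_mul, map_pow,
      sh_algebraMap, hX, rr_eq, Matrix.cons_val_zero]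
    field_simp
  · simp only [toK5, tau5, Phi5, Fin.reduceFinMk, Matrix.cons_val, map_mul, map_pow, sh_algebraMap, hX]
  · simp only [toK5, tau5, Phi5, Fin.reduceFinMk, Matrix.cons_val, map_mul, map_pow, sh_algebraMap, hX]
  · simp only [toK5, tau5, Phi5, Fin.reduceFinMk, Matrix.cons_val, map_neg, map_mul, map_pow,
      sh_algebraMap, hX]
    ring

theorem Phi5_add (w w' : Fin 5 → RatFunc ℚ) : Phi5 (w + w') = Phi5 w + Phi5 w' := by
  funext i
  fin_cases i <;> simp [Phi5] <;> ring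

theorem Phi5_smul (c : RatFunc ℚ) (w : Fin 5 → RatFunc ℚ) : Phi5 (c • w) = sh c • Phi5 w := by
  funext i
  fin_cases i <;> simp [Phi5] <;> ring

theorem Phi5_zero : Phi5 0 = 0 := by
  have h := Phi5_smul 0 0
  rw [zero_smul, map_zero, zero_smul] at h
  exact h

theorem Phi5_sum (k : ℕ) (c : Fin k → RatFunc ℚ) (r : Fin k → Fin 5 → RatFunc ℚ) :
    Phi5 (∑ j, c j • r j) = ∑ j, sh (c j) • Phi5 (r j) := by
  classical
  have : ∀ s : Finset (Fin k), Phi5 (∑ j ∈ s, c j • r j) = ∑ j ∈ s, sh (c j) • Phi5 (r j) := by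
    intro s
    induction s using Finset.induction_on with
    | empty => simp [Phi5_zero]
    | insert a s ha ih => rw [Finset.sum_insert ha, Finset.sum_insert ha, Phi5_add, Phi5_smul, ih]
  exact this _

/-! ## Lemma 1 -/

private theorem vec_ext {w v : Fin 5 → RatFunc ℚ} (h0 : w 0 = v 0) (h1 : w 1 = v 1) (h2 : w 2 = v 2)
    (h3 : w 3 = v 3) (h4 : w 4 = v 4) : w = v := by
  funext i
  fin_cases i
  · exact h0
  · exact h1
  · exact h2
  · exact h3
  · exact h4

/-- the three special vectors -/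
def Special (W : Submodule (RatFunc ℚ) (Fin 5 → RatFunc ℚ)) : Prop :=
  toK5 ![1, 0, 0, 0, 0] ∈ W ∨ (∃ c : ℚ, toK5 ![C c, 1, 0, 0, 0] ∈ W) ∨
    toK5 ![C (-(1 / 2)), 0, 0, 0, 1] ∈ W

private theorem z_e0 (W : Submodule (RatFunc ℚ) (Fin 5 → RatFunc ℚ)) (w : Fin 5 → RatFunc ℚ)
    (hw : w ∈ W) (h0 : w 0 ≠ 0) (h1 : w 1 = 0) (h2 : w 2 = 0) (h3 : w 3 = 0) (h4 : w 4 = 0) :
    Special W := by
  left
  have : toK5 ![1, 0, 0, 0, 0] = (w 0)⁻¹ • w := by
    apply vec_ext
    · simp [toK5, h0]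
    · simp [toK5, h1]
    · simp [toK5, h2]
    · simp [toK5, h3]
    · simp [toK5, h4]
  rw [this]
  exact W.smul_mem _ hw

/-- case A (ii) -/
private theorem z_eu (W : Submodule (RatFunc ℚ) (Fin 5 → RatFunc ℚ)) (hst : ∀ w ∈ W, Phi5 w ∈ W)
    (w : Fin 5 → RatFunc ℚ)
    (hw : w ∈ W) (h1 : w 1 ≠ 0) (h2 : w 2 = 0) (h3 : w 3 = 0) (h4 : w 4 = 0) : Special W := by
  obtain ⟨v, hv⟩ : ∃ v, v = (w 1)⁻¹ • w := ⟨_, rfl⟩
  have hvW : v ∈ W := by rw [hv]; exact W.smul_mem _ hw
  have hv1 : v 1 = 1 := by rw [hv, Pi.smul_apply, smul_eq_mul, inv_mul_cancel₀ h1]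
  have hv2 : v 2 = 0 := by rw [hv, Pi.smul_apply, smul_eq_mul, h2, mul_zero]
  have hv3 : v 3 = 0 := by rw [hv, Pi.smul_apply, smul_eq_mul, h3, mul_zero]
  have hv4 : v 4 = 0 := by rw [hv, Pi.smul_apply, smul_eq_mul, h4, mul_zero]
  have huW : Phi5 v - v ∈ W := W.sub_mem (hst v hvW) hvW
  by_cases h0 : sh (v 0) = v 0
  · obtain ⟨c, hc⟩ := sh_const _ h0
    right; left
    refine ⟨c, ?_⟩
    have : toK5 ![C c, 1, 0, 0, 0] = v := by
      apply vec_ext
      · simp [toK5, hc]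
      · simp [toK5, hv1]
      · simp [toK5, hv2]
      · simp [toK5, hv3]
      · simp [toK5, hv4]
    rw [this]
    exact hvW
  · refine z_e0 W _ huW ?_ ?_ ?_ ?_ ?_
    · simp only [Pi.sub_apply, Phi5, Matrix.cons_val_zero, hv2, hv4, map_zero, add_zero, zero_mul]
      exact sub_ne_zero.2 h0
    · simp [Phi5, hv1, hv2]
    · simp [Phi5, hv2, hv3]
    · simp [Phi5, hv2, hv3]
    · simp [Phi5, hv4]

/-- case B, `(w_s, w_t) = (1, e)`, `e = ±1` -/
private theorem z_caseB (W : Submodule (RatFunc ℚ) (Fin 5 → RatFunc ℚ)) (hst : ∀ w ∈ W, Phi5 w ∈ W)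
    (hB : ∀ w ∈ W, w 2 = 0 → w 3 = 0 → w = 0) (w : Fin 5 → RatFunc ℚ) (hw : w ∈ W)
    (h2 : w 2 = 1) (e : ℚ) (he : e * e = 1)
    (h3 : w 3 = algebraMap ℚ[X] (RatFunc ℚ) (C e)) : False := by
  have he0 : e ≠ 0 := by rintro rfl; simp at he
  have hee : algebraMap ℚ[X] (RatFunc ℚ) (C e) * algebraMap ℚ[X] (RatFunc ℚ) (C e) = 1 := by
    rw [← map_mul, ← C_mul, he, C_1, map_one]
  have hu : Phi5 w - algebraMap ℚ[X] (RatFunc ℚ) (C e) • w = 0 := by
    apply hB
    · exact W.sub_mem (hst w hw) (W.smul_mem _ hw)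
    · simp only [Pi.sub_apply, Phi5, Matrix.cons_val, Pi.smul_apply, smul_eq_mul, h2, h3, sh_C]
      ring
    · simp only [Pi.sub_apply, Phi5, Matrix.cons_val, Pi.smul_apply, smul_eq_mul, h2, h3, map_one, hee]
      ring
  have h1 := congrFun hu 1
  simp only [Pi.sub_apply, Phi5, Matrix.cons_val_one, Matrix.cons_val_zero, Pi.smul_apply, smul_eq_mul, h2, map_one,
    one_mul, Pi.zero_apply] at h1
  refine no_solution (w 1) (-e) (neg_ne_zero.2 he0) ?_
  rw [C_neg, map_neg]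
  linear_combination h1

theorem lemma1 (W : Submodule (RatFunc ℚ) (Fin 5 → RatFunc ℚ)) (hW : W ≠ ⊥)
    (hst : ∀ w ∈ W, Phi5 w ∈ W) : Special W := by
  by_cases hB : ∀ w ∈ W, w 2 = 0 → w 3 = 0 → w = 0
  · -- case B
    exfalso
    obtain ⟨w, hw, hw0⟩ := (Submodule.ne_bot_iff W).1 hW
    have hΦ := hst w hw
    by_cases hdet : w 2 * sh (w 2) - w 3 * sh (w 3) = 0
    · -- dependent
      have ha : w 2 ≠ 0 := by
        intro ha
        have hb : w 3 ≠ 0 := fun hb => hw0 (hB w hw ha hb)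
        rw [ha, zero_mul, zero_sub, neg_eq_zero] at hdet
        rcases mul_eq_zero.1 hdet with h | h
        · exact hb h
        · exact hb (sh_inj (by rw [h, map_zero]))
      obtain ⟨b, hb⟩ : ∃ b, b = (w 2)⁻¹ * w 3 := ⟨_, rfl⟩
      have hsa : sh (w 2) ≠ 0 := fun h => ha (sh_inj (by rw [h, map_zero]))
      have hbb : b * sh b = 1 := by
        rw [hb, map_mul, map_inv₀]
        field_simp
        linear_combination -hdet
      have hb0 : b ≠ 0 := by rintro rfl; simp at hbb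
      have hsb0 : sh b ≠ 0 := by
        intro h
        rw [h, mul_zero] at hbb
        exact zero_ne_one hbb
      have hbb2 : sh b * sh (sh b) = 1 := by rw [← map_mul, hbb, map_one]
      have hper : sh (sh b) = b := by
        apply mul_left_cancel₀ hsb0
        rw [hbb2, mul_comm, hbb]
      have hsh := sh_sh b hper
      obtain ⟨c, hc⟩ := sh_const b hsh
      have hcc : c * c = 1 := by
        rw [hsh, hc, ← map_mul, ← C_mul] at hbb
        have h1 : algebraMap ℚ[X] (RatFunc ℚ) (C (c * c)) = algebraMap ℚ[X] (RatFunc ℚ) (C 1) := by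
          rw [hbb, C_1, map_one]
        exact C_injective (alg_inj h1)
      refine z_caseB W hst hB ((w 2)⁻¹ • w) (W.smul_mem _ hw) ?_ c hcc ?_
      · rw [Pi.smul_apply, smul_eq_mul, inv_mul_cancel₀ ha]
      · rw [Pi.smul_apply, smul_eq_mul, ← hb, hc]
    · -- independent
      refine z_caseB W hst hB ((w 2 * sh (w 2) - w 3 * sh (w 3))⁻¹ •
        ((sh (w 2) - sh (w 3)) • w + (w 2 - w 3) • Phi5 w)) (W.smul_mem _ (W.add_mem
          (W.smul_mem _ hw) (W.smul_mem _ hΦ))) ?_ 1 (by norm_num) ?_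
      · simp only [Pi.smul_apply, Pi.add_apply, smul_eq_mul, Phi5, Matrix.cons_val]
        rw [inv_mul_eq_one₀ hdet]
        ring
      · simp only [Pi.smul_apply, Pi.add_apply, smul_eq_mul, Phi5, Matrix.cons_val, map_one]
        rw [inv_mul_eq_one₀ hdet]
        ring
  · -- case A
    push Not at hB
    obtain ⟨w, hw, h2, h3, hw0⟩ := hB
    by_cases h4 : w 4 = 0
    · by_cases h1 : w 1 = 0
      · refine z_e0 W w hw ?_ h1 h2 h3 h4
        intro h0
        apply hw0
        apply vec_ext <;> simp [*]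
      · exact z_eu W hst w hw h1 h2 h3 h4
    · obtain ⟨v, hv⟩ : ∃ v, v = (w 4)⁻¹ • w := ⟨_, rfl⟩
      have hvW : v ∈ W := by rw [hv]; exact W.smul_mem _ hw
      have hv4 : v 4 = 1 := by rw [hv, Pi.smul_apply, smul_eq_mul, inv_mul_cancel₀ h4]
      have hv2 : v 2 = 0 := by rw [hv, Pi.smul_apply, smul_eq_mul, h2, mul_zero]
      have hv3 : v 3 = 0 := by rw [hv, Pi.smul_apply, smul_eq_mul, h3, mul_zero]
      have huW : Phi5 v + v ∈ W := W.add_mem (hst v hvW) hvW
      have hu2 : (Phi5 v + v) 2 = 0 := by simp [Phi5, hv2, hv3]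
      have hu3 : (Phi5 v + v) 3 = 0 := by simp [Phi5, hv2, hv3]
      have hu4 : (Phi5 v + v) 4 = 0 := by simp [Phi5, hv4]
      have hu1 : (Phi5 v + v) 1 = sh (v 1) + v 1 := by simp [Phi5, hv2]
      have hu0 : (Phi5 v + v) 0 = sh (v 0) + 1 + v 0 := by simp [Phi5, hv2, hv4]
      by_cases h1 : (Phi5 v + v) 1 = 0
      · by_cases h0 : (Phi5 v + v) 0 = 0
        · right; right
          have hv1 : v 1 = 0 := sh_neg _ (by rw [hu1] at h1; linear_combination h1)
          have hv0 : v 0 + algebraMap ℚ[X] (RatFunc ℚ) (C (1 / 2)) = 0 := by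
            apply sh_neg
            rw [map_add, sh_C]
            rw [hu0] at h0
            have h5 : algebraMap ℚ[X] (RatFunc ℚ) (C (1 / 2)) + algebraMap ℚ[X] (RatFunc ℚ) (C (1 / 2)) = 1 := by
              rw [← map_add, ← C_add]
              norm_num
            linear_combination h0 + h5
          have : toK5 ![C (-(1 / 2)), 0, 0, 0, 1] = v := by
            apply vec_ext
            · simp only [toK5, Matrix.cons_val_zero]
              rw [C_neg, map_neg]
              linear_combination -hv0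
            · simp [toK5, hv1]
            · simp [toK5, hv2]
            · simp [toK5, hv3]
            · simp [toK5, hv4]
          rw [this]
          exact hvW
        · exact z_e0 W _ huW h0 h1 hu2 hu3 hu4
      · exact z_eu W hst _ huW h1 hu2 hu3 hu4

/-! ## the zero estimate -/

theorem F5_smul (s : ℤ → PowerSeries ℚ) (n : ℤ) (δ : ℚ[X]) (w : Fin 5 → ℚ[X]) :
    F5 s n (fun i => δ * w i) = ((taylor (n : ℚ) δ : ℚ[X]) : PowerSeries ℚ) * F5 s n w := by
  unfold F5
  simp only [taylor_mul, Polynomial.coe_mul]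
  ring

theorem F5_sum (s : ℤ → PowerSeries ℚ) (n : ℤ) {k : ℕ} (v : Fin k → Fin 5 → ℚ[X]) :
    F5 s n (fun i => ∑ j, v j i) = ∑ j, F5 s n (v j) := by
  have hsum : ∀ f : Fin k → ℚ[X], ((∑ d, f d : ℚ[X]) : PowerSeries ℚ) =
      ∑ d, ((f d : ℚ[X]) : PowerSeries ℚ) := by
    intro f
    exact map_sum (Polynomial.coeToPowerSeries.ringHom (R := ℚ)) f Finset.univ
  unfold F5
  simp only [map_sum, hsum, Finset.mul_sum, Finset.sum_add_distrib]

/-- the values of the special vectors -/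
private theorem special_unit (s : ℤ → PowerSeries ℚ) (n : ℤ) (w : Fin 5 → ℚ[X])
    (hw : w = ![1, 0, 0, 0, 0] ∨ (∃ c : ℚ, c ≠ 0 ∧ w = ![C c, 1, 0, 0, 0]) ∨
      w = ![C (-(1 / 2)), 0, 0, 0, 1]) : IsUnit (F5 s n w) := by
  rw [PowerSeries.isUnit_iff_constantCoeff]
  rcases hw with rfl | ⟨c, hc, rfl⟩ | rfl
  · simp [F5]
  · simp [F5, hc]
  · simp only [F5, Matrix.cons_val_zero, Matrix.cons_val_one, Matrix.cons_val, taylor_C, taylor_one,
      map_zero, Polynomial.coe_C, Polynomial.coe_zero, mul_zero, add_zero, map_add, map_mul,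
      PowerSeries.constantCoeff_C]
    unfold oo
    split_ifs <;> norm_num

theorem zero_estimate (N K A : ℕ) (s : ℤ → PowerSeries ℚ)
    (hs : ∀ n : ℤ, (PowerSeries.C (n : ℚ) + PowerSeries.X) ^ 2 * s n =
      (PowerSeries.C (n : ℚ) + PowerSeries.X) ^ 2 * s (n - 2) + PowerSeries.C (n : ℚ))
    (hA : 1 ≤ A) (hAK : A ≤ K) (h1 : K + 4 * A + 28 ≤ 8 * N) (h2 : 4 * A + 26 ≤ 6 * N)
    (P : Fin 5 → ℚ[X]) (h0 : (P 0).degree < K) (hi : ∀ i, i ≠ 0 → (P i).degree < A)
    (hF : ∀ n : ℤ, |n| ≤ N → PowerSeries.X ^ 4 ∣ F5 s n P) : P = 0 := by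
  by_contra hP
  have hdeg0 : ∀ i, (P i).natDegree ≤ E5 K A i := by
    have hlt : ∀ (p : ℚ[X]) (B : ℕ), 1 ≤ B → p.degree < B → p.natDegree ≤ B - 1 := by
      intro p B hB hp
      by_cases hp0 : p = 0
      · simp [hp0]
      · have := (natDegree_lt_iff_degree_lt hp0).2 hp
        omega
    intro i
    by_cases h : i = 0
    · subst h
      exact hlt _ _ (by omega) h0
    · have h3 := hlt _ _ hA (hi i h)
      have h4 : E5 K A i = A - 1 := by
        fin_cases i <;> simp_all [E5]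
      rw [h4]
      exact h3
  set ρ : ℕ → Fin 5 → ℚ[X] := fun j => tau5^[j] P with hρ
  have hρs : ∀ j, ρ (j + 1) = tau5 (ρ j) := fun j => by
    simp only [hρ]; rw [Function.iterate_succ_apply']
  set r : ℕ → Fin 5 → RatFunc ℚ := fun j => toK5 (ρ j) with hr
  have hrs : ∀ j, r (j + 1) = xi ^ 2 • Phi5 (r j) := fun j => by
    simp only [hr]; rw [hρs j, toK5_tau]
  have hr0 : r 0 ≠ 0 := by
    intro h
    apply hP
    funext i
    have h3 := congrFun h i
    simp only [hr, hρ, toK5, Function.iterate_zero, id, Pi.zero_apply] at h3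
    exact (map_eq_zero_iff _ alg_inj).1 h3
  obtain ⟨k, hk1, hkR, hli, hdep⟩ := firstDep (K := RatFunc ℚ) r hr0
  have hcard : Module.finrank (RatFunc ℚ) (Fin 5 → RatFunc ℚ) = 5 := by simp
  rw [hcard] at hkR
  set W : Submodule (RatFunc ℚ) (Fin 5 → RatFunc ℚ) :=
    Submodule.span (RatFunc ℚ) (Set.range fun j : Fin k => r j) with hW
  have hWmem : ∀ j, j ≤ k → r j ∈ W := by
    intro j hj
    rcases Nat.lt_or_ge j k with h | h
    · exact Submodule.subset_span ⟨⟨j, h⟩, rfl⟩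
    · have : j = k := le_antisymm hj h
      rw [this]; exact hdep
  have hWne : W ≠ ⊥ := by
    intro h
    apply hr0
    have := hWmem 0 (Nat.zero_le _)
    rw [h] at this
    simpa using this
  have hst : ∀ w ∈ W, Phi5 w ∈ W := by
    intro w hw
    obtain ⟨c, rfl⟩ := (Submodule.mem_span_range_iff_exists_fun (RatFunc ℚ)).1 hw
    rw [Phi5_sum]
    refine Submodule.sum_mem _ fun j _ => Submodule.smul_mem _ _ ?_
    have h3 : Phi5 (r j) = (xi ^ 2)⁻¹ • r (j + 1) := by
      rw [hrs, smul_smul, inv_mul_cancel₀ (pow_ne_zero 2 xi_ne), one_smul]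
    rw [h3]
    exact Submodule.smul_mem _ _ (hWmem _ j.2)
  have hD : ∀ (j : Fin k) (i : Fin 5), (ρ j i).natDegree ≤ 2 * (j : ℕ) + E5 K A i := fun j i =>
    tau5_natDegree K A hAK P hdeg0 j i
  have hsumD : ∑ j : Fin k, 2 * (j : ℕ) ≤ 20 := by
    rw [Fin.sum_univ_eq_sum_range (fun j => 2 * j)]
    interval_cases k <;> decide
  -- vanishing of `δ F(w)`
  have hvan : ∀ (δ : ℚ[X]) (G : Fin k → ℚ[X]) (w : Fin 5 → ℚ[X]),
      (∀ i, δ * w i = ∑ j, G j * ρ j i) → ∀ n ∈ Finset.Icc (-(N : ℤ)) (N - 4),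
      PowerSeries.X ^ 4 ∣ ((taylor (n : ℚ) δ : ℚ[X]) : PowerSeries ℚ) * F5 s n w := by
    intro δ G w hG n hn
    rw [Finset.mem_Icc] at hn
    rw [← F5_smul]
    have h3 : (fun i => δ * w i) = (fun i => ∑ j : Fin k, (fun (j : Fin k) i => G j * ρ j i) j i) := by
      funext i; exact hG i
    rw [h3, F5_sum]
    refine Finset.dvd_sum fun j _ => ?_
    have h4 : F5 s n ((fun (j : Fin k) i => G j * ρ j i) j)
        = ((taylor (n : ℚ) (G j) : ℚ[X]) : PowerSeries ℚ) * F5 s n (ρ j) := F5_smul s n (G j) (ρ j)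
    rw [h4]
    refine Dvd.dvd.mul_left ?_ _
    refine F5_iterate s hs P (-(N : ℤ)) N 4 (fun n ha hb => hF n (abs_le.2 ⟨ha, hb⟩)) j n hn.1 ?_
    have := j.2
    omega
  have hcardS : (Finset.Icc (-(N : ℤ)) (N - 4)).card = 2 * N - 3 := by
    rw [Int.card_Icc]
    omega
  -- the first contradiction: a vector `w` with unit values
  have hunit : ∀ w : Fin 5 → ℚ[X], toK5 w ∈ W →
      (w = ![1, 0, 0, 0, 0] ∨ (∃ c : ℚ, c ≠ 0 ∧ w = ![C c, 1, 0, 0, 0]) ∨
      w = ![C (-(1 / 2)), 0, 0, 0, 1]) → False := by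
    intro w hwW hw
    obtain ⟨δ, G, hδ, hδdeg, hG⟩ := cramerE k (fun j : Fin k => ρ j) id hli
      (fun j => 2 * (j : ℕ)) (E5 K A) hD w hwW
    have hz : ∀ n ∈ Finset.Icc (-(N : ℤ)) (N - 4),
        PowerSeries.X ^ 4 ∣ ((taylor (n : ℚ) δ : ℚ[X]) : PowerSeries ℚ) := fun n hn =>
      (special_unit s n w hw).dvd_mul_right.1 (hvan δ G w hG n hn)
    have hc := countZ δ hδ _ 4 hz
    rw [hcardS] at hc
    have hE : ∑ i, E5 K A i = K - 1 + 4 * (A - 1) := by
      simp only [Fin.sum_univ_five, E5, Matrix.cons_val_zero, Matrix.cons_val_one, Matrix.cons_val]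
      ring
    omega
  rcases lemma1 W hWne hst with h3 | ⟨c, h3⟩ | h3
  · exact hunit _ h3 (Or.inl rfl)
  · by_cases hc : c = 0
    · subst hc
      by_cases he0 : toK5 ![1, 0, 0, 0, 0] ∈ W
      · exact hunit _ he0 (Or.inl rfl)
      -- the projection which forgets the coordinate `0` is injective on `W`
      have hli' : LinearIndependent (RatFunc ℚ)
          (fun j : Fin k => fun i : Fin 4 => algebraMap ℚ[X] (RatFunc ℚ) (ρ j i.succ)) := by
        rw [Fintype.linearIndependent_iff]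
        intro g hg
        have hmem : ∑ j, g j • r j ∈ W := Submodule.sum_mem _ fun j _ =>
          W.smul_mem _ (hWmem j j.2.le)
        have hsucc : ∀ i : Fin 4, (∑ j, g j • r j) i.succ = 0 := by
          intro i
          have := congrFun hg i
          simp only [Finset.sum_apply, Pi.smul_apply, Pi.zero_apply] at this ⊢
          exact this
        have hzero : ∑ j, g j • r j = 0 := by
          by_contra hne
          have h00 : (∑ j, g j • r j) 0 ≠ 0 := by
            intro h00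
            apply hne
            funext i
            refine Fin.cases h00 (fun i => ?_) i
            exact hsucc i
          apply he0
          have : toK5 ![1, 0, 0, 0, 0] = ((∑ j, g j • r j) 0)⁻¹ • (∑ j, g j • r j) := by
            funext i
            refine Fin.cases ?_ (fun i => ?_) i
            · rw [Pi.smul_apply, smul_eq_mul, inv_mul_cancel₀ h00]
              simp [toK5]
            · rw [Pi.smul_apply, smul_eq_mul, hsucc i, mul_zero]
              fin_cases i <;> simp [toK5]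
          rw [this]
          exact W.smul_mem _ hmem
        exact (Fintype.linearIndependent_iff.1 hli) g hzero
      obtain ⟨δ, G, hδ, hδdeg, hG⟩ := cramerE k (fun j : Fin k => ρ j) Fin.succ hli'
        (fun j => 2 * (j : ℕ)) (fun _ => A - 1) (fun j i => by
          have h4 := hD j i.succ
          have h5 : E5 K A i.succ = A - 1 := by fin_cases i <;> simp [E5]
          rw [h5] at h4
          exact h4) _ h3
      have hz : ∀ n ∈ Finset.Icc (-(N : ℤ)) (N - 4),
          PowerSeries.X ^ 3 ∣ ((taylor (n : ℚ) δ : ℚ[X]) : PowerSeries ℚ) := by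
        intro n hn
        have h4 := hvan δ G _ hG n hn
        have h5 : F5 s n ![C 0, 1, 0, 0, 0] = PowerSeries.X := by simp [F5]
        rw [h5, pow_succ] at h4
        exact (mul_dvd_mul_iff_right (PowerSeries.X_ne_zero (R := ℚ))).1 h4
      have hc := countZ δ hδ _ 3 hz
      rw [hcardS] at hc
      simp only [Finset.sum_const, Finset.card_univ, Fintype.card_fin, smul_eq_mul] at hδdeg
      omega
    · exact hunit _ h3 (Or.inr (Or.inl ⟨c, hc, rfl⟩))
  · exact hunit _ h3 (Or.inr (Or.inr rfl))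

end MP_a3a416_nt.SJ
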