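import Pool.Agent.Lib.MP_a3a416_nt.SJ.Defs
import Pool.Agent.Lib.MP_a3a416_nt.SJ.Zero
import Pool.Agent.Lib.MP_a3a416_nt.SJ.UnitCols

/-! # Section 1 (zero estimate), final statement. -/

open Polynomial

namespace MP_a3a416_nt.SJ

/-! ## the shift relation -/

private theorem filter_Ioc (n : ℤ) (r : ℕ) :
    ∑ b ∈ (Finset.Ioc 0 n).filter (fun b => b % 2 = n % 2), ((b : ℚ)⁻¹) ^ r =
      ∑ b ∈ (Finset.Ioc 0 (n - 2)).filter (fun b => b % 2 = (n - 2) % 2), ((b : ℚ)⁻¹) ^ r +
        if 0 < n then ((n : ℚ)⁻¹) ^ r else 0 := by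
  by_cases hn : 0 < n
  · rw [if_pos hn]
    have h : (Finset.Ioc 0 n).filter (fun b => b % 2 = n % 2) =
        insert n ((Finset.Ioc 0 (n - 2)).filter (fun b => b % 2 = (n - 2) % 2)) := by
      ext b
      simp only [Finset.mem_filter, Finset.mem_Ioc, Finset.mem_insert]
      omega
    rw [h, Finset.sum_insert (by simp), add_comm]
  · rw [if_neg hn, Finset.Ioc_eq_empty (by omega), Finset.Ioc_eq_empty (by omega)]
    simp

private theorem filter_Ioo (n : ℤ) (r : ℕ) :
    ∑ b ∈ (Finset.Ioo (n - 2) 0).filter (fun b => b % 2 = (n - 2) % 2), ((b : ℚ)⁻¹) ^ r =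
      ∑ b ∈ (Finset.Ioo n 0).filter (fun b => b % 2 = n % 2), ((b : ℚ)⁻¹) ^ r +
        if n < 0 then ((n : ℚ)⁻¹) ^ r else 0 := by
  by_cases hn : n < 0
  · rw [if_pos hn]
    have h : (Finset.Ioo (n - 2) 0).filter (fun b => b % 2 = (n - 2) % 2) =
        insert n ((Finset.Ioo n 0).filter (fun b => b % 2 = n % 2)) := by
      ext b
      simp only [Finset.mem_filter, Finset.mem_Ioo, Finset.mem_insert]
      omega
    rw [h, Finset.sum_insert (by simp), add_comm]
  · rw [if_neg hn, add_zero]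
    refine Finset.sum_congr ?_ fun _ _ => rfl
    ext b
    simp only [Finset.mem_filter, Finset.mem_Ioo]
    omega

/-- `h_r(n) - h_r(n-2) = n^{-r}` (also for `n = 0`, with `0⁻¹ = 0`) -/
theorem hs_sub (r : ℕ) (hr : r ≠ 0) (n : ℤ) : hs r n - hs r (n - 2) = ((n : ℚ)⁻¹) ^ r := by
  unfold hs
  rw [filter_Ioc n r, filter_Ioo n r]
  rcases lt_trichotomy n 0 with h | h | h
  · rw [if_neg (by omega), if_pos h]
    ring
  · subst h
    simp [hr]
  · rw [if_pos h, if_neg (by omega)]
    ring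

theorem gs_sub (c : ℚ) (n : ℤ) (j : ℕ) :
    gs c n j - gs c (n - 2) j = (-1) ^ j * ((j : ℚ) + 1) * ((n : ℚ)⁻¹) ^ (1 + j) := by
  have hpar : Even n ↔ Even (n - 2) := by
    constructor
    · intro h; exact h.sub (by decide)
    · intro h
      have := h.add (show Even (2 : ℤ) by decide)
      simpa using this
  unfold gs
  rw [← hs_sub (1 + j) (by omega) n]
  simp only [hpar]
  ring

/-- the power series `s(n)(u)` -/
noncomputable def sser (c : ℚ) (n : ℤ) : PowerSeries ℚ := PowerSeries.mk (gs c n)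

theorem sser_shift (c : ℚ) (n : ℤ) :
    (PowerSeries.C (n : ℚ) + PowerSeries.X) ^ 2 * sser c n =
      (PowerSeries.C (n : ℚ) + PowerSeries.X) ^ 2 * sser c (n - 2) + PowerSeries.C (n : ℚ) := by
  have h1 : sser c n = sser c (n - 2) +
      PowerSeries.mk (fun j => (-1) ^ j * ((j : ℚ) + 1) * ((n : ℚ)⁻¹) ^ (1 + j)) := by
    ext j
    simp only [sser, map_add, PowerSeries.coeff_mk]
    linear_combination gs_sub c n j
  rw [h1, mul_add]
  congr 1
  by_cases hn : n = 0
  · subst hn
    have h2 : (PowerSeries.mk (fun j => (-1) ^ j * ((j : ℚ) + 1) * ((((0 : ℤ) : ℚ))⁻¹) ^ (1 + j)) :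
        PowerSeries ℚ) = 0 := by
      ext j
      simp
    rw [h2]
    simp
  · have hn' : (n : ℚ) ≠ 0 := by exact_mod_cast hn
    have h2 : ((PowerSeries.C (n : ℚ) : PowerSeries ℚ) + PowerSeries.X) ^ 2 =
        PowerSeries.C ((n : ℚ) ^ 2) + PowerSeries.X * (PowerSeries.C (2 * (n : ℚ)) + PowerSeries.X) := by
      rw [map_pow, map_mul]
      have : (PowerSeries.C (2 : ℚ) : PowerSeries ℚ) = 2 := by
        rw [← map_ofNat (PowerSeries.C (R := ℚ)) 2]
      rw [this]
      ring
    rw [h2]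
    ext j
    rw [add_mul, map_add, PowerSeries.coeff_C_mul, mul_assoc, add_mul]
    rcases j with _ | j
    · rw [PowerSeries.coeff_zero_X_mul]
      simp only [PowerSeries.coeff_mk, PowerSeries.coeff_zero_C]
      norm_num
      field_simp
    · rw [PowerSeries.coeff_succ_X_mul, map_add, PowerSeries.coeff_C_mul, PowerSeries.coeff_C,
        if_neg (by omega)]
      rcases j with _ | j
      · rw [PowerSeries.coeff_zero_X_mul]
        simp only [PowerSeries.coeff_mk]
        norm_num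
        field_simp
        ring
      · rw [PowerSeries.coeff_succ_X_mul]
        simp only [PowerSeries.coeff_mk]
        have e1 : (n : ℚ) ^ 2 * ((n : ℚ)⁻¹) ^ (1 + (j + 1 + 1)) = ((n : ℚ)⁻¹) ^ (1 + j) := by
          rw [show 1 + (j + 1 + 1) = 2 + (1 + j) by ring, pow_add, ← mul_assoc, ← mul_pow,
            mul_inv_cancel₀ hn', one_pow, one_mul]
        have e2 : (n : ℚ) * ((n : ℚ)⁻¹) ^ (1 + (j + 1)) = ((n : ℚ)⁻¹) ^ (1 + j) := by
          rw [show 1 + (j + 1) = 1 + (1 + j) by ring, pow_add, ← mul_assoc, pow_one,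
            mul_inv_cancel₀ hn', one_mul]
        push_cast
        linear_combination ((-1) ^ j * ((j : ℚ) + 3)) * e1 - (2 * (-1) ^ j * ((j : ℚ) + 2)) * e2

/-! ## the zero estimate without `1 ≤ A` -/

theorem zero_estimate' (N K A : ℕ) (s : ℤ → PowerSeries ℚ)
    (hs : ∀ n : ℤ, (PowerSeries.C (n : ℚ) + PowerSeries.X) ^ 2 * s n =
      (PowerSeries.C (n : ℚ) + PowerSeries.X) ^ 2 * s (n - 2) + PowerSeries.C (n : ℚ))
    (hAK : A ≤ K) (h1 : K + 4 * A + 28 ≤ 8 * N) (h2 : 4 * A + 26 ≤ 6 * N)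
    (P : Fin 5 → ℚ[X]) (h0 : (P 0).degree < K) (hi : ∀ i, i ≠ 0 → (P i).degree < A)
    (hF : ∀ n : ℤ, |n| ≤ N → PowerSeries.X ^ 4 ∣ F5 s n P) : P = 0 := by
  rcases Nat.eq_zero_or_pos A with hA | hA
  · subst hA
    have hz : ∀ i, i ≠ 0 → P i = 0 := by
      intro i hi0
      have := hi i hi0
      by_contra hne
      rw [degree_eq_natDegree hne] at this
      norm_cast at this
    have hP0 : P 0 = 0 := by
      by_contra hne
      have h3 := countZ (P 0) hne (Finset.Icc (-(N : ℤ)) N) 4 (by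
        intro n hn
        rw [Finset.mem_Icc] at hn
        have h4 := hF n (abs_le.2 hn)
        simp only [F5, hz 1 (by decide), hz 2 (by decide), hz 3 (by decide), hz 4 (by decide), map_zero,
          Polynomial.coe_zero, mul_zero, add_zero] at h4
        exact h4)
      rw [Int.card_Icc] at h3
      have h5 := (natDegree_lt_iff_degree_lt hne).2 h0
      omega
    funext i
    by_cases h : i = 0
    · rw [h]; exact hP0
    · exact hz i h
  · exact zero_estimate N K A s hs hA hAK h1 h2 P h0 hi hF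

/-! ## the columns of `V` are independent -/

theorem gser_z (c : ℚ) (n : ℤ) : gser c .z n = 1 := by
  ext j
  simp [gser, gj, PowerSeries.coeff_one]

theorem gser_u (c : ℚ) (n : ℤ) : gser c .u n = PowerSeries.X := by
  ext j
  simp [gser, gj, PowerSeries.coeff_X]

theorem gser_o (c : ℚ) (n : ℤ) : gser c .o n = PowerSeries.C (oo n) := by
  ext j
  simp only [gser, gj, PowerSeries.coeff_mk, PowerSeries.coeff_C, oo]
  by_cases hj : j = 0 <;> by_cases hn : Odd n <;> simp [hj, hn]

theorem J_sum_ze (c : ℚ) (β : Blk) {M : ℕ} (g : Fin M → ℚ) (n : ℤ) (k : ℕ) :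
    J c β (∑ i, C (g i) * X ^ (i : ℕ)) n k = ∑ i, g i * J c β (X ^ (i : ℕ)) n k := by
  have hsum : ∀ f : Fin M → ℚ[X], ((∑ d, f d : ℚ[X]) : PowerSeries ℚ) =
      ∑ d, ((f d : ℚ[X]) : PowerSeries ℚ) := by
    intro f
    exact map_sum (Polynomial.coeToPowerSeries.ringHom (R := ℚ)) f Finset.univ
  unfold J
  rw [map_sum, hsum, Finset.sum_mul, map_sum]
  refine Finset.sum_congr rfl fun i _ => ?_
  rw [taylor_mul, taylor_C, Polynomial.coe_mul, Polynomial.coe_C, mul_assoc, PowerSeries.coeff_C_mul]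

theorem cols_independent (c : ℚ) {N K A : ℕ}
    (hA : A ≤ K) (h1 : K + 4 * A + 28 ≤ 8 * N) (h2 : 4 * A + 26 ≤ 6 * N) :
    LinearIndependent ℚ (fun (y : Col K A) (r : Row N) => J c y.1 (X ^ (y.2 : ℕ)) (node r) r.2) := by
  rw [Fintype.linearIndependent_iff]
  intro g hg
  -- the polynomials
  set Q : Blk → ℚ[X] := fun β => ∑ i : Fin (len K A β), C (g ⟨β, i⟩) * X ^ (i : ℕ) with hQ
  have hQdeg : ∀ β, (Q β).degree < (len K A β : ℕ) := by
    intro β
    simp only [hQ]
    refine lt_of_le_of_lt (degree_sum_le _ _) ?_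
    rw [Finset.sup_lt_iff (by exact WithBot.bot_lt_coe _)]
    intro i _
    refine lt_of_le_of_lt (degree_C_mul_X_pow_le _ _) ?_
    exact_mod_cast i.2
  have hrow : ∀ (n : ℤ), |n| ≤ N → ∀ k : ℕ, k < 4 → ∑ β, J c β (Q β) n k = 0 := by
    intro n hn k hk
    rw [abs_le] at hn
    have h3 := congrFun hg (⟨(n + N).toNat, by omega⟩, ⟨k, hk⟩)
    simp only [Finset.sum_apply, Pi.smul_apply, smul_eq_mul, Pi.zero_apply] at h3
    have hnode : node ((⟨(n + N).toNat, by omega⟩, ⟨k, hk⟩) : Row N) = n := by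
      simp only [node]
      omega
    rw [hnode, Fintype.sum_sigma] at h3
    rw [← h3]
    refine Finset.sum_congr rfl fun β _ => ?_
    simp only [hQ]
    rw [J_sum_ze]
  -- the vector
  set P : Fin 5 → ℚ[X] := ![Q .z, Q .u, Q .s, Q .t, Q .o] with hP
  have hF5 : ∀ n : ℤ, F5 (sser c) n P = ∑ β, ((taylor (n : ℚ) (Q β) : ℚ[X]) : PowerSeries ℚ) *
      gser c β n := by
    intro n
    rw [sum_blk, gser_z, gser_u, gser_o]
    have hs : gser c .s n = sser c n := rfl
    have ht : gser c .t n = sser c (n - 1) := rfl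
    rw [hs, ht]
    simp only [F5, hP, Matrix.cons_val_zero, Matrix.cons_val_one, Matrix.cons_val]
    ring
  have hPz : P = 0 := by
    refine zero_estimate' N K A (sser c) (sser_shift c) hA h1 h2 P ?_ ?_ ?_
    · have := hQdeg .z
      simpa [hP, len] using this
    · intro i hi
      have hu := hQdeg .u
      have hs := hQdeg .s
      have ht := hQdeg .t
      have ho := hQdeg .o
      simp only [len] at hu hs ht ho
      fin_cases i
      · exact absurd rfl hi
      · exact hu
      · exact hs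
      · exact ht
      · exact ho
    · intro n hn
      rw [PowerSeries.X_pow_dvd_iff]
      intro k hk
      rw [hF5, map_sum]
      exact hrow n hn k hk
  have hQz : ∀ β, Q β = 0 := by
    intro β
    cases β
    · exact congrFun hPz 0
    · exact congrFun hPz 1
    · exact congrFun hPz 2
    · exact congrFun hPz 3
    · exact congrFun hPz 4
  rintro ⟨β, i⟩
  have h4 := congrArg (fun q : ℚ[X] => q.coeff i) (hQz β)
  simp only [hQ, finsetSum_coeff, coeff_C_mul, coeff_X_pow, coeff_zero] at h4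
  rw [Finset.sum_eq_single i] at h4
  · simpa using h4
  · intro b _ hb
    rw [if_neg (fun h => hb (Fin.ext h.symm)), mul_zero]
  · intro h
    exact absurd (Finset.mem_univ i) h

theorem exists_rows (c : ℚ) {N K A c0 : ℕ} (hR : K + 4 * A + c0 = 4 * (2 * N + 1))
    (hA : A ≤ K) (h1 : K + 4 * A + 28 ≤ 8 * N) (h2 : 4 * A + 26 ≤ 6 * N) :
    ∃ (rr : Fin c0 → Row N) (e : (Col K A ⊕ Fin c0) ≃ Row N), sdet e (Vh c K A rr) ≠ 0 := by
  obtain ⟨rr, -, hrr⟩ := exists_unit_columns (I := Row N) (K := Col K A) (c0 := c0)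
    (by rw [card_row, card_col, ← hR]) (fun r y => J c y.1 (X ^ (y.2 : ℕ)) (node r) r.2)
    (cols_independent c hA h1 h2)
  have hcard : Fintype.card (Col K A ⊕ Fin c0) = Fintype.card (Row N) := by
    rw [Fintype.card_sum, card_col, card_row, Fintype.card_fin, hR]
  let e : (Col K A ⊕ Fin c0) ≃ Row N := Fintype.equivOfCardEq hcard
  refine ⟨rr, e, ?_⟩
  have h3 := hrr e
  have h4 : sdet e (Vh c K A rr) = ((Vh c K A rr).submatrix id e.symm).det := by
    unfold sdet
    rw [← Matrix.det_submatrix_equiv_self e ((Vh c K A rr).submatrix id e.symm),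
      Matrix.submatrix_submatrix]
    congr 2
    funext x
    simp
  rw [h4]
  exact h3

end MP_a3a416_nt.SJ
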